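import Mathlib
import Pool.Agent.W546.GHC.Defs

/-!
# The cohomology of the product of a complex torus and a variety, sub-Hodge structures and coniveau

A complex torus `A` is given by its rational homology `W`, its tangent space `T` and the inclusion
`per : W → T`. The rational cohomology of a smooth projective variety `Z` is `ℚ^v` with its Hodge
operator. By the Künneth formula the cohomology of `A × Z` is the sum over `k` of the spaces of
alternating forms of degree `k` on `W` with values in the cohomology of `Z`.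
-/

set_option autoImplicit false

namespace Pool.Agent.TH131.GHC

open Matrix Pool.Agent.H204R3.CM Pool.Agent.W546.GHC

noncomputable section

/-- The rational cohomology `ℚ^v` of a smooth projective variety `Z`: the basis vector `b` has
degree `dg b`, and the Hodge operator `z` is multiplication by `p - q` on `H^(p, q)(Z)`. -/
structure Coh (v : ℕ) where
  /-- the degrees -/
  dg : Fin v → ℕ
  /-- the Hodge operator -/
  z : Matrix (Fin v) (Fin v) ℂ
  graded : ∀ b b', dg b ≠ dg b' → z b b' = 0
  real : z.map (starRingEnd ℂ) = -z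
  decomp : ∀ x : Fin v → ℂ, x ∈ Submodule.span ℂ {y | ∃ k : ℤ, z *ᵥ y = (k : ℂ) • y}

/-- A rational vector as a complex vector. -/
def cv {v : ℕ} (x : Fin v → ℚ) : Fin v → ℂ := fun b => (x b : ℂ)

/-- `F` is a sub-Hodge structure of level at most `L` of the cohomology of `Z`: its complexification
is spanned by eigenvectors of the Hodge operator in it with eigenvalues of absolute value at most
`L`. -/
def SubZ {v : ℕ} (V : Coh v) (L : ℤ) (F : Submodule ℚ (Fin v → ℚ)) : Prop :=
  ∀ x ∈ F, cv x ∈ Submodule.span ℂ {y | y ∈ Submodule.span ℂ (cv '' (F : Set (Fin v → ℚ))) ∧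
    ∃ n : ℤ, |n| ≤ L ∧ V.z *ᵥ y = (n : ℂ) • y}

/-- The generalized Hodge conjecture for `Z`, for the coniveau filtration `N`: every sub-Hodge
structure of `H^e(Z)` of level at most `e - 2 j` is contained in `N j`. -/
def GHCZ {v : ℕ} (V : Coh v) (N : ℕ → Submodule ℚ (Fin v → ℚ)) : Prop :=
  N 0 = ⊤ ∧ ∀ (e j : ℕ) (F : Submodule ℚ (Fin v → ℚ)),
    (∀ x ∈ F, ∀ b, x b ≠ 0 → V.dg b = e) → SubZ V ((e : ℤ) - 2 * j) F → F ≤ N j

variable {W T : Type*} [AddCommGroup W] [Module ℚ W] [AddCommGroup T] [Module ℂ T]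
  (per : W →+ T) {v : ℕ}

/-- The rational cohomology of `A × Z`: the component `t k` is an element of
`H^k(A) ⊗ H(Z)`, a form of degree `k` on `W` with values in `H(Z)`. -/
abbrev HAZ (W : Type*) [AddCommGroup W] [Module ℚ W] (v : ℕ) : Type _ :=
  ∀ k : ℕ, W [⋀^Fin k]→ₗ[ℚ] (Fin v → ℚ)

/-- The complex cohomology of `A × Z`. -/
abbrev HAZC (T : Type*) [AddCommGroup T] [Module ℂ T] (v : ℕ) : Type _ :=
  ∀ k : ℕ, T [⋀^Fin k]→ₗ[ℝ] (Fin v → ℂ)

/-- The complex class `Φ` is the class `t`. -/
def Extends (t : HAZ W v) (Φ : HAZC T v) : Prop :=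
  ∀ (k : ℕ) (w : Fin k → W), Φ k (fun l => per (w l)) = cv (t k w)

/-- The complexification of a space of rational classes. -/
def cplx (S : Submodule ℚ (HAZ W v)) : Submodule ℂ (HAZC T v) :=
  Submodule.span ℂ {Φ | ∃ t ∈ S, Extends per t Φ}

/-- The class `Φ` is a sum of classes of types `(p, q)` with `p - q = n`: it is an eigenvector of
the Hodge operator with eigenvalue `n`. -/
def HasType (V : Coh v) (n : ℤ) (Φ : HAZC T v) : Prop :=
  ∀ (k : ℕ) (u : Fin k → T),
    (-Complex.I) • ∑ l, Φ k (Function.update u l (Complex.I • u l)) + V.z *ᵥ Φ k u =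
      (n : ℂ) • Φ k u

/-- The space `C` is spanned by its elements with the property `P`. -/
def SpannedBy {M : Type*} [AddCommGroup M] [Module ℂ M] (C : Submodule ℂ M) (P : M → Prop) :
    Prop :=
  C ≤ Submodule.span ℂ {x | x ∈ C ∧ P x}

/-- `S` is a sub-Hodge structure of the cohomology of `A × Z` of level at most `L`: its
complexification is spanned by classes in it of types `(p, q)` with `p - q = n`, `|n| ≤ L`. -/
def SubHS (V : Coh v) (L : ℤ) (S : Submodule ℚ (HAZ W v)) : Prop :=
  SpannedBy (cplx per S) fun Φ => ∃ n : ℤ, |n| ≤ L ∧ HasType V n Φ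

/-- The class `t` is in the cohomology of degree `i` of `A × Z`. -/
def InDegree (V : Coh v) (i : ℕ) (t : HAZ W v) : Prop :=
  ∀ (k : ℕ) (w : Fin k → W) (b : Fin v), t k w b ≠ 0 → k + V.dg b = i

/-- `S` is a sub-Hodge structure of `H^i(A × Z)` of level at most `i - 2 j`. -/
def SubHSIn (V : Coh v) (i j : ℕ) (S : Submodule ℚ (HAZ W v)) : Prop :=
  (∀ t ∈ S, InDegree V i t) ∧ SubHS per V ((i : ℤ) - 2 * j) S

/-- The product of the class `f` on `A` and the class `x` on `Z`. -/
def cross {k : ℕ} (f : W [⋀^Fin k]→ₗ[ℚ] ℚ) (x : Fin v → ℚ) : HAZ W v :=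
  Pi.single k ((LinearMap.toSpanSingleton ℚ (Fin v → ℚ) x).compAlternatingMap f)

/-- The span of the products `B_1 ∧ ... ∧ B_r ∧ η ⊗ x` with divisor classes `B_s` on `A`, a class
`η` on `A` and a class `x` in `N j'` on `Z`, where `r + j' ≥ j`. -/
def divConiveau (N : ℕ → Submodule ℚ (Fin v → ℚ)) (j : ℕ) : Submodule ℚ (HAZ W v) :=
  Submodule.span ℚ {t | ∃ (k r j' : ℕ) (f : W [⋀^Fin k]→ₗ[ℚ] ℚ) (x : Fin v → ℚ),
    f ∈ divisorProducts per k r ∧ x ∈ N j' ∧ j ≤ r + j' ∧ t = cross f x}

/-- The generalized Hodge conjecture for `A × Z`, by divisor classes on `A` and the coniveau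
filtration `N` of `Z`: every sub-Hodge structure `S` of `H^i(A × Z)` of level at most `i - 2 j` is
contained in the span of the products of divisor classes and classes in `N`, of total coniveau at
least `j`. -/
def GHCProduct (V : Coh v) (N : ℕ → Submodule ℚ (Fin v → ℚ)) : Prop :=
  ∀ (i j : ℕ) (S : Submodule ℚ (HAZ W v)), SubHSIn per V i j S → S ≤ divConiveau per N j

end

end Pool.Agent.TH131.GHC
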