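import Mathlib
import Pool.Agent.H204R3.SP.FFT

/-!
# Functions on words which vanish on tuples of few vectors

The second fundamental theorem of invariant theory in multilinear form: a multilinear form which
vanishes on all tuples of vectors with few different entries is a sum of forms which are
antisymmetric in many variables.
-/

set_option linter.unusedSectionVars false

namespace Pool.Agent.TH131.GHC

open Equiv Pool.Agent.H204R3.SP

noncomputable section

variable {κ R Q Γ : Type*} [Fintype κ] [DecidableEq κ] [Fintype R] [DecidableEq R]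
  [DecidableEq Q] [Fintype Γ] [DecidableEq Γ] {K : Type*} [Field K] [CharZero K]

/-- The lexicographic order on words given by numberings of the positions and letters. -/
def Lx (a : κ → ℕ) (b : R → ℕ) (w' w : κ → R) : Prop :=
  ∃ k, (∀ l, a l < a k → w' l = w l) ∧ b (w' k) < b (w k)

theorem Lx_irrefl (a : κ → ℕ) (b : R → ℕ) (w : κ → R) : ¬Lx a b w w := by
  rintro ⟨k, _, h⟩
  exact lt_irrefl _ h

theorem Lx_trans {a : κ → ℕ} (ha : Function.Injective a) {b : R → ℕ} {u v w : κ → R}
    (h1 : Lx a b u v) (h2 : Lx a b v w) : Lx a b u w := by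
  obtain ⟨k, hk, hk'⟩ := h1
  obtain ⟨l, hl, hl'⟩ := h2
  rcases lt_trichotomy (a k) (a l) with h | h | h
  · refine ⟨k, fun m hm => (hk m hm).trans (hl m (hm.trans h)), ?_⟩
    rw [← hl k h]
    exact hk'
  · have h' := ha h
    subst h'
    exact ⟨k, fun m hm => (hk m hm).trans (hl m hm), hk'.trans hl'⟩
  · refine ⟨l, fun m hm => (hk m (hm.trans h)).trans (hl m hm), ?_⟩
    rw [hk l h]
    exact hl'

/-- The functions supported on the words with given classes which are antisymmetric in a set of
more than `h q` positions of the class `q`. -/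
def AntiSet (K : Type*) [Field K] (cls : R → Q) (qw : κ → Q) (h : Q → ℕ) :
    Set ((κ → R) → K) :=
  {G | ∃ (q : Q) (A : Finset κ), A.card = h q + 1 ∧ (∀ k ∈ A, qw k = q) ∧
    (∀ X, G X ≠ 0 → ∀ k, cls (X k) = qw k) ∧
    ∀ p ∈ A, ∀ p' ∈ A, p ≠ p' → ∀ X : κ → R, G (fun k => X (swap p p' k)) = -G X}

/-- A word with a long decreasing sequence of letters in one class. -/
def Bad (a : κ → ℕ) (b : R → ℕ) (qw : κ → Q) (h : Q → ℕ) (w : κ → R) : Prop :=
  ∃ (q : Q) (A : Finset κ), A.card = h q + 1 ∧ (∀ k ∈ A, qw k = q) ∧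
    ∀ k ∈ A, ∀ l ∈ A, a k < a l → b (w l) < b (w k)

theorem Lx_perm {a : κ → ℕ} (ha : Function.Injective a) {b : R → ℕ} {w : κ → R} {A : Finset κ}
    (hA : ∀ k ∈ A, ∀ l ∈ A, a k < a l → b (w l) < b (w k)) {τ : Perm κ} (hτ : τ ∈ permsOf A)
    (h1 : τ ≠ 1) : Lx a b (fun k => w (τ k)) w := by
  rw [mem_permsOf] at hτ
  have hne : (Finset.univ.filter fun k => τ k ≠ k).Nonempty := by
    by_contra hcon
    apply h1
    ext k
    by_contra hk
    exact hcon ⟨k, Finset.mem_filter.2 ⟨Finset.mem_univ _, hk⟩⟩
  obtain ⟨k0, hk0, hmin⟩ := Finset.exists_min_image _ a hne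
  rw [Finset.mem_filter] at hk0
  have hfix : ∀ l, a l < a k0 → τ l = l := by
    intro l hl
    by_contra h2
    exact absurd (hmin l (Finset.mem_filter.2 ⟨Finset.mem_univ _, h2⟩)) (not_le.2 hl)
  have hkA : k0 ∈ A := by
    by_contra h2
    exact hk0.2 (hτ k0 h2)
  have hne2 : τ (τ k0) ≠ τ k0 := fun h2 => hk0.2 (τ.injective h2)
  have hτA : τ k0 ∈ A := by
    by_contra h2
    exact hne2 (hτ _ h2)
  refine ⟨k0, fun l hl => congrArg w (hfix l hl), hA _ hkA _ hτA ?_⟩
  rcases lt_trichotomy (a k0) (a (τ k0)) with h | h | h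
  · exact h
  · exact absurd (ha h).symm hk0.2
  · exact absurd (hfix _ h) hne2

theorem pact_single (σ : Perm κ) (w : κ → R) :
    pact (Ω := K) (R := R) κ σ (Pi.single w 1) = Pi.single (fun k => w (σ⁻¹ k)) 1 := by
  funext I
  rw [pact_apply]
  by_cases h : I = fun k => w (σ⁻¹ k)
  · have h2 : (fun k => I (σ k)) = w := by
      funext k
      rw [h]
      exact congrArg w (σ.symm_apply_apply k)
    rw [h2, h, Pi.single_eq_same, Pi.single_eq_same]
  · rw [Pi.single_eq_of_ne h, Pi.single_eq_of_ne]
    intro h2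
    apply h
    funext k
    rw [← h2]
    exact congrArg I (σ.apply_symm_apply k).symm

theorem one_mem_permsOf (A : Finset κ) : (1 : Perm κ) ∈ permsOf A := by
  rw [mem_permsOf]
  exact fun _ _ => rfl

theorem inv_mem_permsOf {A : Finset κ} {σ : Perm κ} (h : σ ∈ permsOf A) : σ⁻¹ ∈ permsOf A := by
  rw [mem_permsOf] at h ⊢
  intro k hk
  rw [Perm.inv_eq_iff_eq, h k hk]

theorem permsOf_mem {A : Finset κ} {σ : Perm κ} (h : σ ∈ permsOf A) {k : κ} (hk : k ∈ A) :
    σ k ∈ A := by
  rw [mem_permsOf] at h
  by_contra h2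
  exact h2 (by rw [σ.injective (h _ h2)]; exact hk)

/-- Straightening. -/
theorem straighten {a : κ → ℕ} (ha : Function.Injective a) (b : R → ℕ) (cls : R → Q)
    (qw : κ → Q) (h : Q → ℕ) (w : κ → R) (hw : ∀ k, cls (w k) = qw k) :
    (Pi.single w 1 : (κ → R) → K) ∈ Submodule.span K (AntiSet K cls qw h) ⊔
      Submodule.span K {G | ∃ w' : κ → R, ¬Bad a b qw h w' ∧ (∀ k, cls (w' k) = qw k) ∧
        G = Pi.single w' 1} := by
  have : IsTrans (κ → R) (Lx a b) := ⟨fun _ _ _ => Lx_trans ha⟩
  have : Std.Irrefl (Lx a b : (κ → R) → (κ → R) → Prop) := ⟨Lx_irrefl a b⟩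
  have hwf : WellFounded (Lx a b : (κ → R) → (κ → R) → Prop) :=
    Finite.wellFounded_of_trans_of_irrefl _
  induction w using hwf.induction with
  | _ w ih =>
    by_cases hb : Bad a b qw h w
    · obtain ⟨q, A, hA1, hA2, hA3⟩ := hb
      have h1 : anti (pact (Ω := K) (R := R) κ) A (Pi.single w 1) ∈
          Submodule.span K (AntiSet K cls qw h) := by
        refine Submodule.subset_span ⟨q, A, hA1, hA2, ?_, ?_⟩
        · intro X hX k
          by_contra hk
          apply hX
          unfold anti
          rw [Finset.sum_apply]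
          refine Finset.sum_eq_zero fun σ hσ => ?_
          rw [Pi.smul_apply, pact_single, Pi.single_eq_of_ne, smul_zero]
          rintro rfl
          apply hk
          change cls (w (σ⁻¹ k)) = qw k
          have hσ' := inv_mem_permsOf hσ
          by_cases hkA : k ∈ A
          · rw [hw, hA2 _ (permsOf_mem hσ' hkA), hA2 _ hkA]
          · rw [(mem_permsOf.1 hσ') k hkA, hw]
        · intro p hp p' hp' hne X
          have h2 := congrFun (anti_swap (pact (Ω := K) (R := R) κ) A (Pi.single w 1) hp hp' hne) X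
          exact h2
      have h2 : (Pi.single w 1 : (κ → R) → K) = anti (pact (Ω := K) (R := R) κ) A (Pi.single w 1) -
          ∑ σ ∈ (permsOf A).erase 1, ((Perm.sign σ : ℤ) : K) •
            (Pi.single (fun k => w (σ⁻¹ k)) 1 : (κ → R) → K) := by
        unfold anti
        rw [← Finset.add_sum_erase _ _ (one_mem_permsOf A)]
        simp only [pact_single]
        rw [Perm.sign_one, Units.val_one, Int.cast_one, one_smul, add_sub_cancel_right]
        rfl
      rw [h2]
      refine Submodule.sub_mem _ (Submodule.mem_sup_left h1) (Submodule.sum_mem _ fun σ hσ => ?_)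
      rw [Finset.mem_erase] at hσ
      refine Submodule.smul_mem _ _ (ih _ (Lx_perm ha hA3 (inv_mem_permsOf hσ.2) ?_) ?_)
      · intro h3
        exact hσ.1 (inv_eq_one.1 h3)
      · intro k
        have hσ' := inv_mem_permsOf hσ.2
        by_cases hkA : k ∈ A
        · rw [hw, hA2 _ (permsOf_mem hσ' hkA), hA2 _ hkA]
        · rw [(mem_permsOf.1 hσ') k hkA, hw]
    · exact Submodule.mem_sup_right (Submodule.subset_span ⟨w, hb, hw, rfl⟩)

/-- The function vanishes on all tuples of vectors with at most one vector for each colour. -/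
def Van (gcl : Γ → Q) (qw : κ → Q) (F : (κ → R) → K) : Prop :=
  ∀ c : κ → Γ, (∀ k, gcl (c k) = qw k) → ∀ Y : Γ → R → K, ∑ X, F X * ∏ k, Y (c k) (X k) = 0

theorem van_anti {cls : R → Q} {gcl : Γ → Q} {qw : κ → Q} {F : (κ → R) → K}
    (hF : F ∈ Submodule.span K (AntiSet K cls qw fun q => Fintype.card {γ // gcl γ = q})) :
    Van gcl qw F := by
  intro c hc Y
  induction hF using Submodule.span_induction with
  | zero => simp
  | add x y _ _ hx hy =>
    simp only [Pi.add_apply, add_mul, Finset.sum_add_distrib, hx, hy, add_zero]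
  | smul r x _ hx =>
    simp only [Pi.smul_apply, smul_eq_mul, mul_assoc]
    rw [← Finset.mul_sum, hx, mul_zero]
  | mem G hG =>
    obtain ⟨q, A, hA1, hA2, -, hA3⟩ := hG
    -- two positions with the same colour
    obtain ⟨p, hp, p', hp', hne, heq⟩ : ∃ p ∈ A, ∃ p' ∈ A, p ≠ p' ∧ c p = c p' := by
      by_contra hcon
      push Not at hcon
      have h1 : (A.image c).card = A.card := by
        refine Finset.card_image_of_injOn fun x hx y hy hxy => ?_
        by_contra hne
        exact hcon x hx y hy hne hxy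
      have h2 : (A.image c) ⊆ Finset.univ.filter (fun γ => gcl γ = q) := by
        intro γ hγ
        obtain ⟨k, hk, rfl⟩ := Finset.mem_image.1 hγ
        exact Finset.mem_filter.2 ⟨Finset.mem_univ _, by rw [hc, hA2 k hk]⟩
      have h3 := Finset.card_le_card h2
      rw [h1, hA1, ← Fintype.card_subtype] at h3
      exact absurd h3 (by simp)
    have h1 : ∑ X : κ → R, G X * ∏ k, Y (c k) (X k) =
        -∑ X : κ → R, G X * ∏ k, Y (c k) (X k) := by
      rw [← Finset.sum_neg_distrib]
      refine Fintype.sum_equiv (Equiv.arrowCongr (swap p p') (Equiv.refl R)) _ _ fun X => ?_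
      have h2 : (Equiv.arrowCongr (swap p p') (Equiv.refl R)) X = fun k => X (swap p p' k) := by
        funext k
        simp [Equiv.arrowCongr]
      rw [h2, hA3 p hp p' hp' hne X, neg_mul, neg_neg]
      congr 1
      rw [← Equiv.prod_comp (swap p p')]
      refine Finset.prod_congr rfl fun k _ => ?_
      have h3 : c (swap p p' k) = c k := by
        by_cases h4 : k = p
        · subst h4
          rw [swap_apply_left, heq]
        · by_cases h5 : k = p'
          · subst h5
            rw [swap_apply_right, heq]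
          · rw [swap_apply_of_ne_of_ne h4 h5]
      rw [h3]
    have h2 : (2 : K) * ∑ X : κ → R, G X * ∏ k, Y (c k) (X k) = 0 := by linear_combination h1
    exact (mul_eq_zero.1 h2).resolve_left two_ne_zero

/-- The monomial of a word. -/
def mon (c : κ → Γ) (X : κ → R) : (Γ × R) →₀ ℕ := ∑ k, Finsupp.single (c k, X k) 1

theorem mon_apply (c : κ → Γ) (X : κ → R) (γ : Γ) (r : R) :
    mon c X (γ, r) = (Finset.univ.filter fun k => c k = γ ∧ X k = r).card := by
  unfold mon
  rw [Finsupp.finsetSum_apply, Finset.card_filter]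
  refine Finset.sum_congr rfl fun k _ => ?_
  rw [Finsupp.single_apply]
  simp only [Prod.mk.injEq]

/-- The leading word. -/
theorem leading {a : κ → ℕ} (ha : Function.Injective a) {b : R → ℕ} (hb : Function.Injective b)
    (gcl : Γ → Q) (qw : κ → Q) (F : (κ → R) → K)
    (hF : ∀ X, F X ≠ 0 → ¬Bad a b qw (fun q => Fintype.card {γ // gcl γ = q}) X)
    (hV : Van gcl qw F) : F = 0 := by
  by_contra hF0
  have : IsTrans (κ → R) (Function.swap (Lx a b)) := ⟨fun _ _ _ h1 h2 => Lx_trans ha h2 h1⟩
  have : Std.Irrefl (Function.swap (Lx a b) : (κ → R) → (κ → R) → Prop) := ⟨Lx_irrefl a b⟩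
  have hwf : WellFounded (Function.swap (Lx a b) : (κ → R) → (κ → R) → Prop) :=
    Finite.wellFounded_of_trans_of_irrefl _
  obtain ⟨w, hw, hmax⟩ := hwf.has_min {X | F X ≠ 0} (by
    by_contra h1
    rw [Set.not_nonempty_iff_eq_empty] at h1
    apply hF0
    funext X
    by_contra h2
    have h3 : X ∈ {X | F X ≠ 0} := h2
    rw [h1] at h3
    exact h3)
  have hgood := hF w hw
  -- the chains
  let ch : κ → Finset (Finset κ) := fun k => Finset.univ.filter fun A =>
    k ∈ A ∧ (∀ l ∈ A, qw l = qw k) ∧ (∀ l ∈ A, a l ≤ a k) ∧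
      ∀ l ∈ A, ∀ l' ∈ A, a l < a l' → b (w l') < b (w l)
  have hch : ∀ k A, A ∈ ch k ↔ (k ∈ A ∧ (∀ l ∈ A, qw l = qw k) ∧ (∀ l ∈ A, a l ≤ a k) ∧
      ∀ l ∈ A, ∀ l' ∈ A, a l < a l' → b (w l') < b (w l)) := by
    intro k A
    simp only [ch, Finset.mem_filter, Finset.mem_univ, true_and]
  have hsing : ∀ k, {k} ∈ ch k := by
    intro k
    rw [hch]
    refine ⟨Finset.mem_singleton_self k, ?_, ?_, ?_⟩
    · intro l hl
      rw [Finset.mem_singleton.1 hl]
    · intro l hl
      rw [Finset.mem_singleton.1 hl]
    · intro l hl l' hl' hll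
      rw [Finset.mem_singleton.1 hl, Finset.mem_singleton.1 hl'] at hll
      exact absurd hll (lt_irrefl _)
  let f : κ → ℕ := fun k => (ch k).sup Finset.card
  have hf1 : ∀ k, 1 ≤ f k := fun k => by
    have := Finset.le_sup (f := Finset.card) (hsing k)
    rwa [Finset.card_singleton] at this
  have hf2 : ∀ k, f k ≤ Fintype.card {γ // gcl γ = qw k} := by
    intro k
    refine Finset.sup_le fun A hA => ?_
    by_contra hlt
    push Not at hlt
    obtain ⟨A', hA', hc⟩ := Finset.exists_subset_card_eq (Nat.succ_le_of_lt hlt)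
    rw [hch] at hA
    exact hgood ⟨qw k, A', hc, fun l hl => hA.2.1 l (hA' hl), fun l hl l' hl' =>
      hA.2.2.2 l (hA' hl) l' (hA' hl')⟩
  have hf3 : ∀ k k', qw k' = qw k → a k' < a k → b (w k) < b (w k') → f k' < f k := by
    intro k k' hq hak hbk
    obtain ⟨A, hA, hAc⟩ := Finset.exists_mem_eq_sup (ch k') ⟨_, hsing k'⟩ Finset.card
    have hA' := (hch k' A).1 hA
    have hkA : k ∉ A := fun h => absurd (hA'.2.2.1 k h) (not_le.2 hak)
    have hins : insert k A ∈ ch k := by
      rw [hch]
      refine ⟨Finset.mem_insert_self _ _, ?_, ?_, ?_⟩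
      · intro l hl
        rcases Finset.mem_insert.1 hl with rfl | hl
        · rfl
        · rw [hA'.2.1 l hl, hq]
      · intro l hl
        rcases Finset.mem_insert.1 hl with rfl | hl
        · exact le_rfl
        · exact (hA'.2.2.1 l hl).trans hak.le
      · intro l hl l' hl' hll
        rcases Finset.mem_insert.1 hl with h5 | h5
        · rcases Finset.mem_insert.1 hl' with h6 | h6
          · rw [h5, h6] at hll
            exact absurd hll (lt_irrefl _)
          · rw [h5] at hll
            exact absurd (hll.trans_le (hA'.2.2.1 l' h6)) (not_lt.2 hak.le)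
        · rcases Finset.mem_insert.1 hl' with h6 | h6
          · rw [h6]
            rcases (hA'.2.2.1 l h5).lt_or_eq with h1 | h1
            · exact hbk.trans (hA'.2.2.2 l h5 k' hA'.1 h1)
            · rw [ha h1]
              exact hbk
          · exact hA'.2.2.2 l h5 l' h6 hll
    have h1 := Finset.le_sup (f := Finset.card) hins
    rw [Finset.card_insert_of_notMem hkA] at h1
    have h2 : f k' = A.card := hAc
    have h3 : A.card + 1 ≤ f k := h1
    omega
  -- the colours
  let e : ∀ q, Fin (Fintype.card {γ // gcl γ = q}) ≃ {γ // gcl γ = q} := fun q =>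
    (Fintype.equivFin _).symm
  let c : κ → Γ := fun k => (e (qw k) ⟨f k - 1, by
    have h1 := hf1 k
    have h2 := hf2 k
    omega⟩).1
  have hc : ∀ k, gcl (c k) = qw k := fun k => (e (qw k) _).2
  have hcf : ∀ k k', c k = c k' → qw k = qw k' ∧ f k = f k' := by
    intro k k' h
    have hq : qw k = qw k' := by rw [← hc, h, hc]
    refine ⟨hq, ?_⟩
    have key : ∀ (q q' : Q) (hqq : q = q') (i : Fin (Fintype.card {γ // gcl γ = q}))
        (j : Fin (Fintype.card {γ // gcl γ = q'})), (e q i).1 = (e q' j).1 → i.1 = j.1 := by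
      rintro q q' rfl i j hij
      have h1 := (e q).injective (Subtype.ext hij)
      rw [h1]
    have h1 := key _ _ hq _ _ h
    have h2 := hf1 k
    have h3 := hf1 k'
    simp only at h1
    omega
  have hmono : ∀ k k', c k = c k' → a k < a k' → b (w k) ≤ b (w k') := by
    intro k k' h hlt
    by_contra hcon
    push Not at hcon
    obtain ⟨h1, h2⟩ := hcf k k' h
    have h3 := hf3 k' k h1 hlt hcon
    omega
  -- the polynomial
  let P : MvPolynomial (Γ × R) K := ∑ X : κ → R, MvPolynomial.monomial (mon c X) (F X)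
  have hP : P = 0 := by
    apply MvPolynomial.funext
    intro Y
    have h1 := hV c hc (fun γ r => Y (γ, r))
    rw [map_zero, ← h1, map_sum]
    refine Finset.sum_congr rfl fun X _ => ?_
    rw [MvPolynomial.eval_monomial]
    congr 1
    unfold mon
    rw [Finsupp.prod_fintype]
    · rw [← Fintype.prod_fiberwise (fun k => (c k, X k))]
      refine Finset.prod_congr rfl fun i _ => ?_
      rw [Finset.prod_congr rfl (fun (k : {k // (c k, X k) = i}) _ =>
        show Y (c k, X k) = Y i by rw [k.2]), Finset.prod_const, Finset.card_univ,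
        Fintype.card_subtype]
      congr 1
      rw [Finsupp.finsetSum_apply, Finset.card_filter]
      refine Finset.sum_congr rfl fun k _ => ?_
      rw [Finsupp.single_apply]
    · intro i
      exact pow_zero _
  have hcoef : ∑ X : κ → R, (if mon c X = mon c w then F X else 0) = 0 := by
    have h1 := congrArg (MvPolynomial.coeff (mon c w)) hP
    rw [MvPolynomial.coeff_zero, MvPolynomial.coeff_sum] at h1
    refine Eq.trans (Finset.sum_congr rfl fun X _ => ?_) h1
    rw [MvPolynomial.coeff_monomial]
  rw [Finset.sum_eq_single w] at hcoef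
  · rw [if_pos rfl] at hcoef
    exact hw hcoef
  · intro X _ hXw
    by_contra hcon
    rw [ite_eq_right_iff, Classical.not_imp] at hcon
    obtain ⟨hmX, hFX⟩ := hcon
    refine hmax X hFX ?_
    -- the first difference
    have hne : (Finset.univ.filter fun k => X k ≠ w k).Nonempty := by
      by_contra hcon
      apply hXw
      funext k
      by_contra hk
      exact hcon ⟨k, Finset.mem_filter.2 ⟨Finset.mem_univ _, hk⟩⟩
    obtain ⟨k0, hk0, hmin⟩ := Finset.exists_min_image _ a hne
    rw [Finset.mem_filter] at hk0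
    have hfix : ∀ l, a l < a k0 → X l = w l := by
      intro l hl
      by_contra h2
      exact absurd (hmin l (Finset.mem_filter.2 ⟨Finset.mem_univ _, h2⟩)) (not_le.2 hl)
    refine ⟨k0, fun l hl => (hfix l hl).symm, ?_⟩
    rcases lt_trichotomy (b (w k0)) (b (X k0)) with h | h | h
    · exact h
    · exact absurd (hb h).symm hk0.2
    · exfalso
      have h1 := congrArg (fun m => m (c k0, X k0)) hmX
      simp only [mon_apply] at h1
      have h2 : (Finset.univ.filter fun k => c k = c k0 ∧ w k = X k0) ⊂
          (Finset.univ.filter fun k => c k = c k0 ∧ X k = X k0) := by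
        rw [Finset.ssubset_iff_of_subset]
        · refine ⟨k0, Finset.mem_filter.2 ⟨Finset.mem_univ _, rfl, rfl⟩, ?_⟩
          intro h3
          exact hk0.2 (Finset.mem_filter.1 h3).2.2.symm
        · intro k hk
          obtain ⟨-, hk1, hk2⟩ := Finset.mem_filter.1 hk
          refine Finset.mem_filter.2 ⟨Finset.mem_univ _, hk1, ?_⟩
          rcases lt_trichotomy (a k) (a k0) with h3 | h3 | h3
          · rw [hfix k h3, hk2]
          · rw [ha h3]
          · exfalso
            have h4 := hmono k0 k hk1.symm h3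
            rw [hk2] at h4
            omega
      have h3 := Finset.card_lt_card h2
      omega
  · intro h1
    exact absurd (Finset.mem_univ _) h1

/-- The second fundamental theorem in multilinear form. -/
theorem mem_anti_of_van (cls : R → Q) (gcl : Γ → Q) (qw : κ → Q) (F : (κ → R) → K)
    (hF : ∀ X, F X ≠ 0 → ∀ k, cls (X k) = qw k) (hV : Van gcl qw F) :
    F ∈ Submodule.span K (AntiSet K cls qw fun q => Fintype.card {γ // gcl γ = q}) := by
  obtain ⟨a, ha⟩ : ∃ a : κ → ℕ, Function.Injective a :=
    ⟨fun k => (Fintype.equivFin κ k).1, fun x y h => (Fintype.equivFin κ).injective (Fin.ext h)⟩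
  obtain ⟨b, hb⟩ : ∃ b : R → ℕ, Function.Injective b :=
    ⟨fun k => (Fintype.equivFin R k).1, fun x y h => (Fintype.equivFin R).injective (Fin.ext h)⟩
  have h1 : F ∈ Submodule.span K (AntiSet K cls qw fun q => Fintype.card {γ // gcl γ = q}) ⊔
      Submodule.span K {G | ∃ w' : κ → R,
        ¬Bad a b qw (fun q => Fintype.card {γ // gcl γ = q}) w' ∧ (∀ k, cls (w' k) = qw k) ∧
        G = Pi.single w' 1} := by
    have h2 : F = ∑ w, F w • (Pi.single w 1 : (κ → R) → K) := by
      funext X
      rw [Finset.sum_apply, Finset.sum_eq_single X]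
      · simp
      · intro w _ hw
        rw [Pi.smul_apply, Pi.single_eq_of_ne (Ne.symm hw), smul_zero]
      · intro h
        exact absurd (Finset.mem_univ _) h
    rw [h2]
    refine Submodule.sum_mem _ fun w _ => ?_
    by_cases hw : F w = 0
    · rw [hw, zero_smul]
      exact Submodule.zero_mem _
    · exact Submodule.smul_mem _ _ (straighten ha b cls qw _ w (hF w hw))
  obtain ⟨G, hG, H, hH, hGH⟩ := Submodule.mem_sup.1 h1
  have hVH : Van gcl qw H := by
    intro c hc Y
    have h2 := hV c hc Y
    rw [← hGH] at h2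
    simp only [Pi.add_apply, add_mul, Finset.sum_add_distrib] at h2
    rw [van_anti hG c hc Y, zero_add] at h2
    exact h2
  have hH0 : H = 0 := by
    refine leading ha hb gcl qw H ?_ hVH
    clear hVH hGH
    induction hH using Submodule.span_induction with
    | zero =>
      intro X hX
      exact absurd rfl hX
    | add x y _ _ hx hy =>
      intro X hX
      by_cases h2 : x X = 0
      · refine hy X fun h3 => hX ?_
        rw [Pi.add_apply, h2, h3, add_zero]
      · exact hx X h2
    | smul r x _ hx =>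
      intro X hX
      refine hx X fun h3 => hX ?_
      rw [Pi.smul_apply, h3, smul_zero]
    | mem G hG =>
      obtain ⟨w', hw', -, rfl⟩ := hG
      intro X hX
      have h2 : X = w' := by
        by_contra h3
        exact hX (Pi.single_eq_of_ne h3 _)
      rw [h2]
      exact hw'
  rw [← hGH, hH0, add_zero]
  exact hG

end

end Pool.Agent.TH131.GHC
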