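import Mathlib
import Pool.Agent.TH131.GHC.Words

/-!
# Antisymmetric forms in many variables are divisible by the symplectic form
-/

set_option linter.unusedSectionVars false

namespace Pool.Agent.TH131.GHC

open Equiv Pool.Agent.H204R3.SP

noncomputable section

variable {κ R Q : Type*} [Fintype κ] [DecidableEq κ] [Fintype R] [DecidableEq R]
  [DecidableEq Q] {K : Type*} [Field K] [CharZero K]

/-- The symplectic form on the letters of one class. -/
def JQ (cls : R → Q) (inv : R → R) (jj : R → K) (q : Q) (x y : R) : K :=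
  if cls x = q then JJ inv jj x y else 0

/-- The products of a symplectic form in two positions with a function of the others. -/
def IdlR (cls : R → Q) (inv : R → R) (jj : R → K) : Submodule K ((κ → R) → K) :=
  Submodule.span K {F | ∃ (a b : κ) (q : Q) (G : (κ → R) → K), a ≠ b ∧
    (∀ (X : κ → R) (u w : R), G (Function.update (Function.update X a u) b w) = G X) ∧
    F = fun X => JQ cls inv jj q (X a) (X b) * G X}

variable {cls : R → Q} {inv : R → R} {jj : R → K} (hinv : ∀ x, inv (inv x) = x)
  (hjj : ∀ x, jj (inv x) = -jj x) (hj0 : ∀ x, jj x ≠ 0) (hcls : ∀ x, cls (inv x) = cls x)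

include hinv hjj in
theorem JJ_anti (x y : R) : JJ inv jj x y = -JJ inv jj y x := by
  unfold JJ
  by_cases h : y = inv x
  · rw [if_pos h, if_pos (by rw [h, hinv]), h, hjj, neg_neg]
  · rw [if_neg h, if_neg, neg_zero]
    intro h2
    exact h (by rw [h2, hinv])

include hinv hjj hcls in
theorem JQ_anti (q : Q) (x y : R) : JQ cls inv jj q x y = -JQ cls inv jj q y x := by
  by_cases h : y = inv x
  · have h2 : cls y = cls x := by rw [h, hcls]
    unfold JQ
    rw [h2]
    split_ifs
    · exact JJ_anti hinv hjj x y
    · rw [neg_zero]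
  · have h1 : JJ inv jj x y = 0 := if_neg h
    have h2 : JJ inv jj y x = 0 := by
      rw [JJ_anti hinv hjj, h1, neg_zero]
    unfold JQ
    rw [h1, h2]
    simp

include hcls in
theorem JQ_ne (q : Q) {x y : R} (h : JQ cls inv jj q x y ≠ 0) : cls x = q ∧ cls y = q := by
  unfold JQ at h
  have h1 : cls x = q := by
    by_contra h2
    rw [if_neg h2] at h
    exact h rfl
  rw [if_pos h1] at h
  unfold JJ at h
  have h2 : y = inv x := by
    by_contra h2
    rw [if_neg h2] at h
    exact h rfl
  exact ⟨h1, by rw [h2, hcls, h1]⟩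

variable {T : Type*} [Fintype T] [DecidableEq T]

/-- The product over a matching of pairs. -/
def PQ (cls : R → Q) (inv : R → R) (jj : R → K) (q : Q) (z : T × Bool → R)
    (σ : Perm (T × Bool)) : K :=
  ((Perm.sign σ : ℤ) : K) * ∏ t, JQ cls inv jj q (z (σ (t, false))) (z (σ (t, true)))

include hcls in
/-- The alternating sum of the products vanishes if there are too few letters. -/
theorem sum_PQ_eq_zero (q : Q) (hcard : Fintype.card {r // cls r = q} < 2 * Fintype.card T)
    (z : T × Bool → R) : ∑ σ : Perm (T × Bool), PQ cls inv jj q z σ = 0 := by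
  by_cases hz : ∀ p, cls (z p) = q
  · obtain ⟨p, p', hne, heq⟩ : ∃ p p', p ≠ p' ∧ z p = z p' := by
      have h1 : Fintype.card {r // cls r = q} < Fintype.card (T × Bool) := by
        rw [Fintype.card_prod, Fintype.card_bool]
        omega
      obtain ⟨p, p', h2, h3⟩ := Fintype.exists_ne_map_eq_of_card_lt
        (fun p : T × Bool => (⟨z p, hz p⟩ : {r // cls r = q})) h1
      exact ⟨p, p', h2, congrArg Subtype.val h3⟩
    have h1 : ∑ σ : Perm (T × Bool), PQ cls inv jj q z σ =
        -∑ σ : Perm (T × Bool), PQ cls inv jj q z σ := by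
      rw [← Finset.sum_neg_distrib]
      refine Fintype.sum_equiv (Equiv.mulLeft (swap p p')) _ _ fun σ => ?_
      rw [Equiv.coe_mulLeft]
      unfold PQ
      have h3 : ∀ x, z ((swap p p' * σ) x) = z (σ x) := by
        intro x
        rw [Perm.mul_apply]
        by_cases h4 : σ x = p
        · rw [h4, swap_apply_left, heq]
        · by_cases h5 : σ x = p'
          · rw [h5, swap_apply_right, heq]
          · rw [swap_apply_of_ne_of_ne h4 h5]
      simp only [h3]
      rw [Perm.sign_mul, Perm.sign_swap hne]
      push_cast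
      ring
    have h2 : (2 : K) * ∑ σ : Perm (T × Bool), PQ cls inv jj q z σ = 0 := by
      linear_combination h1
    exact (mul_eq_zero.1 h2).resolve_left two_ne_zero
  · push Not at hz
    obtain ⟨p, hp⟩ := hz
    refine Finset.sum_eq_zero fun σ _ => ?_
    unfold PQ
    have h1 : ∏ t, JQ cls inv jj q (z (σ (t, false))) (z (σ (t, true))) = 0 := by
      by_contra h2
      rw [Finset.prod_eq_zero_iff] at h2
      push Not at h2
      have h3 := JQ_ne hcls q (h2 (σ.symm p).1 (Finset.mem_univ _))
      apply hp
      rcases hb : (σ.symm p).2 with _ | _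
      · have h4 : σ ((σ.symm p).1, false) = p := by
          rw [← hb]
          exact σ.apply_symm_apply p
        rw [h4] at h3
        exact h3.1
      · have h4 : σ ((σ.symm p).1, true) = p := by
          rw [← hb]
          exact σ.apply_symm_apply p
        rw [h4] at h3
        exact h3.2
    rw [h1, mul_zero]

/-- The pairs of letters. -/
def zz (x y : T → R) : T × Bool → R := fun p => if p.2 = true then y p.1 else x p.1

theorem zz_false (x y : T → R) (t : T) : zz x y (t, false) = x t := rfl

theorem zz_true (x y : T → R) (t : T) : zz x y (t, true) = y t := rfl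

/-- The form with raised indices. -/
def rai (inv : R → R) (jj : R → K) (φ : (T → R) → K) (x : T → R) : K :=
  (∏ t, (jj (x t))⁻¹) * φ (fun t => inv (x t))

include hinv hj0 hcls in
theorem sum_rai (q : Q) (φ : (T → R) → K) (hφ : ∀ y, φ y ≠ 0 → ∀ t, cls (y t) = q) (y : T → R) :
    ∑ x : T → R, rai inv jj φ x * ∏ t, JQ cls inv jj q (x t) (y t) = φ y := by
  rw [Finset.sum_eq_single (fun t => inv (y t))]
  · unfold rai
    simp only [hinv]
    by_cases h : φ y = 0
    · have h2 : φ (fun t => y t) = 0 := h
      rw [h2, mul_zero, zero_mul]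
    · have h1 : ∀ t, JQ cls inv jj q (inv (y t)) (y t) = jj (inv (y t)) := by
        intro t
        unfold JQ JJ
        rw [if_pos (by rw [hcls, hφ y h t]), if_pos (hinv _).symm]
      rw [Finset.prod_congr rfl (fun t _ => h1 t), mul_right_comm, ← Finset.prod_mul_distrib,
        Finset.prod_eq_one (fun t _ => inv_mul_cancel₀ (hj0 _)), one_mul]
  · intro x _ hx
    obtain ⟨t, ht⟩ : ∃ t, x t ≠ inv (y t) := by
      by_contra h
      push Not at h
      exact hx (funext h)
    rw [Finset.prod_eq_zero (Finset.mem_univ t), mul_zero]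
    have h1 : JJ inv jj (x t) (y t) = 0 := if_neg fun h => ht (by rw [h, hinv])
    unfold JQ
    rw [h1, ite_self]
  · intro h
    exact absurd (Finset.mem_univ _) h

/-- The contraction of the raised form with the product. -/
def trm (cls : R → Q) (inv : R → R) (jj : R → K) (q : Q) (φ : (T → R) → K) (y : T → R)
    (σ : Perm (T × Bool)) : K :=
  ∑ x : T → R, rai inv jj φ x * PQ cls inv jj q (zz x y) σ

include hcls in
theorem sum_trm (q : Q) (hcard : Fintype.card {r // cls r = q} < 2 * Fintype.card T)
    (φ : (T → R) → K) (y : T → R) : ∑ σ : Perm (T × Bool), trm cls inv jj q φ y σ = 0 := by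
  unfold trm
  rw [Finset.sum_comm]
  refine Finset.sum_eq_zero fun x _ => ?_
  rw [← Finset.mul_sum, sum_PQ_eq_zero hcls q hcard, mul_zero]

/-- Each pair consists of letters of both kinds. -/
def Mixed (σ : Perm (T × Bool)) : Prop := ∀ t, (σ (t, false)).2 ≠ (σ (t, true)).2

instance : DecidablePred (Mixed (T := T)) := fun σ => by unfold Mixed; infer_instance

theorem exists_pair_of_not_mixed {σ : Perm (T × Bool)} (h : ¬Mixed σ) :
    ∃ t, (σ (t, false)).2 = true ∧ (σ (t, true)).2 = true := by
  by_contra hcon
  push Not at hcon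
  unfold Mixed at h
  push Not at h
  obtain ⟨t0, ht0⟩ := h
  have h1 : ∑ t : T, ((if (σ (t, false)).2 = false then 1 else 0) +
      (if (σ (t, true)).2 = false then 1 else 0)) = Fintype.card T := by
    have h2 : ∑ p : T × Bool, (if (σ p).2 = false then 1 else 0) = Fintype.card T := by
      rw [Equiv.sum_comp σ (fun p : T × Bool => if p.2 = false then 1 else 0),
        Fintype.sum_prod_type]
      simp
    rw [← h2, Fintype.sum_prod_type]
    refine Finset.sum_congr rfl fun t _ => ?_
    rw [Fintype.sum_bool, add_comm]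
  have h3 : ∑ t : T, 1 < ∑ t : T, ((if (σ (t, false)).2 = false then 1 else 0) +
      (if (σ (t, true)).2 = false then 1 else 0)) := by
    refine Finset.sum_lt_sum (fun t _ => ?_) ⟨t0, Finset.mem_univ _, ?_⟩
    · by_cases h4 : (σ (t, false)).2 = false
      · rw [if_pos h4]
        omega
      · have h5 := hcon t (by simpa using h4)
        have h6 : (σ (t, true)).2 = false := by simpa using h5
        rw [h6, if_pos rfl]
        omega
    · rcases h4 : (σ (t0, false)).2 with _ | _
      · rw [← ht0, h4]
        simp
      · exact absurd (ht0 ▸ h4) (hcon t0 h4)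
  rw [h1, Finset.sum_const, Finset.card_univ, smul_eq_mul, mul_one] at h3
  exact lt_irrefl _ h3

/-- Exchange the members of some pairs. -/
def flp (f : T → Bool) : Perm (T × Bool) :=
  Equiv.prodCongrRight fun t => if f t then Equiv.swap false true else 1

include hinv hjj hcls in
theorem PQ_mixed (q : Q) (σ : Perm (T × Bool)) (hσ : Mixed σ) :
    ∃ α β : Perm T, ∀ x y : T → R, PQ cls inv jj q (zz x y) σ =
      ((Perm.sign α : ℤ) : K) * ((Perm.sign β : ℤ) : K) *
        ∏ t, JQ cls inv jj q (x (α t)) (y (β t)) := by
  let f : T → Bool := fun t => (σ (t, false)).2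
  let σ' : Perm (T × Bool) := σ * flp f
  have hσ' : ∀ t b, (σ' (t, b)).2 = b := by
    intro t b
    change (σ (t, (if f t then Equiv.swap false true else 1) b)).2 = b
    have h1 := hσ t
    rcases h2 : (σ (t, false)).2 with _ | _
    · have h3 : f t = false := h2
      rw [h3, if_neg Bool.false_ne_true]
      rw [h2] at h1
      rcases b with _ | _
      · exact h2
      · change (σ (t, true)).2 = true
        simpa using h1.symm
    · have h3 : f t = true := h2
      rw [h3, if_pos rfl]
      rw [h2] at h1
      rcases b with _ | _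
      · rw [swap_apply_left]
        simpa using h1.symm
      · rw [swap_apply_right]
        exact h2
  have hinj : ∀ b, Function.Injective (fun t => (σ' (t, b)).1) := by
    intro b t t' h
    have h1 : σ' (t, b) = σ' (t', b) := Prod.ext h (by rw [hσ', hσ'])
    exact congrArg Prod.fst (σ'.injective h1)
  let e : Bool → Perm T := fun b => Equiv.ofBijective _ (Finite.injective_iff_bijective.1 (hinj b))
  have he : ∀ t b, σ' (t, b) = (e b t, b) := fun t b => Prod.ext rfl (hσ' t b)
  have he' : σ' = Equiv.prodCongrLeft e := by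
    ext p
    · rw [he p.1 p.2]
      rfl
    · rw [he p.1 p.2]
      rfl
  have hs1 : Perm.sign σ' = Perm.sign (e true) * Perm.sign (e false) := by
    rw [he', Perm.sign_prodCongrLeft, Fintype.prod_bool]
  have hs2 : Perm.sign σ' = Perm.sign σ * ∏ t, (if f t then (-1 : ℤˣ) else 1) := by
    change Perm.sign (σ * flp f) = _
    rw [Perm.sign_mul]
    congr 1
    unfold flp
    rw [Perm.sign_prodCongrRight]
    refine Finset.prod_congr rfl fun t _ => ?_
    split_ifs
    · rw [Perm.sign_swap Bool.false_ne_true]
    · rw [Perm.sign_one]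
  refine ⟨e false, e true, fun x y => ?_⟩
  have h1 : ∀ t, JQ cls inv jj q (zz x y (σ (t, false))) (zz x y (σ (t, true))) =
      (if f t then (-1 : K) else 1) * JQ cls inv jj q (x (e false t)) (y (e true t)) := by
    intro t
    have h3 : x (e false t) = zz x y (σ' (t, false)) := by rw [he]; rfl
    have h4 : y (e true t) = zz x y (σ' (t, true)) := by rw [he]; rfl
    rw [h3, h4]
    change _ = _ * JQ cls inv jj q
      (zz x y (σ (t, (if f t then Equiv.swap false true else 1) false)))
      (zz x y (σ (t, (if f t then Equiv.swap false true else 1) true)))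
    split_ifs
    · rw [swap_apply_left, swap_apply_right, neg_one_mul]
      exact JQ_anti hinv hjj hcls q _ _
    · rw [one_mul]
      rfl
  unfold PQ
  rw [Finset.prod_congr rfl (fun t _ => h1 t), Finset.prod_mul_distrib, ← mul_assoc]
  congr 1
  have h5 : ((∏ t, (if f t then (-1 : ℤˣ) else 1) : ℤˣ) : ℤ) = ∏ t, (if f t then (-1 : ℤ) else 1) := by
    rw [Units.coe_prod]
    refine Finset.prod_congr rfl fun t _ => ?_
    split_ifs <;> rfl
  have h6 : (∏ t, (if f t then (-1 : K) else 1)) =
      (((∏ t, (if f t then (-1 : ℤˣ) else 1) : ℤˣ) : ℤ) : K) := by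
    rw [h5, Int.cast_prod]
    refine Finset.prod_congr rfl fun t _ => ?_
    split_ifs <;> simp
  rw [h6, ← Int.cast_mul, ← Units.val_mul, ← hs2, hs1, Units.val_mul, Int.cast_mul, mul_comm]

include hinv hjj hj0 hcls in
theorem trm_mixed (q : Q) (φ : (T → R) → K) (hφ : ∀ y, φ y ≠ 0 → ∀ t, cls (y t) = q)
    (ha : ∀ (τ : Perm T) (y : T → R), φ (fun t => y (τ t)) = ((Perm.sign τ : ℤ) : K) * φ y)
    (y : T → R) (σ : Perm (T × Bool)) (hσ : Mixed σ) : trm cls inv jj q φ y σ = φ y := by
  obtain ⟨α, β, h⟩ := PQ_mixed (K := K) hinv hjj hcls q σ hσ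
  unfold trm
  have h1 : ∀ x : T → R, rai inv jj φ x * PQ cls inv jj q (zz x y) σ =
      ((Perm.sign α : ℤ) : K) * ((Perm.sign β : ℤ) : K) *
        (rai inv jj φ x * ∏ t, JQ cls inv jj q (x t) (y ((β * α⁻¹) t))) := by
    intro x
    rw [h, ← Equiv.prod_comp α (fun t => JQ cls inv jj q (x t) (y ((β * α⁻¹) t)))]
    have h2 : ∀ t, (β * α⁻¹) (α t) = β t := fun t => congrArg β (α.symm_apply_apply t)
    simp only [h2]
    ring
  rw [Finset.sum_congr rfl (fun x _ => h1 x), ← Finset.mul_sum,
    sum_rai hinv hj0 hcls q φ hφ (fun t => y ((β * α⁻¹) t)), ha, Perm.sign_mul, Perm.sign_inv]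
  have h3 : ∀ τ : Perm T, ((Perm.sign τ : ℤ) : K) * ((Perm.sign τ : ℤ) : K) = 1 := by
    intro τ
    rw [← Int.cast_mul, ← Units.val_mul, Int.units_mul_self]
    simp
  have h4 := h3 α
  have h5 := h3 β
  push_cast
  linear_combination ((Perm.sign β : ℤ) : K) * ((Perm.sign β : ℤ) : K) * φ y * h4 + φ y * h5

section glue

variable (A : Finset κ)

/-- Change the letters in the positions of `A`. -/
def glue (X : κ → R) (y : A → R) : κ → R := fun k => if h : k ∈ A then y ⟨k, h⟩ else X k

theorem glue_self (X : κ → R) : glue A X (fun k => X k.1) = X := by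
  funext k
  unfold glue
  split_ifs <;> rfl

/-- The sign rule for all permutations of the positions. -/
theorem glue_perm {G : (κ → R) → K}
    (hG : ∀ p ∈ A, ∀ p' ∈ A, p ≠ p' → ∀ X : κ → R, G (fun k => X (swap p p' k)) = -G X)
    (X : κ → R) (τ : Perm A) (y : A → R) :
    G (glue A X (fun t => y (τ t))) = ((Perm.sign τ : ℤ) : K) * G (glue A X y) := by
  induction τ using Equiv.Perm.swap_induction_on generalizing y with
  | one => simp
  | swap_mul τ p p' hpp ih =>
    have h1 : (fun t => y ((swap p p' * τ) t)) = fun t => (fun s => y (swap p p' s)) (τ t) := rfl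
    rw [h1, ih (fun s => y (swap p p' s))]
    have h2 : glue A X (fun s => y (swap p p' s)) = fun k => glue A X y (swap p.1 p'.1 k) := by
      funext k
      by_cases hk : k ∈ A
      · have h3 : swap p.1 p'.1 k = (swap p p' ⟨k, hk⟩).1 := by
          by_cases h4 : k = p.1
          · have h5 : (⟨k, hk⟩ : A) = p := Subtype.ext h4
            rw [h5, h4, swap_apply_left, swap_apply_left]
          · by_cases h6 : k = p'.1
            · have h5 : (⟨k, hk⟩ : A) = p' := Subtype.ext h6
              rw [h5, h6, swap_apply_right, swap_apply_right]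
            · rw [swap_apply_of_ne_of_ne h4 h6, swap_apply_of_ne_of_ne]
              · exact fun h => h4 (congrArg Subtype.val h)
              · exact fun h => h6 (congrArg Subtype.val h)
        unfold glue
        rw [dif_pos hk, h3, dif_pos (swap p p' ⟨k, hk⟩).2]
      · have h4 : k ≠ p.1 := fun h => hk (h ▸ p.2)
        have h6 : k ≠ p'.1 := fun h => hk (h ▸ p'.2)
        rw [swap_apply_of_ne_of_ne h4 h6]
        unfold glue
        rw [dif_neg hk, dif_neg hk]
    rw [h2, hG p.1 p.2 p'.1 p'.2 (fun h => hpp (Subtype.ext h)), Perm.sign_mul,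
      Perm.sign_swap hpp]
    push_cast
    ring

include hinv hjj hj0 hcls in
/-- Antisymmetric functions are in the ideal generated by the symplectic form. -/
theorem mem_IdlR_of_anti (q : Q) (hcard : Fintype.card {r // cls r = q} < 2 * A.card)
    {G : (κ → R) → K}
    (hs : ∀ X, G X ≠ 0 → ∀ k ∈ A, cls (X k) = q)
    (hG : ∀ p ∈ A, ∀ p' ∈ A, p ≠ p' → ∀ X : κ → R, G (fun k => X (swap p p' k)) = -G X) :
    G ∈ IdlR (κ := κ) cls inv jj := by
  classical
  let φ : (κ → R) → (A → R) → K := fun X y => G (glue A X y)
  have hφ : ∀ X y, φ X y ≠ 0 → ∀ t, cls (y t) = q := by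
    intro X y h t
    have h1 := hs _ h t.1 t.2
    unfold glue at h1
    rwa [dif_pos t.2] at h1
  have ha : ∀ X (τ : Perm A) (y : A → R), φ X (fun t => y (τ t)) =
      ((Perm.sign τ : ℤ) : K) * φ X y := fun X τ y => glue_perm A hG X τ y
  -- the terms that are not mixed
  have h1 : ∀ σ : Perm (A × Bool), ¬Mixed σ →
      (fun X : κ → R => trm cls inv jj q (φ X) (fun k => X k.1) σ) ∈ IdlR (κ := κ) cls inv jj := by
    intro σ hσ
    obtain ⟨t0, ht1, ht2⟩ := exists_pair_of_not_mixed hσ
    refine Submodule.subset_span ⟨(σ (t0, false)).1.1, (σ (t0, true)).1.1, q,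
      fun X => ∑ x : A → R, rai inv jj (φ X) x * (((Perm.sign σ : ℤ) : K) *
        ∏ t ∈ Finset.univ.erase t0, JQ cls inv jj q (zz x (fun k => X k.1) (σ (t, false)))
          (zz x (fun k => X k.1) (σ (t, true)))), ?_, ?_, ?_⟩
    · intro h
      have h2 : σ (t0, false) = σ (t0, true) := Prod.ext (Subtype.ext h) (by rw [ht1, ht2])
      have h3 := congrArg Prod.snd (σ.injective h2)
      exact Bool.false_ne_true h3
    · intro X u w
      have h2 : φ (Function.update (Function.update X (σ (t0, false)).1.1 u)
          (σ (t0, true)).1.1 w) = φ X := by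
        funext y
        change G _ = G _
        congr 1
        funext k
        unfold glue
        by_cases hk : k ∈ A
        · rw [dif_pos hk, dif_pos hk]
        · rw [dif_neg hk, dif_neg hk, Function.update_of_ne, Function.update_of_ne]
          · rintro rfl
            exact hk (σ (t0, false)).1.2
          · rintro rfl
            exact hk (σ (t0, true)).1.2
      have h3 : ∀ (x : A → R) (p : A × Bool), σ (t0, false) ≠ p → σ (t0, true) ≠ p →
          zz x (fun k => Function.update (Function.update X (σ (t0, false)).1.1 u)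
            (σ (t0, true)).1.1 w k.1) p = zz x (fun k => X k.1) p := by
        intro x p hp1 hp2
        unfold zz
        by_cases hp : p.2 = true
        · rw [if_pos hp, if_pos hp]
          change Function.update (Function.update X (σ (t0, false)).1.1 u)
            (σ (t0, true)).1.1 w p.1.1 = X p.1.1
          rw [Function.update_of_ne, Function.update_of_ne]
          · intro h4
            exact hp1 (Prod.ext (Subtype.ext h4.symm) (by rw [ht1, hp]))
          · intro h4
            exact hp2 (Prod.ext (Subtype.ext h4.symm) (by rw [ht2, hp]))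
        · rw [if_neg hp, if_neg hp]
      simp only
      rw [h2]
      refine Finset.sum_congr rfl fun x _ => ?_
      congr 2
      refine Finset.prod_congr rfl fun t ht => ?_
      have ht' := Finset.ne_of_mem_erase ht
      rw [h3, h3]
      · exact fun h => ht' (congrArg Prod.fst (σ.injective h)).symm
      · exact fun h => ht' (congrArg Prod.fst (σ.injective h)).symm
      · exact fun h => ht' (congrArg Prod.fst (σ.injective h)).symm
      · exact fun h => ht' (congrArg Prod.fst (σ.injective h)).symm
    · funext X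
      unfold trm PQ
      simp only
      rw [Finset.mul_sum]
      refine Finset.sum_congr rfl fun x _ => ?_
      rw [← Finset.mul_prod_erase _ _ (Finset.mem_univ t0)]
      have h4 : ∀ p : A × Bool, p.2 = true → zz x (fun k => X k.1) p = X p.1.1 := by
        intro p hp
        unfold zz
        rw [if_pos hp]
      rw [h4 _ ht1, h4 _ ht2]
      ring
  have h2 : ((Finset.univ.filter fun σ : Perm (A × Bool) => Mixed σ).card : K) • G =
      -∑ σ ∈ Finset.univ.filter (fun σ : Perm (A × Bool) => ¬Mixed σ),
        (fun X : κ → R => trm cls inv jj q (φ X) (fun k => X k.1) σ) := by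
    funext X
    rw [Pi.smul_apply, Pi.neg_apply, Finset.sum_apply, smul_eq_mul, eq_neg_iff_add_eq_zero]
    have h3 := sum_trm (K := K) (inv := inv) (jj := jj) hcls q (T := A)
      (by rwa [Fintype.card_coe]) (φ X) (fun k => X k.1)
    rw [← Finset.sum_filter_add_sum_filter_not Finset.univ (fun σ : Perm (A × Bool) => Mixed σ)]
      at h3
    rw [← h3]
    congr 1
    have h4 : ∀ σ ∈ Finset.univ.filter (fun σ : Perm (A × Bool) => Mixed σ),
        trm cls inv jj q (φ X) (fun k => X k.1) σ = G X := by
      intro σ hσ
      rw [trm_mixed hinv hjj hj0 hcls q (φ X) (hφ X) (ha X) _ σ (Finset.mem_filter.1 hσ).2]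
      change G _ = G _
      rw [glue_self]
    rw [Finset.sum_congr rfl h4, Finset.sum_const, nsmul_eq_mul]
  have h3 : ((Finset.univ.filter fun σ : Perm (A × Bool) => Mixed σ).card : K) ≠ 0 := by
    rw [Nat.cast_ne_zero]
    refine Finset.card_ne_zero_of_mem (a := (1 : Perm (A × Bool))) ?_
    rw [Finset.mem_filter]
    refine ⟨Finset.mem_univ _, fun t => ?_⟩
    simp
  have h4 : ((Finset.univ.filter fun σ : Perm (A × Bool) => Mixed σ).card : K) • G ∈
      IdlR (κ := κ) cls inv jj := by
    rw [h2]
    refine Submodule.neg_mem _ (Submodule.sum_mem _ fun σ hσ => h1 σ (Finset.mem_filter.1 hσ).2)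
  have h5 := Submodule.smul_mem _ (((Finset.univ.filter
    fun σ : Perm (A × Bool) => Mixed σ).card : K))⁻¹ h4
  rwa [smul_smul, inv_mul_cancel₀ h3, one_smul] at h5

end glue

include hinv hjj hj0 hcls in
/-- The antisymmetric functions in many positions are in the ideal. -/
theorem antiSpan_le (qw : κ → Q) (h : Q → ℕ)
    (hcard : ∀ q, Fintype.card {r // cls r = q} ≤ 2 * h q) :
    Submodule.span K (AntiSet K cls qw h) ≤ IdlR (κ := κ) cls inv jj := by
  refine Submodule.span_le.2 ?_
  rintro G ⟨q, A, hA1, hA2, hA3, hA4⟩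
  refine mem_IdlR_of_anti hinv hjj hj0 hcls A q ?_ ?_ hA4
  · have h1 := hcard q
    omega
  · intro X hX k hk
    rw [hA3 X hX k, hA2 k hk]

end

end Pool.Agent.TH131.GHC
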