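import Mathlib
import Pool.Agent.TH131.GHC.Lef
import Pool.Agent.W437.HP.FFTM

/-!
# Equivariant forms which vanish on Lagrangian subspaces
-/

set_option linter.unusedSectionVars false

namespace Pool.Agent.TH131.GHC

open Matrix Equiv Pool.Agent.H204R3.SP Pool.Agent.W437.HC Pool.Agent.W437.HP

noncomputable section

section rest

variable {κ R : Type*} [Fintype κ] [DecidableEq κ] [Fintype R] [DecidableEq R] {K : Type*}
  [Field K]

/-- A function which does not depend on two coordinates. -/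
theorem exists_rest {a b : κ} (hab : a ≠ b) {G : (κ → R) → K}
    (hG : ∀ (X : κ → R) (u w : R), G (Function.update (Function.update X a u) b w) = G X) :
    ∃ G' : ({l // l ≠ a ∧ l ≠ b} → R) → K, ∀ X, G X = G' (fun l => X l.1) := by
  by_cases h : Nonempty R
  · obtain ⟨r⟩ := h
    refine ⟨fun X' => G (fill a b r r X'), fun X => ?_⟩
    change _ = G (fill a b r r fun l => X l.1)
    rw [fill_restrict hab, hG]
  · refine ⟨fun _ => 0, fun X => ?_⟩
    exact absurd ⟨X a⟩ h

/-- Words and their restrictions. -/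
def fillE {a b : κ} (hab : a ≠ b) : (κ → R) ≃ ({l // l ≠ a ∧ l ≠ b} → R) × (R × R) where
  toFun X := (fun l => X l.1, (X a, X b))
  invFun p := fill a b p.2.1 p.2.2 p.1
  left_inv X := by
    change fill a b (X a) (X b) (fun l => X l.1) = X
    rw [fill_restrict hab, Function.update_eq_self, Function.update_eq_self]
  right_inv p := by
    obtain ⟨X', u, w⟩ := p
    refine Prod.ext ?_ (Prod.ext ?_ ?_)
    · funext l
      exact fill_l a b u w X' l
    · exact fill_p a b u w X'
    · exact fill_k hab u w X'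

theorem sum_fill {a b : κ} (hab : a ≠ b) (f : (κ → R) → K) :
    ∑ X, f X = ∑ X' : {l // l ≠ a ∧ l ≠ b} → R, ∑ u, ∑ w, f (fill a b u w X') := by
  rw [← (fillE hab).symm.sum_comp, Fintype.sum_prod_type]
  refine Finset.sum_congr rfl fun X' _ => ?_
  rw [Fintype.sum_prod_type]
  rfl

theorem prod_split {a b : κ} (hab : a ≠ b) (h : κ → K) :
    ∏ l, h l = h a * h b * ∏ l : {l // l ≠ a ∧ l ≠ b}, h l.1 := by
  rw [← Finset.mul_prod_erase _ _ (Finset.mem_univ a),
    ← Finset.mul_prod_erase (Finset.univ.erase a) h (a := b) (by simp [hab.symm]), mul_assoc]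
  congr 2
  rw [← Finset.prod_subtype ((Finset.univ.erase a).erase b) (p := fun l => l ≠ a ∧ l ≠ b)
    (fun l => by simp [and_comm]) h]

end rest

variable {B : Type*} [Fintype B] [DecidableEq B] {D : Matrix B B ℂ}

/-- The complex bilinear form is killed by the Lie algebra. -/
def HB (D : Matrix B B ℂ) (β : Matrix B B ℂ) : Prop := ∀ X ∈ lieM D ℂ, Xᵀ * β + β * X = 0

/-- The ideal generated by the invariant bilinear forms. -/
def IdC (D : Matrix B B ℂ) (κ : Type*) [Fintype κ] [DecidableEq κ] :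
    Submodule ℂ ((κ → B) → ℂ) :=
  Submodule.span ℂ {F | ∃ (a b : κ) (β : Matrix B B ℂ) (G : ({l // l ≠ a ∧ l ≠ b} → B) → ℂ),
    a ≠ b ∧ HB D β ∧ F = fun I => β (I a) (I b) * G (fun l => I l.1)}

variable {R : Type} [Fintype R] [DecidableEq R] {Q : Type*} [Fintype Q] [DecidableEq Q]
  {cls : R → Q} {inv : R → R} {jj : R → ℂ} {𝒜 : Type} [Fintype 𝒜] [DecidableEq 𝒜]
  {κ : Type*} [Fintype κ] [DecidableEq κ]

/-- The change of coordinates maps the ideal to the ideal. -/
theorem TmM_IdlR {E : κ → Matrix R B ℂ}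
    (hbil : ∀ (k l : κ) (q : Q), HB D ((E k)ᵀ * (Matrix.of fun x y => JQ cls inv jj q x y) * E l))
    {F : (κ → R) → ℂ} (hF : F ∈ IdlR (κ := κ) cls inv jj) : TmM E F ∈ IdC D κ := by
  unfold IdlR at hF
  induction hF using Submodule.span_induction with
  | zero =>
    rw [map_zero]
    exact Submodule.zero_mem _
  | add x y _ _ hx hy =>
    rw [map_add]
    exact Submodule.add_mem _ hx hy
  | smul r x _ hx =>
    rw [map_smul]
    exact Submodule.smul_mem _ _ hx
  | mem F hF =>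
    obtain ⟨a, b, q, G, hab, hG, rfl⟩ := hF
    obtain ⟨G', hG'⟩ := exists_rest hab hG
    refine Submodule.subset_span ⟨a, b, _, fun I' => ∑ X' : {l // l ≠ a ∧ l ≠ b} → R,
      G' X' * ∏ l, E l.1 (X' l) (I' l), hab, hbil a b q, ?_⟩
    funext I
    rw [TmM_apply, sum_fill hab, Finset.mul_sum]
    refine Finset.sum_congr rfl fun X' _ => ?_
    have h1 : ∀ u w, JQ cls inv jj q (fill a b u w X' a) (fill a b u w X' b) *
        G (fill a b u w X') * ∏ k, E k (fill a b u w X' k) (I k) =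
        (E a u (I a) * JQ cls inv jj q u w * E b w (I b)) *
          (G' X' * ∏ l : {l // l ≠ a ∧ l ≠ b}, E l.1 (X' l) (I l.1)) := by
      intro u w
      rw [prod_split hab, hG', fill_p, fill_k hab]
      have h2 : (fun l : {l // l ≠ a ∧ l ≠ b} => fill a b u w X' l.1) = X' := by
        funext l
        exact fill_l a b u w X' l
      rw [h2]
      simp only [fill_l]
      ring
    simp only [h1]
    simp only [← Finset.sum_mul]
    congr 1
    simp only [Matrix.mul_apply, Matrix.transpose_apply, Matrix.of_apply, Finset.sum_mul]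
    rw [Finset.sum_comm]

/-- The span of the products of invariant bilinear forms between two groups of variables. -/
def MX (D : Matrix B B ℂ) (κ : Type*) [Fintype κ] [DecidableEq κ] :
    Submodule ℂ ((κ → B) → (κ → B) → ℂ) :=
  Submodule.span ℂ {P | ∃ (τ : Perm κ) (b : κ → Matrix B B ℂ), (∀ k, HB D (b k)) ∧
    P = fun I I' => ∏ k, b k (I' (τ k)) (I k)}

/-- The value of a form in two groups of variables. -/
def ev2 (P : (κ → B) → (κ → B) → ℂ) (y x : κ → B → ℂ) : ℂ :=
  ∑ I, ∑ I', P I I' * (∏ k, y k (I k)) * ∏ k, x k (I' k)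

theorem ev2_mix (τ : Perm κ) (b : κ → Matrix B B ℂ) (y x : κ → B → ℂ) :
    ev2 (fun I I' => ∏ k, b k (I' (τ k)) (I k)) y x = ∏ k, x (τ k) ⬝ᵥ (b k *ᵥ y k) := by
  have h1 : ∀ k, x (τ k) ⬝ᵥ (b k *ᵥ y k) = ∑ i, ∑ j, b k j i * y k i * x (τ k) j := by
    intro k
    simp only [dotProduct, mulVec, Finset.mul_sum]
    rw [Finset.sum_comm]
    exact Finset.sum_congr rfl fun i _ => Finset.sum_congr rfl fun j _ => by ring
  simp only [h1]
  rw [Finset.prod_univ_sum, Fintype.piFinset_univ]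
  unfold ev2
  refine Finset.sum_congr rfl fun I _ => ?_
  rw [Finset.prod_univ_sum, Fintype.piFinset_univ]
  refine Fintype.sum_equiv (Equiv.arrowCongr τ.symm (Equiv.refl B)) _ _ fun I' => ?_
  have h2 : ∀ k, (Equiv.arrowCongr τ.symm (Equiv.refl B)) I' k = I' (τ k) := fun k => rfl
  simp only [h2]
  rw [← Equiv.prod_comp τ (fun k => x k (I' k)), ← Finset.prod_mul_distrib,
    ← Finset.prod_mul_distrib]

/-- Matrices with an adjoint with respect to all invariant bilinear forms. -/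
def G0 (D : Matrix B B ℂ) : Subalgebra ℂ (Matrix B B ℂ) where
  carrier := {g | ∃ g' : Matrix B B ℂ, ∀ b, HB D b → b * g = g'ᵀ * b}
  mul_mem' := by
    rintro g1 g2 ⟨g1', h1⟩ ⟨g2', h2⟩
    refine ⟨g2' * g1', fun b hb => ?_⟩
    rw [← mul_assoc, h1 b hb, mul_assoc, h2 b hb, transpose_mul, mul_assoc]
  add_mem' := by
    rintro g1 g2 ⟨g1', h1⟩ ⟨g2', h2⟩
    refine ⟨g1' + g2', fun b hb => ?_⟩
    rw [mul_add, h1 b hb, h2 b hb, transpose_add, add_mul]
  algebraMap_mem' := by
    intro r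
    refine ⟨algebraMap ℂ (Matrix B B ℂ) r, fun b _ => ?_⟩
    rw [Matrix.algebraMap_eq_diagonal, diagonal_transpose, ← Matrix.algebraMap_eq_diagonal]
    exact (Algebra.commutes r b).symm

theorem mem_G0 {g : Matrix B B ℂ} : g ∈ G0 D ↔ ∃ g' : Matrix B B ℂ, ∀ b, HB D b →
    b * g = g'ᵀ * b := Iff.rfl

theorem lieM_G0 {X : Matrix B B ℂ} (hX : X ∈ lieM D ℂ) : X ∈ G0 D := by
  refine ⟨-X, fun b hb => ?_⟩
  rw [transpose_neg, neg_mul]
  exact eq_neg_of_add_eq_zero_right (hb X hX)

/-- The forms in `MX` are equivariant. -/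
theorem ev2_smul {P : (κ → B) → (κ → B) → ℂ} (hP : P ∈ MX D κ) {g g' : Matrix B B ℂ}
    (hg : ∀ b, HB D b → b * g = g'ᵀ * b) (y x : κ → B → ℂ) :
    ev2 P (fun k => g *ᵥ y k) x = ev2 P y (fun k => g' *ᵥ x k) := by
  unfold MX at hP
  induction hP using Submodule.span_induction with
  | zero => simp [ev2]
  | add p q _ _ hp hq =>
    have h1 : ∀ y x, ev2 (p + q) y x = ev2 p y x + ev2 q y x := by
      intro y x
      simp only [ev2, Pi.add_apply, add_mul, Finset.sum_add_distrib]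
    rw [h1, h1, hp, hq]
  | smul r p _ hp =>
    have h1 : ∀ y x, ev2 (r • p) y x = r * ev2 p y x := by
      intro y x
      simp only [ev2, Pi.smul_apply, smul_eq_mul, Finset.mul_sum, mul_assoc]
    rw [h1, h1, hp]
  | mem P hP =>
    obtain ⟨τ, b, hb, rfl⟩ := hP
    rw [ev2_mix, ev2_mix]
    refine Finset.prod_congr rfl fun k _ => ?_
    rw [mulVec_mulVec, hg (b k) (hb k), ← mulVec_mulVec, dotProduct_mulVec, vecMul_transpose]

theorem evalF_ev2 (P : (κ → B) → (κ → B) → ℂ) (y : κ → B → ℂ) (I' : κ → B) :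
    evalF (fun I => P I I') y = ev2 P y (fun k => Pi.single (I' k) 1) := by
  unfold ev2 evalF
  refine Finset.sum_congr rfl fun I _ => ?_
  have h1 := evalF_single (fun J => P I J * ∏ k, y k (I k)) I'
  unfold evalF at h1
  rw [h1]

theorem ev2_evalF (P : (κ → B) → (κ → B) → ℂ) (y x : κ → B → ℂ) :
    ev2 P y x = ∑ I', (∏ k, x k (I' k)) * evalF (fun I => P I I') y := by
  unfold ev2 evalF
  rw [Finset.sum_comm]
  refine Finset.sum_congr rfl fun I' _ => ?_
  rw [Finset.mul_sum]
  exact Finset.sum_congr rfl fun I _ => by ring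

/-- If the form vanishes for vectors of a set, it vanishes on the images of the set. -/
theorem van_smul {P : (κ → B) → (κ → B) → ℂ} (hP : P ∈ MX D κ) {g : Matrix B B ℂ}
    (hg : g ∈ G0 D) {y : κ → B → ℂ} (hy : ∀ I', evalF (fun I => P I I') y = 0) (I' : κ → B) :
    evalF (fun I => P I I') (fun k => g *ᵥ y k) = 0 := by
  obtain ⟨g', hg'⟩ := hg
  rw [evalF_ev2, ev2_smul hP hg', ev2_evalF]
  exact Finset.sum_eq_zero fun J _ => by rw [hy, mul_zero]

section units

variable {ev : 𝒜 → R → B → ℂ} (hinv : ∀ x, inv (inv x) = x) (hj0 : ∀ x, jj x ≠ 0)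
  (hcls : ∀ x, cls (inv x) = cls x)
  (hlift : ∀ b d, cls b = cls d → ∃ X ∈ lieM D ℂ, ∀ a r,
      X *ᵥ ev a r = JJ inv jj d r • ev a b + JJ inv jj b r • ev a d)

include hinv hj0 hlift in
theorem unit_inv (b : R) : ∃ g ∈ G0 D, ∀ a t, g *ᵥ ev a t = if t = inv b then ev a b else 0 := by
  obtain ⟨X, hX, hX'⟩ := hlift b b rfl
  refine ⟨(2 * jj b)⁻¹ • X, Subalgebra.smul_mem _ (lieM_G0 hX) _, fun a t => ?_⟩
  rw [smul_mulVec, hX']
  unfold JJ
  by_cases h : t = inv b
  · rw [if_pos h, if_pos h, ← add_smul, smul_smul]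
    have h1 : (2 * jj b)⁻¹ * (jj b + jj b) = 1 := by
      have := hj0 b
      field_simp
      ring
    rw [h1, one_smul]
  · rw [if_neg h, if_neg h, zero_smul, add_zero, smul_zero]

include hinv hj0 hcls hlift in
/-- Matrix units. -/
theorem unit_all (r s : R) (hrs : cls r = cls s) :
    ∃ g ∈ G0 D, ∀ a t, g *ᵥ ev a t = if t = s then ev a r else 0 := by
  obtain ⟨g1, hg1, hg1'⟩ := unit_inv hinv hj0 hlift r
  by_cases h : s = inv r
  · exact ⟨g1, hg1, fun a t => by rw [hg1', h]⟩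
  · obtain ⟨g2, hg2, hg2'⟩ := unit_inv hinv hj0 hlift (inv r)
    obtain ⟨X, hX, hX'⟩ := hlift r (inv s) (by rw [hcls, hrs])
    refine ⟨(jj (inv s))⁻¹ • (g1 * g2 * X), Subalgebra.smul_mem _
      (mul_mem (mul_mem hg1 hg2) (lieM_G0 hX)) _, fun a t => ?_⟩
    have h1 : ∀ t, (g1 * g2) *ᵥ ev a t = if t = r then ev a r else 0 := by
      intro t
      rw [← mulVec_mulVec, hg2', hinv]
      by_cases ht : t = r
      · rw [if_pos ht, if_pos ht, hg1', if_pos rfl]
      · rw [if_neg ht, if_neg ht, mulVec_zero]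
    rw [smul_mulVec, ← mulVec_mulVec, hX', mulVec_add, mulVec_smul, mulVec_smul, h1, h1,
      if_pos rfl, if_neg (fun h2 => h (by rw [← h2, hinv])), smul_zero, add_zero]
    unfold JJ
    rw [hinv]
    by_cases ht : t = s
    · rw [if_pos ht, if_pos ht, smul_smul, inv_mul_cancel₀ (hj0 _), one_smul]
    · rw [if_neg ht, if_neg ht, zero_smul, smul_zero]

include hinv hj0 hcls hlift in
/-- All block matrices. -/
theorem block_all {Γ : Type*} [Fintype Γ] [DecidableEq Γ] (ι : Γ → R)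
    (hι : Function.Injective ι) (Y : Γ → R → ℂ) :
    ∃ g ∈ G0 D, ∀ a γ, g *ᵥ ev a (ι γ) =
      ∑ r, (if cls r = cls (ι γ) then Y γ r else 0) • ev a r := by
  have h1 : ∀ (γ : Γ) (r : R), ∃ g ∈ G0 D, ∀ a t, g *ᵥ ev a t =
      if t = ι γ then (if cls r = cls (ι γ) then Y γ r else 0) • ev a r else 0 := by
    intro γ r
    by_cases h : cls r = cls (ι γ)
    · obtain ⟨g, hg, hg'⟩ := unit_all hinv hj0 hcls hlift r (ι γ) h
      refine ⟨Y γ r • g, Subalgebra.smul_mem _ hg _, fun a t => ?_⟩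
      rw [smul_mulVec, hg', if_pos h]
      split_ifs
      · rfl
      · rw [smul_zero]
    · refine ⟨0, zero_mem _, fun a t => ?_⟩
      rw [zero_mulVec, if_neg h, zero_smul, ite_self]
  choose g hg hg' using h1
  refine ⟨∑ γ, ∑ r, g γ r, sum_mem fun γ _ => sum_mem fun r _ => hg γ r, fun a γ => ?_⟩
  rw [sum_mulVec, Finset.sum_eq_single γ]
  · rw [sum_mulVec]
    exact Finset.sum_congr rfl fun r _ => by rw [hg', if_pos rfl]
  · intro γ' _ hne
    rw [sum_mulVec]
    exact Finset.sum_eq_zero fun r _ => by rw [hg', if_neg fun h => hne (hι h).symm]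
  · intro h
    exact absurd (Finset.mem_univ _) h

end units

/-- **The core**: if a form in two groups of variables is a combination of products of invariant
bilinear forms between the groups, and if it vanishes whenever the vectors of the first group are
fixed by the operator, then it is in the ideal generated by the invariant bilinear forms. -/
theorem core {cl : 𝒜 → Q} {co : 𝒜 → Matrix R B ℂ} {ev : 𝒜 → R → B → ℂ} {sg : R → Prop}
    [DecidablePred sg]
    (hinv : ∀ x, inv (inv x) = x) (hjj : ∀ x, jj (inv x) = -jj x) (hj0 : ∀ x, jj x ≠ 0)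
    (hcls : ∀ x, cls (inv x) = cls x) (hsg : ∀ x, sg (inv x) ↔ ¬sg x)
    (hid : ∀ i : B, (Pi.single i 1 : B → ℂ) = ∑ a, ∑ r, co a r i • ev a r)
    (hev : ∀ a r, cls r ≠ cl a → ev a r = 0)
    (hlift : ∀ b d, cls b = cls d → ∃ X ∈ lieM D ℂ, ∀ a r,
      X *ᵥ ev a r = JJ inv jj d r • ev a b + JJ inv jj b r • ev a d)
    (hbil : ∀ (a a' : 𝒜) (q : Q), HB D
      ((co a)ᵀ * (Matrix.of fun x y => JQ cls inv jj q x y) * co a'))
    (hD : ∀ a r, sg r → D *ᵥ ev a r = ev a r)
    {P : (κ → B) → (κ → B) → ℂ} (hP : P ∈ MX D κ)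
    (hv : ∀ (y : κ → B → ℂ), (∀ k, D *ᵥ y k = y k) → ∀ I', evalF (fun I => P I I') y = 0)
    (I' : κ → B) : (fun I => P I I') ∈ IdC D κ := by
  rw [← TmM_coef hid (fun I => P I I')]
  refine Submodule.sum_mem _ fun α _ => TmM_IdlR (fun k l q => hbil (α k) (α l) q) ?_
  obtain ⟨F, hF⟩ : ∃ F : (κ → R) → ℂ,
    F = fun X => evalF (fun I => P I I') (fun k => ev (α k) (X k)) := ⟨_, rfl⟩
  rw [← hF]
  have hcard : ∀ q, Fintype.card {r // cls r = q} ≤
      2 * Fintype.card {γ : {r // sg r} // cls γ.1 = q} := by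
    intro q
    have h1 : Fintype.card {r // cls r = q} =
        Fintype.card {γ : {r // sg r} // cls γ.1 = q} +
          Fintype.card {γ : {r // ¬sg r} // cls γ.1 = q} := by
      rw [← Fintype.card_sum]
      refine Fintype.card_congr ⟨fun r => if h : sg r.1 then Sum.inl ⟨⟨r.1, h⟩, r.2⟩ else
        Sum.inr ⟨⟨r.1, h⟩, r.2⟩, fun x => Sum.elim (fun y => ⟨y.1.1, y.2⟩)
          (fun y => ⟨y.1.1, y.2⟩) x, ?_, ?_⟩
      · intro r
        by_cases h : sg r.1 <;> simp [h]
      · rintro (⟨⟨x, hx⟩, hx'⟩ | ⟨⟨x, hx⟩, hx'⟩) <;> simp [hx]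
    have h2 : Fintype.card {γ : {r // ¬sg r} // cls γ.1 = q} ≤
        Fintype.card {γ : {r // sg r} // cls γ.1 = q} := by
      refine Fintype.card_le_of_injective
        (fun γ => ⟨⟨inv γ.1.1, (hsg _).2 γ.1.2⟩, by rw [hcls, γ.2]⟩) ?_
      rintro ⟨⟨x, hx⟩, hx'⟩ ⟨⟨y, hy⟩, hy'⟩ h
      have h3 : inv x = inv y := congrArg (fun z => z.1.1) h
      have h4 : x = y := by rw [← hinv x, h3, hinv]
      subst h4
      rfl
    omega
  refine antiSpan_le hinv hjj hj0 hcls (fun k => cl (α k))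
    (fun q => Fintype.card {γ : {r // sg r} // cls γ.1 = q}) hcard ?_
  refine mem_anti_of_van (Γ := {r // sg r}) cls (fun γ => cls γ.1) (fun k => cl (α k)) F ?_ ?_
  · intro X hX k
    by_contra hk
    apply hX
    rw [hF]
    have h3 : (fun k => ev (α k) (X k)) = Function.update (fun k => ev (α k) (X k)) k
        ((0 : ℂ) • (0 : B → ℂ)) := by
      rw [zero_smul, ← hev _ _ hk, Function.update_eq_self]
    change evalF _ (fun k => ev (α k) (X k)) = 0
    rw [h3, evalF_update_smul, zero_mul]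
  · intro c hc Y
    have h1 : ∑ X, F X * ∏ k, Y (c k) (X k) =
        evalF (fun I => P I I') (fun k => ∑ r, Y (c k) r • ev (α k) r) := by
      rw [← evalM_apply, MultilinearMap.map_sum]
      refine Finset.sum_congr rfl fun X _ => ?_
      rw [MultilinearMap.map_smul_univ, evalM_apply, smul_eq_mul, mul_comm, hF]
    obtain ⟨g, hg, hg'⟩ := block_all (D := D) (ev := ev) hinv hj0 hcls hlift
      (fun γ : {r // sg r} => γ.1) Subtype.val_injective Y
    have h2 : (fun k => ∑ r, Y (c k) r • ev (α k) r) = fun k => g *ᵥ ev (α k) (c k).1 := by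
      funext k
      rw [hg' (α k) (c k)]
      refine Finset.sum_congr rfl fun r _ => ?_
      by_cases h : cls r = cls (c k).1
      · rw [if_pos h]
      · have h3 : cls (c k).1 = cl (α k) := hc k
        rw [if_neg h, zero_smul, hev, smul_zero]
        rw [← h3]
        exact h
    rw [h1, h2]
    exact van_smul hP hg (fun J => hv _ (fun k => hD _ _ (c k).2) J) I'

end

end Pool.Agent.TH131.GHC
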