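import Mathlib
import Pool.Agent.W437.HP.Link
import Pool.Agent.W437.HD.Darboux

/-!
# Symplectic bases adapted to an involution of the symplectic Lie algebra
-/

set_option linter.unusedSectionVars false

namespace Pool.Agent.TH131.GHC

open Module Pool.Agent.H204R3.SP Pool.Agent.W437.HD Pool.Agent.W437.HP

noncomputable section

/-- A symplectic basis of eigenvectors. -/
theorem exists_darboux_D {V : Type*} [AddCommGroup V] [Module ℂ V] [FiniteDimensional ℂ V]
    (ω : V →ₗ[ℂ] V →ₗ[ℂ] ℂ) (halt : ∀ v, ω v v = 0) (hnd : ∀ u, (∀ v, ω u v = 0) → u = 0)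
    (A : Module.End ℂ V) (hA : ∀ v, A (A v) = v) (hsp : IsSp ω A) :
    ∃ (p : ℕ) (e : Basis (Fin p ⊕ Fin p) ℂ V), (∀ i, A (e (Sum.inl i)) = e (Sum.inl i)) ∧
      (∀ i, A (e (Sum.inr i)) = -e (Sum.inr i)) ∧
      ∀ x y, ω (e x) (e y) = JJ Sum.swap (Sum.elim (fun _ => (1 : ℂ)) (fun _ => -1)) x y := by
  have hanti := alt_anti halt
  let P : Submodule ℂ V := LinearMap.ker (A - 1)
  let M : Submodule ℂ V := LinearMap.ker (A + 1)
  have hP : ∀ x, x ∈ P ↔ A x = x := by
    intro x
    rw [LinearMap.mem_ker, LinearMap.sub_apply, Module.End.one_apply, sub_eq_zero]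
  have hM : ∀ x, x ∈ M ↔ A x = -x := by
    intro x
    rw [LinearMap.mem_ker, LinearMap.add_apply, Module.End.one_apply, eq_neg_iff_add_eq_zero]
  have hPP : ∀ x ∈ P, ∀ y ∈ P, ω x y = 0 := by
    intro x hx y hy
    have h1 := hsp x y
    rw [(hP x).1 hx, (hP y).1 hy] at h1
    have h2 : (2 : ℂ) * ω x y = 0 := by linear_combination h1
    exact (mul_eq_zero.1 h2).resolve_left two_ne_zero
  have hMM : ∀ x ∈ M, ∀ y ∈ M, ω x y = 0 := by
    intro x hx y hy
    have h1 := hsp x y
    rw [(hM x).1 hx, (hM y).1 hy] at h1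
    simp only [map_neg, LinearMap.neg_apply] at h1
    have h2 : (2 : ℂ) * ω x y = 0 := by linear_combination -h1
    exact (mul_eq_zero.1 h2).resolve_left two_ne_zero
  have hc : IsCompl P M := by
    rw [isCompl_iff, Submodule.disjoint_def, codisjoint_iff, eq_top_iff]
    refine ⟨fun x hx hx' => ?_, fun x _ => ?_⟩
    · have h1 := (hP x).1 hx
      rw [(hM x).1 hx'] at h1
      have h2 : (2 : ℂ) • x = 0 := by
        rw [two_smul]
        nth_rewrite 1 [← h1]
        exact neg_add_cancel x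
      exact (smul_eq_zero.1 h2).resolve_left two_ne_zero
    · rw [Submodule.mem_sup]
      refine ⟨(2 : ℂ)⁻¹ • (x + A x), Submodule.smul_mem _ _ ?_, (2 : ℂ)⁻¹ • (x - A x),
        Submodule.smul_mem _ _ ?_, ?_⟩
      · rw [hP, map_add, hA, add_comm]
      · rw [hM, map_sub, hA, neg_sub]
      · rw [← smul_add, add_add_sub_cancel, ← two_smul ℂ x, smul_smul,
          inv_mul_cancel₀ (two_ne_zero), one_smul]
  have hdec : ∀ v : V, ∃ x ∈ P, ∃ y ∈ M, x + y = v := by
    intro v
    have h1 : v ∈ P ⊔ M := by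
      rw [hc.sup_eq_top]
      trivial
    obtain ⟨x, hx, y, hy, h2⟩ := Submodule.mem_sup.1 h1
    exact ⟨x, hx, y, hy, h2⟩
  let f : M →ₗ[ℂ] (P →ₗ[ℂ] ℂ) := (ω.flip.domRestrict₁₂ M P)
  have hf : ∀ (y : M) (x : P), f y x = ω x y := fun _ _ => rfl
  let f' : P →ₗ[ℂ] (M →ₗ[ℂ] ℂ) := (ω.domRestrict₁₂ P M)
  have hf' : ∀ (x : P) (y : M), f' x y = ω x y := fun _ _ => rfl
  have hinj : Function.Injective f := by
    rw [injective_iff_map_eq_zero]
    intro y hy
    apply Subtype.ext
    refine hnd y.1 fun v => ?_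
    obtain ⟨x, hx, y', hy', rfl⟩ := hdec v
    rw [map_add, hMM _ y.2 _ hy', add_zero, hanti, ← hf y ⟨x, hx⟩, hy]
    simp
  have hinj' : Function.Injective f' := by
    rw [injective_iff_map_eq_zero]
    intro x hx
    apply Subtype.ext
    refine hnd x.1 fun v => ?_
    obtain ⟨x', hx', y', hy', rfl⟩ := hdec v
    rw [map_add, hPP _ x.2 _ hx', zero_add, ← hf' x ⟨y', hy'⟩, hx]
    simp
  have hdim1 : finrank ℂ M ≤ finrank ℂ P := by
    have h1 := LinearMap.finrank_le_finrank_of_injective hinj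
    rwa [Subspace.dual_finrank_eq] at h1
  have hdim2 : finrank ℂ P ≤ finrank ℂ M := by
    have h1 := LinearMap.finrank_le_finrank_of_injective hinj'
    rwa [Subspace.dual_finrank_eq] at h1
  let F : M ≃ₗ[ℂ] Module.Dual ℂ P := LinearEquiv.ofInjectiveOfFinrankEq f hinj (by
    rw [Subspace.dual_finrank_eq]
    exact le_antisymm hdim1 hdim2)
  let b := Module.finBasis ℂ P
  let b' : Basis (Fin (finrank ℂ P)) ℂ M := b.dualBasis.map F.symm
  have hbb : ∀ i j, ω (b i) (b' j) = if i = j then 1 else 0 := by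
    intro i j
    rw [← hf]
    have h1 : f (b' j) = b.dualBasis j := by
      have h2 : F (b' j) = b.dualBasis j := by
        simp [b']
      rw [← h2]
      rfl
    rw [h1, Basis.dualBasis_apply_self]
  refine ⟨finrank ℂ P, (b.prod b').map (Submodule.prodEquivOfIsCompl P M hc), ?_, ?_, ?_⟩
  · intro i
    simp only [Basis.map_apply, Basis.prod_apply_inl_fst, Submodule.coe_prodEquivOfIsCompl']
    simp only [Basis.prod_apply, Sum.elim_inl, Function.comp_apply, LinearMap.inl_apply,
      ZeroMemClass.coe_zero, add_zero]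
    exact (hP _).1 (b i).2
  · intro i
    simp only [Basis.map_apply, Submodule.coe_prodEquivOfIsCompl']
    simp only [Basis.prod_apply, Sum.elim_inr, Function.comp_apply, LinearMap.inr_apply,
      ZeroMemClass.coe_zero, zero_add]
    exact (hM _).1 (b' i).2
  · rintro (i | i) (j | j)
    · simp only [Basis.map_apply, Submodule.coe_prodEquivOfIsCompl', Basis.prod_apply,
        Sum.elim_inl, Function.comp_apply, LinearMap.inl_apply, ZeroMemClass.coe_zero, add_zero]
      rw [hPP _ (b i).2 _ (b j).2]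
      simp [JJ]
    · simp only [Basis.map_apply, Submodule.coe_prodEquivOfIsCompl', Basis.prod_apply,
        Sum.elim_inl, Sum.elim_inr, Function.comp_apply, LinearMap.inl_apply,
        LinearMap.inr_apply, ZeroMemClass.coe_zero, add_zero, zero_add]
      rw [hbb]
      simp [JJ, eq_comm]
    · simp only [Basis.map_apply, Submodule.coe_prodEquivOfIsCompl', Basis.prod_apply,
        Sum.elim_inl, Sum.elim_inr, Function.comp_apply, LinearMap.inl_apply,
        LinearMap.inr_apply, ZeroMemClass.coe_zero, add_zero, zero_add]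
      rw [hanti, hbb]
      by_cases h : j = i
      · simp [JJ, h]
      · simp [JJ, h]
    · simp only [Basis.map_apply, Submodule.coe_prodEquivOfIsCompl', Basis.prod_apply,
        Sum.elim_inr, Function.comp_apply, LinearMap.inr_apply, ZeroMemClass.coe_zero, zero_add]
      rw [hMM _ (b' i).2 _ (b' j).2]
      simp [JJ]

end

end Pool.Agent.TH131.GHC
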