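import Mathlib
import Pool.Agent.TH131.GHC.Core
import Pool.Agent.TH131.GHC.Darb
import Pool.Agent.W437.HR.Pcs

/-!
# The core theorem for a system of spaces
-/

set_option linter.unusedSectionVars false

namespace Pool.Agent.TH131.GHC

open Matrix Module Pool.Agent.H204R3.SP Pool.Agent.W437.HC Pool.Agent.W437.HD
  Pool.Agent.W437.HP Pool.Agent.W437.HR

/-- A form in two groups of variables which is a combination of products of invariant bilinear
forms between the groups, and which vanishes whenever the vectors of the first group are fixed by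
the operator, is in the ideal generated by the invariant bilinear forms. -/
def CoreP {B : Type*} [Fintype B] [DecidableEq B] (D : Matrix B B ℂ) : Prop :=
  ∀ (κ : Type) [Fintype κ] [DecidableEq κ] (P : (κ → B) → (κ → B) → ℂ), P ∈ MX D κ →
    (∀ (y : κ → B → ℂ), (∀ k, D *ᵥ y k = y k) → ∀ I', evalF (fun I => P I I') y = 0) →
    ∀ I', (fun I => P I I') ∈ IdC D κ

section sys

variable {B : Type*} [Fintype B] [DecidableEq B] {D : Matrix B B ℂ} {𝒜 : Type} [Fintype 𝒜]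
  [DecidableEq 𝒜] {N : 𝒜 → Type} [∀ a, AddCommGroup (N a)] [∀ a, Module ℂ (N a)]
  [∀ a, FiniteDimensional ℂ (N a)] [∀ a, Nontrivial (N a)]
  {br : lieM D ℂ → lieM D ℂ → lieM D ℂ}

/-- The core theorem for a system of spaces. -/
theorem coreP_of_sys (s : Sys (lieM D ℂ) br N) (inc : ∀ a, N a →ₗ[ℂ] (B → ℂ))
    (prj : ∀ a, (B → ℂ) →ₗ[ℂ] N a) (hip : ∀ y, y = ∑ a, inc a (prj a y))
    (hinc : ∀ a (X : lieM D ℂ) u, X.1 *ᵥ inc a u = inc a (s.ρ a X u))
    (hprj : ∀ a (X : lieM D ℂ) y, prj a (X.1 *ᵥ y) = s.ρ a X (prj a y))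
    (hD2 : ∀ a u, s.ρ a ⟨D, D_mem D⟩ (s.ρ a ⟨D, D_mem D⟩ u) = u) : CoreP D := by
  classical
  -- the classes
  let Q := Quotient (lset s)
  let r : Q → 𝒜 := Quotient.out
  have hr : ∀ (q : Q) (a : 𝒜), Lnk s (r q) a ↔ q = (Quotient.mk (lset s) a) := by
    intro q a
    constructor
    · intro h
      rw [← Quotient.out_eq q]
      exact Quotient.sound h
    · rintro rfl
      exact @Quotient.exact _ (lset s) (r (Quotient.mk (lset s) a)) a (Quotient.out_eq _)
  have : Fintype Q := Fintype.ofFinite Q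
  have hF : ∀ (q : Q) (a : 𝒜), ∃ (f : N (r q) →ₗ[ℂ] N a) (f' : N a →ₗ[ℂ] N (r q)),
      (∀ X u, f (s.ρ (r q) X u) = s.ρ a X (f u)) ∧
      (∀ X u, f' (s.ρ a X u) = s.ρ (r q) X (f' u)) ∧
      (q = Quotient.mk (lset s) a → (∀ x y, s.w a (f x) (f y) = s.w (r q) x y) ∧
        (∀ u, f (f' u) = u) ∧ (∀ u, f' (f u) = u)) ∧
      (q ≠ Quotient.mk (lset s) a → f = 0 ∧ f' = 0) := by
    intro q a
    by_cases hq : q = Quotient.mk (lset s) a
    · obtain ⟨f, h1, h2⟩ := (hr q a).2 hq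
      refine ⟨f, f.symm, h1, fun X u => ?_, fun _ => ⟨h2, fun u => f.apply_symm_apply u,
        fun u => f.symm_apply_apply u⟩, fun h => absurd hq h⟩
      change f.symm _ = s.ρ (r q) X (f.symm u)
      rw [LinearEquiv.symm_apply_eq, h1, LinearEquiv.apply_symm_apply]
    · refine ⟨0, 0, fun X u => ?_, fun X u => ?_, fun h => absurd h hq, fun _ => ⟨rfl, rfl⟩⟩
      · simp
      · simp
  choose Φ Ψ hΦe hΨe hΦΨ hΦ0 using hF
  -- symplectic bases
  have hDb := fun q : Q => exists_darboux_D (s.w (r q)) (s.alt (r q)) (s.nd (r q))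
    (s.ρ (r q) ⟨D, D_mem D⟩) (hD2 (r q)) (s.sp (r q) ⟨D, D_mem D⟩)
  choose p e h1 h2 h7 using hDb
  let inv : (Σ q : Q, Fin (p q) ⊕ Fin (p q)) → (Σ q : Q, Fin (p q) ⊕ Fin (p q)) :=
    fun y => ⟨y.1, y.2.swap⟩
  let jj : (Σ q : Q, Fin (p q) ⊕ Fin (p q)) → ℂ :=
    fun y => Sum.elim (fun _ => (1 : ℂ)) (fun _ => -1) y.2
  have hJ : ∀ (q : Q) (x x' : Fin (p q) ⊕ Fin (p q)),
      JJ inv jj (⟨q, x⟩ : Σ q, Fin (p q) ⊕ Fin (p q)) ⟨q, x'⟩ = s.w (r q) (e q x) (e q x') := by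
    intro q x x'
    rw [h7]
    unfold JJ
    by_cases hx : x' = Sum.swap x
    · rw [if_pos hx, if_pos (by rw [hx])]
    · rw [if_neg hx, if_neg]
      intro h
      apply hx
      simpa [inv] using h
  have hJ0 : ∀ (q q' : Q) (x : Fin (p q) ⊕ Fin (p q)) (x' : Fin (p q') ⊕ Fin (p q')), q ≠ q' →
      JJ inv jj (⟨q, x⟩ : Σ q, Fin (p q) ⊕ Fin (p q)) ⟨q', x'⟩ = 0 := by
    intro q q' x x' hq
    unfold JJ
    rw [if_neg]
    intro h
    exact hq (congrArg Sigma.fst h).symm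
  intro κ _ _ P hP hv I'
  refine core (D := D) (R := Σ q, Fin (p q) ⊕ Fin (p q)) (Q := Q) (cls := Sigma.fst)
    (inv := inv) (jj := jj) (𝒜 := 𝒜) (sg := fun x => x.2.isLeft = true)
    (cl := fun a => Quotient.mk (lset s) a)
    (co := fun a => Matrix.of fun y i => (e y.1).repr (Ψ y.1 a (prj a (Pi.single i 1))) y.2)
    (ev := fun a y => inc a (Φ y.1 a (e y.1 y.2))) ?_ ?_ ?_ ?_ ?_ ?_ ?_ ?_ ?_ ?_ hP hv I'
  · rintro ⟨q, x⟩
    simp only [inv, Sum.swap_swap]
  · rintro ⟨q, x | x⟩ <;> simp [inv, jj]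
  · rintro ⟨q, x | x⟩ <;> simp [jj]
  · rintro ⟨q, x⟩
    rfl
  · rintro ⟨q, x | x⟩ <;> simp [inv]
  · intro i
    conv_lhs => rw [hip (Pi.single i 1)]
    refine Finset.sum_congr rfl fun a _ => ?_
    rw [Fintype.sum_sigma]
    simp only [Matrix.of_apply]
    have h8 : ∀ q, ∑ x : Fin (p q) ⊕ Fin (p q), (e q).repr (Ψ q a (prj a (Pi.single i 1))) x •
        inc a (Φ q a (e q x)) = inc a (Φ q a (Ψ q a (prj a (Pi.single i 1)))) := by
      intro q
      conv_rhs => rw [← (e q).sum_repr (Ψ q a (prj a (Pi.single i 1)))]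
      rw [map_sum, map_sum]
      exact Finset.sum_congr rfl fun x _ => by rw [map_smul, map_smul]
    rw [Finset.sum_congr rfl (fun q _ => h8 q), Finset.sum_eq_single (Quotient.mk (lset s) a)]
    · rw [(hΦΨ _ a rfl).2.1]
    · intro q _ hq
      rw [(hΦ0 q a hq).1, LinearMap.zero_apply, map_zero]
    · intro h
      exact absurd (Finset.mem_univ _) h
  · rintro a ⟨q, x⟩ hq
    simp only at hq ⊢
    rw [(hΦ0 q a hq).1, LinearMap.zero_apply, map_zero]
  · rintro ⟨q, x⟩ ⟨q', x'⟩ hq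
    have hq' : q = q' := hq
    subst hq'
    obtain ⟨X, hX1, hX2, hX3⟩ := lift_class s (r q) (e q x) (e q x')
    refine ⟨X.1, X.2, ?_⟩
    rintro a ⟨q2, z⟩
    simp only
    rw [hinc]
    by_cases hqa : q = Quotient.mk (lset s) a
    · by_cases hq2 : q2 = q
      · subst hq2
        rw [hJ, hJ]
        let f : N (r q2) ≃ₗ[ℂ] N a := LinearEquiv.ofLinearMap (Φ q2 a) (Ψ q2 a)
          (by
            ext u
            exact (hΦΨ q2 a hqa).2.1 u)
          (by
            ext u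
            exact (hΦΨ q2 a hqa).2.2 u)
        have h8 := hX3 a f (hΦe q2 a) (hΦΨ q2 a hqa).1
        have hf : ∀ u, f u = Φ q2 a u := fun u => rfl
        rw [hf, hf] at h8
        rw [h8, EE_apply, (hΦΨ q2 a hqa).1, (hΦΨ q2 a hqa).1, map_add, map_smul, map_smul]
      · rw [hJ0 q q2 _ _ (Ne.symm hq2), hJ0 q q2 _ _ (Ne.symm hq2), zero_smul, zero_smul,
          (hΦ0 q2 a (fun h => hq2 (h.trans hqa.symm))).1, LinearMap.zero_apply, map_zero, map_zero,
          add_zero]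
    · rw [hX2 a (fun h => hqa ((hr q a).1 h)), (hΦ0 q a hqa).1]
      simp
  · intro a a' q Y hY
    obtain ⟨G, hG⟩ : ∃ G : Matrix B B ℂ, G = (Matrix.of fun (y : Σ q, Fin (p q) ⊕ Fin (p q))
        (i : B) => (e y.1).repr (Ψ y.1 a (prj a (Pi.single i 1))) y.2)ᵀ *
        (Matrix.of fun (x y : Σ q, Fin (p q) ⊕ Fin (p q)) => JQ Sigma.fst inv jj q x y) *
        (Matrix.of fun (y : Σ q, Fin (p q) ⊕ Fin (p q)) (i : B) =>
        (e y.1).repr (Ψ y.1 a' (prj a' (Pi.single i 1))) y.2) := ⟨_, rfl⟩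
    rw [← hG]
    have h8 : ∀ i j, G i j = s.w (r q) (Ψ q a (prj a (Pi.single i 1)))
        (Ψ q a' (prj a' (Pi.single j 1))) := by
      intro i j
      have h9 : G i j = ∑ y : (Σ q, Fin (p q) ⊕ Fin (p q)), ∑ y' : (Σ q, Fin (p q) ⊕ Fin (p q)),
          (e y.1).repr (Ψ y.1 a (prj a (Pi.single i 1))) y.2 * (if y.1 = q then
          JJ inv jj y y' else 0) * (e y'.1).repr (Ψ y'.1 a' (prj a' (Pi.single j 1))) y'.2 := by
        rw [hG]
        simp only [Matrix.mul_apply, Matrix.transpose_apply, Matrix.of_apply, Finset.sum_mul, JQ]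
        rw [Finset.sum_comm]
      rw [h9, Fintype.sum_sigma, Finset.sum_eq_single q]
      · conv_rhs => rw [← (e q).sum_repr (Ψ q a (prj a (Pi.single i 1))),
          ← (e q).sum_repr (Ψ q a' (prj a' (Pi.single j 1)))]
        rw [LinearMap.map_sum₂]
        refine Finset.sum_congr rfl fun x _ => ?_
        rw [Fintype.sum_sigma, Finset.sum_eq_single q]
        · rw [map_smul, LinearMap.smul_apply, map_sum, smul_eq_mul, Finset.mul_sum]
          refine Finset.sum_congr rfl fun x' _ => ?_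
          simp only [if_true]
          rw [hJ, map_smul, smul_eq_mul]
          ring
        · intro q' _ hq'
          refine Finset.sum_eq_zero fun x' _ => ?_
          simp only [if_true]
          rw [hJ0 q q' _ _ (Ne.symm hq'), mul_zero, zero_mul]
        · intro h
          exact absurd (Finset.mem_univ _) h
      · intro q' _ hq'
        refine Finset.sum_eq_zero fun x _ => Finset.sum_eq_zero fun y' _ => ?_
        simp only
        rw [if_neg hq', mul_zero, zero_mul]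
      · intro h
        exact absurd (Finset.mem_univ _) h
    -- the bilinear form
    have h9 : ∀ y y' : B → ℂ, y ⬝ᵥ (G *ᵥ y') = s.w (r q) (Ψ q a (prj a y))
        (Ψ q a' (prj a' y')) := by
      intro y y'
      have e1 : ∀ z : B → ℂ, z = ∑ i, z i • (Pi.single i 1 : B → ℂ) := by
        intro z
        funext j
        rw [Finset.sum_apply, Finset.sum_eq_single j]
        · simp
        · intro b _ hb
          rw [Pi.smul_apply, Pi.single_eq_of_ne (Ne.symm hb), smul_zero]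
        · intro h
          exact absurd (Finset.mem_univ _) h
      have e2 : Ψ q a (prj a y) = ∑ i, y i • Ψ q a (prj a (Pi.single i 1)) := by
        conv_lhs => rw [e1 y]
        rw [map_sum, map_sum]
        exact Finset.sum_congr rfl fun i _ => by rw [map_smul, map_smul]
      have e3 : Ψ q a' (prj a' y') = ∑ i, y' i • Ψ q a' (prj a' (Pi.single i 1)) := by
        conv_lhs => rw [e1 y']
        rw [map_sum, map_sum]
        exact Finset.sum_congr rfl fun i _ => by rw [map_smul, map_smul]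
      rw [e2, e3, LinearMap.map_sum₂]
      simp only [dotProduct, mulVec, map_smul, LinearMap.smul_apply, smul_eq_mul, map_sum,
        Finset.mul_sum, h8]
      refine Finset.sum_congr rfl fun i _ => Finset.sum_congr rfl fun j _ => ?_
      ring
    have h10 : ∀ y y' : B → ℂ, y ⬝ᵥ ((Yᵀ * G + G * Y) *ᵥ y') = 0 := by
      intro y y'
      rw [add_mulVec, dotProduct_add, ← mulVec_mulVec, ← mulVec_mulVec, dotProduct_mulVec y,
        vecMul_transpose, h9, h9, hprj a ⟨Y, hY⟩, hprj a' ⟨Y, hY⟩, hΨe, hΨe, s.sp, neg_add_cancel]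
    ext i j
    have h11 := h10 (Pi.single i 1) (Pi.single j 1)
    rw [mulVec_single_one, single_one_dotProduct] at h11
    exact h11
  · rintro a ⟨q, x | x⟩ hx
    · simp only
      rw [hinc a ⟨D, D_mem D⟩, ← hΦe, h1]
    · simp at hx

end sys

section glue

variable {B : Type} [Fintype B] [DecidableEq B] {D : Matrix B B ℂ} {ι : Type}
    [Fintype ι] [DecidableEq ι] {R : ι → Type} [∀ i, Fintype (R i)] [∀ i, DecidableEq (R i)]
    {D' : ∀ i, Matrix (R i) (R i) ℂ} {Om' : ∀ i, Matrix (R i) (R i) ℚ}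
    (b : Blocks B D R D' Om')

/-- The core theorem for a space with blocks which decompose into pieces. -/
theorem coreP_of_blocks
    (hnd : ∀ i, ∀ X ∈ (lieM D ℚ).map (b.bl ℚ i),
      (∀ Y ∈ (lieM D ℚ).map (b.bl ℚ i), trace (X * Y) = 0) → X = 0)
    (hD2 : ∀ i, D' i * D' i = 1) (hp : ∀ i, HasPcs (D' i)) : CoreP D := by
  classical
  choose A hA1 hA2 N w π hst hsum hnt halt hnon hsp hful hπ using hp
  let s : Sys (lieM D ℂ) (brL D) (N := fun a : (Σ i, A i) => ↥(N a.1 a.2)) :=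
    { w := fun a => w a.1 a.2
      ρ := fun a => (rsN (N a.1 a.2) (hst a.1 a.2)) ∘ₗ b.blL a.1
      alt := fun a x => halt a.1 a.2 x
      nd := fun a x hx => hnon a.1 a.2 x hx
      brk := fun a X Y => by
        rw [LinearMap.comp_apply, b.blL_brL, rsN_brL]
        rfl
      sp := fun a X => hsp a.1 a.2 (b.blL a.1 X)
      full := fun a x y => Blocks.full b a.1 (hnd a.1) (hD2 a.1) (N a.1 a.2) (w a.1 a.2)
        (hst a.1 a.2) (hnt a.1 a.2) (halt a.1 a.2) (hnon a.1 a.2) (hsp a.1 a.2)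
        (hful a.1 a.2) x y }
  have hntn : ∀ a : (Σ i, A i), Nontrivial ↥(N a.1 a.2) := fun a => hnt a.1 a.2
  refine coreP_of_sys s
    (fun a => (Matrix.mulVecLin (cK ℂ (b.P a.1))ᵀ) ∘ₗ (N a.1 a.2).subtype)
    (fun a => (π a.1 a.2) ∘ₗ (Matrix.mulVecLin (cK ℂ (b.P a.1)))) ?_ ?_ ?_ ?_
  · intro y
    have h1 : y = ∑ i, (cK ℂ (b.P i))ᵀ *ᵥ (cK ℂ (b.P i) *ᵥ y) := by
      conv_lhs => rw [← one_mulVec y, ← b.totK, sum_mulVec]
      exact Finset.sum_congr rfl fun i _ => (mulVec_mulVec _ _ _).symm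
    conv_lhs => rw [h1]
    rw [Fintype.sum_sigma]
    refine Finset.sum_congr rfl fun i _ => ?_
    conv_lhs => rw [hsum i (cK ℂ (b.P i) *ᵥ y)]
    rw [mulVec_sum]
    rfl
  · intro a X u
    change X.1 *ᵥ ((cK ℂ (b.P a.1))ᵀ *ᵥ (u : R a.1 → ℂ)) =
      (cK ℂ (b.P a.1))ᵀ *ᵥ (b.bl ℂ a.1 X.1 *ᵥ (u : R a.1 → ℂ))
    rw [mulVec_mulVec, mulVec_mulVec, b.mul_inc X.2]
  · intro a X y
    apply Subtype.ext
    change (π a.1 a.2 (cK ℂ (b.P a.1) *ᵥ (X.1 *ᵥ y)) : R a.1 → ℂ) =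
      b.bl ℂ a.1 X.1 *ᵥ (π a.1 a.2 (cK ℂ (b.P a.1) *ᵥ y) : R a.1 → ℂ)
    rw [mulVec_mulVec, b.prj_mul X.2, ← mulVec_mulVec, hπ a.1 a.2 _ (b.bl_mem X.2 a.1)]
  · intro a u
    apply Subtype.ext
    have h2 : (b.blL a.1 ⟨D, D_mem D⟩).1 = D' a.1 := b.bl_D a.1
    have h3 : (rsN (N a.1 a.2) (hst a.1 a.2) (b.blL a.1 ⟨D, D_mem D⟩)
        (rsN (N a.1 a.2) (hst a.1 a.2) (b.blL a.1 ⟨D, D_mem D⟩) u) : R a.1 → ℂ) =
        (u : R a.1 → ℂ) := by
      rw [rsN_coe, rsN_coe, mulVec_mulVec, h2, hD2, one_mulVec]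
    exact h3

end glue

section prod

variable {ι : Type} [Fintype ι] [DecidableEq ι] {g : ι → ℕ}
  (Z : ∀ i, Matrix (Fin (g i)) (Fin (g i)) ℂ)

/-- The core theorem for products. -/
theorem coreP_prod (hZ : ∀ i, (Z i)ᵀ = Z i) (hpos : ∀ i, (imM (Z i)).PosDef)
    (hp : ∀ i, HasPcs (DZ (Z i))) : CoreP (DZ (bigD ℂ Z)) :=
  coreP_of_blocks (blocksOf Z hZ hpos) (blocksOf_nondeg Z hZ hpos)
    (fun i => DZ_sq ((hpos i).isUnit.map Matrix.detMonoidHom)) hp

end prod

end Pool.Agent.TH131.GHC
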