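import Mathlib
import Pool.Agent.TH131.GHC.SysCore

/-!
# Hodge substructures of tensor spaces in coordinates
-/

set_option linter.unusedSectionVars false

namespace Pool.Agent.TH131.GHC

open Matrix Pool.Agent.H204R3.SP Pool.Agent.W437.HC Pool.Agent.W437.HP

noncomputable section

section form

variable {B : Type*} [Fintype B] [DecidableEq B] {κ : Type*} [Fintype κ] [DecidableEq κ]
  {K : Type*} [Field K]

/-- The bilinear form on the forms given by a bilinear form. -/
def EB (κ : Type*) [Fintype κ] [DecidableEq κ] (O : Matrix B B K) :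
    LinearMap.BilinForm K ((κ → B) → K) :=
  LinearMap.mk₂ K (fun c c' => ∑ I, ∑ I', c I * c' I' * ∏ k, O (I k) (I' k))
    (fun c d c' => by
      simp only [Pi.add_apply, add_mul, Finset.sum_add_distrib])
    (fun a c c' => by
      simp only [Pi.smul_apply, smul_eq_mul, Finset.mul_sum, mul_assoc])
    (fun c c' d' => by
      simp only [Pi.add_apply, mul_add, add_mul, Finset.sum_add_distrib])
    (fun a c c' => by
      simp only [Pi.smul_apply, smul_eq_mul, Finset.mul_sum]
      exact Finset.sum_congr rfl fun I _ => Finset.sum_congr rfl fun I' _ => by ring)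

theorem EB_apply (O : Matrix B B K) (c c' : (κ → B) → K) :
    EB κ O c c' = ∑ I, ∑ I', c I * c' I' * ∏ k, O (I k) (I' k) := rfl

theorem EB_swap (O : Matrix B B K) (hO : Oᵀ = -O) (c c' : (κ → B) → K) :
    EB κ O c c' = (-1) ^ Fintype.card κ * EB κ O c' c := by
  rw [EB_apply, EB_apply, Finset.sum_comm, Finset.mul_sum]
  refine Finset.sum_congr rfl fun I _ => ?_
  rw [Finset.mul_sum]
  refine Finset.sum_congr rfl fun I' _ => ?_
  have h1 : ∏ k, O (I' k) (I k) = (-1) ^ Fintype.card κ * ∏ k, O (I k) (I' k) := by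
    rw [← Finset.card_univ, ← Finset.prod_const, ← Finset.prod_mul_distrib]
    refine Finset.prod_congr rfl fun k _ => ?_
    have h2 := congrFun (congrFun hO (I k)) (I' k)
    rw [transpose_apply, Matrix.neg_apply] at h2
    rw [h2, neg_one_mul]
  rw [h1]
  ring

theorem EB_refl {O : Matrix B B K} (hO : Oᵀ = -O) : (EB κ O).IsRefl := by
  intro c c' h
  rw [EB_swap O hO, h, mul_zero]

theorem EB_transpose (O : Matrix B B K) (c c' : (κ → B) → K) :
    EB κ O c c' = EB κ Oᵀ c' c := by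
  rw [EB_apply, EB_apply, Finset.sum_comm]
  refine Finset.sum_congr rfl fun I _ => Finset.sum_congr rfl fun I' _ => ?_
  simp only [transpose_apply]
  ring

theorem EB_act_left (O X : Matrix B B K) (c c' : (κ → B) → K) :
    EB κ O (act X c) c' = ∑ k, ∑ I', ∑ I, c I * c' I' *
      ((X * O) (I k) (I' k) * ∏ l ∈ Finset.univ.erase k, O (I l) (I' l)) := by
  have e1 : ∀ (I' : κ → B) (k : κ), ∑ I : κ → B, ∑ j, X j (I k) * c (Function.update I k j) *
      c' I' * ∏ l, O (I l) (I' l) = ∑ I, c I * c' I' *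
    ((X * O) (I k) (I' k) * ∏ l ∈ Finset.univ.erase k, O (I l) (I' l)) := by
    intro I' k
    have e2 : ∀ I : κ → B, c I * c' I' *
        ((X * O) (I k) (I' k) * ∏ l ∈ Finset.univ.erase k, O (I l) (I' l)) =
        ∑ j, c I * c' I' *
        (X (I k) j * O j (I' k) * ∏ l ∈ Finset.univ.erase k, O (I l) (I' l)) := by
      intro I
      rw [Matrix.mul_apply, Finset.sum_mul, Finset.mul_sum]
    rw [Finset.sum_congr rfl (fun I _ => e2 I), ← Finset.sum_product', ← Finset.sum_product']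
    refine Finset.sum_bij' (fun p _ => (Function.update p.1 k p.2, p.1 k))
      (fun p _ => (Function.update p.1 k p.2, p.1 k)) ?_ ?_ ?_ ?_ ?_
    · intro p _; simp
    · intro p _; simp
    · intro p _; simp
    · intro p _; simp
    · intro p _
      simp only [Function.update_self]
      rw [← Finset.mul_prod_erase _ _ (Finset.mem_univ k)]
      have h4 : ∏ l ∈ Finset.univ.erase k, O (Function.update p.1 k p.2 l) (I' l) =
          ∏ l ∈ Finset.univ.erase k, O (p.1 l) (I' l) := by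
        refine Finset.prod_congr rfl fun l hl => ?_
        rw [Function.update_of_ne (Finset.ne_of_mem_erase hl)]
      rw [h4]
      ring
  rw [EB_apply, Finset.sum_comm, Finset.sum_comm (s := Finset.univ (α := κ))]
  refine Finset.sum_congr rfl fun I' _ => ?_
  rw [← Finset.sum_congr rfl (fun k _ => e1 I' k), Finset.sum_comm]
  refine Finset.sum_congr rfl fun I _ => ?_
  simp only [act, Finset.sum_mul]

/-- Skewness of the action. -/
theorem EB_act {O X : Matrix B B K} (hX : X * O + O * Xᵀ = 0) (c c' : (κ → B) → K) :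
    EB κ O (act X c) c' + EB κ O c (act X c') = 0 := by
  rw [EB_transpose O c, EB_act_left, EB_act_left, ← Finset.sum_add_distrib]
  refine Finset.sum_eq_zero fun k _ => ?_
  rw [Finset.sum_comm (f := fun I' I => c' I * c I' * ((X * Oᵀ) (I k) (I' k) *
    ∏ l ∈ Finset.univ.erase k, Oᵀ (I l) (I' l))), ← Finset.sum_add_distrib]
  refine Finset.sum_eq_zero fun I' _ => ?_
  rw [← Finset.sum_add_distrib]
  refine Finset.sum_eq_zero fun I _ => ?_
  have h1 := congrFun (congrFun hX (I k)) (I' k)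
  rw [Matrix.add_apply, Matrix.zero_apply] at h1
  have h2 : (X * Oᵀ) (I' k) (I k) = (O * Xᵀ) (I k) (I' k) := by
    rw [← transpose_apply (X * Oᵀ), transpose_mul, transpose_transpose]
  rw [h2]
  simp only [transpose_apply]
  linear_combination (c I * c' I' * ∏ l ∈ Finset.univ.erase k, O (I l) (I' l)) * h1

end form

section hodge

variable {B : Type*} [Fintype B] [DecidableEq B] {D : Matrix B B ℂ}
  {κ : Type*} [Fintype κ] [DecidableEq κ] {κ' : Type*} [Fintype κ'] [DecidableEq κ']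

/-- The eigenspaces of the operator on the forms. -/
def eigF (D : Matrix B B ℂ) (κ : Type*) [Fintype κ] [DecidableEq κ] (a : ℤ) :
    Submodule ℂ ((κ → B) → ℂ) where
  carrier := {c | act D c = (a : ℂ) • c}
  zero_mem' := by
    change act D 0 = _
    rw [act_zero_right, smul_zero]
  add_mem' := by
    intro c d hc hd
    change act D (c + d) = _
    rw [act_add_right, show act D c = _ from hc, show act D d = _ from hd, smul_add]
  smul_mem' := by
    intro r c hc
    change act D (r • c) = _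
    rw [act_smul_right, show act D c = _ from hc, smul_comm]

theorem mem_eigF {a : ℤ} {c : (κ → B) → ℂ} : c ∈ eigF D κ a ↔ act D c = (a : ℂ) • c := Iff.rfl

/-- The complexification of a space of rational forms. -/
def cx (V : Submodule ℚ ((κ → B) → ℚ)) : Submodule ℂ ((κ → B) → ℂ) :=
  Submodule.span ℂ (cst ℂ '' (V : Set ((κ → B) → ℚ)))

theorem cst_mem_cx {V : Submodule ℚ ((κ → B) → ℚ)} {c : (κ → B) → ℚ} (hc : c ∈ V) :
    cst ℂ c ∈ cx V := Submodule.subset_span ⟨c, hc, rfl⟩

theorem cx_mono {V W : Submodule ℚ ((κ → B) → ℚ)} (h : V ≤ W) : cx V ≤ cx W :=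
  Submodule.span_mono (Set.image_mono h)

/-- The space of rational forms is a Hodge substructure of level at most `L`. -/
def HL (D : Matrix B B ℂ) (L : ℤ) (V : Submodule ℚ ((κ → B) → ℚ)) : Prop :=
  ∀ c ∈ V, cst ℂ c ∈ ⨆ a : {a : ℤ // |a| ≤ L}, cx V ⊓ eigF D κ a.1

theorem HL_cx {L : ℤ} {V : Submodule ℚ ((κ → B) → ℚ)} (h : HL D L V) :
    cx V ≤ ⨆ a : {a : ℤ // |a| ≤ L}, cx V ⊓ eigF D κ a.1 := by
  refine Submodule.span_le.2 ?_
  rintro _ ⟨c, hc, rfl⟩
  exact h c hc

theorem HL_act {L : ℤ} {V : Submodule ℚ ((κ → B) → ℚ)} (h : HL D L V) {z : (κ → B) → ℂ}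
    (hz : z ∈ cx V) : act D z ∈ cx V := by
  have h1 := HL_cx h hz
  induction h1 using Submodule.iSup_induction' with
  | mem a x hx =>
    rw [mem_eigF.1 hx.2]
    exact Submodule.smul_mem _ _ hx.1
  | zero =>
    rw [act_zero_right]
    exact Submodule.zero_mem _
  | add x y hx hy hx' hy' =>
    rw [act_add_right]
    have h2 : ∀ x ∈ ⨆ a : {a : ℤ // |a| ≤ L}, cx V ⊓ eigF D κ a.1, x ∈ cx V := by
      intro x hx
      refine (iSup_le fun a => inf_le_left : (⨆ a : {a : ℤ // |a| ≤ L},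
        cx V ⊓ eigF D κ a.1) ≤ cx V) hx
    exact Submodule.add_mem _ (hx' (h2 _ hx)) (hy' (h2 _ hy))

/-- Morphisms of Hodge structures. -/
def IsHM (D : Matrix B B ℂ) (f : ((κ → B) → ℚ) →ₗ[ℚ] ((κ' → B) → ℚ)) : Prop :=
  ∃ fC : ((κ → B) → ℂ) →ₗ[ℂ] ((κ' → B) → ℂ), (∀ c, fC (cst ℂ c) = cst ℂ (f c)) ∧
    ∀ c, act D (fC c) = fC (act D c)

theorem HL_map {f : ((κ → B) → ℚ) →ₗ[ℚ] ((κ' → B) → ℚ)} (hf : IsHM D f) {L : ℤ}
    {V : Submodule ℚ ((κ → B) → ℚ)} (hV : HL D L V) : HL D L (V.map f) := by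
  obtain ⟨fC, h1, h2⟩ := hf
  rintro _ ⟨v, hv, rfl⟩
  rw [← h1]
  have h3 := Submodule.mem_map_of_mem (f := fC) (hV v hv)
  rw [Submodule.map_iSup] at h3
  refine SetLike.le_def.1 (iSup_mono fun a => ?_) h3
  rintro _ ⟨x, hx, rfl⟩
  refine ⟨?_, ?_⟩
  · have h4 : ∀ x ∈ cx V, fC x ∈ cx (V.map f) := by
      intro x hx
      have h5 := Submodule.mem_map_of_mem (f := fC) hx
      unfold cx at h5
      rw [Submodule.map_span] at h5
      refine Submodule.span_mono ?_ h5
      rintro _ ⟨_, ⟨c, hc, rfl⟩, rfl⟩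
      exact ⟨f c, Submodule.mem_map_of_mem hc, (h1 c).symm⟩
    exact h4 x hx.1
  · change act D (fC x) = _
    rw [h2, mem_eigF.1 hx.2, map_smul]

theorem HL_sSup {L : ℤ} {S : Set (Submodule ℚ ((κ → B) → ℚ))} (hS : ∀ V ∈ S, HL D L V) :
    HL D L (sSup S) := by
  intro c hc
  rw [sSup_eq_iSup'] at hc
  induction hc using Submodule.iSup_induction' with
  | mem V x hx =>
    refine SetLike.le_def.1 (iSup_mono fun a => ?_) (hS V.1 V.2 x hx)
    exact inf_le_inf_right _ (cx_mono (le_sSup V.2))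
  | zero =>
    rw [cst_zero]
    exact Submodule.zero_mem _
  | add x y _ _ hx hy =>
    rw [cst_add]
    exact Submodule.add_mem _ hx hy

theorem HL_mono {L L' : ℤ} (h : L ≤ L') {V : Submodule ℚ ((κ → B) → ℚ)} (hV : HL D L V) :
    HL D L' V := by
  intro c hc
  have h1 := hV c hc
  refine (iSup_le fun a => ?_ : (⨆ a : {a : ℤ // |a| ≤ L}, cx V ⊓ eigF D κ a.1) ≤ _) h1
  exact le_iSup_of_le (⟨a.1, a.2.trans h⟩ : {a : ℤ // |a| ≤ L'}) le_rfl

end hodge

end

end Pool.Agent.TH131.GHC
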