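import Mathlib
import Pool.Agent.TH131.GHC.Hod

/-!
# The polarization is nondegenerate on Hodge substructures
-/

set_option linter.unusedSectionVars false

namespace Pool.Agent.TH131.GHC

open Matrix Pool.Agent.H204R3.SP Pool.Agent.W437.HC Pool.Agent.W437.HP

noncomputable section

section form

variable {B : Type*} [Fintype B] [DecidableEq B] {κ : Type*} [Fintype κ] [DecidableEq κ]
  {K : Type*} [Field K]

/-- The substitution of a matrix in all variables. -/
def wl (J : Matrix B B K) (c : (κ → B) → K) : (κ → B) → K :=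
  fun I => ∑ I', c I' * ∏ k, J (I' k) (I k)

theorem wl_add (J : Matrix B B K) (c d : (κ → B) → K) : wl J (c + d) = wl J c + wl J d := by
  funext I
  simp only [wl, Pi.add_apply, add_mul, Finset.sum_add_distrib]

theorem evalF_wl (J : Matrix B B K) (c : (κ → B) → K) (x : κ → B → K) :
    evalF (wl J c) x = evalF c (fun k => J *ᵥ x k) := by
  unfold evalF wl
  simp only [Finset.sum_mul]
  rw [Finset.sum_comm]
  refine Finset.sum_congr rfl fun I' _ => ?_
  simp only [mulVec, dotProduct]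
  rw [Finset.prod_univ_sum, Fintype.piFinset_univ, Finset.mul_sum]
  refine Finset.sum_congr rfl fun I _ => ?_
  rw [Finset.prod_mul_distrib]
  ring

theorem EB_wl (O J : Matrix B B K) (c c' : (κ → B) → K) :
    EB κ O c (wl J c') = ∑ I, ∑ I', c I * c' I' * ∏ k, (O * Jᵀ) (I k) (I' k) := by
  rw [EB_apply]
  refine Finset.sum_congr rfl fun I _ => ?_
  have h1 : ∀ I' : κ → B, c I * wl J c' I' * ∏ k, O (I k) (I' k) =
      ∑ I'', c I * c' I'' * ∏ k, (O (I k) (I' k) * J (I'' k) (I' k)) := by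
    intro I'
    unfold wl
    rw [Finset.mul_sum, Finset.sum_mul]
    refine Finset.sum_congr rfl fun I'' _ => ?_
    rw [Finset.prod_mul_distrib]
    ring
  rw [Finset.sum_congr rfl (fun I' _ => h1 I'), Finset.sum_comm]
  refine Finset.sum_congr rfl fun I'' _ => ?_
  rw [← Finset.mul_sum]
  congr 1
  simp only [Matrix.mul_apply, transpose_apply]
  rw [Finset.prod_univ_sum, Fintype.piFinset_univ]

end form

section eig

variable {B : Type*} [Fintype B] [DecidableEq B] {D : Matrix B B ℂ}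
  {κ : Type*} [Fintype κ] [DecidableEq κ]

/-- Forms which agree on the tuples of eigenvectors are equal. -/
theorem eq_of_eig (hD : D * D = 1) {c c' : (κ → B) → ℂ}
    (h : ∀ (x : κ → B → ℂ) (ε : κ → ℤ), (∀ k, ε k = 1 ∨ ε k = -1) →
      (∀ k, D *ᵥ x k = (ε k : ℂ) • x k) → evalF c x = evalF c' x) : c = c' := by
  have h2 : c - c' = 0 := by
    apply eq_zero_of_evalF
    intro x
    have h3 : x = (fun k => (2 : ℂ)⁻¹ • (x k + D *ᵥ x k)) +
        fun k => (2 : ℂ)⁻¹ • (x k - D *ᵥ x k) := by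
      funext k
      rw [Pi.add_apply, ← smul_add, add_add_sub_cancel, ← two_smul ℂ (x k), smul_smul,
        inv_mul_cancel₀ (two_ne_zero), one_smul]
    have h4 : ∀ y : B → ℂ, D *ᵥ (D *ᵥ y) = y := by
      intro y
      rw [mulVec_mulVec, hD, one_mulVec]
    rw [h3, ← evalM_apply, MultilinearMap.map_add_univ]
    refine Finset.sum_eq_zero fun s _ => ?_
    have h5 := h (s.piecewise (fun k => (2 : ℂ)⁻¹ • (x k + D *ᵥ x k))
      (fun k => (2 : ℂ)⁻¹ • (x k - D *ᵥ x k))) (s.piecewise (fun _ => 1) (fun _ => -1)) ?_ ?_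
    · rw [evalM_apply]
      have h6 : ∀ y : κ → B → ℂ, evalF (c - c') y = evalF c y - evalF c' y := by
        intro y
        simp only [evalF, Pi.sub_apply, sub_mul, Finset.sum_sub_distrib]
      rw [h6, h5, sub_self]
    · intro k
      by_cases hk : k ∈ s
      · left
        rw [Finset.piecewise_eq_of_mem _ _ _ hk]
      · right
        rw [Finset.piecewise_eq_of_notMem _ _ _ hk]
    · intro k
      by_cases hk : k ∈ s
      · rw [Finset.piecewise_eq_of_mem _ _ _ hk, Finset.piecewise_eq_of_mem _ _ _ hk,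
          mulVec_smul, mulVec_add, h4, add_comm, Int.cast_one, one_smul]
      · rw [Finset.piecewise_eq_of_notMem _ _ _ hk, Finset.piecewise_eq_of_notMem _ _ _ hk,
          mulVec_smul, mulVec_sub, h4, Int.cast_neg, Int.cast_one, neg_smul, one_smul,
          ← smul_neg, neg_sub]
  exact sub_eq_zero.1 h2

/-- The values of an eigenform on eigenvectors. -/
theorem evalF_eig {a : ℤ} {c : (κ → B) → ℂ} (hc : c ∈ eigF D κ a) (x : κ → B → ℂ)
    (ε : κ → ℤ) (hx : ∀ k, D *ᵥ x k = (ε k : ℂ) • x k) (h0 : evalF c x ≠ 0) :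
    a = ∑ k, ε k := by
  have h1 : evalF (act D c) x = (a : ℂ) * evalF c x := by
    rw [mem_eigF.1 hc]
    simp only [evalF, Pi.smul_apply, smul_eq_mul, Finset.mul_sum, mul_assoc]
  rw [evalF_act] at h1
  have h2 : ∀ k, evalF c (Function.update x k (D *ᵥ x k)) = (ε k : ℂ) * evalF c x := by
    intro k
    rw [hx, evalF_update_smul, Function.update_eq_self]
  rw [Finset.sum_congr rfl (fun k _ => h2 k), ← Finset.sum_mul] at h1
  have h3 := mul_right_cancel₀ h0 h1
  exact_mod_cast h3.symm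

theorem prod_zpow_eq (z : ℂ) (hz : z ≠ 0) (ε : κ → ℤ) : ∏ k, z ^ ε k = z ^ ∑ k, ε k := by
  classical
  induction (Finset.univ : Finset κ) using Finset.induction_on with
  | empty => simp
  | insert a s ha ih => rw [Finset.prod_insert ha, Finset.sum_insert ha, ih, zpow_add₀ hz]

/-- The Weil operator is a scalar on eigenforms. -/
theorem wl_eig (hD : D * D = 1) {a : ℤ} {c : (κ → B) → ℂ} (hc : c ∈ eigF D κ a) :
    wl (Complex.I • D) c = (Complex.I ^ a) • c := by
  refine eq_of_eig hD fun x ε hε hx => ?_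
  have h1 : evalF ((Complex.I ^ a) • c) x = Complex.I ^ a * evalF c x := by
    simp only [evalF, Pi.smul_apply, smul_eq_mul, Finset.mul_sum, mul_assoc]
  have h2 : (fun k => (Complex.I • D) *ᵥ x k) = fun k => (Complex.I ^ ε k) • x k := by
    funext k
    rw [smul_mulVec, hx, smul_smul]
    congr 1
    rcases hε k with h | h
    · rw [h]
      simp
    · rw [h]
      simp
  rw [h1, evalF_wl, h2, ← evalM_apply, MultilinearMap.map_smul_univ, prod_zpow_eq _
    Complex.I_ne_zero, evalM_apply, smul_eq_mul]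
  by_cases h0 : evalF c x = 0
  · rw [h0, mul_zero, mul_zero]
  · rw [evalF_eig hc x ε hx h0]

end eig

/-- A polarized Hodge structure of weight one, in coordinates. -/
structure PolH {B : Type*} [Fintype B] [DecidableEq B] (D : Matrix B B ℂ) where
  /-- the symplectic form -/
  Om : Matrix B B ℚ
  /-- the complex structure -/
  J : Matrix B B ℝ
  /-- a square root of the metric -/
  u : Matrix B B ℝ
  tr : Omᵀ = -Om
  sq : Om * Om = -1
  dj : D = (-Complex.I) • J.map (fun x : ℝ => (x : ℂ))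
  dd : D * D = 1
  sp : Dᵀ * Om.map (fun x : ℚ => (x : ℂ)) + Om.map (fun x : ℚ => (x : ℂ)) * D = 0
  hu : IsUnit u
  pos : Om.map (fun x : ℚ => (x : ℝ)) * Jᵀ = -(uᵀ * u)

section nondeg

variable {B : Type*} [Fintype B] [DecidableEq B] {D : Matrix B B ℂ}
  {κ : Type*} [Fintype κ] [DecidableEq κ] (h : PolH D)

theorem PolH.sqK (K : Type*) [Field K] [CharZero K] :
    h.Om.map (fun x : ℚ => (x : K)) * h.Om.map (fun x : ℚ => (x : K)) = -1 := by
  have h1 := congrArg (fun M : Matrix B B ℚ => M.map (Rat.castHom K)) h.sq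
  rw [Matrix.map_mul] at h1
  have h2 : (-1 : Matrix B B ℚ).map (Rat.castHom K) = -1 := by
    ext i j
    simp [Matrix.one_apply, apply_ite]
  rw [h2] at h1
  exact h1

theorem PolH.sp' : D * h.Om.map (fun x : ℚ => (x : ℂ)) +
    h.Om.map (fun x : ℚ => (x : ℂ)) * Dᵀ = 0 := by
  set O := h.Om.map (fun x : ℚ => (x : ℂ)) with hO
  have h1 : O * O = -1 := h.sqK ℂ
  have h2 : O * (Dᵀ * O + O * D) * O = 0 := by
    rw [hO, h.sp, mul_zero, zero_mul]
  have h3 : O * (Dᵀ * O + O * D) * O = O * Dᵀ * (O * O) + (O * O) * (D * O) := by noncomm_ring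
  rw [h3, h1] at h2
  have h4 : D * O + O * Dᵀ = -(O * Dᵀ * -1 + -1 * (D * O)) := by noncomm_ring
  rw [h4, h2, neg_zero]

theorem EB_cst (O : Matrix B B ℚ) (K : Type*) [Field K] [CharZero K] (c c' : (κ → B) → ℚ) :
    EB κ (O.map (fun x : ℚ => (x : K))) (cst K c) (cst K c') = ((EB κ O c c' : ℚ) : K) := by
  rw [EB_apply, EB_apply]
  simp only [cst, Matrix.map_apply]
  push_cast
  rfl

/-- The polarization is nondegenerate on Hodge substructures. -/
theorem PolH.nondeg {L : ℤ} {V : Submodule ℚ ((κ → B) → ℚ)} (hV : HL D L V)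
    {v : (κ → B) → ℚ} (hv : v ∈ V) (h0 : ∀ v' ∈ V, EB κ h.Om v v' = 0) : v = 0 := by
  have h1 : ∀ z ∈ cx V, EB κ (h.Om.map (fun x : ℚ => (x : ℂ))) (cst ℂ v) z = 0 := by
    intro z hz
    unfold cx at hz
    induction hz using Submodule.span_induction with
    | mem z hz =>
      obtain ⟨c, hc, rfl⟩ := hz
      rw [EB_cst, h0 c hc, Rat.cast_zero]
    | zero => rw [map_zero]
    | add x y _ _ hx hy => rw [map_add, hx, hy, add_zero]
    | smul r x _ hx => rw [map_smul, hx, smul_zero]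
  have h2' : ∀ z ∈ ⨆ a : {a : ℤ // |a| ≤ L}, cx V ⊓ eigF D κ a.1,
      wl (Complex.I • D) z ∈ cx V := by
    intro z hz
    induction hz using Submodule.iSup_induction' with
    | mem a x hx =>
      rw [wl_eig h.dd hx.2]
      exact Submodule.smul_mem _ _ hx.1
    | zero =>
      have h4 : wl (Complex.I • D) (0 : (κ → B) → ℂ) = 0 := by
        funext I
        simp [wl]
      rw [h4]
      exact Submodule.zero_mem _
    | add x y _ _ hx hy =>
      rw [wl_add]
      exact Submodule.add_mem _ hx hy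
  have h2 := h2' _ (hV v hv)
  have h3 := h1 _ h2
  rw [EB_wl] at h3
  have h4 : Complex.I • D = h.J.map (fun x : ℝ => (x : ℂ)) := by
    conv_lhs => rw [h.dj]
    rw [smul_smul, mul_neg, Complex.I_mul_I, neg_neg, one_smul]
  have h5 : h.Om.map (fun x : ℚ => (x : ℂ)) * (Complex.I • D)ᵀ =
      (h.Om.map (fun x : ℚ => (x : ℝ)) * h.Jᵀ).map (fun x : ℝ => (x : ℂ)) := by
    rw [h4]
    ext i j
    simp [Matrix.mul_apply]
  rw [h5, h.pos] at h3
  have h6 : ((∑ I, ∑ I', cst ℝ v I * cst ℝ v I' * ∏ k, (-(h.uᵀ * h.u)) (I k) (I' k) : ℝ) : ℂ) =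
      0 := by
    rw [← h3]
    push_cast
    refine Finset.sum_congr rfl fun I _ => Finset.sum_congr rfl fun I' _ => ?_
    simp only [cst, Matrix.map_apply]
    norm_cast
  have h7 : ∑ I, ∑ I', cst ℝ v I * cst ℝ v I' * ∏ k, (-(h.uᵀ * h.u)) (I k) (I' k) = 0 := by
    exact_mod_cast h6
  have h8 : ∑ I, ∑ I', cst ℝ v I * cst ℝ v I' * ∏ k, (-(h.uᵀ * h.u)) (I k) (I' k) =
      (-1) ^ Fintype.card κ * ∑ A : κ → B, (evalF (cst ℝ v) fun k => h.u (A k)) ^ 2 := by
    have e1 : ∀ I I' : κ → B, ∏ k, (-(h.uᵀ * h.u)) (I k) (I' k) =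
        (-1) ^ Fintype.card κ * ∑ A : κ → B, ∏ k, (h.u (A k) (I k) * h.u (A k) (I' k)) := by
      intro I I'
      have e3 : ∀ k, (-(h.uᵀ * h.u)) (I k) (I' k) = -1 * ∑ a, h.u a (I k) * h.u a (I' k) := by
        intro k
        rw [Matrix.neg_apply, Matrix.mul_apply, neg_one_mul]
        rfl
      rw [Finset.prod_congr rfl (fun k _ => e3 k), Finset.prod_mul_distrib, Finset.prod_const,
        Finset.card_univ, Finset.prod_univ_sum, Fintype.piFinset_univ]
    have e2 : ∀ A : κ → B, (evalF (cst ℝ v) fun k => h.u (A k)) ^ 2 =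
        ∑ I, ∑ I', cst ℝ v I * cst ℝ v I' * ∏ k, (h.u (A k) (I k) * h.u (A k) (I' k)) := by
      intro A
      rw [pow_two]
      unfold evalF
      rw [Finset.sum_mul_sum]
      refine Finset.sum_congr rfl fun I _ => Finset.sum_congr rfl fun I' _ => ?_
      rw [Finset.prod_mul_distrib]
      ring
    rw [Finset.sum_congr rfl (fun A _ => e2 A), Finset.mul_sum]
    simp only [e1, Finset.mul_sum]
    rw [Finset.sum_comm (s := Finset.univ (α := κ → B)) (t := Finset.univ (α := κ → B))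
      (f := fun A I => ∑ I' : κ → B, (-1 : ℝ) ^ Fintype.card κ * (cst ℝ v I * cst ℝ v I' *
        ∏ k, (h.u (A k) (I k) * h.u (A k) (I' k))))]
    refine Finset.sum_congr rfl fun I _ => ?_
    rw [Finset.sum_comm]
    refine Finset.sum_congr rfl fun I' _ => Finset.sum_congr rfl fun A _ => ?_
    ring
  rw [h8] at h7
  have h9 := (mul_eq_zero.1 h7).resolve_left (pow_ne_zero _ (by norm_num))
  rw [Finset.sum_eq_zero_iff_of_nonneg (fun A _ => sq_nonneg _)] at h9
  have h10 : ∀ A : κ → B, (evalF (cst ℝ v) fun k => h.u (A k)) = 0 := fun A =>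
    pow_eq_zero_iff (two_ne_zero) |>.1 (h9 A (Finset.mem_univ _))
  apply cst_injective (K := ℝ)
  rw [cst_zero]
  apply eq_zero_of_evalF
  intro x
  obtain ⟨w, hw⟩ : ∃ w, w * h.u = 1 := h.hu.exists_left_inv
  have h11 : x = fun k => ∑ a, (x k ᵥ* w) a • h.u a := by
    funext k
    have h12 : (x k ᵥ* w) ᵥ* h.u = x k := by
      rw [vecMul_vecMul, hw, vecMul_one]
    conv_lhs => rw [← h12]
    funext i
    rw [Finset.sum_apply]
    rfl
  rw [h11, ← evalM_apply, MultilinearMap.map_sum]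
  refine Finset.sum_eq_zero fun A _ => ?_
  rw [MultilinearMap.map_smul_univ, evalM_apply, h10, smul_zero]

end nondeg

end

end Pool.Agent.TH131.GHC
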