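import Mathlib
import Pool.Agent.TH131.GHC.Pos

/-!
# Multiplication and contraction with bilinear forms; projections to Hodge substructures
-/

set_option linter.unusedSectionVars false

namespace Pool.Agent.TH131.GHC

open Matrix Pool.Agent.H204R3.SP Pool.Agent.W437.HC Pool.Agent.W437.HP

noncomputable section

section ops

variable {B : Type*} [Fintype B] [DecidableEq B] {κ : Type*} [Fintype κ] [DecidableEq κ]
  {K : Type*} [Field K]

/-- Multiplication with a bilinear form in two positions. -/
def mulB (a b : κ) (β : Matrix B B K) :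
    (({l // l ≠ a ∧ l ≠ b} → B) → K) →ₗ[K] ((κ → B) → K) where
  toFun c := fun I => β (I a) (I b) * c (fun l => I l.1)
  map_add' c d := by
    funext I
    simp only [Pi.add_apply, mul_add]
  map_smul' r c := by
    funext I
    simp only [Pi.smul_apply, smul_eq_mul, RingHom.id_apply]
    ring

/-- Contraction with a bilinear form in two positions. -/
def conB (a b : κ) (β : Matrix B B K) :
    ((κ → B) → K) →ₗ[K] (({l // l ≠ a ∧ l ≠ b} → B) → K) where
  toFun c := fun I' => ∑ u, ∑ w, β u w * c (fill a b u w I')
  map_add' c d := by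
    funext I
    simp only [Pi.add_apply, mul_add, Finset.sum_add_distrib]
  map_smul' r c := by
    funext I
    simp only [Pi.smul_apply, smul_eq_mul, RingHom.id_apply, Finset.mul_sum]
    exact Finset.sum_congr rfl fun u _ => Finset.sum_congr rfl fun w _ => by ring

theorem mulB_apply (a b : κ) (β : Matrix B B K) (c : ({l // l ≠ a ∧ l ≠ b} → B) → K)
    (I : κ → B) : mulB a b β c I = β (I a) (I b) * c (fun l => I l.1) := rfl

theorem conB_apply (a b : κ) (β : Matrix B B K) (c : (κ → B) → K)
    (I : {l // l ≠ a ∧ l ≠ b} → B) :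
    conB a b β c I = ∑ u, ∑ w, β u w * c (fill a b u w I) := rfl

theorem restrict_update_p {a b : κ} (I : κ → B) (j : B) :
    (fun l : {l // l ≠ a ∧ l ≠ b} => Function.update I a j l.1) = fun l => I l.1 := by
  funext l
  rw [Function.update_of_ne l.2.1]

theorem restrict_update_k {a b : κ} (I : κ → B) (j : B) :
    (fun l : {l // l ≠ a ∧ l ≠ b} => Function.update I b j l.1) = fun l => I l.1 := by
  funext l
  rw [Function.update_of_ne l.2.2]

theorem restrict_update_l {a b : κ} (I : κ → B) (l0 : {l // l ≠ a ∧ l ≠ b}) (j : B) :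
    (fun l : {l // l ≠ a ∧ l ≠ b} => Function.update I l0.1 j l.1) =
      Function.update (fun l => I l.1) l0 j := by
  funext l
  by_cases h : l = l0
  · subst h
    rw [Function.update_self, Function.update_self]
  · rw [Function.update_of_ne h, Function.update_of_ne (fun h' => h (Subtype.ext h'))]

theorem mulB_act {a b : κ} (hab : a ≠ b) {X β : Matrix B B K} (hX : Xᵀ * β + β * X = 0)
    (c : ({l // l ≠ a ∧ l ≠ b} → B) → K) :
    act X (mulB a b β c) = mulB a b β (act X c) := by
  funext I
  simp only [act, mulB_apply]
  rw [sum_split hab]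
  have h1 : ∑ j, X j (I a) * (β (Function.update I a j a) (Function.update I a j b) *
      c (fun l => Function.update I a j l.1)) = (Xᵀ * β) (I a) (I b) * c (fun l => I l.1) := by
    rw [Matrix.mul_apply, Finset.sum_mul]
    refine Finset.sum_congr rfl fun j _ => ?_
    rw [restrict_update_p, Function.update_self, Function.update_of_ne hab.symm, transpose_apply]
    ring
  have h2 : ∑ j, X j (I b) * (β (Function.update I b j a) (Function.update I b j b) *
      c (fun l => Function.update I b j l.1)) = (β * X) (I a) (I b) * c (fun l => I l.1) := by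
    rw [Matrix.mul_apply, Finset.sum_mul]
    refine Finset.sum_congr rfl fun j _ => ?_
    rw [restrict_update_k, Function.update_self, Function.update_of_ne hab]
    ring
  have h3 := congrFun (congrFun hX (I a)) (I b)
  rw [Matrix.add_apply, Matrix.zero_apply] at h3
  rw [h1, h2, ← add_assoc, ← add_mul, h3, zero_mul, zero_add, Finset.mul_sum]
  refine Finset.sum_congr rfl fun l _ => ?_
  rw [Finset.mul_sum]
  refine Finset.sum_congr rfl fun j _ => ?_
  rw [restrict_update_l, Function.update_of_ne l.2.1.symm, Function.update_of_ne l.2.2.symm]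
  ring

theorem conB_act {a b : κ} (hab : a ≠ b) {X β : Matrix B B K} (hX : X * β + β * Xᵀ = 0)
    (c : (κ → B) → K) : act X (conB a b β c) = conB a b β (act X c) := by
  funext I
  simp only [act, conB_apply]
  have h1 : ∀ u w, β u w * ∑ k, ∑ j, X j (fill a b u w I k) *
      c (Function.update (fill a b u w I) k j) =
      (∑ j, β u w * X j u * c (fill a b j w I) + ∑ j, β u w * X j w * c (fill a b u j I)) +
      ∑ l : {l // l ≠ a ∧ l ≠ b}, ∑ j, β u w * (X j (I l) *
        c (fill a b u w (Function.update I l j))) := by
    intro u w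
    rw [sum_split hab, mul_add, mul_add, ← add_assoc]
    congr 1
    · congr 1
      · rw [Finset.mul_sum]
        refine Finset.sum_congr rfl fun j _ => ?_
        rw [fill_p, fill_update_p hab]
        ring
      · rw [Finset.mul_sum]
        refine Finset.sum_congr rfl fun j _ => ?_
        rw [fill_k hab, fill_update_k hab]
        ring
    · rw [Finset.mul_sum]
      refine Finset.sum_congr rfl fun l _ => ?_
      rw [Finset.mul_sum]
      refine Finset.sum_congr rfl fun j _ => ?_
      rw [fill_l, fill_update]
  simp only [h1, Finset.sum_add_distrib]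
  have h2 : ∑ u, ∑ w, ∑ j, β u w * X j u * c (fill a b j w I) +
      ∑ u, ∑ w, ∑ j, β u w * X j w * c (fill a b u j I) = 0 := by
    have e1 : ∑ u, ∑ w, ∑ j, β u w * X j u * c (fill a b j w I) =
        ∑ j, ∑ w, (X * β) j w * c (fill a b j w I) := by
      have : ∀ w, ∑ u, ∑ j, β u w * X j u * c (fill a b j w I) =
          ∑ j, (X * β) j w * c (fill a b j w I) := by
        intro w
        rw [Finset.sum_comm]
        refine Finset.sum_congr rfl fun j _ => ?_
        rw [Matrix.mul_apply, Finset.sum_mul]
        exact Finset.sum_congr rfl fun u _ => by ring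
      rw [Finset.sum_comm, Finset.sum_congr rfl (fun w _ => this w), Finset.sum_comm]
    have e2 : ∑ u, ∑ w, ∑ j, β u w * X j w * c (fill a b u j I) =
        ∑ u, ∑ j, (β * Xᵀ) u j * c (fill a b u j I) := by
      refine Finset.sum_congr rfl fun u _ => ?_
      rw [Finset.sum_comm]
      refine Finset.sum_congr rfl fun j _ => ?_
      rw [Matrix.mul_apply, Finset.sum_mul]
      exact Finset.sum_congr rfl fun w _ => by rw [transpose_apply]
    rw [e1, e2, ← Finset.sum_add_distrib]
    refine Finset.sum_eq_zero fun j _ => ?_
    rw [← Finset.sum_add_distrib]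
    refine Finset.sum_eq_zero fun w _ => ?_
    have h3 := congrFun (congrFun hX j) w
    rw [Matrix.add_apply, Matrix.zero_apply] at h3
    rw [← add_mul, h3, zero_mul]
  rw [h2, zero_add]
  simp only [Finset.mul_sum]
  rw [Finset.sum_comm]
  have e5 : ∀ l : {l // l ≠ a ∧ l ≠ b}, ∑ j, ∑ u, ∑ w, X j (I l) * (β u w *
      c (fill a b u w (Function.update I l j))) = ∑ u, ∑ w, ∑ j, β u w * (X j (I l) *
      c (fill a b u w (Function.update I l j))) := by
    intro l
    rw [Finset.sum_comm]
    refine Finset.sum_congr rfl fun u _ => ?_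
    rw [Finset.sum_comm]
    refine Finset.sum_congr rfl fun w _ => Finset.sum_congr rfl fun j _ => ?_
    ring
  rw [Finset.sum_comm]
  rw [Finset.sum_congr rfl (fun l _ => e5 l), Finset.sum_comm]
  refine Finset.sum_congr rfl fun u _ => ?_
  rw [Finset.sum_comm]

/-- Contraction is adjoint to multiplication. -/
theorem EB_mulB {a b : κ} (hab : a ≠ b) (O β : Matrix B B K) (c : (κ → B) → K)
    (c' : ({l // l ≠ a ∧ l ≠ b} → B) → K) :
    EB κ O c (mulB a b β c') = EB _ O (conB a b (O * β * Oᵀ) c) c' := by
  rw [EB_apply, EB_apply, sum_fill hab]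
  refine Finset.sum_congr rfl fun X _ => ?_
  have h1 : ∀ u w, ∑ I', c (fill a b u w X) * mulB a b β c' I' *
      ∏ k, O (fill a b u w X k) (I' k) =
      ∑ X' : {l // l ≠ a ∧ l ≠ b} → B, ((O * β * Oᵀ) u w * c (fill a b u w X)) * c' X' *
        ∏ l, O (X l) (X' l) := by
    intro u w
    rw [sum_fill hab]
    refine Finset.sum_congr rfl fun X' _ => ?_
    have h2 : ∀ u' w', c (fill a b u w X) * mulB a b β c' (fill a b u' w' X') *
        ∏ k, O (fill a b u w X k) (fill a b u' w' X' k) =
        O u u' * β u' w' * O w w' * (c (fill a b u w X) * c' X' * ∏ l, O (X l) (X' l)) := by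
      intro u' w'
      rw [prod_split hab, mulB_apply, fill_p, fill_k hab, fill_p, fill_k hab]
      have h3 : (fun l : {l // l ≠ a ∧ l ≠ b} => fill a b u' w' X' l.1) = X' := by
        funext l
        exact fill_l a b u' w' X' l
      rw [h3]
      simp only [fill_l]
      ring
    simp only [h2]
    simp only [← Finset.sum_mul]
    have h4 : ∑ u', ∑ w', O u u' * β u' w' * O w w' = (O * β * Oᵀ) u w := by
      simp only [Matrix.mul_apply, transpose_apply, Finset.sum_mul]
      rw [Finset.sum_comm]
    rw [h4]
    ring
  simp only [h1]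
  rw [Finset.sum_congr rfl (fun u _ => Finset.sum_comm), Finset.sum_comm]
  refine Finset.sum_congr rfl fun X' _ => ?_
  rw [conB_apply]
  simp only [Finset.sum_mul]

end ops

end

end Pool.Agent.TH131.GHC
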