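import Mathlib
import Pool.Agent.TH131.GHC.Ops

/-!
# Projections to Hodge substructures
-/

set_option linter.unusedSectionVars false

namespace Pool.Agent.TH131.GHC

open Matrix Pool.Agent.H204R3.SP Pool.Agent.W437.HC Pool.Agent.W437.HP

noncomputable section

section ext

variable {B : Type*} [Fintype B] [DecidableEq B]
  {κ : Type*} [Fintype κ] [DecidableEq κ] {κ' : Type*} [Fintype κ'] [DecidableEq κ']

theorem eq_sum_single {K : Type*} [Field K] (c : (κ → B) → K) :
    c = ∑ I, c I • (Pi.single I 1 : (κ → B) → K) := by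
  funext X
  rw [Finset.sum_apply, Finset.sum_eq_single X]
  · simp
  · intro w _ hw
    rw [Pi.smul_apply, Pi.single_eq_of_ne (Ne.symm hw), smul_zero]
  · intro h
    exact absurd (Finset.mem_univ _) h

/-- Extension of scalars of linear maps. -/
def exC (f : ((κ → B) → ℚ) →ₗ[ℚ] ((κ' → B) → ℚ)) :
    ((κ → B) → ℂ) →ₗ[ℂ] ((κ' → B) → ℂ) where
  toFun c := fun I' => ∑ I, c I * ((f (Pi.single I 1) I' : ℚ) : ℂ)
  map_add' c d := by
    funext I
    simp only [Pi.add_apply, add_mul, Finset.sum_add_distrib]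
  map_smul' r c := by
    funext I
    simp only [Pi.smul_apply, smul_eq_mul, RingHom.id_apply, Finset.mul_sum, mul_assoc]

theorem exC_apply (f : ((κ → B) → ℚ) →ₗ[ℚ] ((κ' → B) → ℚ)) (c : (κ → B) → ℂ) (I' : κ' → B) :
    exC f c I' = ∑ I, c I * ((f (Pi.single I 1) I' : ℚ) : ℂ) := rfl

theorem exC_cst (f : ((κ → B) → ℚ) →ₗ[ℚ] ((κ' → B) → ℚ)) (c : (κ → B) → ℚ) :
    exC f (cst ℂ c) = cst ℂ (f c) := by
  funext I'
  rw [exC_apply]
  have h1 : f c = ∑ I, c I • f (Pi.single I 1) := by
    conv_lhs => rw [eq_sum_single c]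
    rw [map_sum]
    exact Finset.sum_congr rfl fun I _ => map_smul _ _ _
  rw [h1]
  simp only [cst, Finset.sum_apply, Pi.smul_apply, smul_eq_mul]
  push_cast
  rfl

theorem lam_exC (lam : ℂ →ₗ[ℚ] ℚ) (f : ((κ → B) → ℚ) →ₗ[ℚ] ((κ' → B) → ℚ))
    (c : (κ → B) → ℂ) : (fun I' => lam (exC f c I')) = f (fun I => lam (c I)) := by
  have h1 : f (fun I => lam (c I)) = ∑ I, lam (c I) • f (Pi.single I 1) := by
    conv_lhs => rw [eq_sum_single (fun I => lam (c I))]
    rw [map_sum]
    exact Finset.sum_congr rfl fun I _ => map_smul _ _ _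
  rw [h1]
  funext I'
  rw [exC_apply, map_sum, Finset.sum_apply]
  refine Finset.sum_congr rfl fun I _ => ?_
  rw [mul_comm, ← Rat.smul_def, map_smul, Pi.smul_apply, smul_eq_mul, smul_eq_mul, mul_comm]

theorem eq_sum_cst (c : (κ → B) → ℂ) :
    c = ∑ I, c I • cst ℂ (Pi.single I 1 : (κ → B) → ℚ) := by
  conv_lhs => rw [eq_sum_single c]
  refine Finset.sum_congr rfl fun I _ => ?_
  congr 1
  funext J
  unfold cst
  by_cases h : J = I
  · rw [h, Pi.single_eq_same, Pi.single_eq_same, Rat.cast_one]
  · rw [Pi.single_eq_of_ne h, Pi.single_eq_of_ne h, Rat.cast_zero]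

/-- Linear maps which agree on the rational forms. -/
theorem ext_cst {M : Type*} [AddCommGroup M] [Module ℂ M] {f g : ((κ → B) → ℂ) →ₗ[ℂ] M}
    (h : ∀ c, f (cst ℂ c) = g (cst ℂ c)) : f = g := by
  refine LinearMap.ext fun c => ?_
  rw [eq_sum_cst c, map_sum, map_sum]
  exact Finset.sum_congr rfl fun I _ => by rw [map_smul, map_smul, h]

/-- The action as a linear map in the form. -/
def actR {K : Type*} [Field K] (X : Matrix B B K) : ((κ → B) → K) →ₗ[K] ((κ → B) → K) where
  toFun c := act X c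
  map_add' c d := act_add_right X c d
  map_smul' r c := act_smul_right r X c

theorem actR_apply {K : Type*} [Field K] (X : Matrix B B K) (c : (κ → B) → K) :
    actR X c = act X c := rfl

end ext

section proj

variable {B : Type*} [Fintype B] [DecidableEq B] {D : Matrix B B ℂ}
  {κ : Type*} [Fintype κ] [DecidableEq κ] (h : PolH D)

theorem lam_EB (lam : ℂ →ₗ[ℚ] ℚ) (O : Matrix B B ℚ) (z : (κ → B) → ℂ) (v : (κ → B) → ℚ) :
    lam (EB κ (O.map (fun x : ℚ => (x : ℂ))) z (cst ℂ v)) = EB κ O (fun I => lam (z I)) v := by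
  rw [EB_apply, EB_apply, map_sum]
  refine Finset.sum_congr rfl fun I _ => ?_
  rw [map_sum]
  refine Finset.sum_congr rfl fun I' _ => ?_
  have h1 : z I * cst ℂ v I' * ∏ k, O.map (fun x : ℚ => (x : ℂ)) (I k) (I' k) =
      (v I' * ∏ k, O (I k) (I' k)) • z I := by
    rw [Rat.smul_def]
    simp only [cst, Matrix.map_apply]
    push_cast
    ring
  rw [h1, map_smul, smul_eq_mul]
  ring

/-- The orthogonal projection to a Hodge substructure is a morphism of Hodge structures. -/
theorem PolH.exists_proj {L : ℤ} {V : Submodule ℚ ((κ → B) → ℚ)} (hV : HL D L V) :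
    ∃ P : ((κ → B) → ℚ) →ₗ[ℚ] ((κ → B) → ℚ), (∀ v ∈ V, P v = v) ∧ (∀ c, P c ∈ V) ∧
      (∀ c, ∀ v ∈ V, EB κ h.Om (P c) v = EB κ h.Om c v) ∧ IsHM D P := by
  have hrefl : (EB κ h.Om).IsRefl := EB_refl h.tr
  have hdisj : Disjoint V ((EB κ h.Om).orthogonal V) := by
    rw [Submodule.disjoint_def]
    intro v hv hv'
    refine h.nondeg hV hv fun v' hv'' => ?_
    exact hrefl _ _ (hv' v' hv'')
  have hc : IsCompl V ((EB κ h.Om).orthogonal V) :=
    (LinearMap.BilinForm.isCompl_orthogonal_iff_disjoint hrefl).2 hdisj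
  set P := V.projection _ hc with hP
  have h1 : ∀ v ∈ V, P v = v := fun v hv => Submodule.projection_apply_of_mem_left hc hv
  have h2 : ∀ c, P c ∈ V := fun c => Submodule.projection_apply_mem hc c
  have h3 : ∀ c, ∀ v ∈ V, EB κ h.Om (P c) v = EB κ h.Om c v := by
    intro c v hv
    have h4 : c - P c ∈ (EB κ h.Om).orthogonal V := by
      rw [← Submodule.projection_apply_eq_zero_iff hc, map_sub, ← hP, sub_eq_zero]
      exact (h1 _ (h2 c)).symm
    have h5 := hrefl _ _ (h4 v hv)
    rw [map_sub, LinearMap.sub_apply, sub_eq_zero] at h5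
    exact h5.symm
  refine ⟨P, h1, h2, h3, exC P, exC_cst P, ?_⟩
  -- the extension is the identity on the complexification
  have hA : ∀ z ∈ cx V, exC P z = z := by
    intro z hz
    unfold cx at hz
    induction hz using Submodule.span_induction with
    | mem z hz =>
      obtain ⟨c, hc, rfl⟩ := hz
      rw [exC_cst, h1 c hc]
    | zero => rw [map_zero]
    | add x y _ _ hx hy => rw [map_add, hx, hy]
    | smul r x _ hx => rw [map_smul, hx]
  have hB : ∀ z : (κ → B) → ℂ, (∀ v ∈ V,
      EB κ (h.Om.map (fun x : ℚ => (x : ℂ))) z (cst ℂ v) = 0) → exC P z = 0 := by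
    intro z hz
    funext I'
    apply eq_zero_of_lam
    intro lam
    have h4 : P (fun I => lam (z I)) = 0 := by
      refine h.nondeg hV (h2 _) fun v hv => ?_
      rw [h3 _ v hv, ← lam_EB, hz v hv, map_zero]
    exact congrFun ((lam_exC lam P z).trans h4) I'
  have hE : ∀ u : (κ → B) → ℚ, (∀ v ∈ V, EB κ h.Om u v = 0) → ∀ z ∈ cx V,
      EB κ (h.Om.map (fun x : ℚ => (x : ℂ))) (cst ℂ u) z = 0 := by
    intro u hu z hz
    unfold cx at hz
    induction hz using Submodule.span_induction with
    | mem z hz =>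
      obtain ⟨c, hc, rfl⟩ := hz
      rw [EB_cst, hu c hc, Rat.cast_zero]
    | zero => rw [map_zero]
    | add x y _ _ hx hy => rw [map_add, hx, hy, add_zero]
    | smul r x _ hx => rw [map_smul, hx, smul_zero]
  have key : (actR D).comp (exC P) = (exC P).comp (actR D) := by
    refine ext_cst fun c => ?_
    rw [LinearMap.comp_apply, LinearMap.comp_apply, actR_apply, actR_apply, exC_cst]
    have h4 : cst ℂ c = cst ℂ (P c) + cst ℂ (c - P c) := by
      rw [← cst_add, add_sub_cancel]
    have h5 : act D (cst ℂ c) = act D (cst ℂ (P c)) + act D (cst ℂ (c - P c)) := by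
      conv_lhs => rw [h4]
      exact act_add_right _ _ _
    rw [h5, map_add, hA _ (HL_act hV (cst_mem_cx (h2 c))), hB, add_zero]
    intro v hv
    have h6 := EB_act (K := ℂ) h.sp' (cst ℂ (c - P c)) (cst ℂ v)
    rw [hE (c - P c) ?_ _ (HL_act hV (cst_mem_cx hv)), add_zero] at h6
    · exact h6
    · intro v' hv'
      rw [map_sub, LinearMap.sub_apply, h3 _ v' hv', sub_self]
  intro c
  exact LinearMap.congr_fun key c

end proj

section kernel

variable {B : Type*} [Fintype B] [DecidableEq B] {D : Matrix B B ℂ}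
  {κ : Type*} [Fintype κ] [DecidableEq κ] (h : PolH D)

/-- The kernel of the identity. -/
def Wf (O : Matrix B B ℚ) (I' : κ → B) : (κ → B) → ℚ := fun J => ∏ k, O (J k) (I' k)

/-- Every form is a combination of the columns of the kernel. -/
theorem eq_sum_Wf {O : Matrix B B ℚ} (hO : O * O = -1) (v : (κ → B) → ℚ) :
    v = ∑ I', (∑ M : κ → B, v M * ∏ k, (-O) (I' k) (M k)) • Wf O I' := by
  funext J
  rw [Finset.sum_apply]
  simp only [Pi.smul_apply, smul_eq_mul, Wf, Finset.sum_mul]
  rw [Finset.sum_comm]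
  have h1 : ∀ M : κ → B, ∑ I' : κ → B, v M * (∏ k, (-O) (I' k) (M k)) * ∏ k, O (J k) (I' k) =
      v M * ∏ k, (1 : Matrix B B ℚ) (J k) (M k) := by
    intro M
    have h2 : ∀ k, (1 : Matrix B B ℚ) (J k) (M k) = ∑ i, (-O) i (M k) * O (J k) i := by
      intro k
      have h3 : (1 : Matrix B B ℚ) = O * (-O) := by rw [mul_neg, hO, neg_neg]
      rw [h3, Matrix.mul_apply]
      exact Finset.sum_congr rfl fun i _ => mul_comm _ _
    rw [Finset.prod_congr rfl (fun k _ => h2 k), Finset.prod_univ_sum, Fintype.piFinset_univ,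
      Finset.mul_sum]
    refine Finset.sum_congr rfl fun I' _ => ?_
    rw [Finset.prod_mul_distrib]
    ring
  rw [Finset.sum_congr rfl (fun M _ => h1 M), Finset.sum_eq_single J]
  · simp
  · intro M _ hM
    obtain ⟨k, hk⟩ : ∃ k, M k ≠ J k := by
      by_contra h
      push Not at h
      exact hM (funext h)
    rw [Finset.prod_eq_zero (Finset.mem_univ k), mul_zero]
    exact Matrix.one_apply_ne (Ne.symm hk)
  · intro h
    exact absurd (Finset.mem_univ _) h

/-- The kernel of the identity is invariant. -/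
theorem Wf_inv (I' : κ → B) :
    act D (cst ℂ (Wf h.Om I')) + ∑ k, ∑ j, D j (I' k) •
      cst ℂ (Wf h.Om (Function.update I' k j)) = 0 := by
  funext J
  rw [Pi.add_apply, Finset.sum_apply, Pi.zero_apply]
  simp only [act]
  rw [← Finset.sum_add_distrib]
  refine Finset.sum_eq_zero fun k _ => ?_
  set O := h.Om.map (fun x : ℚ => (x : ℂ)) with hO
  have hW : ∀ J I' : κ → B, cst ℂ (Wf h.Om I') J = ∏ k, O (J k) (I' k) := by
    intro J I'
    simp only [cst, Wf, hO, Matrix.map_apply]
    push_cast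
    rfl
  have h1 : ∑ j, D j (J k) * cst ℂ (Wf h.Om I') (Function.update J k j) =
      (Dᵀ * O) (J k) (I' k) * ∏ l ∈ Finset.univ.erase k, O (J l) (I' l) := by
    rw [Matrix.mul_apply, Finset.sum_mul]
    refine Finset.sum_congr rfl fun j _ => ?_
    rw [hW, ← Finset.mul_prod_erase _ _ (Finset.mem_univ k), Function.update_self,
      transpose_apply, mul_assoc]
    congr 2
    refine Finset.prod_congr rfl fun l hl => ?_
    rw [Function.update_of_ne (Finset.ne_of_mem_erase hl)]
  have h2 : (∑ j, D j (I' k) • cst ℂ (Wf h.Om (Function.update I' k j))) J =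
      (O * D) (J k) (I' k) * ∏ l ∈ Finset.univ.erase k, O (J l) (I' l) := by
    rw [Matrix.mul_apply, Finset.sum_mul, Finset.sum_apply]
    refine Finset.sum_congr rfl fun j _ => ?_
    rw [Pi.smul_apply, hW, ← Finset.mul_prod_erase _ _ (Finset.mem_univ k),
      Function.update_self, smul_eq_mul]
    have h3 : ∏ l ∈ Finset.univ.erase k, O (J l) (Function.update I' k j l) =
        ∏ l ∈ Finset.univ.erase k, O (J l) (I' l) := by
      refine Finset.prod_congr rfl fun l hl => ?_
      rw [Function.update_of_ne (Finset.ne_of_mem_erase hl)]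
    rw [h3]
    ring
  rw [h1, h2, ← add_mul]
  have h3 := congrFun (congrFun h.sp (J k)) (I' k)
  rw [Matrix.add_apply, Matrix.zero_apply] at h3
  rw [hO, h3, zero_mul]

/-- The kernel of a map. -/
def kerF (O : Matrix B B ℚ) (P : ((κ → B) → ℚ) →ₗ[ℚ] ((κ → B) → ℚ)) : (κ ⊕ κ → B) → ℚ :=
  fun K => P (Wf O fun k => K (Sum.inr k)) (fun k => K (Sum.inl k))

theorem isH_kerF {P : ((κ → B) → ℚ) →ₗ[ℚ] ((κ → B) → ℚ)} (hP : IsHM D P) :
    IsH D (kerF h.Om P) := by
  obtain ⟨fC, hf1, hf2⟩ := hP
  funext K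
  simp only [act]
  rw [Fintype.sum_sum_type, Pi.zero_apply]
  set I : κ → B := fun k => K (Sum.inl k) with hI
  set I' : κ → B := fun k => K (Sum.inr k) with hI'
  have h1 : ∑ k, ∑ j, D j (K (Sum.inl k)) *
      cst ℂ (kerF h.Om P) (Function.update K (Sum.inl k) j) =
      fC (act D (cst ℂ (Wf h.Om I'))) I := by
    rw [← hf2, hf1]
    simp only [act]
    refine Finset.sum_congr rfl fun k _ => Finset.sum_congr rfl fun j _ => ?_
    have e1 : (fun l => Function.update K (Sum.inl k) j (Sum.inr l)) = I' := by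
      funext l
      rw [Function.update_of_ne (by simp)]
    have e2 : (fun l => Function.update K (Sum.inl k) j (Sum.inl l)) = Function.update I k j := by
      funext l
      by_cases hl : l = k
      · subst hl
        rw [Function.update_self, Function.update_self]
      · rw [Function.update_of_ne hl, Function.update_of_ne (by simpa using hl)]
    simp only [cst, kerF]
    rw [e1, e2]
  have h2 : ∑ k, ∑ j, D j (K (Sum.inr k)) *
      cst ℂ (kerF h.Om P) (Function.update K (Sum.inr k) j) =
      fC (∑ k, ∑ j, D j (I' k) • cst ℂ (Wf h.Om (Function.update I' k j))) I := by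
    rw [map_sum, Finset.sum_apply]
    refine Finset.sum_congr rfl fun k _ => ?_
    rw [map_sum, Finset.sum_apply]
    refine Finset.sum_congr rfl fun j _ => ?_
    rw [map_smul, hf1, Pi.smul_apply, smul_eq_mul]
    have e1 : (fun l => Function.update K (Sum.inr k) j (Sum.inl l)) = I := by
      funext l
      rw [Function.update_of_ne (by simp)]
    have e2 : (fun l => Function.update K (Sum.inr k) j (Sum.inr l)) =
        Function.update I' k j := by
      funext l
      by_cases hl : l = k
      · subst hl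
        rw [Function.update_self, Function.update_self]
      · rw [Function.update_of_ne hl, Function.update_of_ne (by simpa using hl)]
    simp only [cst, kerF]
    rw [e1, e2]
  rw [h1, h2, ← Pi.add_apply, ← map_add, Wf_inv, map_zero, Pi.zero_apply]

end kernel

end

end Pool.Agent.TH131.GHC
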