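import Mathlib
import Pool.Agent.TH131.GHC.Proj

/-!
# Hodge substructures of less than the maximal level are in the ideal of the divisor classes
-/

set_option linter.unusedSectionVars false

namespace Pool.Agent.TH131.GHC

open Matrix Equiv Pool.Agent.H204R3.SP Pool.Agent.W437.HC Pool.Agent.W437.HD Pool.Agent.W437.HP

noncomputable section

variable {B : Type*} [Fintype B] [DecidableEq B] {D : Matrix B B ℂ}
  {κ : Type*} [Fintype κ] [DecidableEq κ]

/-- The matrix of a form in two variables. -/
def matF2 (b : (Fin 2 → B) → ℚ) : Matrix B B ℂ := Matrix.of fun i j => ((b ![i, j] : ℚ) : ℂ)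

theorem HB_matF2 {b : (Fin 2 → B) → ℚ} (hb : IsH D b) : HB D (matF2 b) := by
  intro X hX
  have h1 := lieM_kills D hX hb
  ext i j
  have h2 := congrFun h1 ![i, j]
  have h3 : cst ℂ b = bilc (matF2 b) := by
    funext I
    simp only [cst, bilc, matF2, Matrix.of_apply]
    congr 2
    funext k
    fin_cases k <;> rfl
  rw [h3, act_bilc] at h2
  exact h2

theorem HB_transpose {β : Matrix B B ℂ} (hβ : HB D β) : HB D βᵀ := by
  intro X hX
  have h1 := congrArg Matrix.transpose (hβ X hX)
  rw [transpose_add, transpose_mul, transpose_mul, transpose_transpose, transpose_zero,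
    add_comm] at h1
  exact h1

/-- An invariant bilinear form vanishes on the vectors fixed by the operator. -/
theorem HB_fixed {β : Matrix B B ℂ} (hβ : HB D β) {y y' : B → ℂ} (hy : D *ᵥ y = y)
    (hy' : D *ᵥ y' = y') : y ⬝ᵥ (β *ᵥ y') = 0 := by
  have h1 := hβ D (D_mem D)
  have h2 : y ⬝ᵥ ((Dᵀ * β + β * D) *ᵥ y') = y ⬝ᵥ (β *ᵥ y') + y ⬝ᵥ (β *ᵥ y') := by
    rw [add_mulVec, dotProduct_add, ← mulVec_mulVec, ← mulVec_mulVec, hy', dotProduct_mulVec y,
      vecMul_transpose, hy]
  rw [h1, zero_mulVec, dotProduct_zero] at h2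
  have h3 : (2 : ℂ) * (y ⬝ᵥ (β *ᵥ y')) = 0 := by rw [two_mul, ← h2]
  exact (mul_eq_zero.1 h3).resolve_left two_ne_zero

/-- The forms in the ideal vanish on the vectors fixed by the operator. -/
theorem evalF_IdC {F : (κ → B) → ℂ} (hF : F ∈ IdC D κ) {y : κ → B → ℂ}
    (hy : ∀ k, D *ᵥ y k = y k) : evalF F y = 0 := by
  unfold IdC at hF
  induction hF using Submodule.span_induction with
  | zero => exact evalF_zero y
  | add x z _ _ hx hz =>
    have h1 : evalF (x + z) y = evalF x y + evalF z y := by
      simp only [evalF, Pi.add_apply, add_mul, Finset.sum_add_distrib]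
    rw [h1, hx, hz, add_zero]
  | smul r x _ hx =>
    have h1 : evalF (r • x) y = r * evalF x y := by
      simp only [evalF, Pi.smul_apply, smul_eq_mul, Finset.mul_sum, mul_assoc]
    rw [h1, hx, mul_zero]
  | mem F hF =>
    obtain ⟨a, b, β, G, hab, hβ, rfl⟩ := hF
    unfold evalF
    rw [sum_fill hab]
    refine Finset.sum_eq_zero fun X' _ => ?_
    have h1 : ∀ u w, β (fill a b u w X' a) (fill a b u w X' b) *
        G (fun l => fill a b u w X' l.1) * ∏ k, y k (fill a b u w X' k) =
        (y a u * (β u w * y b w)) * (G X' * ∏ l : {l // l ≠ a ∧ l ≠ b}, y l.1 (X' l)) := by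
      intro u w
      rw [prod_split hab, fill_p, fill_k hab]
      have h2 : (fun l : {l // l ≠ a ∧ l ≠ b} => fill a b u w X' l.1) = X' := by
        funext l
        exact fill_l a b u w X' l
      rw [h2]
      simp only [fill_l]
      ring
    simp only [h1]
    simp only [← Finset.sum_mul]
    have h3 : ∑ u, ∑ w, y a u * (β u w * y b w) = y a ⬝ᵥ (β *ᵥ y b) := by
      simp only [dotProduct, mulVec, Finset.mul_sum]
    rw [h3, HB_fixed hβ (hy a) (hy b), zero_mul]

/-- The eigenforms of small eigenvalue vanish on the vectors fixed by the operator. -/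
theorem evalF_HL {L : ℤ} {V : Submodule ℚ ((κ → B) → ℚ)} (hV : HL D L V)
    (hL : L < Fintype.card κ) {v : (κ → B) → ℚ} (hv : v ∈ V) {y : κ → B → ℂ}
    (hy : ∀ k, D *ᵥ y k = y k) : evalF (cst ℂ v) y = 0 := by
  have key : ∀ z ∈ ⨆ a : {a : ℤ // |a| ≤ L}, cx V ⊓ eigF D κ a.1, evalF z y = 0 := by
    intro z hz
    induction hz using Submodule.iSup_induction' with
    | zero => exact evalF_zero y
    | add x z _ _ hx hz =>
      have h1 : evalF (x + z) y = evalF x y + evalF z y := by
        simp only [evalF, Pi.add_apply, add_mul, Finset.sum_add_distrib]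
      rw [h1, hx, hz, add_zero]
    | mem a x hx =>
      by_contra h0
      have h1 := evalF_eig hx.2 y (fun _ => 1) (fun k => by rw [hy, Int.cast_one, one_smul]) h0
      have h2 := a.2
      rw [h1] at h2
      simp only [Finset.sum_const, Finset.card_univ, nsmul_eq_mul, mul_one, Nat.abs_cast] at h2
      omega
  exact key _ (hV v hv)

/-- A product over a matching is a combination of a product with a form in two variables of the
first group and of a product of forms between the groups. -/
theorem matching_cases {n : ℕ} (hn : Fintype.card κ = n) (f : Fin n × Fin 2 ≃ κ ⊕ κ)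
    (b : Fin n → (Fin 2 → B) → ℚ) (hb : ∀ s, IsH D (b s)) :
    (∀ I' : κ → B, (fun I : κ → B => ∏ s, ((b s ![Sum.elim I I' (f (s, 0)),
      Sum.elim I I' (f (s, 1))] : ℚ) : ℂ)) ∈ IdC D κ) ∨
    (fun I I' : κ → B => ∏ s, ((b s ![Sum.elim I I' (f (s, 0)),
      Sum.elim I I' (f (s, 1))] : ℚ) : ℂ)) ∈ MX D κ := by
  classical
  by_cases hA : ∃ s, (f (s, 0)).isLeft = true ∧ (f (s, 1)).isLeft = true
  · left
    intro I'
    obtain ⟨s0, hs0, hs1⟩ := hA
    obtain ⟨k, hk⟩ := Sum.isLeft_iff.1 hs0
    obtain ⟨l, hl⟩ := Sum.isLeft_iff.1 hs1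
    have hkl : k ≠ l := by
      rintro rfl
      have h1 : f (s0, 0) = f (s0, 1) := by rw [hk, hl]
      have h2 : (0 : Fin 2) = 1 := congrArg Prod.snd (f.injective h1)
      exact absurd h2 (by decide)
    obtain ⟨G', hG'⟩ := exists_rest (K := ℂ) hkl (G := fun I : κ → B =>
      ∏ s ∈ Finset.univ.erase s0, ((b s ![Sum.elim I I' (f (s, 0)),
      Sum.elim I I' (f (s, 1))] : ℚ) : ℂ)) (by
        intro I u w
        refine Finset.prod_congr rfl fun s hs => ?_
        have hs' := Finset.ne_of_mem_erase hs
        have h1 : ∀ ε : Fin 2, Sum.elim (Function.update (Function.update I k u) l w) I'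
            (f (s, ε)) = Sum.elim I I' (f (s, ε)) := by
          intro ε
          rcases hx : f (s, ε) with x | x
          · rw [Sum.elim_inl, Sum.elim_inl, Function.update_of_ne, Function.update_of_ne]
            · rintro rfl
              have h2 : f (s, ε) = f (s0, 0) := by rw [hx, hk]
              exact hs' (congrArg Prod.fst (f.injective h2))
            · rintro rfl
              have h2 : f (s, ε) = f (s0, 1) := by rw [hx, hl]
              exact hs' (congrArg Prod.fst (f.injective h2))
          · rfl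
        rw [h1, h1])
    refine Submodule.subset_span ⟨k, l, matF2 (b s0), G', hkl, HB_matF2 (hb s0), ?_⟩
    funext I
    rw [← hG' I, ← Finset.mul_prod_erase _ _ (Finset.mem_univ s0), hk, hl]
    rfl
  · right
    push Not at hA
    -- the numbers of elements of the first group
    have h1 : ∑ s : Fin n, ((if (f (s, 0)).isLeft = true then 1 else 0) +
        (if (f (s, 1)).isLeft = true then 1 else 0)) = n := by
      have h2 : ∑ p : Fin n × Fin 2, (if (f p).isLeft = true then 1 else 0) = n := by
        rw [Equiv.sum_comp f (fun x : κ ⊕ κ => if x.isLeft = true then 1 else 0),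
          Fintype.sum_sum_type]
        simp [hn]
      rw [Fintype.sum_prod_type] at h2
      refine Eq.trans (Finset.sum_congr rfl fun s _ => ?_) h2
      rw [Fin.sum_univ_two]
    have h2 : ∀ s, (f (s, 0)).isLeft = true ∨ (f (s, 1)).isLeft = true := by
      intro s0
      by_contra hcon
      push Not at hcon
      have h3 : ∑ s : Fin n, ((if (f (s, 0)).isLeft = true then 1 else 0) +
          (if (f (s, 1)).isLeft = true then 1 else 0)) < ∑ s : Fin n, 1 := by
        refine Finset.sum_lt_sum (fun s _ => ?_) ⟨s0, Finset.mem_univ _, ?_⟩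
        · by_cases h4 : (f (s, 0)).isLeft = true
          · rw [if_pos h4, if_neg (hA s h4)]
          · rw [if_neg h4]
            split_ifs <;> simp
        · rw [if_neg hcon.1, if_neg hcon.2]
          exact Nat.zero_lt_one
      rw [h1, Finset.sum_const, Finset.card_univ, Fintype.card_fin, smul_eq_mul, mul_one] at h3
      exact lt_irrefl _ h3
    have h3 : ∀ s, ∃ (k l : κ) (ε : Fin 2) (β : Matrix B B ℂ), HB D β ∧ f (s, ε) = Sum.inl k ∧
        f (s, 1 - ε) = Sum.inr l ∧ ∀ I I' : κ → B, ((b s ![Sum.elim I I' (f (s, 0)),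
          Sum.elim I I' (f (s, 1))] : ℚ) : ℂ) = β (I' l) (I k) := by
      intro s
      rcases hx : f (s, 0) with x | x
      · rcases hy : f (s, 1) with y | y
        · exact absurd (by rw [hy]; rfl) (hA s (by rw [hx]; rfl))
        · exact ⟨x, y, 0, (matF2 (b s))ᵀ, HB_transpose (HB_matF2 (hb s)), hx, hy,
            fun I I' => rfl⟩
      · rcases hy : f (s, 1) with y | y
        · exact ⟨y, x, 1, matF2 (b s), HB_matF2 (hb s), hy, hx, fun I I' => rfl⟩
        · exfalso
          rcases h2 s with h4 | h4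
          · rw [hx] at h4
            exact Bool.false_ne_true h4
          · rw [hy] at h4
            exact Bool.false_ne_true h4
    choose kk ll ee β hβ hk hl hval using h3
    have hkinj : Function.Injective kk := by
      intro s s' h
      have h4 : f (s, ee s) = f (s', ee s') := by rw [hk, hk, h]
      exact congrArg Prod.fst (f.injective h4)
    have hlinj : Function.Injective ll := by
      intro s s' h
      have h4 : f (s, 1 - ee s) = f (s', 1 - ee s') := by rw [hl, hl, h]
      exact congrArg Prod.fst (f.injective h4)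
    have hcard : Fintype.card (Fin n) = Fintype.card κ := by rw [Fintype.card_fin, hn]
    let kE : Fin n ≃ κ := Equiv.ofBijective kk
      ((Fintype.bijective_iff_injective_and_card kk).2 ⟨hkinj, hcard⟩)
    let lE : Fin n ≃ κ := Equiv.ofBijective ll
      ((Fintype.bijective_iff_injective_and_card ll).2 ⟨hlinj, hcard⟩)
    refine Submodule.subset_span ⟨kE.symm.trans lE, fun k => β (kE.symm k), fun k => hβ _, ?_⟩
    funext I I'
    rw [← Equiv.prod_comp kE]
    refine Finset.prod_congr rfl fun s _ => ?_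
    rw [hval]
    have h4 : (kE.symm.trans lE) (kE s) = ll s := by
      rw [Equiv.trans_apply, kE.symm_apply_apply]
      rfl
    rw [h4]
    simp only [kE.symm_apply_apply]
    rfl

/-- The forms in two groups of variables which are in the ideal for all values of the second
group. -/
def GD (D : Matrix B B ℂ) (κ : Type*) [Fintype κ] [DecidableEq κ] :
    Submodule ℂ ((κ → B) → (κ → B) → ℂ) where
  carrier := {P | ∀ I', (fun I => P I I') ∈ IdC D κ}
  zero_mem' := fun _ => Submodule.zero_mem _
  add_mem' := fun hP hQ I' => Submodule.add_mem _ (hP I') (hQ I')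
  smul_mem' := fun r _ hP I' => Submodule.smul_mem _ r (hP I')

/-- The decomposition of the invariant forms in two groups of variables. -/
theorem MS_decomp {n : ℕ} (hn : Fintype.card κ = n) (e0 : Fin n × Fin 2 ≃ κ ⊕ κ)
    {c : (Fin n × Fin 2 → B) → ℚ} (hc : c ∈ MS D n) :
    (fun I I' : κ → B => ((c (fun p => Sum.elim I I' (e0 p)) : ℚ) : ℂ)) ∈ GD D κ ⊔ MX D κ := by
  rw [MS_eq] at hc
  induction hc using Submodule.span_induction with
  | zero =>
    have h1 : (fun I I' : κ → B => (((0 : (Fin n × Fin 2 → B) → ℚ)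
        (fun p => Sum.elim I I' (e0 p)) : ℚ) : ℂ)) = 0 := by
      funext I I'
      simp
    rw [h1]
    exact Submodule.zero_mem _
  | add x y _ _ hx hy =>
    have h1 : (fun I I' : κ → B => (((x + y) (fun p => Sum.elim I I' (e0 p)) : ℚ) : ℂ)) =
        (fun I I' : κ → B => ((x (fun p => Sum.elim I I' (e0 p)) : ℚ) : ℂ)) +
        (fun I I' : κ → B => ((y (fun p => Sum.elim I I' (e0 p)) : ℚ) : ℂ)) := by
      funext I I'
      simp
    rw [h1]
    exact Submodule.add_mem _ hx hy
  | smul r x _ hx =>
    have h1 : (fun I I' : κ → B => (((r • x) (fun p => Sum.elim I I' (e0 p)) : ℚ) : ℂ)) =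
        (r : ℂ) • (fun I I' : κ → B => ((x (fun p => Sum.elim I I' (e0 p)) : ℚ) : ℂ)) := by
      funext I I'
      simp
    rw [h1]
    exact Submodule.smul_mem _ _ hx
  | mem F hF =>
    obtain ⟨e, b, hb, rfl⟩ := hF
    have h1 : (fun I I' : κ → B => (((fun I : Fin n × Fin 2 → B =>
        ∏ s, b s ![I (e (s, 0)), I (e (s, 1))]) (fun p => Sum.elim I I' (e0 p)) : ℚ) : ℂ)) =
        (fun I I' : κ → B => ∏ s, ((b s ![Sum.elim I I' ((e.trans e0) (s, 0)),
          Sum.elim I I' ((e.trans e0) (s, 1))] : ℚ) : ℂ)) := by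
      funext I I'
      simp only [Equiv.trans_apply]
      push_cast
      rfl
    rw [h1]
    rcases matching_cases hn (e.trans e0) b hb with h2 | h2
    · exact Submodule.mem_sup_left h2
    · exact Submodule.mem_sup_right h2

/-- The rational ideal generated by the invariant bilinear forms. -/
def IdQ (D : Matrix B B ℂ) (κ : Type*) [Fintype κ] [DecidableEq κ] :
    Submodule ℚ ((κ → B) → ℚ) :=
  Submodule.span ℚ {F | ∃ (a b : κ) (β : Matrix B B ℚ) (c : ({l // l ≠ a ∧ l ≠ b} → B) → ℚ),
    a ≠ b ∧ IsH D (bilc β) ∧ F = mulB a b β c}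

/-- The rational forms in the complex ideal are in the rational ideal. -/
theorem IdQ_descent {v : (κ → B) → ℚ} (hv : cst ℂ v ∈ IdC D κ) : v ∈ IdQ D κ := by
  refine Pool.Agent.W437.HK.descent (k := ℂ) _ _ ?_
  change cst ℂ v ∈ _
  refine (Submodule.span_le.2 ?_ : IdC D κ ≤ _) hv
  rintro _ ⟨a, b, β, G, hab, hβ, rfl⟩
  -- the bilinear form is a combination of rational ones
  have h1 : bilc β ∈ Submodule.span ℂ {w | ∃ b : (Fin 2 → B) → ℚ, IsH D b ∧ w = cst ℂ b} := by
    refine mem_span_isH fun X hX => ?_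
    funext I
    rw [act_bilc, hβ _ (cast_mem D hX)]
    rfl
  let Lg : ((Fin 2 → B) → ℂ) →ₗ[ℂ] ((κ → B) → ℂ) :=
    { toFun := fun w I => w ![I a, I b] * G (fun l => I l.1)
      map_add' := fun w w' => by
        funext I
        simp only [Pi.add_apply, add_mul]
      map_smul' := fun r w => by
        funext I
        simp only [Pi.smul_apply, smul_eq_mul, RingHom.id_apply, mul_assoc] }
  have h2 := Submodule.mem_map_of_mem (f := Lg) h1
  rw [Submodule.map_span] at h2
  have h3 : Lg (bilc β) = fun I => β (I a) (I b) * G (fun l => I l.1) := rfl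
  rw [h3] at h2
  refine (Submodule.span_le.2 ?_) h2
  rintro _ ⟨_, ⟨b', hb', rfl⟩, rfl⟩
  have h4 : Lg (cst ℂ b') = ∑ X, G X • cst ℂ (mulB a b (Matrix.of fun i j => b' ![i, j])
      (Pi.single X 1)) := by
    funext I
    rw [Finset.sum_apply, Finset.sum_eq_single (fun l => I l.1)]
    · rw [Pi.smul_apply]
      simp only [cst, mulB_apply, Pi.single_eq_same, Matrix.of_apply, mul_one, smul_eq_mul]
      exact mul_comm _ _
    · intro X _ hX
      rw [Pi.smul_apply]
      simp only [cst, mulB_apply]
      rw [Pi.single_eq_of_ne (Ne.symm hX), mul_zero, Rat.cast_zero, smul_zero]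
    · intro h
      exact absurd (Finset.mem_univ _) h
  rw [h4]
  refine Submodule.sum_mem _ fun X _ => Submodule.smul_mem _ _ (Submodule.subset_span ?_)
  refine ⟨_, ⟨a, b, Matrix.of fun i j => b' ![i, j], Pi.single X 1, hab, ?_, rfl⟩, rfl⟩
  have h5 : bilc (Matrix.of fun i j => b' ![i, j]) = b' := by
    funext I
    simp only [bilc, Matrix.of_apply]
    congr 1
    funext k
    fin_cases k <;> rfl
  rw [h5]
  exact hb'

/-- **Hodge substructures of less than the maximal level** are in the ideal generated by the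
invariant bilinear forms. -/
theorem le_IdQ {κ : Type} [Fintype κ] [DecidableEq κ] (h : PolH D) (hcore : CoreP D)
    (hMS : ∀ (m : ℕ) (c : (Fin m × Fin 2 → B) → ℚ), IsH D c → c ∈ MS D m)
    {L : ℤ} {V : Submodule ℚ ((κ → B) → ℚ)} (hV : HL D L V) (hL : L < Fintype.card κ) :
    V ≤ IdQ D κ := by
  obtain ⟨P, hP1, hP2, -, hP4⟩ := h.exists_proj hV
  obtain ⟨n, hn⟩ : ∃ n, Fintype.card κ = n := ⟨_, rfl⟩
  have e0 : Fin n × Fin 2 ≃ κ ⊕ κ := Fintype.equivOfCardEq (by
    rw [Fintype.card_prod, Fintype.card_fin, Fintype.card_fin, Fintype.card_sum, hn]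
    ring)
  have h1 := isH_kerF h hP4
  have h2 := hMS n _ (isH_reindex D e0 h1)
  have h3 := MS_decomp hn e0 h2
  have h4 : (fun I I' : κ → B => (((fun X : Fin n × Fin 2 → B => kerF h.Om P
      (fun k => X (e0.symm k))) (fun p => Sum.elim I I' (e0 p)) : ℚ) : ℂ)) =
      fun I I' : κ → B => cst ℂ (P (Wf h.Om I')) I := by
    funext I I'
    simp only [kerF, Equiv.apply_symm_apply, Sum.elim_inl, Sum.elim_inr, cst]
  rw [h4] at h3
  obtain ⟨g, hg, m, hm, hgm⟩ := Submodule.mem_sup.1 h3
  have h5 : ∀ I', (fun I => m I I') ∈ IdC D κ := by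
    refine hcore κ m hm fun y hy I' => ?_
    have h6 : (fun I => m I I') = cst ℂ (P (Wf h.Om I')) - fun I => g I I' := by
      funext I
      rw [Pi.sub_apply]
      have h7 := congrFun (congrFun hgm I) I'
      rw [Pi.add_apply, Pi.add_apply] at h7
      rw [← h7]
      ring
    have h8 : evalF (cst ℂ (P (Wf h.Om I')) - fun I => g I I') y =
        evalF (cst ℂ (P (Wf h.Om I'))) y - evalF (fun I => g I I') y := by
      simp only [evalF, Pi.sub_apply, sub_mul, Finset.sum_sub_distrib]
    rw [h6, h8, evalF_HL hV hL (hP2 _) hy, evalF_IdC (hg I') hy, sub_zero]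
  have h6 : ∀ I', P (Wf h.Om I') ∈ IdQ D κ := by
    intro I'
    apply IdQ_descent
    have h7 : cst ℂ (P (Wf h.Om I')) = (fun I => g I I') + fun I => m I I' := by
      funext I
      exact (congrFun (congrFun hgm I) I').symm
    rw [h7]
    exact Submodule.add_mem _ (hg I') (h5 I')
  intro v hv
  rw [← hP1 v hv, eq_sum_Wf h.sq v, map_sum]
  exact Submodule.sum_mem _ fun I' _ => by
    rw [map_smul]
    exact Submodule.smul_mem _ _ (h6 I')

end

end Pool.Agent.TH131.GHC
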