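import Mathlib
import Pool.Agent.TH131.GHC.Dec

/-!
# Hodge substructures of small level are in the powers of the ideal of the divisor classes
-/

set_option linter.unusedSectionVars false

namespace Pool.Agent.TH131.GHC

open Matrix Equiv Pool.Agent.H204R3.SP Pool.Agent.W437.HC Pool.Agent.W437.HD Pool.Agent.W437.HP

noncomputable section

variable {B : Type*} [Fintype B] [DecidableEq B] {D : Matrix B B ℂ}

/-- The span of the products of `j` invariant bilinear forms with arbitrary forms. -/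
def IJ (D : Matrix B B ℂ) : ℕ → (κ : Type) → [Fintype κ] → [DecidableEq κ] →
    Submodule ℚ ((κ → B) → ℚ)
  | 0, _, _, _ => ⊤
  | j + 1, κ, _, _ => Submodule.span ℚ {F | ∃ (a b : κ) (β : Matrix B B ℚ)
      (c : ({l // l ≠ a ∧ l ≠ b} → B) → ℚ), a ≠ b ∧ IsH D (bilc β) ∧
        c ∈ IJ D j {l // l ≠ a ∧ l ≠ b} ∧ F = mulB a b β c}

section hm

variable {κ : Type*} [Fintype κ] [DecidableEq κ]

theorem isHM_mulB {a b : κ} (hab : a ≠ b) {β : Matrix B B ℚ} (hβ : IsH D (bilc β)) :
    IsHM D (mulB a b β) := by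
  refine ⟨mulB a b (β.map (fun x : ℚ => (x : ℂ))), fun c => ?_, fun c => ?_⟩
  · funext I
    simp only [mulB_apply, cst, Matrix.map_apply]
    push_cast
    rfl
  · exact mulB_act hab (lieM_bil D hβ (D_mem D)) c

theorem PolH.con_inv (h : PolH D) {β : Matrix B B ℚ} (hβ : IsH D (bilc β)) :
    D * (h.Om * β * h.Omᵀ).map (fun x : ℚ => (x : ℂ)) +
      (h.Om * β * h.Omᵀ).map (fun x : ℚ => (x : ℂ)) * Dᵀ = 0 := by
  have h1 : (h.Om * β * h.Omᵀ).map (fun x : ℚ => (x : ℂ)) =
      -(h.Om.map (fun x : ℚ => (x : ℂ)) * β.map (fun x : ℚ => (x : ℂ)) *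
        h.Om.map (fun x : ℚ => (x : ℂ))) := by
    rw [h.tr]
    have h2 : (h.Om * β * -h.Om).map (Rat.castHom ℂ) = -(h.Om.map (Rat.castHom ℂ) *
        β.map (Rat.castHom ℂ) * h.Om.map (Rat.castHom ℂ)) := by
      rw [mul_neg, ← Matrix.map_mul, ← Matrix.map_mul]
      ext i j
      simp
    exact h2
  rw [h1]
  set O := h.Om.map (fun x : ℚ => (x : ℂ))
  set b := β.map (fun x : ℚ => (x : ℂ))
  have h3 : D * O + O * Dᵀ = 0 := h.sp'
  have h4 : Dᵀ * O + O * D = 0 := h.sp
  have h5 : Dᵀ * b + b * D = 0 := lieM_bil D hβ (D_mem D)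
  have h6 : D * -(O * b * O) + -(O * b * O) * Dᵀ =
      -((D * O + O * Dᵀ) * b * O) + O * (Dᵀ * b + b * D) * O - O * b * (D * O + O * Dᵀ) := by
    noncomm_ring
  rw [h6, h3, h5]
  simp

theorem PolH.isHM_conB (h : PolH D) {a b : κ} (hab : a ≠ b) {β : Matrix B B ℚ}
    (hβ : IsH D (bilc β)) : IsHM D (conB a b (h.Om * β * h.Omᵀ)) := by
  refine ⟨conB a b ((h.Om * β * h.Omᵀ).map (fun x : ℚ => (x : ℂ))), fun c => ?_, fun c => ?_⟩
  · funext I
    simp only [conB_apply, cst, Matrix.map_apply]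
    push_cast
    rfl
  · exact conB_act hab (h.con_inv hβ) c

theorem isHM_sub {P : ((κ → B) → ℚ) →ₗ[ℚ] ((κ → B) → ℚ)} (hP : IsHM D P) :
    IsHM D (LinearMap.id - P) := by
  obtain ⟨fC, h1, h2⟩ := hP
  refine ⟨LinearMap.id - fC, fun c => ?_, fun c => ?_⟩
  · rw [LinearMap.sub_apply, LinearMap.sub_apply, h1]
    funext I
    simp [cst]
  · rw [LinearMap.sub_apply, LinearMap.sub_apply, LinearMap.id_apply, LinearMap.id_apply, ← h2]
    exact (actR D).map_sub c (fC c)

end hm

/-- The largest Hodge substructure of level at most `L`. -/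
def VL (D : Matrix B B ℂ) (L : ℤ) (κ : Type) [Fintype κ] [DecidableEq κ] :
    Submodule ℚ ((κ → B) → ℚ) := sSup {V | HL D L V}

theorem HL_VL (L : ℤ) (κ : Type) [Fintype κ] [DecidableEq κ] : HL D L (VL D L κ) :=
  HL_sSup fun _ hV => hV

theorem le_VL {L : ℤ} {κ : Type} [Fintype κ] [DecidableEq κ] {V : Submodule ℚ ((κ → B) → ℚ)}
    (hV : HL D L V) : V ≤ VL D L κ := le_sSup hV

/-- **Hodge substructures of small level** are in the powers of the ideal generated by the
invariant bilinear forms. -/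
theorem le_IJ (h : PolH D) (hcore : CoreP D)
    (hMS : ∀ (m : ℕ) (c : (Fin m × Fin 2 → B) → ℚ), IsH D c → c ∈ MS D m) (j : ℕ) :
    ∀ (κ : Type) [Fintype κ] [DecidableEq κ] (L : ℤ) (V : Submodule ℚ ((κ → B) → ℚ)),
      HL D L V → L + 2 * j ≤ Fintype.card κ → V ≤ IJ D j κ := by
  induction j with
  | zero =>
    intro κ _ _ L V _ _ c _
    exact Submodule.mem_top
  | succ j ih =>
    intro κ _ _ L V hV hL
    push_cast at hL
    set M : Submodule ℚ ((κ → B) → ℚ) := sSup {W | ∃ (a b : κ) (β : Matrix B B ℚ), a ≠ b ∧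
      IsH D (bilc β) ∧ W = (VL D L {l // l ≠ a ∧ l ≠ b}).map (mulB a b β)} with hM
    have hMHL : HL D L M := by
      refine HL_sSup ?_
      rintro _ ⟨a, b, β, hab, hβ, rfl⟩
      exact HL_map (isHM_mulB hab hβ) (HL_VL L _)
    have hmem : ∀ (a b : κ) (β : Matrix B B ℚ), a ≠ b → IsH D (bilc β) →
        ∀ c ∈ VL D L {l // l ≠ a ∧ l ≠ b}, mulB a b β c ∈ M := by
      intro a b β hab hβ c hc
      exact (le_sSup ⟨a, b, β, hab, hβ, rfl⟩ : (VL D L {l // l ≠ a ∧ l ≠ b}).map (mulB a b β) ≤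
        M) (Submodule.mem_map_of_mem hc)
    obtain ⟨P, hP1, hP2, hP3, hP4⟩ := h.exists_proj hMHL
    set V0 := (VL D L κ).map (LinearMap.id - P) with hV0
    have hV0HL : HL D L V0 := HL_map (isHM_sub hP4) (HL_VL L κ)
    have hV0M : ∀ v ∈ V0, ∀ w ∈ M, EB κ h.Om v w = 0 := by
      rintro _ ⟨v, _, rfl⟩ w hw
      rw [LinearMap.sub_apply, LinearMap.id_apply, map_sub, LinearMap.sub_apply, hP3 v w hw,
        sub_self]
    have hV0Id : V0 ≤ IdQ D κ := le_IdQ h hcore hMS hV0HL (by omega)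
    have hcon : ∀ (a b : κ) (β : Matrix B B ℚ), a ≠ b → IsH D (bilc β) → ∀ v ∈ V0,
        conB a b (h.Om * β * h.Omᵀ) v = 0 := by
      intro a b β hab hβ v hv
      have h1 : HL D L (V0.map (conB a b (h.Om * β * h.Omᵀ))) :=
        HL_map (h.isHM_conB hab hβ) hV0HL
      refine h.nondeg h1 (Submodule.mem_map_of_mem hv) fun c hc => ?_
      rw [← EB_mulB hab]
      exact hV0M v hv _ (hmem a b β hab hβ c (le_VL h1 hc))
    have hV0z : ∀ v ∈ V0, v = 0 := by
      intro v hv
      have h2 : ∀ x ∈ IdQ D κ, EB κ h.Om v x = 0 := by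
        intro x hx
        unfold IdQ at hx
        induction hx using Submodule.span_induction with
        | zero => rw [map_zero]
        | add x y _ _ hx hy => rw [map_add, hx, hy, add_zero]
        | smul r x _ hx => rw [map_smul, hx, smul_zero]
        | mem F hF =>
          obtain ⟨a, b, β, c, hab, hβ, rfl⟩ := hF
          rw [EB_mulB hab, hcon a b β hab hβ v hv, map_zero, LinearMap.zero_apply]
      exact h.nondeg hV0HL hv fun v' hv' => h2 v' (hV0Id hv')
    have hVM : VL D L κ ≤ M := by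
      intro v hv
      have h1 := hV0z _ (Submodule.mem_map_of_mem (f := LinearMap.id - P) hv)
      rw [LinearMap.sub_apply, LinearMap.id_apply, sub_eq_zero] at h1
      rw [h1]
      exact hP2 v
    refine (le_VL hV).trans (hVM.trans ?_)
    refine sSup_le ?_
    rintro _ ⟨a, b, β, hab, hβ, rfl⟩
    rintro _ ⟨c, hc, rfl⟩
    refine Submodule.subset_span ⟨a, b, β, c, hab, hβ, ?_, rfl⟩
    refine ih _ L _ (HL_VL L _) ?_ hc
    have hcard : Fintype.card {l // l ≠ a ∧ l ≠ b} + 2 = Fintype.card κ := by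
      have h3 : Fintype.card {l // l ≠ a ∧ l ≠ b} = ((Finset.univ.erase a).erase b).card := by
        rw [Fintype.card_subtype]
        congr 1
        ext l
        simp [and_comm]
      have h4 : 0 < Fintype.card κ := Fintype.card_pos_iff.2 ⟨a⟩
      have h5 : 1 < Fintype.card κ := Fintype.one_lt_card_iff.2 ⟨a, b, hab⟩
      rw [h3, Finset.card_erase_of_mem (by simp [hab.symm]), Finset.card_erase_of_mem
        (Finset.mem_univ _), Finset.card_univ]
      omega
    omega

end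

end Pool.Agent.TH131.GHC
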