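import Mathlib
import Pool.Agent.H204R3.GH.Main
import Pool.Agent.W546.GHC.Defs
import Pool.Agent.TH131.GHC.Ind

/-!
# From alternating forms on complex tori to forms in coordinates
-/

set_option linter.unusedSectionVars false

namespace Pool.Agent.TH131.GHC

open Matrix Equiv Pool.Agent.H204R3.CM Pool.Agent.H204R3.SP Pool.Agent.H204R3.GH
  Pool.Agent.W437.HC Pool.Agent.W437.HD Pool.Agent.W437.HP Pool.Agent.W546.GHC

noncomputable section

/-- Coordinates on a complex torus: the rational homology `W` is a direct summand of a power of the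
polarized Hodge structure with complex structure `J`. -/
structure Frame {W T : Type*} [AddCommGroup W] [Module ℚ W] [AddCommGroup T] [Module ℂ T]
    (per : W →+ T) {B : Type*} [Fintype B] [DecidableEq B] (J : Matrix B B ℝ) (ν : Type)
    [Fintype ν] where
  /-- the coordinates -/
  a : ν → W →ₗ[ℚ] (B → ℚ)
  /-- the sections -/
  s : ν → (B → ℚ) →ₗ[ℚ] W
  tot : ∀ w, w = ∑ j, s j (a j w)
  /-- the real coordinates -/
  aR : ν → T →ₗ[ℝ] (B → ℝ)
  /-- the real sections -/
  sR : ν → (B → ℝ) →ₗ[ℝ] T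
  aR_per : ∀ j w, aR j (per w) = fun i => ((a j w i : ℚ) : ℝ)
  sR_per : ∀ j x, sR j (fun i => ((x i : ℚ) : ℝ)) = per (s j x)
  aR_rot : ∀ j (z : ℂ) u, aR j (z • u) = z.re • aR j u + z.im • (J *ᵥ aR j u)
  sR_rot : ∀ j x, sR j (J *ᵥ x) = Complex.I • sR j x

variable {W T : Type*} [AddCommGroup W] [Module ℚ W] [AddCommGroup T] [Module ℂ T]
  {per : W →+ T} {B : Type*} [Fintype B] [DecidableEq B] {J : Matrix B B ℝ} {ν : Type}
  [Fintype ν] [DecidableEq ν] (Fr : Frame per J ν)

section coord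

variable {κ : Type*} [Fintype κ] [DecidableEq κ]

/-- The coordinates of a form. -/
def Frame.cf (σ : κ → ν) : (W [⋀^κ]→ₗ[ℚ] ℚ) →ₗ[ℚ] ((κ → B) → ℚ) where
  toFun f := fun I => f (fun k => Fr.s (σ k) (Pi.single (I k) 1))
  map_add' f g := by
    funext I
    rfl
  map_smul' r f := by
    funext I
    rfl

theorem Frame.cf_apply (σ : κ → ν) (f : W [⋀^κ]→ₗ[ℚ] ℚ) (I : κ → B) :
    Fr.cf σ f I = f (fun k => Fr.s (σ k) (Pi.single (I k) 1)) := rfl

/-- A form is determined by its coordinates. -/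
theorem Frame.expand (f : W [⋀^κ]→ₗ[ℚ] ℚ) (v : κ → W) :
    f v = ∑ σ : κ → ν, ∑ I : κ → B, Fr.cf σ f I * ∏ k, Fr.a (σ k) (v k) (I k) := by
  have h1 : v = fun k => ∑ p : ν × B, Fr.a p.1 (v k) p.2 • Fr.s p.1 (Pi.single p.2 1) := by
    funext k
    rw [Fintype.sum_prod_type]
    conv_lhs => rw [Fr.tot (v k)]
    refine Finset.sum_congr rfl fun j _ => ?_
    have h2 : Fr.a j (v k) = ∑ i, Fr.a j (v k) i • (Pi.single i 1 : B → ℚ) := by
      funext i
      rw [Finset.sum_apply, Finset.sum_eq_single i]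
      · simp
      · intro b _ hb
        rw [Pi.smul_apply, Pi.single_eq_of_ne (Ne.symm hb), smul_zero]
      · intro h
        exact absurd (Finset.mem_univ _) h
    conv_lhs => rw [h2]
    rw [map_sum]
    exact Finset.sum_congr rfl fun i _ => map_smul _ _ _
  have h2 : f v = ∑ r : κ → ν × B, (∏ k, Fr.a (r k).1 (v k) (r k).2) *
      Fr.cf (fun k => (r k).1) f (fun k => (r k).2) := by
    conv_lhs => rw [h1]
    change f.toMultilinearMap _ = _
    rw [MultilinearMap.map_sum]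
    refine Finset.sum_congr rfl fun r _ => ?_
    rw [MultilinearMap.map_smul_univ, smul_eq_mul]
    rfl
  rw [h2, ← Fintype.sum_prod_type' (f := fun (σ : κ → ν) (I : κ → B) =>
    Fr.cf σ f I * ∏ k, Fr.a (σ k) (v k) (I k))]
  let E : (κ → ν × B) ≃ (κ → ν) × (κ → B) :=
    { toFun := fun r => (fun k => (r k).1, fun k => (r k).2)
      invFun := fun p k => (p.1 k, p.2 k)
      left_inv := fun r => rfl
      right_inv := fun p => rfl }
  exact Fintype.sum_equiv E _ _ fun r => mul_comm _ _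

include Fr in
/-- Every rational form extends to the tangent space. -/
theorem Frame.exists_ext (f : W [⋀^κ]→ₗ[ℚ] ℚ) :
    ∃ ψ : T [⋀^κ]→ₗ[ℝ] ℂ, ∀ w : κ → W, ψ (fun l => per (w l)) = ((f w : ℚ) : ℂ) := by
  let Ψ : MultilinearMap ℝ (fun _ : κ => T) ℝ :=
    ∑ σ : κ → ν, (evalM (cst ℝ (Fr.cf σ f))).compLinearMap (fun k => Fr.aR (σ k))
  have hΨ : ∀ w : κ → W, Ψ (fun l => per (w l)) = ((f w : ℚ) : ℝ) := by
    intro w
    rw [Fr.expand f w]
    simp only [Ψ, _root_.sum_apply, MultilinearMap.compLinearMap_apply, evalM_apply,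
      Fr.aR_per, evalF, cst]
    push_cast
    rfl
  refine ⟨((((Fintype.card κ).factorial : ℝ)⁻¹ : ℝ) • (Algebra.linearMap ℝ ℂ)).compAlternatingMap
    (MultilinearMap.alternatization Ψ), fun w => ?_⟩
  have h1 : MultilinearMap.alternatization Ψ (fun l => per (w l)) =
      ((Fintype.card κ).factorial : ℝ) * ((f w : ℚ) : ℝ) := by
    rw [MultilinearMap.alternatization_apply]
    have h2 : ∀ σ : Perm κ, Perm.sign σ • Ψ.domDomCongr σ (fun l => per (w l)) =
        ((f w : ℚ) : ℝ) := by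
      intro σ
      have h3 : Ψ.domDomCongr σ (fun l => per (w l)) = ((f (fun l => w (σ l)) : ℚ) : ℝ) :=
        hΨ (fun l => w (σ l))
      have h4 : f (fun l => w (σ l)) = Perm.sign σ • f w := f.map_perm w σ
      rw [h3, h4]
      rcases Int.units_eq_one_or (Perm.sign σ) with h5 | h5
      · rw [h5]
        simp
      · rw [h5]
        simp
    rw [Finset.sum_congr rfl (fun σ _ => h2 σ), Finset.sum_const, Finset.card_univ,
      Fintype.card_perm, nsmul_eq_mul]
  rw [LinearMap.compAlternatingMap_apply, h1, LinearMap.smul_apply, Algebra.linearMap_apply,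
    Complex.coe_algebraMap, Complex.real_smul]
  have h2 : ((Fintype.card κ).factorial : ℂ) ≠ 0 :=
    Nat.cast_ne_zero.2 (Nat.factorial_ne_zero _)
  push_cast
  rw [← mul_assoc, inv_mul_cancel₀ h2, one_mul]

/-- The coordinates of a complex form. -/
def Frame.th (σ : κ → ν) : (T [⋀^κ]→ₗ[ℝ] ℂ) →ₗ[ℂ] ((κ → B) → ℂ) where
  toFun ψ := fun I => ψ (fun k => Fr.sR (σ k) (Pi.single (I k) 1))
  map_add' f g := by
    funext I
    rfl
  map_smul' r f := by
    funext I
    rfl

theorem Frame.th_apply (σ : κ → ν) (ψ : T [⋀^κ]→ₗ[ℝ] ℂ) (I : κ → B) :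
    Fr.th σ ψ I = ψ (fun k => Fr.sR (σ k) (Pi.single (I k) 1)) := rfl

theorem cast_single (i : B) :
    (fun j => (((Pi.single i 1 : B → ℚ) j : ℚ) : ℝ)) = (Pi.single i 1 : B → ℝ) := by
  funext j
  by_cases h : j = i
  · rw [h, Pi.single_eq_same, Pi.single_eq_same, Rat.cast_one]
  · rw [Pi.single_eq_of_ne h, Pi.single_eq_of_ne h, Rat.cast_zero]

/-- The coordinates of an extension. -/
theorem Frame.th_of_ext (σ : κ → ν) {ψ : T [⋀^κ]→ₗ[ℝ] ℂ} {f : W [⋀^κ]→ₗ[ℚ] ℚ}
    (h : ∀ w : κ → W, ψ (fun l => per (w l)) = ((f w : ℚ) : ℂ)) :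
    Fr.th σ ψ = cst ℂ (Fr.cf σ f) := by
  funext I
  rw [Fr.th_apply, cst, Fr.cf_apply, ← h]
  congr 1
  funext k
  rw [← Fr.sR_per, cast_single]

/-- The values of a complex form on real vectors. -/
theorem Frame.evalF_th (σ : κ → ν) (ψ : T [⋀^κ]→ₗ[ℝ] ℂ) (x : κ → B → ℝ) :
    evalF (Fr.th σ ψ) (fun k i => ((x k i : ℝ) : ℂ)) = ψ (fun k => Fr.sR (σ k) (x k)) := by
  have h1 : (fun k => Fr.sR (σ k) (x k)) = fun k => ∑ i, x k i •
      Fr.sR (σ k) (Pi.single i 1) := by
    funext k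
    have h2 : x k = ∑ i, x k i • (Pi.single i 1 : B → ℝ) := by
      funext i
      rw [Finset.sum_apply, Finset.sum_eq_single i]
      · simp
      · intro b _ hb
        rw [Pi.smul_apply, Pi.single_eq_of_ne (Ne.symm hb), smul_zero]
      · intro h
        exact absurd (Finset.mem_univ _) h
    conv_lhs => rw [h2]
    rw [map_sum]
    exact Finset.sum_congr rfl fun i _ => map_smul _ _ _
  rw [h1]
  change _ = ψ.toMultilinearMap _
  rw [MultilinearMap.map_sum]
  unfold evalF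
  refine Finset.sum_congr rfl fun I _ => ?_
  rw [MultilinearMap.map_smul_univ, Complex.real_smul, mul_comm]
  congr 1
  push_cast
  rfl

/-- The derivative along the complex structure. -/
theorem hasDerivAt_evalF (c : (κ → B) → ℂ) (x y : κ → B → ℂ) :
    HasDerivAt (fun t : ℝ => evalF c (fun k i => x k i + (t : ℂ) * y k i))
      (∑ k, evalF c (Function.update x k (y k))) 0 := by
  have h1 : HasDerivAt (fun t : ℝ => ∑ I, c I * ∏ k, (x k (I k) + (t : ℂ) * y k (I k)))
      (∑ I, c I * ∑ k, (∏ l ∈ Finset.univ.erase k, (x l (I l) + ((0 : ℝ) : ℂ) * y l (I l))) •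
        (1 * y k (I k))) 0 := by
    refine HasDerivAt.fun_sum fun I _ => ?_
    refine HasDerivAt.const_mul _ ?_
    refine HasDerivAt.fun_finsetProd fun k _ => ?_
    exact (Complex.ofRealCLM.hasDerivAt.mul_const _).const_add _
  have h2 : (∑ I, c I * ∑ k, (∏ l ∈ Finset.univ.erase k,
      (x l (I l) + ((0 : ℝ) : ℂ) * y l (I l))) • (1 * y k (I k))) =
      ∑ k, evalF c (Function.update x k (y k)) := by
    unfold evalF
    rw [Finset.sum_comm]
    refine Finset.sum_congr rfl fun I _ => ?_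
    rw [Finset.mul_sum]
    refine Finset.sum_congr rfl fun k _ => ?_
    rw [← Finset.mul_prod_erase _ _ (Finset.mem_univ k), Function.update_self]
    have h2 : ∏ l ∈ Finset.univ.erase k, Function.update x k (y k) l (I l) =
        ∏ l ∈ Finset.univ.erase k, (x l (I l) + ((0 : ℝ) : ℂ) * y l (I l)) := by
      refine Finset.prod_congr rfl fun l hl => ?_
      rw [Function.update_of_ne (Finset.ne_of_mem_erase hl), Complex.ofReal_zero, zero_mul,
        add_zero]
    rw [h2, smul_eq_mul]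
    ring
  rw [h2] at h1
  exact h1

end coord

section types

variable {i : ℕ} {D : Matrix B B ℂ} (hD : D = (-Complex.I) • J.map (fun x : ℝ => (x : ℂ)))

include hD in
/-- Forms of type `(p, q)` are eigenforms. -/
theorem Frame.th_type (σ : Fin i → ν) {p q : ℕ} {ψ : T [⋀^Fin i]→ₗ[ℝ] ℂ}
    (hψ : ψ ∈ typeForms T i p q) : Fr.th σ ψ ∈ eigF D (Fin i) ((p : ℤ) - q) := by
  set c := Fr.th σ ψ with hc
  -- the values on real vectors
  have h1 : ∀ (x : Fin i → B → ℝ) (t : ℝ),
      evalF c (fun k j => (((x k) j : ℝ) : ℂ) + (t : ℂ) * (((J *ᵥ x k) j : ℝ) : ℂ)) =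
        (1 + (t : ℂ) * Complex.I) ^ p * (1 - (t : ℂ) * Complex.I) ^ q *
          evalF c (fun k j => ((x k j : ℝ) : ℂ)) := by
    intro x t
    have e1 : (fun (k : Fin i) (j : B) => (((x k) j : ℝ) : ℂ) +
        (t : ℂ) * (((J *ᵥ x k) j : ℝ) : ℂ)) =
        fun k j => (((x k + t • (J *ᵥ x k)) j : ℝ) : ℂ) := by
      funext k j
      simp
    rw [e1, hc, Fr.evalF_th σ ψ (fun k => x k + t • (J *ᵥ x k)), Fr.evalF_th σ ψ x]
    have e2 : (fun k => Fr.sR (σ k) (x k + t • (J *ᵥ x k))) =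
        fun k => (1 + (t : ℂ) * Complex.I) • Fr.sR (σ k) (x k) := by
      funext k
      rw [map_add, map_smul, Fr.sR_rot, add_smul, one_smul, mul_smul]
      congr 1
    rw [e2, hψ (1 + (t : ℂ) * Complex.I)]
    congr 2
    rw [map_add, map_one, map_mul, Complex.conj_ofReal, Complex.conj_I]
    ring
  have h2 : ∀ x : Fin i → B → ℝ, evalF (act (J.map (fun x : ℝ => (x : ℂ))) c)
      (fun k j => ((x k j : ℝ) : ℂ)) =
      (Complex.I * ((p : ℂ) - q)) * evalF c (fun k j => ((x k j : ℝ) : ℂ)) := by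
    intro x
    have e1 := hasDerivAt_evalF c (fun k j => ((x k j : ℝ) : ℂ))
      (fun k j => (((J *ᵥ x k) j : ℝ) : ℂ))
    have e2 : HasDerivAt (fun t : ℝ => (1 + (t : ℂ) * Complex.I) ^ p *
        (1 - (t : ℂ) * Complex.I) ^ q * evalF c (fun k j => ((x k j : ℝ) : ℂ)))
        (((p : ℂ) * (1 + ((0 : ℝ) : ℂ) * Complex.I) ^ (p - 1) * (1 * Complex.I) *
          (1 - ((0 : ℝ) : ℂ) * Complex.I) ^ q + (1 + ((0 : ℝ) : ℂ) * Complex.I) ^ p *
          ((q : ℂ) * (1 - ((0 : ℝ) : ℂ) * Complex.I) ^ (q - 1) * (-(1 * Complex.I)))) *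
          evalF c (fun k j => ((x k j : ℝ) : ℂ))) 0 := by
      refine HasDerivAt.mul_const ?_ _
      refine HasDerivAt.mul ?_ ?_
      · exact ((Complex.ofRealCLM.hasDerivAt.mul_const Complex.I).const_add 1).pow p
      · exact ((Complex.ofRealCLM.hasDerivAt.mul_const Complex.I).const_sub 1).pow q
    have e3 := funext (h1 x)
    rw [e3] at e1
    have e4 := e1.unique e2
    rw [evalF_act]
    have e5 : ∀ k, J.map (fun x : ℝ => (x : ℂ)) *ᵥ (fun j => ((x k j : ℝ) : ℂ)) =
        fun j => (((J *ᵥ x k) j : ℝ) : ℂ) := by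
      intro k
      funext j
      simp [mulVec, dotProduct]
    simp only [e5]
    rw [e4]
    simp only [Complex.ofReal_zero, zero_mul, add_zero, sub_zero, one_pow, mul_one, one_mul]
    ring
  have h3 : act (J.map (fun x : ℝ => (x : ℂ))) c = (Complex.I * ((p : ℂ) - q)) • c := by
    funext I
    have e1 := h2 (fun k => Pi.single (I k) 1)
    have e2 : (fun (k : Fin i) (j : B) => (((Pi.single (I k) 1 : B → ℝ) j : ℝ) : ℂ)) =
        fun k => Pi.single (I k) 1 := by
      funext k j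
      by_cases h : j = I k
      · rw [h, Pi.single_eq_same, Pi.single_eq_same, Complex.ofReal_one]
      · rw [Pi.single_eq_of_ne h, Pi.single_eq_of_ne h, Complex.ofReal_zero]
    rw [e2, evalF_single, evalF_single] at e1
    rw [e1]
    rfl
  rw [mem_eigF, hD, act_smul_left, h3, smul_smul]
  congr 1
  push_cast
  linear_combination (-((p : ℂ) - q)) * Complex.I_mul_I

include hD in
/-- The coordinates of a Hodge substructure are Hodge substructures. -/
theorem Frame.HL_map (σ : Fin i → ν) {V : Submodule ℚ (W [⋀^Fin i]→ₗ[ℚ] ℚ)}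
    (hV : IsHodgeSubstructure per V) {L : ℤ} (hL : LevelLE per V L) :
    HL D L (V.map (Fr.cf σ)) := by
  rintro _ ⟨f, hf, rfl⟩
  obtain ⟨ψ, hψ⟩ := Fr.exists_ext f
  have h1 : ψ ∈ complexify per V := Submodule.subset_span ⟨f, hf, hψ⟩
  have h2 : ∀ φ ∈ complexify per V, Fr.th σ φ ∈ cx (V.map (Fr.cf σ)) := by
    intro φ hφ
    unfold complexify at hφ
    induction hφ using Submodule.span_induction with
    | mem φ hφ =>
      obtain ⟨g, hg, hφ⟩ := hφ
      rw [Fr.th_of_ext σ hφ]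
      exact cst_mem_cx (Submodule.mem_map_of_mem hg)
    | zero =>
      rw [map_zero]
      exact Submodule.zero_mem _
    | add x y _ _ hx hy =>
      rw [map_add]
      exact Submodule.add_mem _ hx hy
    | smul r x _ hx =>
      rw [map_smul]
      exact Submodule.smul_mem _ _ hx
  rw [← Fr.th_of_ext σ hψ]
  unfold IsHodgeSubstructure at hV
  rw [hV] at h1
  have h3 := Submodule.mem_map_of_mem (f := Fr.th σ) h1
  simp only [Submodule.map_iSup] at h3
  refine SetLike.le_def.1 ?_ h3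
  refine iSup_le fun p => iSup_le fun q => iSup_le fun hpq => ?_
  by_cases h0 : complexify per V ⊓ typeForms T i p q = ⊥
  · rw [h0, Submodule.map_bot]
    exact bot_le
  · have h4 := hL p q hpq h0
    refine le_trans ?_ (le_iSup (fun a : {a : ℤ // |a| ≤ L} =>
      cx (V.map (Fr.cf σ)) ⊓ eigF D (Fin i) a.1) ⟨(p : ℤ) - q, h4⟩)
    rintro _ ⟨φ, hφ, rfl⟩
    exact ⟨h2 φ hφ.1, Fr.th_type hD σ hφ.2⟩

end types

end

end Pool.Agent.TH131.GHC
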