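import Mathlib
import Pool.Agent.TH131.GHC.Conv

/-!
# From products of forms in coordinates to products of divisor classes
-/

set_option linter.unusedSectionVars false

namespace Pool.Agent.TH131.GHC

open Matrix Equiv Pool.Agent.H204R3.CM Pool.Agent.H204R3.SP Pool.Agent.H204R3.GH
  Pool.Agent.W437.HC Pool.Agent.W437.HD Pool.Agent.W437.HP Pool.Agent.W546.GHC

noncomputable section

variable {W T : Type*} [AddCommGroup W] [Module ℚ W] [AddCommGroup T] [Module ℂ T]
  {per : W →+ T} {B : Type*} [Fintype B] [DecidableEq B] {J : Matrix B B ℝ} {ν : Type}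
  [Fintype ν] [DecidableEq ν] (Fr : Frame per J ν)

/-- The products of `j` bilinear forms whose alternations are Hodge classes with a multilinear
form. -/
def SJ (per : W →+ T) (j : ℕ) (κ : Type) : Set ((κ → W) → ℚ) :=
  {F | ∃ (k : ℕ) (e : (Fin j × Fin 2) ⊕ Fin k ≃ κ)
    (b : Fin j → MultilinearMap ℚ (fun _ : Fin 2 => W) ℚ)
    (η : MultilinearMap ℚ (fun _ : Fin k => W) ℚ),
    (∀ s, IsHodge per (MultilinearMap.alternatization (b s))) ∧
    F = fun v => (∏ s, b s (fun ε => v (e (Sum.inl (s, ε))))) * η (fun r => v (e (Sum.inr r)))}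

/-- The bilinear form on the homology given by a matrix. -/
def Frame.bil (β : Matrix B B ℚ) (j0 j1 : ν) : MultilinearMap ℚ (fun _ : Fin 2 => W) ℚ :=
  (evalM (bilc β)).compLinearMap (fun k => Fr.a (![j0, j1] k))

theorem evalF_bilc {K : Type*} [Field K] (β : Matrix B B K) (x : Fin 2 → B → K) :
    evalF (bilc β) x = x 0 ⬝ᵥ (β *ᵥ x 1) := by
  unfold evalF bilc
  have h1 : x 0 ⬝ᵥ (β *ᵥ x 1) = ∑ u, ∑ w, β u w * (x 0 u * x 1 w) := by
    simp only [dotProduct, mulVec, Finset.mul_sum]
    exact Finset.sum_congr rfl fun u _ => Finset.sum_congr rfl fun w _ => by ring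
  rw [h1, ← (finTwoArrowEquiv B).symm.sum_comp, Fintype.sum_prod_type]
  refine Finset.sum_congr rfl fun u _ => Finset.sum_congr rfl fun w _ => ?_
  rw [Fin.prod_univ_two]
  rfl

theorem Frame.bil_apply (β : Matrix B B ℚ) (j0 j1 : ν) (v : Fin 2 → W) :
    Fr.bil β j0 j1 v = Fr.a j0 (v 0) ⬝ᵥ (β *ᵥ Fr.a j1 (v 1)) := by
  unfold Frame.bil
  rw [MultilinearMap.compLinearMap_apply, evalM_apply, evalF_bilc]
  rfl

/-- The alternations of the invariant bilinear forms are Hodge classes. -/
theorem Frame.isHodge_bil {D : Matrix B B ℂ}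
    (hD : D = (-Complex.I) • J.map (fun x : ℝ => (x : ℂ))) (hJ : J * J = -1)
    {β : Matrix B B ℚ} (hβ : IsH D (bilc β)) (j0 j1 : ν) :
    IsHodge per (MultilinearMap.alternatization (Fr.bil β j0 j1)) := by
  set M : Matrix B B ℝ := β.map (fun x : ℚ => (x : ℝ)) with hM
  refine isHodge_alt ((evalM (bilc M)).compLinearMap (fun k => Fr.aR (![j0, j1] k)))
    (fun v => ?_) (fun z hz u => ?_)
  · rw [MultilinearMap.compLinearMap_apply, evalM_apply, evalF_bilc, Fr.bil_apply]
    change Fr.aR j0 (per (v 0)) ⬝ᵥ (M *ᵥ Fr.aR j1 (per (v 1))) = _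
    rw [Fr.aR_per, Fr.aR_per, hM]
    simp [dotProduct, mulVec]
  · rw [MultilinearMap.compLinearMap_apply, MultilinearMap.compLinearMap_apply, evalM_apply,
      evalM_apply, evalF_bilc, evalF_bilc]
    change Fr.aR j0 (z • u 0) ⬝ᵥ (M *ᵥ Fr.aR j1 (z • u 1)) =
      Fr.aR j0 (u 0) ⬝ᵥ (M *ᵥ Fr.aR j1 (u 1))
    have hJM : Jᵀ * M + M * J = 0 := by
      have h1 : Dᵀ * β.map (fun x : ℚ => (x : ℂ)) + β.map (fun x : ℚ => (x : ℂ)) * D = 0 :=
        lieM_bil D hβ (D_mem D)
      have h2 : (-Complex.I) • ((Jᵀ * M + M * J).map (fun x : ℝ => (x : ℂ))) = 0 := by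
        rw [← h1, hD, transpose_smul, Matrix.smul_mul, Matrix.mul_smul, ← smul_add]
        congr 1
        ext i k
        simp [Matrix.mul_apply, hM]
      have h3 := (smul_eq_zero.1 h2).resolve_left (neg_ne_zero.2 Complex.I_ne_zero)
      ext i k
      have h4 := congrFun (congrFun h3 i) k
      rw [Matrix.map_apply, Matrix.zero_apply] at h4
      rw [Matrix.zero_apply]
      exact_mod_cast h4
    have hn : z.re ^ 2 + z.im ^ 2 = 1 := by
      have h := Complex.sq_norm z
      rw [hz, Complex.normSq_apply] at h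
      nlinarith [h]
    rw [Fr.aR_rot, Fr.aR_rot]
    set x := Fr.aR j0 (u 0)
    set y := Fr.aR j1 (u 1)
    have h4 : x ⬝ᵥ (M *ᵥ (J *ᵥ y)) = -((J *ᵥ x) ⬝ᵥ (M *ᵥ y)) := by
      have h5 : (J *ᵥ x) ⬝ᵥ (M *ᵥ y) = x ⬝ᵥ ((Jᵀ * M) *ᵥ y) := by
        rw [← mulVec_mulVec, dotProduct_mulVec x, vecMul_transpose]
      rw [h5, eq_neg_of_add_eq_zero_left hJM, neg_mulVec, dotProduct_neg, neg_neg, mulVec_mulVec]
    have h6 : (J *ᵥ x) ⬝ᵥ (M *ᵥ (J *ᵥ y)) = x ⬝ᵥ (M *ᵥ y) := by
      have h5 : (J *ᵥ x) ⬝ᵥ (M *ᵥ (J *ᵥ y)) = x ⬝ᵥ ((Jᵀ * M) *ᵥ (J *ᵥ y)) := by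
        rw [← mulVec_mulVec, dotProduct_mulVec x, vecMul_transpose]
      rw [h5, eq_neg_of_add_eq_zero_left hJM, neg_mulVec, mulVec_mulVec, mul_assoc, hJ,
        mul_neg_one, neg_mulVec, neg_neg]
    simp only [mulVec_add, mulVec_smul, dotProduct_add, add_dotProduct, smul_dotProduct,
      dotProduct_smul, smul_eq_mul, h4, h6]
    linear_combination (x ⬝ᵥ (M *ᵥ y)) * hn

/-- The function on the homology given by a form in coordinates. -/
def Frame.pf {κ : Type} [Fintype κ] [DecidableEq κ] (σ : κ → ν) :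
    ((κ → B) → ℚ) →ₗ[ℚ] ((κ → W) → ℚ) where
  toFun c := fun v => evalF c (fun k => Fr.a (σ k) (v k))
  map_add' c d := by
    funext v
    simp only [evalF, Pi.add_apply, add_mul, Finset.sum_add_distrib]
  map_smul' r c := by
    funext v
    simp only [evalF, Pi.smul_apply, smul_eq_mul, mul_assoc, Finset.mul_sum, RingHom.id_apply]

theorem Frame.pf_apply {κ : Type} [Fintype κ] [DecidableEq κ] (σ : κ → ν) (c : (κ → B) → ℚ)
    (v : κ → W) : Fr.pf σ c v = evalF c (fun k => Fr.a (σ k) (v k)) := rfl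

theorem evalF_mulB {K : Type*} [Field K] {κ : Type*} [Fintype κ] [DecidableEq κ] {a b : κ}
    (hab : a ≠ b) (β : Matrix B B K) (c : ({l // l ≠ a ∧ l ≠ b} → B) → K) (x : κ → B → K) :
    evalF (mulB a b β c) x = (x a ⬝ᵥ (β *ᵥ x b)) * evalF c (fun l => x l.1) := by
  unfold evalF
  rw [sum_fill hab, Finset.mul_sum]
  refine Finset.sum_congr rfl fun X' _ => ?_
  have h1 : ∀ u w, mulB a b β c (fill a b u w X') * ∏ k, x k (fill a b u w X' k) =
      (x a u * (β u w * x b w)) * (c X' * ∏ l : {l // l ≠ a ∧ l ≠ b}, x l.1 (X' l)) := by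
    intro u w
    rw [prod_split hab, mulB_apply, fill_p, fill_k hab]
    have h2 : (fun l : {l // l ≠ a ∧ l ≠ b} => fill a b u w X' l.1) = X' := by
      funext l
      exact fill_l a b u w X' l
    rw [h2]
    simp only [fill_l]
    ring
  simp only [h1]
  simp only [← Finset.sum_mul]
  congr 1
  simp only [dotProduct, mulVec, Finset.mul_sum]

/-- Add a pair to an equivalence. -/
theorem exists_extend_sum {κ : Type} [Fintype κ] [DecidableEq κ] {p k : κ} (hpk : p ≠ k)
    {j n : ℕ} (e : (Fin j × Fin 2) ⊕ Fin n ≃ {l // l ≠ p ∧ l ≠ k}) :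
    ∃ e' : (Fin (j + 1) × Fin 2) ⊕ Fin n ≃ κ, e' (Sum.inl (0, 0)) = p ∧
      e' (Sum.inl (0, 1)) = k ∧ (∀ s ε, e' (Sum.inl (Fin.succ s, ε)) = (e (Sum.inl (s, ε))).1) ∧
      ∀ r, e' (Sum.inr r) = (e (Sum.inr r)).1 := by
  let g : (Fin (j + 1) × Fin 2) ⊕ Fin n → κ := Sum.elim (fun x =>
    Fin.cases (if x.2 = 0 then p else k) (fun s => (e (Sum.inl (s, x.2))).1) x.1)
    (fun r => (e (Sum.inr r)).1)
  have hsurj : Function.Surjective g := by
    intro l
    by_cases h1 : l = p
    · exact ⟨Sum.inl (0, 0), by simp [g, h1]⟩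
    · by_cases h2 : l = k
      · exact ⟨Sum.inl (0, 1), by simp [g, h2]⟩
      · rcases hx : e.symm ⟨l, h1, h2⟩ with x | r
        · refine ⟨Sum.inl (Fin.succ x.1, x.2), ?_⟩
          have h3 : e (Sum.inl x) = ⟨l, h1, h2⟩ := by rw [← hx, e.apply_symm_apply]
          simp [g, h3]
        · refine ⟨Sum.inr r, ?_⟩
          have h3 : e (Sum.inr r) = ⟨l, h1, h2⟩ := by rw [← hx, e.apply_symm_apply]
          simp [g, h3]
  have hcard : Fintype.card {l // l ≠ p ∧ l ≠ k} + 2 = Fintype.card κ := by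
    have h3 : Fintype.card {l // l ≠ p ∧ l ≠ k} = ((Finset.univ.erase p).erase k).card := by
      rw [Fintype.card_subtype]
      congr 1
      ext l
      simp [and_comm]
    have h5 : 1 < Fintype.card κ := Fintype.one_lt_card_iff.2 ⟨p, k, hpk⟩
    rw [h3, Finset.card_erase_of_mem (by simp [hpk.symm]), Finset.card_erase_of_mem
      (Finset.mem_univ _), Finset.card_univ]
    omega
  have hcard2 := Fintype.card_congr e
  have hbij : Function.Bijective g := by
    rw [Fintype.bijective_iff_surjective_and_card]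
    refine ⟨hsurj, ?_⟩
    rw [← hcard, ← hcard2]
    simp only [Fintype.card_sum, Fintype.card_prod, Fintype.card_fin]
    ring
  exact ⟨Equiv.ofBijective g hbij, by simp [g], by simp [g], fun s ε => by simp [g],
    fun r => by simp [g]⟩

/-- The forms in the powers of the ideal give combinations of products. -/
theorem Frame.pf_mem {D : Matrix B B ℂ}
    (hD : D = (-Complex.I) • J.map (fun x : ℝ => (x : ℂ))) (hJ : J * J = -1) (j : ℕ) :
    ∀ (κ : Type) [Fintype κ] [DecidableEq κ] (σ : κ → ν) (c : (κ → B) → ℚ), c ∈ IJ D j κ →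
      Fr.pf σ c ∈ Submodule.span ℚ (SJ per j κ) := by
  induction j with
  | zero =>
    intro κ _ _ σ c _
    obtain ⟨e0⟩ : Nonempty (Fin (Fintype.card κ) ≃ κ) := ⟨(Fintype.equivFin κ).symm⟩
    let e : (Fin 0 × Fin 2) ⊕ Fin (Fintype.card κ) ≃ κ := (Equiv.emptySum _ _).trans e0
    refine Submodule.subset_span ⟨Fintype.card κ, e, fun s => s.elim0,
      ((evalM c).compLinearMap (fun k => Fr.a (σ k))).domDomCongr e0.symm, fun s => s.elim0, ?_⟩
    funext v
    rw [Fr.pf_apply, Finset.univ_eq_empty, Finset.prod_empty, one_mul,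
      MultilinearMap.domDomCongr_apply, MultilinearMap.compLinearMap_apply, evalM_apply]
    congr 1
    funext k
    have h1 : e (Sum.inr (e0.symm k)) = k := by
      change e0 (e0.symm k) = k
      exact e0.apply_symm_apply k
    rw [h1]
  | succ j ih =>
    intro κ _ _ σ c hc
    change c ∈ Submodule.span ℚ _ at hc
    induction hc using Submodule.span_induction with
    | zero =>
      rw [map_zero]
      exact Submodule.zero_mem _
    | add x y _ _ hx hy =>
      rw [map_add]
      exact Submodule.add_mem _ hx hy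
    | smul r x _ hx =>
      rw [map_smul]
      exact Submodule.smul_mem _ _ hx
    | mem F hF =>
      obtain ⟨a, b, β, c, hab, hβ, hc, rfl⟩ := hF
      have h1 := ih {l // l ≠ a ∧ l ≠ b} (fun l => σ l.1) c hc
      let Lm : (({l // l ≠ a ∧ l ≠ b} → W) → ℚ) →ₗ[ℚ] ((κ → W) → ℚ) :=
        { toFun := fun F v => Fr.bil β (σ a) (σ b) ![v a, v b] * F (fun l => v l.1)
          map_add' := fun F G => by
            funext v
            simp only [Pi.add_apply, mul_add]
          map_smul' := fun r F => by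
            funext v
            simp only [Pi.smul_apply, smul_eq_mul, RingHom.id_apply]
            ring }
      have h2 : Fr.pf σ (mulB a b β c) = Lm (Fr.pf (fun l => σ l.1) c) := by
        funext v
        rw [Fr.pf_apply, evalF_mulB hab]
        change _ = Fr.bil β (σ a) (σ b) ![v a, v b] * _
        rw [Fr.bil_apply]
        rfl
      rw [h2]
      have h3 := Submodule.mem_map_of_mem (f := Lm) h1
      rw [Submodule.map_span] at h3
      refine Submodule.span_mono ?_ h3
      rintro _ ⟨_, ⟨k, e, b', η, hb', rfl⟩, rfl⟩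
      obtain ⟨e', he0, he1, he2, he3⟩ := exists_extend_sum hab e
      refine ⟨k, e', Fin.cons (Fr.bil β (σ a) (σ b)) b', η, ?_, ?_⟩
      · intro s
        refine Fin.cases ?_ (fun s => ?_) s
        · exact Fr.isHodge_bil hD hJ hβ _ _
        · exact hb' s
      · funext v
        rw [Fin.prod_univ_succ]
        change Fr.bil β (σ a) (σ b) ![v a, v b] * _ = _
        simp only [Fin.cons_zero, Fin.cons_succ, he2, he3]
        have h4 : (fun ε : Fin 2 => v (e' (Sum.inl (0, ε)))) = ![v a, v b] := by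
          funext ε
          fin_cases ε
          · change v (e' (Sum.inl (0, 0))) = v a
            rw [he0]
          · change v (e' (Sum.inl (0, 1))) = v b
            rw [he1]
        rw [h4, mul_assoc]

/-- An alternating form which is a combination of products of `j` bilinear forms with Hodge
alternations and a form is a combination of products with `j` divisor classes. -/
theorem alt_SJ {i j : ℕ} (f : W [⋀^Fin i]→ₗ[ℚ] ℚ)
    (hf : (fun v => f v) ∈ Submodule.span ℚ (SJ per j (Fin i))) :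
    f ∈ Submodule.span ℚ (divisorProducts per i j) := by
  classical
  have hA : altFun (R := ℚ) (fun v => f v) ∈
      Submodule.map (altFun (R := ℚ)) (Submodule.span ℚ (SJ per j (Fin i))) :=
    Submodule.mem_map_of_mem hf
  rw [Submodule.map_span, altFun_alt] at hA
  let K : (W [⋀^Fin i]→ₗ[ℚ] ℚ) →ₗ[ℚ] ((Fin i → W) → ℚ) :=
    { toFun := fun g v => g v
      map_add' := fun _ _ => rfl
      map_smul' := fun _ _ => rfl }
  have hKinj : Function.Injective K := fun g g' h => AlternatingMap.ext fun v => congrFun h v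
  have hsub : altFun (R := ℚ) '' (SJ per j (Fin i)) ⊆
      (Submodule.span ℚ (divisorProducts per i j)).map K := by
    rintro _ ⟨_, ⟨k, e, b, η, hb, rfl⟩, rfl⟩
    let A : Fin j → W [⋀^Fin 2]→ₗ[ℚ] ℚ := fun s => MultilinearMap.alternatization (b s)
    let H : W [⋀^Fin k]→ₗ[ℚ] ℚ := MultilinearMap.alternatization η
    let g : W [⋀^Fin i]→ₗ[ℚ] ℚ := MultilinearMap.alternatization
      (prodForm e (fun s => (A s).toMultilinearMap) H.toMultilinearMap)
    have hg : ∀ v, g v = ∑ σ : Perm (Fin i), ((Perm.sign σ : ℤ) : ℚ) *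
        ((∏ s, A s (fun ε => v (σ (e (Sum.inl (s, ε)))))) *
          H (fun r => v (σ (e (Sum.inr r))))) := by
      intro v
      change MultilinearMap.alternatization _ v = _
      rw [MultilinearMap.alternatization_apply]
      refine Finset.sum_congr rfl fun σ _ => ?_
      rw [Units.smul_def, zsmul_eq_mul, MultilinearMap.domDomCongr_apply, prodForm_apply]
      rfl
    have hgT : g ∈ divisorProducts per i j := by
      refine ⟨k, e, A, H, hb, fun v => ?_⟩
      rw [hg v]
      refine Finset.sum_congr rfl fun σ _ => ?_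
      congr 2
      refine Finset.prod_congr rfl fun s _ => ?_
      congr 1
      funext ε
      fin_cases ε <;> rfl
    refine ⟨(((2 : ℚ) ^ j * (k.factorial : ℚ))⁻¹) • g,
      Submodule.smul_mem _ _ (Submodule.subset_span hgT), ?_⟩
    rw [map_smul]
    funext v
    have h2 : (K g) v = ((2 : ℚ) ^ j * (k.factorial : ℚ)) *
        ∑ σ : Perm (Fin i), ((Perm.sign σ : ℤ) : ℚ) *
          ((∏ s, b s (fun ε => v (σ (e (Sum.inl (s, ε)))))) *
            η (fun r => v (σ (e (Sum.inr r))))) := by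
      change g v = _
      rw [hg v]
      exact alt_gen e b η v
    have h6 : (2 : ℚ) ^ j * (k.factorial : ℚ) ≠ 0 :=
      mul_ne_zero (pow_ne_zero _ two_ne_zero) (Nat.cast_ne_zero.2 (Nat.factorial_ne_zero _))
    rw [Pi.smul_apply, h2, smul_eq_mul, ← mul_assoc, inv_mul_cancel₀ h6, one_mul]
    rfl
  have h1 : ((Fintype.card (Fin i)).factorial : ℚ) • (fun v => f v) ∈
      (Submodule.span ℚ (divisorProducts per i j)).map K := Submodule.span_le.2 hsub hA
  have hne : ((Fintype.card (Fin i)).factorial : ℚ) ≠ 0 :=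
    Nat.cast_ne_zero.2 (Nat.factorial_ne_zero _)
  have h2 : (fun v => f v) ∈ (Submodule.span ℚ (divisorProducts per i j)).map K := by
    have h3 := Submodule.smul_mem _ (((Fintype.card (Fin i)).factorial : ℚ))⁻¹ h1
    rwa [smul_smul, inv_mul_cancel₀ hne, one_smul] at h3
  obtain ⟨f', hf', hff⟩ := h2
  have h3 : f' = f := hKinj hff
  rw [← h3]
  exact hf'

include Fr in
/-- **The generalized Hodge conjecture by divisors**, for complex tori with coordinates in a
polarized Hodge structure whose invariant forms are generated by bilinear forms, and which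
satisfies the core theorem. -/
theorem Frame.divisorialConiveau {D : Matrix B B ℂ} (h : PolH D) (hcore : CoreP D)
    (hMS : ∀ (m : ℕ) (c : (Fin m × Fin 2 → B) → ℚ), IsH D c → c ∈ MS D m)
    (hD : D = (-Complex.I) • J.map (fun x : ℝ => (x : ℂ))) (hJ : J * J = -1) (i j : ℕ) :
    DivisorialConiveau per i j := by
  intro V hV hL f hf
  apply alt_SJ
  have h1 : (fun v => f v) = ∑ σ : Fin i → ν, Fr.pf σ (Fr.cf σ f) := by
    funext v
    rw [Fr.expand f v, Finset.sum_apply]
    rfl
  rw [h1]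
  refine Submodule.sum_mem _ fun σ _ => Fr.pf_mem hD hJ j (Fin i) σ _ ?_
  refine le_IJ h hcore hMS j (Fin i) ((i : ℤ) - 2 * j) (V.map (Fr.cf σ))
    (Fr.HL_map hD σ hV hL) ?_ (Submodule.mem_map_of_mem hf)
  rw [Fintype.card_fin]
  omega

end

end Pool.Agent.TH131.GHC
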