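import Mathlib
import Pool.Agent.TH131.GHC.Conv2
import Pool.Agent.W437.HP.Fam

/-!
# The generalized Hodge conjecture for products of abelian varieties
-/

set_option linter.unusedSectionVars false

namespace Pool.Agent.TH131.GHC

open Matrix Equiv Pool.Agent.H204R3.CM Pool.Agent.H204R3.SP Pool.Agent.H204R3.GH
  Pool.Agent.W437.HC Pool.Agent.W437.HD Pool.Agent.W437.HP Pool.Agent.W437.HR
  Pool.Agent.W546.GHC

noncomputable section

/-- The polarized Hodge structure of an abelian variety. -/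
def polOf {g : ℕ} {Z : Matrix (Fin g) (Fin g) ℂ} (hZ : Zᵀ = Z) (hpos : (imM Z).PosDef) :
    PolH (DZ Z) where
  Om := Om g ℚ
  J := JR Z
  u := (exists_sqrt (OmJ_posDef hZ hpos)).choose * Om g ℝ
  tr := Om_transpose ℚ
  sq := Om_sq ℚ
  dj := rfl
  dd := DZ_sq (hpos.isUnit.map Matrix.detMonoidHom)
  sp := DZ_sp hZ
  hu := by
    refine (exists_sqrt (OmJ_posDef hZ hpos)).choose_spec.1.mul ?_
    exact IsUnit.of_mul_eq_one (-(Om g ℝ)) (by rw [mul_neg, Om_sq, neg_neg])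
  pos := by
    have h1 := (exists_sqrt (OmJ_posDef hZ hpos)).choose_spec.2
    set y := (exists_sqrt (OmJ_posDef hZ hpos)).choose
    rw [star_eq_conjTranspose, conjTranspose_eq_transpose_of_trivial] at h1
    have h2 : (Om g ℚ).map (fun x : ℚ => (x : ℝ)) = Om g ℝ := by
      ext i j
      rcases i with i | i <;> rcases j with j | j <;>
        simp [Om, Matrix.one_apply, apply_ite]
    have h3 := JR_sp hZ
    have h4 : (JR Z)ᵀ = Om g ℝ * JR Z * Om g ℝ := by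
      have h5 : (JR Z)ᵀ * Om g ℝ * Om g ℝ = -(Om g ℝ * JR Z) * Om g ℝ := by
        rw [eq_neg_of_add_eq_zero_left h3]
      rw [Matrix.mul_assoc, Om_sq, mul_neg, mul_one, Matrix.neg_mul, neg_inj] at h5
      exact h5
    rw [h2, transpose_mul, Om_transpose, h4]
    have h6 : Om g ℝ * (Om g ℝ * JR Z * Om g ℝ) = (Om g ℝ * Om g ℝ) * (JR Z * Om g ℝ) := by
      simp only [Matrix.mul_assoc]
    have h7 : -Om g ℝ * yᵀ * (y * Om g ℝ) = -(Om g ℝ * (yᵀ * y) * Om g ℝ) := by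
      simp only [Matrix.mul_assoc, Matrix.neg_mul]
    rw [h6, h7, ← h1, ← Matrix.mul_assoc (Om g ℝ) (Om g ℝ) (JR Z), Om_sq]
    simp

section prod

variable {ι : Type} [Fintype ι] [DecidableEq ι] {g : ι → ℕ}
  (Z : ∀ i, Matrix (Fin (g i)) (Fin (g i)) ℂ)

theorem castR_mulVec {m n : Type*} [Fintype n] (M : Matrix m n ℚ) (v : n → ℚ) :
    (fun i => (((M *ᵥ v) i : ℚ) : ℝ)) = cK ℝ M *ᵥ (fun i => ((v i : ℚ) : ℝ)) := by
  funext i
  simp [mulVec, dotProduct, cK]

theorem JR_pmT (hpos : ∀ i, (imM (Z i)).PosDef) (i : ι) :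
    (pm g ℝ i)ᵀ * JR (Z i) = JR (bigD ℂ Z) * (pm g ℝ i)ᵀ := by
  classical
  have h1 : ∀ j, pm g ℝ j * ((pm g ℝ i)ᵀ * JR (Z i)) = pm g ℝ j * (JR (bigD ℂ Z) * (pm g ℝ i)ᵀ) := by
    intro j
    rw [← Matrix.mul_assoc, ← Matrix.mul_assoc, pm_JR Z hpos j, Matrix.mul_assoc (JR (Z j))]
    by_cases h : j = i
    · subst h
      rw [pm_same, Matrix.one_mul, Matrix.mul_one]
    · rw [pm_off ℝ h, Matrix.zero_mul, Matrix.mul_zero]
  have h2 : ∀ M : Matrix (Fin (NB g) ⊕ Fin (NB g)) (Fin (g i) ⊕ Fin (g i)) ℝ,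
      M = ∑ j, (pm g ℝ j)ᵀ * (pm g ℝ j * M) := by
    intro M
    conv_lhs => rw [← Matrix.one_mul M, ← pm_tot ℝ, Matrix.sum_mul]
    exact Finset.sum_congr rfl fun j _ => Matrix.mul_assoc _ _ _
  rw [h2 ((pm g ℝ i)ᵀ * JR (Z i)), h2 (JR (bigD ℂ Z) * (pm g ℝ i)ᵀ)]
  exact Finset.sum_congr rfl fun j _ => by rw [h1]

/-- Coordinates on a product of abelian varieties. -/
def frameOf (hpos : ∀ i, (imM (Z i)).PosDef) {n : ℕ} (t : Fin n → ι) :
    Frame (perFam Z t) (JR (bigD ℂ Z)) (Fin n) where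
  a j :=
    { toFun := fun w => (pm g ℚ (t j))ᵀ *ᵥ w j
      map_add' := fun v w => mulVec_add _ _ _
      map_smul' := fun r w => mulVec_smul _ r (w j) }
  s j :=
    { toFun := fun x => Pi.single j (pm g ℚ (t j) *ᵥ x)
      map_add' := fun x y => by
        rw [mulVec_add, Pi.single_add]
      map_smul' := fun r x => by
        rw [mulVec_smul, Pi.single_smul]
        rfl }
  tot w := by
    funext j
    rw [Finset.sum_apply, Finset.sum_eq_single j]
    · change w j = (Pi.single j (pm g ℚ (t j) *ᵥ ((pm g ℚ (t j))ᵀ *ᵥ w j)) :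
        ∀ j, Fin (g (t j)) ⊕ Fin (g (t j)) → ℚ) j
      rw [Pi.single_eq_same, mulVec_mulVec, pm_same, one_mulVec]
    · intro b _ hb
      exact Pi.single_eq_of_ne (Ne.symm hb) _
    · intro h
      exact absurd (Finset.mem_univ _) h
  aR j :=
    { toFun := fun u => (pm g ℝ (t j))ᵀ *ᵥ invR (Z (t j)) (u j)
      map_add' := fun v w => by
        rw [Pi.add_apply, map_add, mulVec_add]
      map_smul' := fun r w => by
        rw [Pi.smul_apply, map_smul, mulVec_smul]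
        rfl }
  sR j :=
    { toFun := fun x => Pi.single j (perR (Z (t j)) (pm g ℝ (t j) *ᵥ x))
      map_add' := fun x y => by
        rw [mulVec_add, map_add, Pi.single_add]
      map_smul' := fun r x => by
        rw [mulVec_smul, map_smul, Pi.single_smul]
        rfl }
  aR_per j w := by
    change (pm g ℝ (t j))ᵀ *ᵥ invR (Z (t j)) (perOne (Z (t j)) (w j)) =
      fun i => ((((pm g ℚ (t j))ᵀ *ᵥ w j) i : ℚ) : ℝ)
    rw [perOne_eq, invR_perR ((hpos (t j)).isUnit.map Matrix.detMonoidHom), castR_mulVec]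
    congr 1
    have h1 : cK ℝ (pm g ℚ (t j))ᵀ = (cK ℝ (pm g ℚ (t j)))ᵀ := rfl
    rw [h1, cK_pm]
  sR_per j x := by
    funext i
    change (Pi.single j (perR (Z (t j)) (pm g ℝ (t j) *ᵥ (fun i => ((x i : ℚ) : ℝ)))) :
      ∀ j, Fin (g (t j)) → ℂ) i = perOne (Z (t i)) ((Pi.single j (pm g ℚ (t j) *ᵥ x) :
        ∀ j, Fin (g (t j)) ⊕ Fin (g (t j)) → ℚ) i)
    by_cases h : i = j
    · subst h
      rw [Pi.single_eq_same, Pi.single_eq_same, perOne_eq, castR_mulVec, cK_pm]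
    · rw [Pi.single_eq_of_ne h, Pi.single_eq_of_ne h, map_zero]
  aR_rot j z u := by
    change (pm g ℝ (t j))ᵀ *ᵥ invR (Z (t j)) (z • u j) =
      z.re • ((pm g ℝ (t j))ᵀ *ᵥ invR (Z (t j)) (u j)) +
      z.im • (JR (bigD ℂ Z) *ᵥ ((pm g ℝ (t j))ᵀ *ᵥ invR (Z (t j)) (u j)))
    rw [invR_rotate ((hpos (t j)).isUnit.map Matrix.detMonoidHom), mulVec_add, mulVec_smul,
      mulVec_smul, mulVec_mulVec, mulVec_mulVec, JR_pmT Z hpos]
  sR_rot j x := by
    change Pi.single j (perR (Z (t j)) (pm g ℝ (t j) *ᵥ (JR (bigD ℂ Z) *ᵥ x))) =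
      Complex.I • (Pi.single j (perR (Z (t j)) (pm g ℝ (t j) *ᵥ x)) :
        ∀ j, Fin (g (t j)) → ℂ)
    rw [mulVec_mulVec, pm_JR Z hpos, ← mulVec_mulVec,
      perR_JR _ ((hpos (t j)).isUnit.map Matrix.detMonoidHom), Pi.single_smul]

/-- **The generalized Hodge conjecture** for products of abelian varieties whose Hodge Lie algebras
are products of full symplectic Lie algebras. -/
theorem ghc_of_pcs (hZ : ∀ i, (Z i)ᵀ = Z i) (hpos : ∀ i, (imM (Z i)).PosDef)
    (hp : ∀ i, HasPcs (DZ (Z i))) {n : ℕ} (t : Fin n → ι) (i j : ℕ) :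
    DivisorialConiveau (perFam Z t) i j :=
  (frameOf Z hpos t).divisorialConiveau
    (polOf (bigD_symm hZ) (imM_bigD_posDef Z hpos)) (coreP_prod Z hZ hpos hp)
    (fun _ c hc => mem_MS_prod Z hZ hpos hp c hc) rfl
    (JR_sq ((imM_bigD_posDef Z hpos).isUnit.map Matrix.detMonoidHom)) i j

end prod

end

end Pool.Agent.TH131.GHC
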