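import Mathlib
import Pool.Agent.TH131.GHC.Ind

/-!
# Forms with values in a Hodge structure
-/

set_option linter.unusedSectionVars false

namespace Pool.Agent.TH131.GHC

open Matrix Equiv Pool.Agent.H204R3.SP Pool.Agent.W437.HC Pool.Agent.W437.HD Pool.Agent.W437.HP

noncomputable section

section gen

variable {X : Type*} [Fintype X] [DecidableEq X] {X' : Type*} [Fintype X'] [DecidableEq X']

/-- A rational vector as a complex vector. -/
def cstX (t : X → ℚ) : X → ℂ := fun x => (t x : ℂ)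

theorem cstX_zero : cstX (0 : X → ℚ) = 0 := by
  funext x
  simp [cstX]

theorem cstX_add (t t' : X → ℚ) : cstX (t + t') = cstX t + cstX t' := by
  funext x
  simp [cstX]

theorem cstX_smul (r : ℚ) (t : X → ℚ) : cstX (r • t) = (r : ℂ) • cstX t := by
  funext x
  simp [cstX]

/-- The complexification of a rational subspace. -/
def cxX (V : Submodule ℚ (X → ℚ)) : Submodule ℂ (X → ℂ) :=
  Submodule.span ℂ (cstX '' (V : Set (X → ℚ)))

theorem cstX_mem {V : Submodule ℚ (X → ℚ)} {t : X → ℚ} (ht : t ∈ V) : cstX t ∈ cxX V :=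
  Submodule.subset_span ⟨t, ht, rfl⟩

theorem cxX_mono {V V' : Submodule ℚ (X → ℚ)} (h : V ≤ V') : cxX V ≤ cxX V' :=
  Submodule.span_mono (Set.image_mono h)

theorem cxX_le {V : Submodule ℚ (X → ℚ)} {N : Submodule ℂ (X → ℂ)}
    (h : ∀ t ∈ V, cstX t ∈ N) : cxX V ≤ N := by
  refine Submodule.span_le.2 ?_
  rintro _ ⟨t, ht, rfl⟩
  exact h t ht

/-- The rational linear functionals of the elements of the complexification. -/
theorem lam_cxX {V : Submodule ℚ (X → ℚ)} {z : X → ℂ} (hz : z ∈ cxX V) :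
    ∀ lam : ℂ →ₗ[ℚ] ℚ, (fun x => lam (z x)) ∈ V := by
  unfold cxX at hz
  induction hz using Submodule.span_induction with
  | mem z hz =>
    obtain ⟨t, ht, rfl⟩ := hz
    intro lam
    have h1 : (fun x => lam (cstX t x)) = lam 1 • t := by
      funext x
      have h2 : cstX t x = t x • (1 : ℂ) := by
        rw [Rat.smul_def, mul_one]
        rfl
      rw [h2, map_smul, Pi.smul_apply, smul_eq_mul, smul_eq_mul, mul_comm]
    rw [h1]
    exact V.smul_mem _ ht
  | zero =>
    intro lam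
    have h1 : (fun x => lam ((0 : X → ℂ) x)) = 0 := by
      funext x
      simp
    rw [h1]
    exact V.zero_mem
  | add x y _ _ hx hy =>
    intro lam
    have h1 : (fun i => lam ((x + y) i)) = (fun i => lam (x i)) + fun i => lam (y i) := by
      funext i
      simp
    rw [h1]
    exact V.add_mem (hx lam) (hy lam)
  | smul r x _ hx =>
    intro lam
    exact hx (lam.comp ((LinearMap.mulLeft ℚ r)))

/-- Extension of scalars of linear maps. -/
def exX (f : (X → ℚ) →ₗ[ℚ] (X' → ℚ)) : (X → ℂ) →ₗ[ℂ] (X' → ℂ) where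
  toFun c := fun I' => ∑ I, c I * ((f (Pi.single I 1) I' : ℚ) : ℂ)
  map_add' c d := by
    funext I
    simp only [Pi.add_apply, add_mul, Finset.sum_add_distrib]
  map_smul' r c := by
    funext I
    simp only [Pi.smul_apply, smul_eq_mul, RingHom.id_apply, Finset.mul_sum, mul_assoc]

theorem exX_apply (f : (X → ℚ) →ₗ[ℚ] (X' → ℚ)) (c : X → ℂ) (I' : X') :
    exX f c I' = ∑ I, c I * ((f (Pi.single I 1) I' : ℚ) : ℂ) := rfl

theorem eq_sum_singleX {K : Type*} [Field K] (c : X → K) :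
    c = ∑ I, c I • (Pi.single I 1 : X → K) := by
  funext x
  rw [Finset.sum_apply, Finset.sum_eq_single x]
  · simp
  · intro w _ hw
    rw [Pi.smul_apply, Pi.single_eq_of_ne (Ne.symm hw), smul_zero]
  · intro h
    exact absurd (Finset.mem_univ _) h

theorem apply_sum_single (f : (X → ℚ) →ₗ[ℚ] (X' → ℚ)) (c : X → ℚ) :
    f c = ∑ I, c I • f (Pi.single I 1) := by
  conv_lhs => rw [eq_sum_singleX c]
  rw [map_sum]
  exact Finset.sum_congr rfl fun I _ => map_smul _ _ _

theorem exX_cst (f : (X → ℚ) →ₗ[ℚ] (X' → ℚ)) (c : X → ℚ) :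
    exX f (cstX c) = cstX (f c) := by
  funext I'
  rw [exX_apply, apply_sum_single f c]
  simp only [cstX, Finset.sum_apply, Pi.smul_apply, smul_eq_mul]
  push_cast
  rfl

theorem lam_exX (lam : ℂ →ₗ[ℚ] ℚ) (f : (X → ℚ) →ₗ[ℚ] (X' → ℚ))
    (c : X → ℂ) : (fun I' => lam (exX f c I')) = f (fun I => lam (c I)) := by
  rw [apply_sum_single f]
  funext I'
  rw [exX_apply, map_sum, Finset.sum_apply]
  refine Finset.sum_congr rfl fun I _ => ?_
  rw [mul_comm, ← Rat.smul_def, map_smul, Pi.smul_apply, smul_eq_mul, smul_eq_mul, mul_comm]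

theorem eq_sum_cstX (c : X → ℂ) :
    c = ∑ I, c I • cstX (Pi.single I 1 : X → ℚ) := by
  conv_lhs => rw [eq_sum_singleX c]
  refine Finset.sum_congr rfl fun I _ => ?_
  congr 1
  funext J
  unfold cstX
  by_cases h : J = I
  · rw [h, Pi.single_eq_same, Pi.single_eq_same, Rat.cast_one]
  · rw [Pi.single_eq_of_ne h, Pi.single_eq_of_ne h, Rat.cast_zero]

/-- Linear maps which agree on the rational vectors. -/
theorem ext_cstX {M : Type*} [AddCommGroup M] [Module ℂ M] {f g : (X → ℂ) →ₗ[ℂ] M}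
    (h : ∀ c, f (cstX c) = g (cstX c)) : f = g := by
  refine LinearMap.ext fun c => ?_
  rw [eq_sum_cstX c, map_sum, map_sum]
  exact Finset.sum_congr rfl fun I _ => by rw [map_smul, map_smul, h]

theorem eq_zero_of_lamX {z : X → ℂ} (h : ∀ lam : ℂ →ₗ[ℚ] ℚ, (fun x => lam (z x)) = 0) :
    z = 0 := by
  funext x
  apply eq_zero_of_lam
  intro lam
  exact congrFun (h lam) x

end gen

section pos

variable {B : Type*} [Fintype B] [DecidableEq B] {D : Matrix B B ℂ}
  {κ : Type*} [Fintype κ] [DecidableEq κ] (h : PolH D)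

/-- The positive definite quadratic form. -/
def qf (u : Matrix B B ℝ) (v : (κ → B) → ℚ) : ℝ :=
  ∑ A : κ → B, (evalF (cst ℝ v) fun k => u (A k)) ^ 2

theorem qf_nonneg (u : Matrix B B ℝ) (v : (κ → B) → ℚ) : 0 ≤ qf u v :=
  Finset.sum_nonneg fun _ _ => sq_nonneg _

theorem PolH.EB_self (v : (κ → B) → ℚ) :
    EB κ (h.Om.map (fun x : ℚ => (x : ℂ))) (cst ℂ v) (wl (Complex.I • D) (cst ℂ v)) =
      (((-1) ^ Fintype.card κ * qf h.u v : ℝ) : ℂ) := by
  rw [EB_wl]
  have h4 : Complex.I • D = h.J.map (fun x : ℝ => (x : ℂ)) := by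
    conv_lhs => rw [h.dj]
    rw [smul_smul, mul_neg, Complex.I_mul_I, neg_neg, one_smul]
  have h5 : h.Om.map (fun x : ℚ => (x : ℂ)) * (Complex.I • D)ᵀ =
      (h.Om.map (fun x : ℚ => (x : ℝ)) * h.Jᵀ).map (fun x : ℝ => (x : ℂ)) := by
    rw [h4]
    ext i j
    simp [Matrix.mul_apply]
  rw [h5, h.pos]
  have h6 : ∑ I, ∑ I', cst ℂ v I * cst ℂ v I' *
      ∏ k, ((-(h.uᵀ * h.u)).map (fun x : ℝ => (x : ℂ))) (I k) (I' k) =
      ((∑ I, ∑ I', cst ℝ v I * cst ℝ v I' * ∏ k, (-(h.uᵀ * h.u)) (I k) (I' k) : ℝ) : ℂ) := by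
    push_cast
    refine Finset.sum_congr rfl fun I _ => Finset.sum_congr rfl fun I' _ => ?_
    simp only [cst, Matrix.map_apply]
    norm_cast
  rw [h6]
  congr 1
  have e1 : ∀ I I' : κ → B, ∏ k, (-(h.uᵀ * h.u)) (I k) (I' k) =
      (-1) ^ Fintype.card κ * ∑ A : κ → B, ∏ k, (h.u (A k) (I k) * h.u (A k) (I' k)) := by
    intro I I'
    have e3 : ∀ k, (-(h.uᵀ * h.u)) (I k) (I' k) = -1 * ∑ a, h.u a (I k) * h.u a (I' k) := by
      intro k
      rw [Matrix.neg_apply, Matrix.mul_apply, neg_one_mul]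
      rfl
    rw [Finset.prod_congr rfl (fun k _ => e3 k), Finset.prod_mul_distrib, Finset.prod_const,
      Finset.card_univ, Finset.prod_univ_sum, Fintype.piFinset_univ]
  have e2 : ∀ A : κ → B, (evalF (cst ℝ v) fun k => h.u (A k)) ^ 2 =
      ∑ I, ∑ I', cst ℝ v I * cst ℝ v I' * ∏ k, (h.u (A k) (I k) * h.u (A k) (I' k)) := by
    intro A
    rw [pow_two]
    unfold evalF
    rw [Finset.sum_mul_sum]
    refine Finset.sum_congr rfl fun I _ => Finset.sum_congr rfl fun I' _ => ?_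
    rw [Finset.prod_mul_distrib]
    ring
  unfold qf
  rw [Finset.sum_congr rfl (fun A _ => e2 A), Finset.mul_sum]
  simp only [e1, Finset.mul_sum]
  rw [Finset.sum_comm (s := Finset.univ (α := κ → B)) (t := Finset.univ (α := κ → B))
    (f := fun A I => ∑ I' : κ → B, (-1 : ℝ) ^ Fintype.card κ * (cst ℝ v I * cst ℝ v I' *
      ∏ k, (h.u (A k) (I k) * h.u (A k) (I' k))))]
  refine Finset.sum_congr rfl fun I _ => ?_
  rw [Finset.sum_comm]
  refine Finset.sum_congr rfl fun I' _ => Finset.sum_congr rfl fun A _ => ?_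
  ring

theorem PolH.qf_eq_zero {v : (κ → B) → ℚ} (h9 : qf h.u v = 0) : v = 0 := by
  unfold qf at h9
  rw [Finset.sum_eq_zero_iff_of_nonneg (fun A _ => sq_nonneg _)] at h9
  have h10 : ∀ A : κ → B, (evalF (cst ℝ v) fun k => h.u (A k)) = 0 := fun A =>
    pow_eq_zero_iff (two_ne_zero) |>.1 (h9 A (Finset.mem_univ _))
  apply cst_injective (K := ℝ)
  rw [cst_zero]
  apply eq_zero_of_evalF
  intro x
  obtain ⟨w, hw⟩ : ∃ w, w * h.u = 1 := h.hu.exists_left_inv
  have h11 : x = fun k => ∑ a, (x k ᵥ* w) a • h.u a := by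
    funext k
    have h12 : (x k ᵥ* w) ᵥ* h.u = x k := by
      rw [vecMul_vecMul, hw, vecMul_one]
    conv_lhs => rw [← h12]
    funext i
    rw [Finset.sum_apply]
    rfl
  rw [h11, ← evalM_apply, MultilinearMap.map_sum]
  refine Finset.sum_eq_zero fun A _ => ?_
  rw [MultilinearMap.map_smul_univ, evalM_apply, h10, smul_zero]

/-- The form of a real form and of the conjugate of a real form. -/
theorem PolH.EB_self' (v : (κ → B) → ℚ) :
    EB κ (h.Om.map (fun x : ℚ => (x : ℂ))) (wl (Complex.I • D) (cst ℂ v)) (cst ℂ v) =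
      ((qf h.u v : ℝ) : ℂ) := by
  have htr : (h.Om.map (fun x : ℚ => (x : ℂ)))ᵀ = -h.Om.map (fun x : ℚ => (x : ℂ)) := by
    rw [← Matrix.transpose_map, h.tr]
    ext i j
    simp
  rw [EB_swap _ htr, h.EB_self]
  push_cast
  rw [← mul_assoc, ← mul_pow]
  norm_num

theorem wl_conB {a b : κ} (hab : a ≠ b) {J β : Matrix B B ℂ} (hβ : J * β * Jᵀ = β)
    (c : (κ → B) → ℂ) : conB a b β (wl J c) = wl J (conB a b β c) := by
  funext X'
  rw [conB_apply]
  unfold wl
  have h1 : ∀ I' : κ → B, ∑ u, ∑ w, β u w * (c I' * ∏ k, J (I' k) (fill a b u w X' k)) =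
      c I' * ((J * β * Jᵀ) (I' a) (I' b) *
        ∏ l : {l // l ≠ a ∧ l ≠ b}, J (I' l.1) (X' l)) := by
    intro I'
    have h2 : (J * β * Jᵀ) (I' a) (I' b) = ∑ u, ∑ w, J (I' a) u * β u w * J (I' b) w := by
      simp only [Matrix.mul_apply, transpose_apply, Finset.sum_mul]
      rw [Finset.sum_comm]
    rw [h2, Finset.sum_mul, Finset.mul_sum]
    refine Finset.sum_congr rfl fun u _ => ?_
    rw [Finset.sum_mul, Finset.mul_sum]
    refine Finset.sum_congr rfl fun w _ => ?_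
    rw [prod_split hab, fill_p, fill_k hab]
    simp only [fill_l]
    ring
  simp only [Finset.mul_sum]
  have h3 : ∑ u, ∑ w, ∑ I' : κ → B, β u w * (c I' * ∏ k, J (I' k) (fill a b u w X' k)) =
      ∑ I' : κ → B, ∑ u, ∑ w, β u w * (c I' * ∏ k, J (I' k) (fill a b u w X' k)) := by
    rw [Finset.sum_congr rfl (fun u _ => Finset.sum_comm), Finset.sum_comm]
  rw [h3, Finset.sum_congr rfl (fun I' _ => h1 I'), hβ, sum_fill hab]
  refine Finset.sum_congr rfl fun I'' _ => ?_
  rw [conB_apply, Finset.sum_mul]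
  refine Finset.sum_congr rfl fun u _ => ?_
  rw [Finset.sum_mul]
  refine Finset.sum_congr rfl fun w _ => ?_
  rw [fill_p, fill_k hab]
  simp only [fill_l]
  ring

end pos

end

end Pool.Agent.TH131.GHC
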