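import Mathlib
import Pool.Agent.TH131.GHC.Rel1

/-!
# Hodge substructures of the tensors with values in a Hodge structure
-/

set_option linter.unusedSectionVars false

namespace Pool.Agent.TH131.GHC

open Matrix Equiv Pool.Agent.H204R3.SP Pool.Agent.W437.HC Pool.Agent.W437.HD Pool.Agent.W437.HP

noncomputable section

section mix

variable {B : Type*} [Fintype B] [DecidableEq B] {C : Type*} [Fintype C] [DecidableEq C]
  {κ : Type*} [Fintype κ] [DecidableEq κ] {κ' : Type*} [Fintype κ'] [DecidableEq κ']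
  {K : Type*} [Field K]

/-- The component of a form with values. -/
def sl (c : C) : ((κ → B) × C → K) →ₗ[K] ((κ → B) → K) where
  toFun t := fun I => t (I, c)
  map_add' _ _ := rfl
  map_smul' _ _ := rfl

theorem sl_apply (c : C) (t : (κ → B) × C → K) (I : κ → B) : sl c t I = t (I, c) := rfl

/-- A form as a form with values in a coordinate line. -/
def ins (c : C) : ((κ → B) → K) →ₗ[K] ((κ → B) × C → K) where
  toFun x := fun p => if p.2 = c then x p.1 else 0
  map_add' x y := by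
    funext p
    simp only [Pi.add_apply]
    split_ifs
    · rfl
    · rw [add_zero]
  map_smul' r x := by
    funext p
    simp only [Pi.smul_apply, smul_eq_mul, RingHom.id_apply]
    split_ifs
    · rfl
    · rw [mul_zero]

theorem ins_apply (c : C) (x : (κ → B) → K) (p : (κ → B) × C) :
    ins c x p = if p.2 = c then x p.1 else 0 := rfl

theorem eq_sum_ins (t : (κ → B) × C → K) : t = ∑ c, ins c (sl c t) := by
  funext p
  rw [Finset.sum_apply, Finset.sum_eq_single p.2]
  · rw [ins_apply, if_pos rfl, sl_apply]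
  · intro c _ hc
    rw [ins_apply, if_neg (Ne.symm hc)]
  · intro h
    exact absurd (Finset.mem_univ _) h

theorem sl_ins (c c' : C) (x : (κ → B) → K) : sl c (ins c' x) = if c = c' then x else 0 := by
  funext I
  rw [sl_apply, ins_apply]
  split_ifs <;> rfl

/-- A linear map applied to the forms, with the values as parameters. -/
def fW (C : Type*) (f : ((κ → B) → K) →ₗ[K] ((κ' → B) → K)) :
    ((κ → B) × C → K) →ₗ[K] ((κ' → B) × C → K) where
  toFun t := fun p => f (fun I => t (I, p.2)) p.1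
  map_add' t t' := by
    funext p
    change f ((fun I => t (I, p.2)) + fun I => t' (I, p.2)) p.1 = _
    rw [map_add]
    rfl
  map_smul' r t := by
    funext p
    change f (r • (fun I => t (I, p.2))) p.1 = _
    rw [map_smul]
    rfl

theorem sl_fW (f : ((κ → B) → K) →ₗ[K] ((κ' → B) → K)) (c : C) (t : (κ → B) × C → K) :
    sl c (fW C f t) = f (sl c t) := rfl

theorem ext_sl {t t' : (κ → B) × C → K} (h : ∀ c, sl c t = sl c t') : t = t' := by
  funext p
  exact congrFun (h p.2) p.1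

/-- A matrix applied to the values. -/
def opW (κ : Type*) [Fintype κ] [DecidableEq κ] (B : Type*) (M : Matrix C C K) :
    ((κ → B) × C → K) →ₗ[K] ((κ → B) × C → K) where
  toFun t := fun p => ∑ c, M p.2 c * t (p.1, c)
  map_add' t t' := by
    funext p
    simp only [Pi.add_apply, mul_add, Finset.sum_add_distrib]
  map_smul' r t := by
    funext p
    simp only [Pi.smul_apply, smul_eq_mul, RingHom.id_apply, Finset.mul_sum]
    exact Finset.sum_congr rfl fun c _ => by ring

theorem opW_apply (M : Matrix C C K) (t : (κ → B) × C → K) (p : (κ → B) × C) :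
    opW κ B M t p = ∑ c, M p.2 c * t (p.1, c) := rfl

theorem sl_opW (M : Matrix C C K) (c : C) (t : (κ → B) × C → K) :
    sl c (opW κ B M t) = ∑ c', M c c' • sl c' t := by
  funext I
  rw [sl_apply, opW_apply, Finset.sum_apply]
  rfl

theorem fW_opW (f : ((κ → B) → K) →ₗ[K] ((κ' → B) → K)) (M : Matrix C C K)
    (t : (κ → B) × C → K) : fW C f (opW κ B M t) = opW κ' B M (fW C f t) := by
  refine ext_sl fun c => ?_
  rw [sl_fW, sl_opW, sl_opW, map_sum]
  exact Finset.sum_congr rfl fun c' _ => by rw [map_smul, sl_fW]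

/-- The action on the forms. -/
def opD (κ : Type*) [Fintype κ] [DecidableEq κ] (C : Type*) (X : Matrix B B K) :
    ((κ → B) × C → K) →ₗ[K] ((κ → B) × C → K) := fW C (actR X)

theorem sl_opD (X : Matrix B B K) (c : C) (t : (κ → B) × C → K) :
    sl c (opD κ C X t) = act X (sl c t) := rfl

end mix

section hlc

variable {B : Type*} [Fintype B] [DecidableEq B] {C : Type*} [Fintype C] [DecidableEq C]
  {κ : Type*} [Fintype κ] [DecidableEq κ] {κ' : Type*} [Fintype κ'] [DecidableEq κ']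
  {D : Matrix B B ℂ} {D' : Matrix C C ℂ}

/-- The forms of given Hodge types. -/
def eigC (κ : Type*) [Fintype κ] [DecidableEq κ] (D : Matrix B B ℂ) (D' : Matrix C C ℂ)
    (a b : ℤ) : Submodule ℂ ((κ → B) × C → ℂ) where
  carrier := {z | opD κ C D z = (a : ℂ) • z ∧ opW κ B D' z = (b : ℂ) • z}
  zero_mem' := ⟨by rw [map_zero, smul_zero], by rw [map_zero, smul_zero]⟩
  add_mem' := by
    rintro x y ⟨h1, h2⟩ ⟨h3, h4⟩
    exact ⟨by rw [map_add, h1, h3, smul_add], by rw [map_add, h2, h4, smul_add]⟩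
  smul_mem' := by
    rintro r x ⟨h1, h2⟩
    exact ⟨by rw [map_smul, h1, smul_comm], by rw [map_smul, h2, smul_comm]⟩

/-- A Hodge substructure with values in `D0`, of level at most `L`, stable under both Hodge
operators. -/
def HLC (D : Matrix B B ℂ) (D' : Matrix C C ℂ) (D0 : Submodule ℚ (C → ℚ)) (L : ℤ)
    (V : Submodule ℚ ((κ → B) × C → ℚ)) : Prop :=
  (∀ t ∈ V, ∀ I, (fun c => t (I, c)) ∈ D0) ∧
    ∀ t ∈ V, cstX t ∈ ⨆ p : {p : ℤ × ℤ // |p.1 + p.2| ≤ L}, cxX V ⊓ eigC κ D D' p.1.1 p.1.2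

variable {D0 : Submodule ℚ (C → ℚ)} {L : ℤ}

theorem HLC_cx {V : Submodule ℚ ((κ → B) × C → ℚ)} (h : HLC D D' D0 L V) :
    cxX V ≤ ⨆ p : {p : ℤ × ℤ // |p.1 + p.2| ≤ L}, cxX V ⊓ eigC κ D D' p.1.1 p.1.2 :=
  cxX_le h.2

theorem HLC_ind {V : Submodule ℚ ((κ → B) × C → ℚ)} (h : HLC D D' D0 L V)
    {P : Submodule ℂ ((κ → B) × C → ℂ)}
    (hP : ∀ (a b : ℤ), |a + b| ≤ L → ∀ z ∈ cxX V, z ∈ eigC κ D D' a b → z ∈ P) :
    cxX V ≤ P := by
  refine (HLC_cx h).trans (iSup_le ?_)
  rintro ⟨⟨a, b⟩, hab⟩ z hz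
  exact hP a b hab z hz.1 hz.2

theorem HLC_opD {V : Submodule ℚ ((κ → B) × C → ℚ)} (h : HLC D D' D0 L V)
    {z : (κ → B) × C → ℂ} (hz : z ∈ cxX V) : opD κ C D z ∈ cxX V := by
  have h1 : cxX V ≤ (cxX V).comap (opD κ C D) := by
    refine HLC_ind h fun a b _ z hz hz' => ?_
    rw [Submodule.mem_comap, hz'.1]
    exact Submodule.smul_mem _ _ hz
  exact h1 hz

theorem HLC_opW {V : Submodule ℚ ((κ → B) × C → ℚ)} (h : HLC D D' D0 L V)
    {z : (κ → B) × C → ℂ} (hz : z ∈ cxX V) : opW κ B D' z ∈ cxX V := by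
  have h1 : cxX V ≤ (cxX V).comap (opW κ B D') := by
    refine HLC_ind h fun a b _ z hz hz' => ?_
    rw [Submodule.mem_comap, hz'.2]
    exact Submodule.smul_mem _ _ hz
  exact h1 hz

theorem fW_cstX {f : ((κ → B) → ℚ) →ₗ[ℚ] ((κ' → B) → ℚ)}
    {fC : ((κ → B) → ℂ) →ₗ[ℂ] ((κ' → B) → ℂ)} (h1 : ∀ c, fC (cst ℂ c) = cst ℂ (f c))
    (t : (κ → B) × C → ℚ) : fW C fC (cstX t) = cstX (fW C f t) := by
  funext p
  change fC (cst ℂ (fun I => t (I, p.2))) p.1 = _
  rw [h1]
  rfl

theorem HLC_map {f : ((κ → B) → ℚ) →ₗ[ℚ] ((κ' → B) → ℚ)} (hf : IsHM D f)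
    {V : Submodule ℚ ((κ → B) × C → ℚ)} (hV : HLC D D' D0 L V) :
    HLC D D' D0 L (V.map (fW C f)) := by
  obtain ⟨fC, h1, h2⟩ := hf
  refine ⟨?_, ?_⟩
  · rintro _ ⟨t, ht, rfl⟩ I'
    have h3 : (fun c => fW C f t (I', c)) = ∑ I, f (Pi.single I 1) I' • fun c => t (I, c) := by
      funext c
      change f (sl c t) I' = _
      rw [apply_sum_single f, Finset.sum_apply, Finset.sum_apply]
      refine Finset.sum_congr rfl fun I _ => ?_
      rw [Pi.smul_apply, Pi.smul_apply, smul_eq_mul, smul_eq_mul, mul_comm]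
      rfl
    rw [h3]
    exact Submodule.sum_mem _ fun I _ => Submodule.smul_mem _ _ (hV.1 t ht I)
  · rintro _ ⟨v, hv, rfl⟩
    rw [← fW_cstX h1]
    have h3 := Submodule.mem_map_of_mem (f := fW C fC) (hV.2 v hv)
    rw [Submodule.map_iSup] at h3
    refine SetLike.le_def.1 (iSup_mono fun p => ?_) h3
    rintro _ ⟨x, hx, rfl⟩
    refine ⟨?_, ?_, ?_⟩
    · have h4 : cxX V ≤ (cxX (V.map (fW C f))).comap (fW C fC) := by
        refine cxX_le fun t ht => ?_
        rw [Submodule.mem_comap, fW_cstX h1]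
        exact cstX_mem (Submodule.mem_map_of_mem ht)
      exact h4 hx.1
    · have h5 : opD κ' C D (fW C fC x) = fW C fC (opD κ C D x) := by
        refine ext_sl fun c => ?_
        rw [sl_opD, sl_fW, sl_fW, sl_opD, h2]
      rw [h5, hx.2.1, map_smul]
    · rw [← fW_opW, hx.2.2, map_smul]

theorem HLC_sSup {S : Set (Submodule ℚ ((κ → B) × C → ℚ))} (hS : ∀ V ∈ S, HLC D D' D0 L V) :
    HLC D D' D0 L (sSup S) := by
  refine ⟨?_, ?_⟩
  · intro t ht
    rw [sSup_eq_iSup'] at ht
    induction ht using Submodule.iSup_induction' with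
    | mem V x hx => exact (hS V.1 V.2).1 x hx
    | zero => exact fun I => D0.zero_mem
    | add x y _ _ hx hy => exact fun I => D0.add_mem (hx I) (hy I)
  · intro c hc
    rw [sSup_eq_iSup'] at hc
    induction hc using Submodule.iSup_induction' with
    | mem V x hx =>
      refine SetLike.le_def.1 (iSup_mono fun a => ?_) ((hS V.1 V.2).2 x hx)
      exact inf_le_inf_right _ (cxX_mono (le_sSup V.2))
    | zero =>
      rw [cstX_zero]
      exact Submodule.zero_mem _
    | add x y _ _ hx hy =>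
      rw [cstX_add]
      exact Submodule.add_mem _ hx hy

end hlc

section nondeg

variable {B : Type*} [Fintype B] [DecidableEq B] {C : Type*} [Fintype C] [DecidableEq C]
  {κ : Type*} [Fintype κ] [DecidableEq κ] {D : Matrix B B ℂ} {D' : Matrix C C ℂ}
  {D0 : Submodule ℚ (C → ℚ)} {L : ℤ} (h : PolH D)

/-- The form on the forms with values. -/
def EC (κ : Type*) [Fintype κ] [DecidableEq κ] (C : Type*) [Fintype C] {K : Type*} [Field K]
    (O : Matrix B B K) : LinearMap.BilinForm K ((κ → B) × C → K) :=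
  LinearMap.mk₂ K (fun t t' => ∑ c, EB κ O (fun I => t (I, c)) (fun I => t' (I, c)))
    (fun s t t' => by
      rw [← Finset.sum_add_distrib]
      refine Finset.sum_congr rfl fun c _ => ?_
      rw [← LinearMap.add_apply, ← map_add]
      rfl)
    (fun a t t' => by
      rw [smul_eq_mul, Finset.mul_sum]
      refine Finset.sum_congr rfl fun c _ => ?_
      rw [← smul_eq_mul, ← LinearMap.smul_apply, ← map_smul]
      rfl)
    (fun t s t' => by
      rw [← Finset.sum_add_distrib]
      refine Finset.sum_congr rfl fun c _ => ?_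
      rw [← map_add]
      rfl)
    (fun a t t' => by
      rw [smul_eq_mul, Finset.mul_sum]
      refine Finset.sum_congr rfl fun c _ => ?_
      rw [← smul_eq_mul, ← map_smul]
      rfl)

theorem EC_apply {K : Type*} [Field K] (O : Matrix B B K) (t t' : (κ → B) × C → K) :
    EC κ C O t t' = ∑ c, EB κ O (sl c t) (sl c t') := rfl

theorem EC_refl {K : Type*} [Field K] {O : Matrix B B K} (hO : Oᵀ = -O) :
    (EC κ C O).IsRefl := by
  intro t t' h
  have h1 : EC κ C O t' t = (-1) ^ Fintype.card κ * EC κ C O t t' := by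
    rw [EC_apply, EC_apply, Finset.mul_sum]
    exact Finset.sum_congr rfl fun c _ => EB_swap O hO _ _
  rw [h1, h, mul_zero]

theorem EC_cst (O : Matrix B B ℚ) (t t' : (κ → B) × C → ℚ) :
    EC κ C (O.map (fun x : ℚ => (x : ℂ))) (cstX t) (cstX t') = ((EC κ C O t t' : ℚ) : ℂ) := by
  rw [EC_apply, EC_apply]
  push_cast
  refine Finset.sum_congr rfl fun c _ => ?_
  exact EB_cst O ℂ (sl c t) (sl c t')

/-- The form is nondegenerate on the Hodge substructures. -/
theorem PolH.nondegC {V : Submodule ℚ ((κ → B) × C → ℚ)} (hV : HLC D D' D0 L V)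
    {v : (κ → B) × C → ℚ} (hv : v ∈ V) (h0 : ∀ v' ∈ V, EC κ C h.Om v v' = 0) : v = 0 := by
  have h1 : cxX V ≤ LinearMap.ker (EC κ C (h.Om.map (fun x : ℚ => (x : ℂ))) (cstX v)) := by
    refine cxX_le fun t ht => ?_
    rw [LinearMap.mem_ker, EC_cst, h0 t ht, Rat.cast_zero]
  let WL : ((κ → B) × C → ℂ) →ₗ[ℂ] ((κ → B) × C → ℂ) :=
    { toFun := fun z p => wl (Complex.I • D) (sl p.2 z) p.1
      map_add' := fun z z' => by
        funext p
        rw [map_add, wl_add]
        rfl
      map_smul' := fun r z => by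
        funext p
        rw [map_smul]
        simp only [wl, Pi.smul_apply, smul_eq_mul, Finset.mul_sum, mul_assoc, RingHom.id_apply] }
  have h2 : cxX V ≤ (cxX V).comap WL := by
    refine HLC_ind hV fun a b _ z hz hz' => ?_
    rw [Submodule.mem_comap]
    have h3 : WL z = (Complex.I ^ a) • z := by
      refine ext_sl fun c => ?_
      change wl (Complex.I • D) (sl c z) = _
      rw [wl_eig h.dd (a := a)]
      · rfl
      · rw [mem_eigF, ← sl_opD, hz'.1]
        rfl
    rw [h3]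
    exact Submodule.smul_mem _ _ hz
  have h3 := LinearMap.mem_ker.1 (h1 (h2 (cstX_mem hv)))
  have h4 : EC κ C (h.Om.map (fun x : ℚ => (x : ℂ))) (cstX v) (WL (cstX v)) =
      (((-1) ^ Fintype.card κ * ∑ c, qf h.u (sl c v) : ℝ) : ℂ) := by
    rw [EC_apply, Finset.mul_sum, Complex.ofReal_sum]
    exact Finset.sum_congr rfl fun c _ => h.EB_self (sl c v)
  rw [h4] at h3
  have h5 : (-1) ^ Fintype.card κ * ∑ c, qf h.u (sl c v) = 0 := by exact_mod_cast h3
  have h6 := (mul_eq_zero.1 h5).resolve_left (pow_ne_zero _ (by norm_num))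
  rw [Finset.sum_eq_zero_iff_of_nonneg (fun c _ => qf_nonneg _ _)] at h6
  refine ext_sl fun c => ?_
  rw [h.qf_eq_zero (h6 c (Finset.mem_univ _)), map_zero]

theorem EC_actC {O X : Matrix B B ℂ} (hX : X * O + O * Xᵀ = 0) (z z' : (κ → B) × C → ℂ) :
    EC κ C O (opD κ C X z) z' + EC κ C O z (opD κ C X z') = 0 := by
  rw [EC_apply, EC_apply, ← Finset.sum_add_distrib]
  refine Finset.sum_eq_zero fun c _ => ?_
  rw [sl_opD, sl_opD]
  exact EB_act hX _ _

theorem lam_EC (lam : ℂ →ₗ[ℚ] ℚ) (O : Matrix B B ℚ) (z : (κ → B) × C → ℂ)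
    (v : (κ → B) × C → ℚ) :
    lam (EC κ C (O.map (fun x : ℚ => (x : ℂ))) z (cstX v)) =
      EC κ C O (fun p => lam (z p)) v := by
  rw [EC_apply, EC_apply, map_sum]
  refine Finset.sum_congr rfl fun c _ => ?_
  exact lam_EB lam O (sl c z) (sl c v)

include h in
/-- The orthogonal projection to a Hodge substructure. -/
theorem PolH.exists_projC {V : Submodule ℚ ((κ → B) × C → ℚ)} (hV : HLC D D' D0 L V) :
    ∃ P : ((κ → B) × C → ℚ) →ₗ[ℚ] ((κ → B) × C → ℚ), (∀ v ∈ V, P v = v) ∧ (∀ c, P c ∈ V) ∧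
      ∀ z, opD κ C D (exX P z) = exX P (opD κ C D z) := by
  have hrefl : (EC κ C h.Om).IsRefl := EC_refl h.tr
  have hdisj : Disjoint V ((EC κ C h.Om).orthogonal V) := by
    rw [Submodule.disjoint_def]
    intro v hv hv'
    refine h.nondegC hV hv fun v' hv'' => ?_
    exact hrefl _ _ (hv' v' hv'')
  have hc : IsCompl V ((EC κ C h.Om).orthogonal V) :=
    (LinearMap.BilinForm.isCompl_orthogonal_iff_disjoint hrefl).2 hdisj
  set P := V.projection _ hc with hP
  have h1 : ∀ v ∈ V, P v = v := fun v hv => Submodule.projection_apply_of_mem_left hc hv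
  have h2 : ∀ c, P c ∈ V := fun c => Submodule.projection_apply_mem hc c
  have h3 : ∀ c, ∀ v ∈ V, EC κ C h.Om (P c) v = EC κ C h.Om c v := by
    intro c v hv
    have h4 : c - P c ∈ (EC κ C h.Om).orthogonal V := by
      rw [← Submodule.projection_apply_eq_zero_iff hc, map_sub, ← hP, sub_eq_zero]
      exact (h1 _ (h2 c)).symm
    have h5 := hrefl _ _ (h4 v hv)
    rw [map_sub, LinearMap.sub_apply, sub_eq_zero] at h5
    exact h5.symm
  refine ⟨P, h1, h2, ?_⟩
  -- the extension is the identity on the complexification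
  have hA : cxX V ≤ LinearMap.ker (exX P - LinearMap.id) := by
    refine cxX_le fun t ht => ?_
    rw [LinearMap.mem_ker, LinearMap.sub_apply, exX_cst, h1 t ht, LinearMap.id_apply, sub_self]
  have hA' : ∀ z ∈ cxX V, exX P z = z := by
    intro z hz
    have := LinearMap.mem_ker.1 (hA hz)
    rwa [LinearMap.sub_apply, LinearMap.id_apply, sub_eq_zero] at this
  have hB : ∀ z : (κ → B) × C → ℂ, (∀ v ∈ V,
      EC κ C (h.Om.map (fun x : ℚ => (x : ℂ))) z (cstX v) = 0) → exX P z = 0 := by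
    intro z hz
    apply eq_zero_of_lamX
    intro lam
    rw [lam_exX]
    refine h.nondegC hV (h2 _) fun v hv => ?_
    rw [h3 _ v hv, ← lam_EC, hz v hv, map_zero]
  have hE : ∀ u : (κ → B) × C → ℚ, (∀ v ∈ V, EC κ C h.Om u v = 0) → ∀ z ∈ cxX V,
      EC κ C (h.Om.map (fun x : ℚ => (x : ℂ))) (cstX u) z = 0 := by
    intro u hu z hz
    have h4 : cxX V ≤ LinearMap.ker (EC κ C (h.Om.map (fun x : ℚ => (x : ℂ))) (cstX u)) := by
      refine cxX_le fun t ht => ?_
      rw [LinearMap.mem_ker, EC_cst, hu t ht, Rat.cast_zero]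
    exact LinearMap.mem_ker.1 (h4 hz)
  have key : (opD κ C D).comp (exX P) = (exX P).comp (opD κ C D) := by
    refine ext_cstX fun c => ?_
    rw [LinearMap.comp_apply, LinearMap.comp_apply, exX_cst]
    have h4 : cstX c = cstX (P c) + cstX (c - P c) := by
      rw [← cstX_add, add_sub_cancel]
    have h5 : opD κ C D (cstX c) = opD κ C D (cstX (P c)) + opD κ C D (cstX (c - P c)) := by
      conv_lhs => rw [h4]
      exact map_add _ _ _
    rw [h5, map_add, hA' _ (HLC_opD hV (cstX_mem (h2 c))), hB, add_zero]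
    intro v hv
    have h6 := EC_actC (C := C) h.sp' (cstX (c - P c)) (cstX v)
    rw [hE (c - P c) ?_ _ (HLC_opD hV (cstX_mem hv)), add_zero] at h6
    · exact h6
    · intro v' hv'
      rw [map_sub, LinearMap.sub_apply, h3 _ v' hv', sub_self]
  intro c
  exact LinearMap.congr_fun key c

/-- The blocks of a map of forms with values. -/
def blkP (P : ((κ → B) × C → ℚ) →ₗ[ℚ] ((κ → B) × C → ℚ)) (c c' : C) :
    ((κ → B) → ℚ) →ₗ[ℚ] ((κ → B) → ℚ) := (sl c).comp (P.comp (ins c'))

theorem ins_cst (c : C) (x : (κ → B) → ℚ) : ins c (cst ℂ x) = cstX (ins c x) := by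
  funext p
  rw [ins_apply]
  unfold cstX
  rw [ins_apply]
  split_ifs
  · rfl
  · rw [Rat.cast_zero]

theorem opD_ins (c : C) (x : (κ → B) → ℂ) : opD κ C D (ins c x) = ins c (act D x) := by
  refine ext_sl fun c' => ?_
  rw [sl_opD, sl_ins, sl_ins]
  split_ifs
  · rfl
  · rw [act_zero_right]

/-- The blocks of a map which commutes with the Hodge operator are morphisms. -/
theorem isHM_blkP {P : ((κ → B) × C → ℚ) →ₗ[ℚ] ((κ → B) × C → ℚ)}
    (hP : ∀ z, opD κ C D (exX P z) = exX P (opD κ C D z)) (c c' : C) : IsHM D (blkP P c c') := by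
  refine ⟨(sl c).comp ((exX P).comp (ins c')), fun x => ?_, fun x => ?_⟩
  · rw [LinearMap.comp_apply, LinearMap.comp_apply, ins_cst, exX_cst]
    rfl
  · rw [LinearMap.comp_apply, LinearMap.comp_apply, ← sl_opD, hP, opD_ins]
    rfl

theorem exC_blkP (P : ((κ → B) × C → ℚ) →ₗ[ℚ] ((κ → B) × C → ℚ)) (c c' : C)
    (x : (κ → B) → ℂ) : exC (blkP P c c') x = sl c (exX P (ins c' x)) := by
  have h1 : exC (blkP P c c') = (sl c).comp ((exX P).comp (ins c')) := by
    refine ext_cst fun x => ?_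
    rw [exC_cst, LinearMap.comp_apply, LinearMap.comp_apply, ins_cst, exX_cst]
    rfl
  rw [h1]
  rfl

end nondeg

end

end Pool.Agent.TH131.GHC
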