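import Mathlib
import Pool.Agent.TH131.GHC.Rel2

/-!
# Hodge substructures of the harmonic tensors with values in a Hodge structure
-/

set_option linter.unusedSectionVars false

namespace Pool.Agent.TH131.GHC

open Matrix Equiv Pool.Agent.H204R3.SP Pool.Agent.W437.HC Pool.Agent.W437.HD Pool.Agent.W437.HP

noncomputable section

section eigen

variable {C : Type*} [Fintype C] [DecidableEq C]

/-- The projections to the eigenspaces of a diagonalizable matrix. -/
theorem exists_projE {D' : Matrix C C ℂ}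
    (hdec : ∀ x : C → ℂ, x ∈ Submodule.span ℂ {y | ∃ k : ℤ, D' *ᵥ y = (k : ℂ) • y}) (b : ℤ) :
    ∃ Pb : Matrix C C ℂ, (∀ (k : ℤ) y, D' *ᵥ y = (k : ℂ) • y →
      Pb *ᵥ y = if k = b then y else 0) ∧ ∀ y, D' *ᵥ (Pb *ᵥ y) = (b : ℂ) • (Pb *ᵥ y) := by
  classical
  let f : Module.End ℂ (C → ℂ) := Matrix.toLin' D'
  have hfin : Set.Finite {k : ℤ | f.HasEigenvalue (k : ℂ)} :=
    (Module.End.finite_hasEigenvalue f).preimage (Int.cast_injective.injOn)
  let S : Finset ℤ := hfin.toFinset
  let p : Polynomial ℂ := ∏ k ∈ S.erase b, (Polynomial.C ((b : ℂ) - k)⁻¹ *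
    (Polynomial.X - Polynomial.C (k : ℂ)))
  have hp : ∀ k' : ℤ, (k' = b ∨ k' ∈ S) → p.eval (k' : ℂ) = if k' = b then 1 else 0 := by
    intro k' hk'
    rw [Polynomial.eval_prod]
    by_cases h : k' = b
    · rw [if_pos h]
      refine Finset.prod_eq_one fun k hk => ?_
      rw [Polynomial.eval_mul, Polynomial.eval_C, Polynomial.eval_sub, Polynomial.eval_X,
        Polynomial.eval_C, h]
      refine inv_mul_cancel₀ (sub_ne_zero.2 ?_)
      intro h'
      exact (Finset.ne_of_mem_erase hk) (Int.cast_injective h').symm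
    · rw [if_neg h]
      refine Finset.prod_eq_zero (Finset.mem_erase.2 ⟨h, hk'.resolve_left h⟩) ?_
      rw [Polynomial.eval_mul, Polynomial.eval_C, Polynomial.eval_sub, Polynomial.eval_X,
        Polynomial.eval_C, sub_self, mul_zero]
  have h1 : ∀ (k : ℤ) y, D' *ᵥ y = (k : ℂ) • y →
      LinearMap.toMatrix' (Polynomial.aeval f p) *ᵥ y = if k = b then y else 0 := by
    intro k y hy
    rw [LinearMap.toMatrix'_mulVec]
    by_cases hy0 : y = 0
    · rw [hy0, map_zero, ite_self]
    · have h2 : f.HasEigenvector (k : ℂ) y := ⟨Module.End.mem_eigenspace_iff.2 hy, hy0⟩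
      rw [Module.End.aeval_apply_of_hasEigenvector h2, hp k (Or.inr ?_)]
      · split_ifs
        · rw [one_smul]
        · rw [zero_smul]
      · exact hfin.mem_toFinset.2 (Module.End.hasEigenvalue_of_hasEigenvector h2)
  refine ⟨_, h1, fun y => ?_⟩
  have h2 := hdec y
  induction h2 using Submodule.span_induction with
  | mem y hy =>
    obtain ⟨k, hk⟩ := hy
    rw [h1 k y hk]
    by_cases h3 : k = b
    · rw [if_pos h3, hk, h3]
    · rw [if_neg h3, mulVec_zero, smul_zero]
  | zero => simp
  | add x y _ _ hx hy => rw [mulVec_add, mulVec_add, hx, hy, smul_add]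
  | smul r x _ hx => rw [mulVec_smul, mulVec_smul, hx, smul_comm]

end eigen

section descent

variable {B : Type*} [Fintype B] [DecidableEq B] {D : Matrix B B ℂ}
  {κ : Type*} [Fintype κ] [DecidableEq κ]

theorem IdC_le_cxX : IdC D κ ≤ cxX (IdQ D κ) := by
  refine Submodule.span_le.2 ?_
  rintro _ ⟨a, b, β, G, hab, hβ, rfl⟩
  -- the bilinear form is a combination of rational ones
  have h1 : bilc β ∈ Submodule.span ℂ {w | ∃ b : (Fin 2 → B) → ℚ, IsH D b ∧ w = cst ℂ b} := by
    refine mem_span_isH fun X hX => ?_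
    funext I
    rw [act_bilc, hβ _ (cast_mem D hX)]
    rfl
  let Lg : ((Fin 2 → B) → ℂ) →ₗ[ℂ] ((κ → B) → ℂ) :=
    { toFun := fun w I => w ![I a, I b] * G (fun l => I l.1)
      map_add' := fun w w' => by
        funext I
        simp only [Pi.add_apply, add_mul]
      map_smul' := fun r w => by
        funext I
        simp only [Pi.smul_apply, smul_eq_mul, RingHom.id_apply, mul_assoc] }
  have h2 := Submodule.mem_map_of_mem (f := Lg) h1
  rw [Submodule.map_span] at h2
  have h3 : Lg (bilc β) = fun I => β (I a) (I b) * G (fun l => I l.1) := rfl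
  rw [h3] at h2
  refine (Submodule.span_le.2 ?_) h2
  rintro _ ⟨_, ⟨b', hb', rfl⟩, rfl⟩
  have h4 : Lg (cst ℂ b') = ∑ X, G X • cstX (mulB a b (Matrix.of fun i j => b' ![i, j])
      (Pi.single X 1)) := by
    funext I
    rw [Finset.sum_apply, Finset.sum_eq_single (fun l => I l.1)]
    · rw [Pi.smul_apply]
      simp only [cstX, cst, Lg, LinearMap.coe_mk, AddHom.coe_mk, mulB_apply, Pi.single_eq_same,
        Matrix.of_apply, mul_one, smul_eq_mul]
      exact mul_comm _ _
    · intro X _ hX
      rw [Pi.smul_apply]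
      simp only [cstX, mulB_apply]
      rw [Pi.single_eq_of_ne (Ne.symm hX), mul_zero, Rat.cast_zero, smul_zero]
    · intro h
      exact absurd (Finset.mem_univ _) h
  rw [h4]
  refine Submodule.sum_mem _ fun X _ => Submodule.smul_mem _ _ (cstX_mem ?_)
  refine Submodule.subset_span ⟨a, b, Matrix.of fun i j => b' ![i, j], Pi.single X 1, hab, ?_, rfl⟩
  have h5 : bilc (Matrix.of fun i j => b' ![i, j]) = b' := by
    funext I
    simp only [bilc, Matrix.of_apply]
    congr 1
    funext k
    fin_cases k <;> rfl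
  rw [h5]
  exact hb'

/-- The kernel of a morphism. -/
theorem ker_decomp {κ : Type} [Fintype κ] [DecidableEq κ] (h : PolH D)
    (hMS : ∀ (m : ℕ) (c : (Fin m × Fin 2 → B) → ℚ), IsH D c → c ∈ MS D m)
    {P : ((κ → B) → ℚ) →ₗ[ℚ] ((κ → B) → ℚ)} (hP : IsHM D P) :
    (fun I I' : κ → B => cst ℂ (P (Wf h.Om I')) I) ∈ GD D κ ⊔ MX D κ := by
  obtain ⟨n, hn⟩ : ∃ n, Fintype.card κ = n := ⟨_, rfl⟩
  have e0 : Fin n × Fin 2 ≃ κ ⊕ κ := Fintype.equivOfCardEq (by
    rw [Fintype.card_prod, Fintype.card_fin, Fintype.card_fin, Fintype.card_sum, hn]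
    ring)
  have h1 := isH_kerF h hP
  have h2 := hMS n _ (isH_reindex D e0 h1)
  have h3 := MS_decomp hn e0 h2
  have h4 : (fun I I' : κ → B => (((fun X : Fin n × Fin 2 → B => kerF h.Om P
      (fun k => X (e0.symm k))) (fun p => Sum.elim I I' (e0 p)) : ℚ) : ℂ)) =
      fun I I' : κ → B => cst ℂ (P (Wf h.Om I')) I := by
    funext I I'
    simp only [kerF, Equiv.apply_symm_apply, Sum.elim_inl, Sum.elim_inr, cst]
  rwa [h4] at h3

end descent

section harm

variable {B : Type*} [Fintype B] [DecidableEq B] {C : Type*} [Fintype C] [DecidableEq C]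
  {κ : Type} [Fintype κ] [DecidableEq κ] {D : Matrix B B ℂ} {D' : Matrix C C ℂ}
  {D0 : Submodule ℚ (C → ℚ)} {L : ℤ}

/-- Values of the components. -/
theorem opW_eq_mulVec (M : Matrix C C ℂ) (z : (κ → B) × C → ℂ) (I : κ → B) :
    (fun c => opW κ B M z (I, c)) = M *ᵥ (fun c => z (I, c)) := rfl

theorem harm_zero (h : PolH D) (hcore : CoreP D)
    (hMS : ∀ (m : ℕ) (c : (Fin m × Fin 2 → B) → ℚ), IsH D c → c ∈ MS D m)
    (hdec : ∀ x : C → ℂ, x ∈ Submodule.span ℂ {y | ∃ k : ℤ, D' *ᵥ y = (k : ℂ) • y})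
    {V : Submodule ℚ ((κ → B) × C → ℚ)} (hV : HLC D D' D0 L V)
    (hharm : ∀ t ∈ V, ∀ c, ∀ x ∈ IdQ D κ, EB κ h.Om (sl c t) x = 0)
    {b : ℤ} (hb : L - Fintype.card κ < b) {z : (κ → B) × C → ℂ} (hz : z ∈ cxX V)
    (hzb : opW κ B D' z = (b : ℂ) • z) : z = 0 := by
  obtain ⟨Pb, hPb, -⟩ := exists_projE hdec b
  obtain ⟨P, hP1, hP2, hP3⟩ := h.exists_projC hV
  -- the operator of the projection
  have hopPb : ∀ (z : (κ → B) × C → ℂ) (k : ℤ), opW κ B D' z = (k : ℂ) • z →
      opW κ B Pb z = if k = b then z else 0 := by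
    intro z k hz
    have h1 : ∀ I, (fun c => opW κ B Pb z (I, c)) = if k = b then (fun c => z (I, c)) else 0 := by
      intro I
      rw [opW_eq_mulVec]
      refine hPb k _ ?_
      rw [← opW_eq_mulVec, hz]
      rfl
    funext p
    have h2 := congrFun (h1 p.1) p.2
    refine h2.trans ?_
    split_ifs <;> rfl
  -- the columns are in the ideal
  have hcol : ∀ c c' (I' : κ → B), (fun I => ∑ c'', Pb c c'' *
      cst ℂ (blkP P c'' c' (Wf h.Om I')) I) ∈ IdC D κ := by
    intro c c'
    have h1 : (∑ c'', Pb c c'' • fun I I' : κ → B => cst ℂ (blkP P c'' c' (Wf h.Om I')) I) ∈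
        GD D κ ⊔ MX D κ :=
      Submodule.sum_mem _ fun c'' _ => Submodule.smul_mem _ _
        (ker_decomp h hMS (isHM_blkP hP3 c'' c'))
    obtain ⟨g, hg, m, hm, hgm⟩ := Submodule.mem_sup.1 h1
    have h2 : ∀ I I', g I I' + m I I' = ∑ c'', Pb c c'' *
        cst ℂ (blkP P c'' c' (Wf h.Om I')) I := by
      intro I I'
      have h3 := congrFun (congrFun hgm I) I'
      rw [Pi.add_apply, Pi.add_apply, Finset.sum_apply, Finset.sum_apply] at h3
      exact h3
    have h5 : ∀ I', (fun I => m I I') ∈ IdC D κ := by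
      refine hcore κ m hm fun y hy I' => ?_
      have h6 : (fun I => m I I') = (fun I => ∑ c'', Pb c c'' *
          cst ℂ (blkP P c'' c' (Wf h.Om I')) I) - fun I => g I I' := by
        funext I
        rw [Pi.sub_apply, ← h2]
        ring
      have h8 : ∀ F G : (κ → B) → ℂ, evalF (F - G) y = evalF F y - evalF G y := by
        intro F G
        simp only [evalF, Pi.sub_apply, sub_mul, Finset.sum_sub_distrib]
      rw [h6, h8, evalF_IdC (hg I') hy, sub_zero]
      -- the values on the fixed vectors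
      have h9 : (fun I => ∑ c'', Pb c c'' * cst ℂ (blkP P c'' c' (Wf h.Om I')) I) =
          sl c (opW κ B Pb (cstX (P (ins c' (Wf h.Om I'))))) := rfl
      rw [h9]
      let φ : ((κ → B) × C → ℂ) →ₗ[ℂ] ℂ :=
        { toFun := fun z => evalF (sl c (opW κ B Pb z)) y
          map_add' := fun z z' => by
            rw [map_add, map_add]
            simp only [evalF, Pi.add_apply, add_mul, Finset.sum_add_distrib]
          map_smul' := fun r z => by
            rw [map_smul, map_smul]
            simp only [evalF, Pi.smul_apply, smul_eq_mul, mul_assoc, Finset.mul_sum,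
              RingHom.id_apply] }
      have h10 : cxX V ≤ LinearMap.ker φ := by
        refine HLC_ind hV fun a b' hab z hz hz' => ?_
        rw [LinearMap.mem_ker]
        change evalF (sl c (opW κ B Pb z)) y = 0
        rw [hopPb z b' hz'.2]
        by_cases hbb : b' = b
        · rw [if_pos hbb]
          by_contra h0
          have h11 : sl c z ∈ eigF D κ a := by
            rw [mem_eigF, ← sl_opD, hz'.1, map_smul]
          have h12 := evalF_eig h11 y (fun _ => 1)
            (fun k => by rw [hy, Int.cast_one, one_smul]) h0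
          simp only [Finset.sum_const, Finset.card_univ, nsmul_eq_mul, mul_one] at h12
          have h13 := (abs_le.1 hab).2
          omega
        · rw [if_neg hbb, map_zero]
          exact evalF_zero y
      exact LinearMap.mem_ker.1 (h10 (cstX_mem (hP2 _)))
    intro I'
    have h6 : (fun I => ∑ c'', Pb c c'' * cst ℂ (blkP P c'' c' (Wf h.Om I')) I) =
        (fun I => g I I') + fun I => m I I' := by
      funext I
      exact (h2 I I').symm
    rw [h6]
    exact Submodule.add_mem _ (hg I') (h5 I')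
  -- the linear maps
  have hmap : ∀ c c' (x : (κ → B) → ℂ),
      (∑ c'', Pb c c'' • exC (blkP P c'' c') x) ∈ IdC D κ := by
    intro c c' x
    have h1 : ∀ w : (κ → B) → ℚ, (∑ c'', Pb c c'' • exC (blkP P c'' c') (cst ℂ w)) ∈
        IdC D κ := by
      intro w
      have h2 : (∑ c'', Pb c c'' • exC (blkP P c'' c') (cst ℂ w)) =
          ∑ I', (((∑ M : κ → B, w M * ∏ k, (-h.Om) (I' k) (M k) : ℚ)) : ℂ) •
            fun I => ∑ c'', Pb c c'' * cst ℂ (blkP P c'' c' (Wf h.Om I')) I := by
        funext I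
        rw [Finset.sum_apply, Finset.sum_apply]
        simp only [Pi.smul_apply, smul_eq_mul, exC_cst, Finset.mul_sum]
        rw [Finset.sum_comm]
        refine Finset.sum_congr rfl fun c'' _ => ?_
        have h3 : blkP P c'' c' w I = ∑ I', (∑ M : κ → B, w M * ∏ k, (-h.Om) (I' k) (M k)) *
            blkP P c'' c' (Wf h.Om I') I := by
          conv_lhs => rw [eq_sum_Wf h.sq w]
          rw [map_sum, Finset.sum_apply]
          exact Finset.sum_congr rfl fun I' _ => by rw [map_smul]; rfl
        simp only [cst]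
        rw [h3, Rat.cast_sum, Finset.mul_sum]
        refine Finset.sum_congr rfl fun I' _ => ?_
        rw [Rat.cast_mul]
        ring
      rw [h2]
      exact Submodule.sum_mem _ fun I' _ => Submodule.smul_mem _ _ (hcol c c' I')
    have h2 : (∑ c'', Pb c c'' • exC (blkP P c'' c') x) = ∑ I, x I •
        ∑ c'', Pb c c'' • exC (blkP P c'' c') (cst ℂ (Pi.single I 1 : (κ → B) → ℚ)) := by
      conv_lhs => rw [eq_sum_cst x]
      simp only [map_sum, map_smul, Finset.smul_sum]
      rw [Finset.sum_comm]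
      refine Finset.sum_congr rfl fun I _ => Finset.sum_congr rfl fun c'' _ => ?_
      rw [smul_comm]
    rw [h2]
    exact Submodule.sum_mem _ fun I _ => Submodule.smul_mem _ _ (h1 _)
  -- the components of the form are in the ideal
  have hPz : exX P z = z := by
    have hA : cxX V ≤ LinearMap.ker (exX P - LinearMap.id) := by
      refine cxX_le fun t ht => ?_
      rw [LinearMap.mem_ker, LinearMap.sub_apply, exX_cst, hP1 t ht, LinearMap.id_apply,
        sub_self]
    have := LinearMap.mem_ker.1 (hA hz)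
    rwa [LinearMap.sub_apply, LinearMap.id_apply, sub_eq_zero] at this
  have hsl : ∀ c, sl c z ∈ IdC D κ := by
    intro c
    have h1 : sl c z = ∑ c', ∑ c'', Pb c c'' • exC (blkP P c'' c') (sl c' z) := by
      have h2 : z = opW κ B Pb z := by rw [hopPb z b hzb, if_pos rfl]
      conv_lhs => rw [h2, sl_opW]
      rw [Finset.sum_comm]
      refine Finset.sum_congr rfl fun c'' _ => ?_
      rw [← Finset.smul_sum]
      congr 1
      conv_lhs => rw [← hPz, eq_sum_ins z]
      rw [map_sum, map_sum]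
      exact Finset.sum_congr rfl fun c' _ => (exC_blkP P c'' c' _).symm
    rw [h1]
    exact Submodule.sum_mem _ fun c' _ => hmap c c' _
  -- the form vanishes
  apply eq_zero_of_lamX
  intro lam
  refine h.nondegC hV (lam_cxX hz lam) fun v' hv' => ?_
  rw [EC_apply]
  refine Finset.sum_eq_zero fun c _ => ?_
  refine EB_refl h.tr _ _ (hharm v' hv' c _ ?_)
  exact lam_cxX (IdC_le_cxX (hsl c)) lam

/-- The complex conjugation. -/
theorem conj_cxX {X : Type*} [Fintype X] [DecidableEq X] {V : Submodule ℚ (X → ℚ)} {z : X → ℂ}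
    (hz : z ∈ cxX V) : (fun x => starRingEnd ℂ (z x)) ∈ cxX V := by
  unfold cxX at hz
  induction hz using Submodule.span_induction with
  | mem z hz =>
    obtain ⟨t, ht, rfl⟩ := hz
    have h1 : (fun x => starRingEnd ℂ (cstX t x)) = cstX t := by
      funext x
      simp [cstX]
    rw [h1]
    exact cstX_mem ht
  | zero =>
    have h1 : (fun x => starRingEnd ℂ ((0 : X → ℂ) x)) = 0 := by
      funext x
      simp
    rw [h1]
    exact Submodule.zero_mem _
  | add x y _ _ hx hy =>
    have h1 : (fun i => starRingEnd ℂ ((x + y) i)) =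
        (fun i => starRingEnd ℂ (x i)) + fun i => starRingEnd ℂ (y i) := by
      funext i
      simp
    rw [h1]
    exact Submodule.add_mem _ hx hy
  | smul r x _ hx =>
    have h1 : (fun i => starRingEnd ℂ ((r • x) i)) =
        (starRingEnd ℂ r) • fun i => starRingEnd ℂ (x i) := by
      funext i
      simp
    rw [h1]
    exact Submodule.smul_mem _ _ hx

theorem harm_zero' (h : PolH D) (hcore : CoreP D)
    (hMS : ∀ (m : ℕ) (c : (Fin m × Fin 2 → B) → ℚ), IsH D c → c ∈ MS D m)
    (hdec : ∀ x : C → ℂ, x ∈ Submodule.span ℂ {y | ∃ k : ℤ, D' *ᵥ y = (k : ℂ) • y})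
    (hreal : D'.map (starRingEnd ℂ) = -D')
    {V : Submodule ℚ ((κ → B) × C → ℚ)} (hV : HLC D D' D0 L V)
    (hharm : ∀ t ∈ V, ∀ c, ∀ x ∈ IdQ D κ, EB κ h.Om (sl c t) x = 0)
    {b : ℤ} (hb : L - Fintype.card κ < |b|) {z : (κ → B) × C → ℂ} (hz : z ∈ cxX V)
    (hzb : opW κ B D' z = (b : ℂ) • z) : z = 0 := by
  rcases le_total 0 b with hb0 | hb0
  · rw [abs_of_nonneg hb0] at hb
    exact harm_zero h hcore hMS hdec hV hharm hb hz hzb
  · rw [abs_of_nonpos hb0] at hb
    have h1 := harm_zero h hcore hMS hdec hV hharm hb (conj_cxX hz) ?_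
    · funext p
      have h2 := congrFun h1 p
      simpa using h2
    · funext p
      have h2 := congrArg (starRingEnd ℂ) (congrFun hzb p)
      rw [opW_apply, map_sum] at h2
      rw [opW_apply]
      have h3 : ∀ c, starRingEnd ℂ (D' p.2 c) = -D' p.2 c := fun c => congrFun (congrFun hreal p.2) c
      simp only [map_mul, h3, neg_mul, Finset.sum_neg_distrib, Pi.smul_apply, smul_eq_mul,
        map_intCast] at h2
      rw [Pi.smul_apply, smul_eq_mul, Int.cast_neg, neg_mul, ← h2, neg_neg]

/-- The eigenspaces of the Hodge operator of the values. -/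
def eigW (D' : Matrix C C ℂ) (b : ℤ) : Submodule ℂ (C → ℂ) where
  carrier := {y | D' *ᵥ y = (b : ℂ) • y}
  zero_mem' := by
    change D' *ᵥ 0 = _
    rw [mulVec_zero, smul_zero]
  add_mem' := by
    intro x y hx hy
    change D' *ᵥ (x + y) = _
    rw [mulVec_add, show D' *ᵥ x = _ from hx, show D' *ᵥ y = _ from hy, smul_add]
  smul_mem' := by
    intro r x hx
    change D' *ᵥ (r • x) = _
    rw [mulVec_smul, show D' *ᵥ x = _ from hx, smul_comm]

/-- A Hodge substructure of the values, of level at most `l`. -/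
def LevW (D' : Matrix C C ℂ) (l : ℤ) (F : Submodule ℚ (C → ℚ)) : Prop :=
  ∀ x ∈ F, cstX x ∈ ⨆ b : {b : ℤ // |b| ≤ l}, cxX F ⊓ eigW D' b.1

/-- The largest Hodge substructure of `D0` of level at most `l`. -/
def FL (D' : Matrix C C ℂ) (D0 : Submodule ℚ (C → ℚ)) (l : ℤ) : Submodule ℚ (C → ℚ) :=
  sSup {F | F ≤ D0 ∧ LevW D' l F}

theorem LevW_FL (l : ℤ) : LevW D' l (FL D' D0 l) := by
  intro c hc
  unfold FL at hc
  rw [sSup_eq_iSup'] at hc
  induction hc using Submodule.iSup_induction' with
  | mem V x hx =>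
    refine SetLike.le_def.1 (iSup_mono fun a => ?_) (V.2.2 x hx)
    exact inf_le_inf_right _ (cxX_mono (le_sSup V.2))
  | zero =>
    rw [cstX_zero]
    exact Submodule.zero_mem _
  | add x y _ _ hx hy =>
    rw [cstX_add]
    exact Submodule.add_mem _ hx hy

theorem FL_le (l : ℤ) : FL D' D0 l ≤ D0 := sSup_le fun _ hF => hF.1

/-- The values of the harmonic Hodge substructures. -/
theorem harm_values (h : PolH D) (hcore : CoreP D)
    (hMS : ∀ (m : ℕ) (c : (Fin m × Fin 2 → B) → ℚ), IsH D c → c ∈ MS D m)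
    (hdec : ∀ x : C → ℂ, x ∈ Submodule.span ℂ {y | ∃ k : ℤ, D' *ᵥ y = (k : ℂ) • y})
    (hreal : D'.map (starRingEnd ℂ) = -D')
    {V : Submodule ℚ ((κ → B) × C → ℚ)} (hV : HLC D D' D0 L V)
    (hharm : ∀ t ∈ V, ∀ c, ∀ x ∈ IdQ D κ, EB κ h.Om (sl c t) x = 0) :
    ∀ t ∈ V, ∀ I, (fun c => t (I, c)) ∈ FL D' D0 (L - Fintype.card κ) := by
  set F : Submodule ℚ (C → ℚ) := Submodule.span ℚ {x | ∃ t ∈ V, ∃ I, x = fun c => t (I, c)}
    with hF
  have hFmem : ∀ t ∈ V, ∀ I, (fun c => t (I, c)) ∈ F := fun t ht I =>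
    Submodule.subset_span ⟨t, ht, I, rfl⟩
  have hcx : ∀ I, cxX V ≤ (cxX F).comap
      ({ toFun := fun z c => z (I, c), map_add' := fun _ _ => rfl, map_smul' := fun _ _ => rfl } :
        ((κ → B) × C → ℂ) →ₗ[ℂ] (C → ℂ)) := by
    intro I
    refine cxX_le fun t ht => ?_
    rw [Submodule.mem_comap]
    exact cstX_mem (hFmem t ht I)
  have hF2 : F ≤ FL D' D0 (L - Fintype.card κ) := by
    refine le_sSup ⟨?_, ?_⟩
    · refine Submodule.span_le.2 ?_
      rintro _ ⟨t, ht, I, rfl⟩
      exact hV.1 t ht I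
    · intro x hx
      rw [hF] at hx
      induction hx using Submodule.span_induction with
      | zero =>
        rw [cstX_zero]
        exact Submodule.zero_mem _
      | add x y _ _ hx hy =>
        rw [cstX_add]
        exact Submodule.add_mem _ hx hy
      | smul r x _ hx =>
        rw [cstX_smul]
        exact Submodule.smul_mem _ _ hx
      | mem x hx =>
        obtain ⟨t, ht, I, rfl⟩ := hx
        let ev : ((κ → B) × C → ℂ) →ₗ[ℂ] (C → ℂ) :=
          { toFun := fun z c => z (I, c), map_add' := fun _ _ => rfl,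
            map_smul' := fun _ _ => rfl }
        have h1 : cxX V ≤ (⨆ b : {b : ℤ // |b| ≤ L - Fintype.card κ},
            cxX F ⊓ eigW D' b.1).comap ev := by
          refine HLC_ind hV fun a b hab z hz hz' => ?_
          rw [Submodule.mem_comap]
          by_cases hb : |b| ≤ L - Fintype.card κ
          · refine Submodule.mem_iSup_of_mem (⟨b, hb⟩ : {b : ℤ // |b| ≤ L - Fintype.card κ})
              ⟨hcx I hz, ?_⟩
            change D' *ᵥ (fun c => z (I, c)) = _
            rw [← opW_eq_mulVec, hz'.2]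
            rfl
          · rw [harm_zero' h hcore hMS hdec hreal hV hharm (not_le.1 hb) hz hz'.2, map_zero]
            exact Submodule.zero_mem _
        exact h1 (cstX_mem ht)
  intro t ht I
  exact hF2 (hFmem t ht I)

end harm

end

end Pool.Agent.TH131.GHC
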