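import Mathlib
import Pool.Agent.TH131.GHC.Rel3

/-!
# Hodge substructures of the tensors with values in a Hodge structure: the main theorem
-/

set_option linter.unusedSectionVars false

namespace Pool.Agent.TH131.GHC

open Matrix Equiv Pool.Agent.H204R3.SP Pool.Agent.W437.HC Pool.Agent.W437.HD Pool.Agent.W437.HP

noncomputable section

section top

variable {B : Type*} [Fintype B] [DecidableEq B] {D : Matrix B B ℂ}
  {κ : Type*} [Fintype κ] [DecidableEq κ]

/-- The projections to the eigenspaces. -/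
def qm2 (D : Matrix B B ℂ) (ε : Bool) : Matrix B B ℂ :=
  (2 : ℂ)⁻¹ • (1 + (if ε = true then (1 : ℂ) else -1) • D)

/-- The component of a form. -/
def Qe (D : Matrix B B ℂ) (ε : κ → Bool) (c : (κ → B) → ℂ) : (κ → B) → ℂ :=
  fun I => ∑ I', c I' * ∏ k, qm2 D (ε k) (I' k) (I k)

theorem evalF_Qe (ε : κ → Bool) (c : (κ → B) → ℂ) (x : κ → B → ℂ) :
    evalF (Qe D ε c) x = evalF c (fun k => qm2 D (ε k) *ᵥ x k) := by
  unfold evalF Qe
  simp only [Finset.sum_mul]
  rw [Finset.sum_comm]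
  refine Finset.sum_congr rfl fun I' _ => ?_
  simp only [mulVec, dotProduct]
  rw [Finset.prod_univ_sum, Fintype.piFinset_univ, Finset.mul_sum]
  refine Finset.sum_congr rfl fun I _ => ?_
  rw [Finset.prod_mul_distrib]
  ring

theorem sum_Qe (c : (κ → B) → ℂ) : ∑ ε : κ → Bool, Qe D ε c = c := by
  funext I
  rw [Finset.sum_apply]
  unfold Qe
  rw [Finset.sum_comm]
  simp only [← Finset.mul_sum]
  have h1 : ∀ I' : κ → B, ∑ ε : κ → Bool, ∏ k, qm2 D (ε k) (I' k) (I k) =
      ∏ k, (1 : Matrix B B ℂ) (I' k) (I k) := by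
    intro I'
    have h2 : ∀ k, (1 : Matrix B B ℂ) (I' k) (I k) = ∑ b : Bool, qm2 D b (I' k) (I k) := by
      intro k
      rw [Fintype.sum_bool]
      simp only [qm2, if_true, Bool.false_eq_true, if_false, Matrix.smul_apply,
        Matrix.add_apply, smul_eq_mul]
      ring
    rw [Finset.prod_congr rfl (fun k _ => h2 k), Finset.prod_univ_sum, Fintype.piFinset_univ]
  rw [Finset.sum_congr rfl (fun I' _ => by rw [h1 I']), Finset.sum_eq_single I]
  · simp
  · intro M _ hM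
    obtain ⟨k, hk⟩ : ∃ k, M k ≠ I k := by
      by_contra h
      push Not at h
      exact hM (funext h)
    rw [Finset.prod_eq_zero (Finset.mem_univ k), mul_zero]
    exact Matrix.one_apply_ne hk
  · intro h
    exact absurd (Finset.mem_univ _) h

theorem Qe_mem (hD : D * D = 1) (ε : κ → Bool) (c : (κ → B) → ℂ) :
    Qe D ε c ∈ eigF D κ (∑ k, if ε k = true then 1 else -1) := by
  rw [mem_eigF]
  have h2 : act D (Qe D ε c) - ((∑ k, (if ε k = true then (1 : ℤ) else -1) : ℤ) : ℂ) •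
      Qe D ε c = 0 := by
    apply eq_zero_of_evalF
    intro x
    have h3 : ∀ (F G : (κ → B) → ℂ) (r : ℂ), evalF (F - r • G) x = evalF F x - r * evalF G x := by
      intro F G r
      simp only [evalF, Pi.sub_apply, Pi.smul_apply, smul_eq_mul, sub_mul,
        Finset.sum_sub_distrib, Finset.mul_sum, mul_assoc]
    rw [h3, evalF_act, evalF_Qe, sub_eq_zero]
    have h4 : ∀ k, evalF (Qe D ε c) (Function.update x k (D *ᵥ x k)) =
        (if ε k = true then (1 : ℂ) else -1) * evalF c (fun k => qm2 D (ε k) *ᵥ x k) := by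
      intro k
      rw [evalF_Qe]
      have h5 : (fun l => qm2 D (ε l) *ᵥ Function.update x k (D *ᵥ x k) l) =
          Function.update (fun l => qm2 D (ε l) *ᵥ x l) k
            ((if ε k = true then (1 : ℂ) else -1) • (qm2 D (ε k) *ᵥ x k)) := by
        funext l
        by_cases hl : l = k
        · subst hl
          rw [Function.update_self, Function.update_self, mulVec_mulVec, ← smul_mulVec]
          congr 1
          unfold qm2
          rw [smul_mul_assoc, add_mul, one_mul, smul_mul_assoc, hD, smul_comm, smul_add,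
            smul_smul]
          split_ifs
          · simp [add_comm]
          · simp [add_comm]
        · rw [Function.update_of_ne hl, Function.update_of_ne hl]
      rw [h5, evalF_update_smul, Function.update_eq_self]
    rw [Finset.sum_congr rfl (fun k _ => h4 k), ← Finset.sum_mul]
    congr 1
    push_cast
    rfl
  exact sub_eq_zero.1 h2

/-- The space of all forms is a Hodge structure. -/
theorem HL_top (hD : D * D = 1) :
    HL D (Fintype.card κ) (⊤ : Submodule ℚ ((κ → B) → ℚ)) := by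
  have htop : ∀ z : (κ → B) → ℂ, z ∈ cx (⊤ : Submodule ℚ ((κ → B) → ℚ)) := by
    intro z
    rw [eq_sum_cst z]
    exact Submodule.sum_mem _ fun I _ => Submodule.smul_mem _ _ (cst_mem_cx Submodule.mem_top)
  intro c _
  rw [← sum_Qe (D := D) (cst ℂ c)]
  refine Submodule.sum_mem _ fun ε _ => ?_
  refine Submodule.mem_iSup_of_mem (⟨∑ k, if ε k = true then 1 else -1, ?_⟩ :
    {a : ℤ // |a| ≤ Fintype.card κ}) ⟨htop _, Qe_mem hD ε _⟩
  refine (Finset.abs_sum_le_sum_abs _ _).trans ?_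
  have h1 : ∀ k, |(if ε k = true then (1 : ℤ) else -1)| = 1 := by
    intro k
    split_ifs <;> simp
  rw [Finset.sum_congr rfl (fun k _ => h1 k)]
  simp

end top

section hm

variable {B : Type*} [Fintype B] [DecidableEq B] {D : Matrix B B ℂ}
  {κ : Type*} [Fintype κ] [DecidableEq κ] {κ' : Type*} [Fintype κ'] [DecidableEq κ']
  {κ'' : Type*} [Fintype κ''] [DecidableEq κ'']

theorem IsHM.comp {f : ((κ → B) → ℚ) →ₗ[ℚ] ((κ' → B) → ℚ)}
    {g : ((κ' → B) → ℚ) →ₗ[ℚ] ((κ'' → B) → ℚ)} (hg : IsHM D g) (hf : IsHM D f) :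
    IsHM D (g.comp f) := by
  obtain ⟨fC, h1, h2⟩ := hf
  obtain ⟨gC, h3, h4⟩ := hg
  refine ⟨gC.comp fC, fun c => ?_, fun c => ?_⟩
  · rw [LinearMap.comp_apply, LinearMap.comp_apply, h1, h3]
  · rw [LinearMap.comp_apply, LinearMap.comp_apply, h4, h2]

theorem IsHM.add {f g : ((κ → B) → ℚ) →ₗ[ℚ] ((κ' → B) → ℚ)} (hf : IsHM D f)
    (hg : IsHM D g) : IsHM D (f + g) := by
  obtain ⟨fC, h1, h2⟩ := hf
  obtain ⟨gC, h3, h4⟩ := hg
  refine ⟨fC + gC, fun c => ?_, fun c => ?_⟩
  · rw [LinearMap.add_apply, LinearMap.add_apply, h1, h3, cst_add]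
  · rw [LinearMap.add_apply, LinearMap.add_apply, act_add_right, h2, h4]

theorem IsHM.zero : IsHM D (0 : ((κ → B) → ℚ) →ₗ[ℚ] ((κ' → B) → ℚ)) := by
  refine ⟨0, fun c => ?_, fun c => ?_⟩
  · rw [LinearMap.zero_apply, LinearMap.zero_apply, cst_zero]
  · rw [LinearMap.zero_apply, LinearMap.zero_apply, act_zero_right]

theorem IsHM.sum {ι : Type*} (s : Finset ι) {f : ι → ((κ → B) → ℚ) →ₗ[ℚ] ((κ' → B) → ℚ)}
    (hf : ∀ i ∈ s, IsHM D (f i)) : IsHM D (∑ i ∈ s, f i) := by
  classical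
  induction s using Finset.induction_on with
  | empty =>
    rw [Finset.sum_empty]
    exact IsHM.zero
  | insert a s ha ih =>
    rw [Finset.sum_insert ha]
    exact (hf a (Finset.mem_insert_self _ _)).add
      (ih fun i hi => hf i (Finset.mem_insert_of_mem hi))

end hm

section KK

variable {B : Type*} [Fintype B] [DecidableEq B] {D : Matrix B B ℂ}
  {κ : Type*} [Fintype κ] [DecidableEq κ] (h : PolH D)

/-- The sum of the compositions of the contractions and the multiplications. -/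
def PolH.KK (κ : Type*) [Fintype κ] [DecidableEq κ] (S : Finset (Matrix B B ℚ)) :
    ((κ → B) → ℚ) →ₗ[ℚ] ((κ → B) → ℚ) :=
  ∑ p : {p : κ × κ // p.1 ≠ p.2}, ∑ β ∈ S,
    (mulB p.1.1 p.1.2 β).comp (conB p.1.1 p.1.2 (h.Om * β * h.Omᵀ))

theorem PolH.KK_apply (S : Finset (Matrix B B ℚ)) (w : (κ → B) → ℚ) :
    h.KK κ S w = ∑ p : {p : κ × κ // p.1 ≠ p.2}, ∑ β ∈ S,
      mulB p.1.1 p.1.2 β (conB p.1.1 p.1.2 (h.Om * β * h.Omᵀ) w) := by
  unfold PolH.KK
  simp only [LinearMap.sum_apply, LinearMap.comp_apply]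

theorem PolH.map_con (β : Matrix B B ℚ) :
    (h.Om * β * h.Omᵀ).map (fun x : ℚ => (x : ℂ)) =
      h.Om.map (fun x : ℚ => (x : ℂ)) * β.map (fun x : ℚ => (x : ℂ)) *
        (h.Om.map (fun x : ℚ => (x : ℂ)))ᵀ := by
  ext i j
  simp [Matrix.mul_apply]

theorem PolH.pos_KK {S : Finset (Matrix B B ℚ)} (hS : ∀ β ∈ S, IsH D (bilc β))
    {w : (κ → B) → ℚ} (hw : h.KK κ S w = 0) (a b : κ) (hab : a ≠ b) {β : Matrix B B ℚ}
    (hβ : β ∈ S) : conB a b (h.Om * β * h.Omᵀ) w = 0 := by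
  set O := h.Om.map (fun x : ℚ => (x : ℂ)) with hO
  have hcstm : ∀ {a b : κ} (β : Matrix B B ℚ) (c : ({l // l ≠ a ∧ l ≠ b} → B) → ℚ),
      cst ℂ (mulB a b β c) = mulB a b (β.map (fun x : ℚ => (x : ℂ))) (cst ℂ c) := by
    intro a b β c
    funext I
    simp only [mulB_apply, cst, Matrix.map_apply]
    push_cast
    rfl
  have hcstc : ∀ {a b : κ} (β : Matrix B B ℚ) (c : (κ → B) → ℚ),
      cst ℂ (conB a b β c) = conB a b (β.map (fun x : ℚ => (x : ℂ))) (cst ℂ c) := by
    intro a b β c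
    funext I
    simp only [conB_apply, cst, Matrix.map_apply]
    push_cast
    rfl
  have h1 : EB κ O (wl (Complex.I • D) (cst ℂ w)) (cst ℂ (h.KK κ S w)) =
      ((∑ p : {p : κ × κ // p.1 ≠ p.2}, ∑ β ∈ S,
        qf h.u (conB p.1.1 p.1.2 (h.Om * β * h.Omᵀ) w) : ℝ) : ℂ) := by
    have e1 : cst ℂ (h.KK κ S w) = ∑ p : {p : κ × κ // p.1 ≠ p.2}, ∑ β ∈ S,
        cst ℂ (mulB p.1.1 p.1.2 β (conB p.1.1 p.1.2 (h.Om * β * h.Omᵀ) w)) := by
      rw [h.KK_apply]
      funext I
      simp only [cst, Finset.sum_apply]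
      push_cast
      rfl
    rw [e1, map_sum]
    push_cast
    refine Finset.sum_congr rfl fun p _ => ?_
    rw [map_sum]
    refine Finset.sum_congr rfl fun β hβ => ?_
    have hc : Complex.I • D * (h.Om * β * h.Omᵀ).map (fun x : ℚ => (x : ℂ)) *
        (Complex.I • D)ᵀ = (h.Om * β * h.Omᵀ).map (fun x : ℚ => (x : ℂ)) := by
      have e2 := h.con_inv (hS β hβ)
      set M := (h.Om * β * h.Omᵀ).map (fun x : ℚ => (x : ℂ))
      have e3 : M * Dᵀ = -(D * M) := eq_neg_of_add_eq_zero_right e2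
      rw [transpose_smul, Matrix.smul_mul, Matrix.smul_mul, Matrix.mul_smul, smul_smul,
        Complex.I_mul_I, mul_assoc, e3, mul_neg, ← mul_assoc, h.dd, one_mul]
      simp
    rw [hcstm, EB_mulB p.2, ← h.map_con, wl_conB p.2 hc, ← hcstc]
    exact h.EB_self' _
  rw [hw, cst_zero, map_zero] at h1
  have h2 : ∑ p : {p : κ × κ // p.1 ≠ p.2}, ∑ β ∈ S,
        qf h.u (conB p.1.1 p.1.2 (h.Om * β * h.Omᵀ) w) = 0 := by exact_mod_cast h1.symm
  rw [Finset.sum_eq_zero_iff_of_nonneg (fun p _ => Finset.sum_nonneg fun β _ =>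
    qf_nonneg _ _)] at h2
  have h3 := h2 ⟨(a, b), hab⟩ (Finset.mem_univ _)
  rw [Finset.sum_eq_zero_iff_of_nonneg (fun β _ => qf_nonneg _ _)] at h3
  exact h.qf_eq_zero (h3 β hβ)

theorem PolH.isHM_KK {S : Finset (Matrix B B ℚ)} (hS : ∀ β ∈ S, IsH D (bilc β)) :
    IsHM D (h.KK κ S) :=
  IsHM.sum _ fun p _ => IsHM.sum _ fun β hβ =>
    (isHM_mulB p.2 (hS β hβ)).comp (h.isHM_conB p.2 (hS β hβ))

/-- The rational invariant bilinear forms. -/
def InvB (D : Matrix B B ℂ) : Submodule ℚ (Matrix B B ℚ) where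
  carrier := {β | IsH D (bilc β)}
  zero_mem' := by
    change act D (cst ℂ (bilc (0 : Matrix B B ℚ))) = 0
    have h1 : cst ℂ (bilc (0 : Matrix B B ℚ)) = 0 := by
      funext I
      simp [cst, bilc]
    rw [h1, act_zero_right]
  add_mem' := by
    intro β β' hβ hβ'
    change act D (cst ℂ (bilc (β + β'))) = 0
    have h1 : cst ℂ (bilc (β + β')) = cst ℂ (bilc β) + cst ℂ (bilc β') := by
      funext I
      simp [cst, bilc]
    rw [h1, act_add_right, show act D (cst ℂ (bilc β)) = 0 from hβ,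
      show act D (cst ℂ (bilc β')) = 0 from hβ', add_zero]
  smul_mem' := by
    intro r β hβ
    change act D (cst ℂ (bilc (r • β))) = 0
    have h1 : cst ℂ (bilc (r • β)) = (r : ℂ) • cst ℂ (bilc β) := by
      funext I
      simp [cst, bilc]
    rw [h1, act_smul_right, show act D (cst ℂ (bilc β)) = 0 from hβ, smul_zero]

theorem exists_gens (D : Matrix B B ℂ) : ∃ S : Finset (Matrix B B ℚ),
    (∀ β ∈ S, IsH D (bilc β)) ∧ ∀ β, IsH D (bilc β) → β ∈ Submodule.span ℚ (S : Set _) := by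
  obtain ⟨S, hS⟩ := (IsNoetherian.noetherian (InvB D) : (InvB D).FG)
  refine ⟨S, fun β hβ => ?_, fun β hβ => ?_⟩
  · have h1 : β ∈ InvB D := by
      rw [← hS]
      exact Submodule.subset_span hβ
    exact h1
  · rw [hS]
    exact hβ

end KK

end

end Pool.Agent.TH131.GHC
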