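import Mathlib
import Pool.Agent.TH131.GHC.Rel4

/-!
# Hodge substructures of the tensors with values in a Hodge structure: the induction
-/

set_option linter.unusedSectionVars false

namespace Pool.Agent.TH131.GHC

open Matrix Equiv Pool.Agent.H204R3.SP Pool.Agent.W437.HC Pool.Agent.W437.HD Pool.Agent.W437.HP

noncomputable section

section idq

variable {B : Type*} [Fintype B] [DecidableEq B] {D : Matrix B B ℂ}
  {κ : Type*} [Fintype κ] [DecidableEq κ] (h : PolH D)

theorem card_two {κ : Type*} [Fintype κ] [DecidableEq κ] {a b : κ} (hab : a ≠ b) :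
    Fintype.card {l // l ≠ a ∧ l ≠ b} + 2 = Fintype.card κ := by
  have h3 : Fintype.card {l // l ≠ a ∧ l ≠ b} = ((Finset.univ.erase a).erase b).card := by
    rw [Fintype.card_subtype]
    congr 1
    ext l
    simp [and_comm]
  have h4 : 0 < Fintype.card κ := Fintype.card_pos_iff.2 ⟨a⟩
  have h5 : 1 < Fintype.card κ := Fintype.one_lt_card_iff.2 ⟨a, b, hab⟩
  rw [h3, Finset.card_erase_of_mem (by simp [hab.symm]), Finset.card_erase_of_mem
    (Finset.mem_univ _), Finset.card_univ]
  omega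

theorem HL_IdQ (hD : D * D = 1) : HL D (Fintype.card κ) (IdQ D κ) := by
  have h1 : IdQ D κ = sSup {W | ∃ (a b : κ) (β : Matrix B B ℚ), a ≠ b ∧
      IsH D (bilc β) ∧ W = (⊤ : Submodule ℚ (({l // l ≠ a ∧ l ≠ b} → B) → ℚ)).map
        (mulB a b β)} := by
    apply le_antisymm
    · refine Submodule.span_le.2 ?_
      rintro _ ⟨a, b, β, c, hab, hβ, rfl⟩
      have h2 : (⊤ : Submodule ℚ (({l // l ≠ a ∧ l ≠ b} → B) → ℚ)).map (mulB a b β) ≤
          sSup {W | ∃ (a b : κ) (β : Matrix B B ℚ), a ≠ b ∧ IsH D (bilc β) ∧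
            W = (⊤ : Submodule ℚ (({l // l ≠ a ∧ l ≠ b} → B) → ℚ)).map (mulB a b β)} :=
        le_sSup ⟨a, b, β, hab, hβ, rfl⟩
      exact h2 (Submodule.mem_map_of_mem Submodule.mem_top)
    · refine sSup_le ?_
      rintro _ ⟨a, b, β, hab, hβ, rfl⟩
      rintro _ ⟨c, _, rfl⟩
      exact Submodule.subset_span ⟨a, b, β, c, hab, hβ, rfl⟩
  rw [h1]
  refine HL_sSup ?_
  rintro _ ⟨a, b, β, hab, hβ, rfl⟩
  refine HL_map (isHM_mulB hab hβ) (HL_mono ?_ (HL_top hD))
  have := card_two hab
  omega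

theorem PolH.EB_IdQ {w : (κ → B) → ℚ}
    (hw : ∀ (a b : κ) (β : Matrix B B ℚ), a ≠ b → IsH D (bilc β) →
      conB a b (h.Om * β * h.Omᵀ) w = 0) : ∀ x ∈ IdQ D κ, EB κ h.Om w x = 0 := by
  intro x hx
  unfold IdQ at hx
  induction hx using Submodule.span_induction with
  | zero => rw [map_zero]
  | add x y _ _ hx hy => rw [map_add, hx, hy, add_zero]
  | smul r x _ hx => rw [map_smul, hx, smul_zero]
  | mem F hF =>
    obtain ⟨a, b, β, c, hab, hβ, rfl⟩ := hF
    rw [EB_mulB hab, hw a b β hab hβ, map_zero, LinearMap.zero_apply]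

theorem conB_addM (a b : κ) (M M' : Matrix B B ℚ) (w : (κ → B) → ℚ) :
    conB a b (M + M') w = conB a b M w + conB a b M' w := by
  funext I
  rw [Pi.add_apply, conB_apply, conB_apply, conB_apply, ← Finset.sum_add_distrib]
  refine Finset.sum_congr rfl fun u _ => ?_
  rw [← Finset.sum_add_distrib]
  refine Finset.sum_congr rfl fun x _ => ?_
  rw [Matrix.add_apply, add_mul]

theorem conB_smulM (a b : κ) (M : Matrix B B ℚ) (r : ℚ) (w : (κ → B) → ℚ) :
    conB a b (r • M) w = r • conB a b M w := by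
  funext I
  rw [Pi.smul_apply, conB_apply, conB_apply, smul_eq_mul, Finset.mul_sum]
  refine Finset.sum_congr rfl fun u _ => ?_
  rw [Finset.mul_sum]
  refine Finset.sum_congr rfl fun x _ => ?_
  rw [Matrix.smul_apply, smul_eq_mul, mul_assoc]

/-- The contractions with all invariant forms vanish if those with generators do. -/
theorem con_of_gens {S : Finset (Matrix B B ℚ)}
    (hS : ∀ β, IsH D (bilc β) → β ∈ Submodule.span ℚ (S : Set (Matrix B B ℚ))) {O : Matrix B B ℚ}
    {w : (κ → B) → ℚ} {a b : κ} (hw : ∀ β ∈ S, conB a b (O * β * Oᵀ) w = 0)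
    {β : Matrix B B ℚ} (hβ : IsH D (bilc β)) : conB a b (O * β * Oᵀ) w = 0 := by
  let Λ : Matrix B B ℚ →ₗ[ℚ] (({l // l ≠ a ∧ l ≠ b} → B) → ℚ) :=
    { toFun := fun β => conB a b (O * β * Oᵀ) w
      map_add' := fun x y => by
        rw [mul_add, add_mul, conB_addM]
      map_smul' := fun r x => by
        rw [mul_smul_comm, smul_mul_assoc, conB_smulM]
        rfl }
  have h1 : Submodule.span ℚ (S : Set (Matrix B B ℚ)) ≤ LinearMap.ker Λ :=
    Submodule.span_le.2 fun β hβ => hw β hβ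
  exact h1 (hS β hβ)

end idq

section main

variable {B : Type*} [Fintype B] [DecidableEq B] {C : Type*} [Fintype C] [DecidableEq C]
  {D : Matrix B B ℂ} {D' : Matrix C C ℂ} {D0 : Submodule ℚ (C → ℚ)} {L : ℤ}

/-- The span of the products of `r` invariant bilinear forms with an arbitrary form and with a
value in a Hodge substructure of level at most `L - (card κ - 2 r)`. -/
def TT (D : Matrix B B ℂ) (D' : Matrix C C ℂ) (D0 : Submodule ℚ (C → ℚ)) (L : ℤ) (κ : Type)
    [Fintype κ] [DecidableEq κ] : Submodule ℚ ((κ → B) × C → ℚ) :=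
  Submodule.span ℚ {t | ∃ (r : ℕ) (f : (κ → B) → ℚ) (x : C → ℚ), f ∈ IJ D r κ ∧
    x ∈ FL D' D0 (L - Fintype.card κ + 2 * r) ∧ t = fun p => f p.1 * x p.2}

theorem TT_mulB {κ : Type} [Fintype κ] [DecidableEq κ] {a b : κ} (hab : a ≠ b)
    {β : Matrix B B ℚ} (hβ : IsH D (bilc β)) {t : ({l // l ≠ a ∧ l ≠ b} → B) × C → ℚ}
    (ht : t ∈ TT D D' D0 L {l // l ≠ a ∧ l ≠ b}) : fW C (mulB a b β) t ∈ TT D D' D0 L κ := by
  have h1 := Submodule.mem_map_of_mem (f := fW C (mulB a b β)) ht
  unfold TT at h1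
  rw [Submodule.map_span] at h1
  refine (Submodule.span_le.2 ?_) h1
  rintro _ ⟨_, ⟨r, f, x, hf, hx, rfl⟩, rfl⟩
  refine Submodule.subset_span ⟨r + 1, mulB a b β f, x, ?_, ?_, ?_⟩
  · exact Submodule.subset_span ⟨a, b, β, f, hab, hβ, hf, rfl⟩
  · have h2 := card_two hab
    have h3 : L - (Fintype.card {l // l ≠ a ∧ l ≠ b} : ℕ) + 2 * (r : ℤ) =
        L - (Fintype.card κ : ℕ) + 2 * ((r + 1 : ℕ) : ℤ) := by
      push_cast
      omega
    rw [← h3]
    exact hx
  · funext p
    change mulB a b β (fun I => f I * x p.2) p.1 = _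
    rw [mulB_apply, mulB_apply, mul_assoc]

/-- **The Hodge substructures of the tensors with values in a Hodge structure.** -/
theorem le_TT (h : PolH D) (hcore : CoreP D)
    (hMS : ∀ (m : ℕ) (c : (Fin m × Fin 2 → B) → ℚ), IsH D c → c ∈ MS D m)
    (hdec : ∀ x : C → ℂ, x ∈ Submodule.span ℂ {y | ∃ k : ℤ, D' *ᵥ y = (k : ℂ) • y})
    (hreal : D'.map (starRingEnd ℂ) = -D') (n : ℕ) :
    ∀ (κ : Type) [Fintype κ] [DecidableEq κ], Fintype.card κ = n →
      ∀ V : Submodule ℚ ((κ → B) × C → ℚ), HLC D D' D0 L V → V ≤ TT D D' D0 L κ := by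
  induction n using Nat.strong_induction_on with
  | _ n ih =>
    intro κ _ _ hn V hV
    obtain ⟨S, hS1, hS2⟩ := exists_gens D
    set M : Submodule ℚ ((κ → B) × C → ℚ) := sSup {V | HLC D D' D0 L V} with hM
    have hMH : HLC D D' D0 L M := HLC_sSup fun _ hV => hV
    have hle : ∀ V' : Submodule ℚ ((κ → B) × C → ℚ), HLC D D' D0 L V' → V' ≤ M :=
      fun V' hV' => le_sSup hV'
    have hId := HL_IdQ (D := D) (κ := κ) h.dd
    obtain ⟨P, hP1, hP2, hP3, hP4⟩ := h.exists_proj hId
    -- the harmonic part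
    set M0 := M.map (fW C (LinearMap.id - P)) with hM0
    have hM0H : HLC D D' D0 L M0 := HLC_map (isHM_sub hP4) hMH
    have hM0T : M0 ≤ TT D D' D0 L κ := by
      have h1 := harm_values h hcore hMS hdec hreal hM0H ?_
      · intro t ht
        have h2 : t = ∑ I, (fun p : (κ → B) × C => (Pi.single I 1 : (κ → B) → ℚ) p.1 *
            (fun c => t (I, c)) p.2) := by
          funext p
          rw [Finset.sum_apply, Finset.sum_eq_single p.1]
          · rw [Pi.single_eq_same, one_mul]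
          · intro I _ hI
            rw [Pi.single_eq_of_ne (Ne.symm hI), zero_mul]
          · intro h
            exact absurd (Finset.mem_univ _) h
        rw [h2]
        refine Submodule.sum_mem _ fun I _ => Submodule.subset_span
          ⟨0, Pi.single I 1, fun c => t (I, c), Submodule.mem_top, ?_, rfl⟩
        have h3 := h1 t ht I
        rwa [Nat.cast_zero, mul_zero, add_zero]
      · rintro _ ⟨t, ht, rfl⟩ c x hx
        rw [sl_fW, LinearMap.sub_apply, LinearMap.id_apply, map_sub, LinearMap.sub_apply,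
          hP3 _ x hx, sub_self]
    -- the part in the ideal
    set MI := M.map (fW C P) with hMI
    have hMIH : HLC D D' D0 L MI := HLC_map hP4 hMH
    have hMIsl : ∀ t ∈ MI, ∀ c, sl c t ∈ IdQ D κ := by
      rintro _ ⟨t, _, rfl⟩ c
      rw [sl_fW]
      exact hP2 _
    have hstab : ∀ t ∈ MI, fW C (h.KK κ S) t ∈ MI := by
      intro t ht
      have h1 : HLC D D' D0 L (MI.map (fW C (h.KK κ S))) := HLC_map (h.isHM_KK hS1) hMIH
      have h2 := hle _ h1 (Submodule.mem_map_of_mem ht)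
      refine ⟨_, h2, ?_⟩
      refine ext_sl fun c => ?_
      rw [sl_fW]
      apply hP1
      rw [sl_fW, h.KK_apply]
      exact Submodule.sum_mem _ fun p _ => Submodule.sum_mem _ fun β hβ =>
        Submodule.subset_span ⟨p.1.1, p.1.2, β, _, p.2, hS1 β hβ, rfl⟩
    let Kr : MI →ₗ[ℚ] MI := (fW C (h.KK κ S)).restrict hstab
    have hinj : Function.Injective Kr := by
      rw [← LinearMap.ker_eq_bot, LinearMap.ker_eq_bot']
      intro t ht
      have h1 : fW C (h.KK κ S) t.1 = 0 := congrArg Subtype.val ht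
      apply Subtype.ext
      refine ext_sl fun c => ?_
      have h2 : h.KK κ S (sl c t.1) = 0 := by
        rw [← sl_fW, h1, map_zero]
      have h3 : ∀ x ∈ IdQ D κ, EB κ h.Om (sl c t.1) x = 0 :=
        h.EB_IdQ fun a b β hab hβ =>
          con_of_gens hS2 (fun β hβ => h.pos_KK hS1 h2 a b hab hβ) hβ
      exact h.nondeg hId (hMIsl t.1 t.2 c) h3
    have hsurj : Function.Surjective Kr := LinearMap.injective_iff_surjective.1 hinj
    have hMIT : MI ≤ TT D D' D0 L κ := by
      intro t ht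
      obtain ⟨s, hs⟩ := hsurj ⟨t, ht⟩
      have h1 : t = fW C (h.KK κ S) s.1 := (congrArg Subtype.val hs).symm
      have h2 : fW C (h.KK κ S) s.1 = ∑ p : {p : κ × κ // p.1 ≠ p.2}, ∑ β ∈ S,
          fW C (mulB p.1.1 p.1.2 β) (fW C (conB p.1.1 p.1.2 (h.Om * β * h.Omᵀ)) s.1) := by
        refine ext_sl fun c => ?_
        rw [sl_fW, h.KK_apply, map_sum]
        refine Finset.sum_congr rfl fun p _ => ?_
        rw [map_sum]
        exact Finset.sum_congr rfl fun β _ => rfl
      rw [h1, h2]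
      refine Submodule.sum_mem _ fun p _ => Submodule.sum_mem _ fun β hβ => ?_
      refine TT_mulB p.2 (hS1 β hβ) ?_
      have h3 := card_two p.2
      refine ih (Fintype.card {l // l ≠ p.1.1 ∧ l ≠ p.1.2}) (by omega) _ rfl
        (MI.map (fW C (conB p.1.1 p.1.2 (h.Om * β * h.Omᵀ))))
        (HLC_map (h.isHM_conB p.2 (hS1 β hβ)) hMIH) (Submodule.mem_map_of_mem s.2)
    -- the sum
    intro t ht
    have h1 := hle V hV ht
    have h2 : t = fW C (LinearMap.id - P) t + fW C P t := by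
      refine ext_sl fun c => ?_
      rw [map_add, sl_fW, sl_fW, LinearMap.sub_apply, LinearMap.id_apply, sub_add_cancel]
    rw [h2]
    exact Submodule.add_mem _ (hM0T (Submodule.mem_map_of_mem h1))
      (hMIT (Submodule.mem_map_of_mem h1))

end main

end

end Pool.Agent.TH131.GHC
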