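import Mathlib
import Pool.Agent.TH131.GHC.Rel5
import Pool.Agent.TH131.GHC.RDefs
import Pool.Agent.TH131.GHC.Conv2

/-!
# The generalized Hodge conjecture for the product of a complex torus and a variety
-/

set_option linter.unusedSectionVars false

namespace Pool.Agent.TH131.GHC

open Matrix Equiv Pool.Agent.H204R3.CM Pool.Agent.H204R3.SP Pool.Agent.H204R3.GH
  Pool.Agent.W437.HC Pool.Agent.W437.HD Pool.Agent.W437.HP Pool.Agent.W546.GHC

noncomputable section

section indep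

variable {B : Type*} [Fintype B] [DecidableEq B] {C : Type*} [Fintype C] [DecidableEq C]
  {κ : Type*} [Fintype κ] [DecidableEq κ] {D : Matrix B B ℂ} {D' : Matrix C C ℂ}
  {D0 : Submodule ℚ (C → ℚ)} {L : ℤ}

/-- The rational subspace `S` is stable under the complex operator `f`. -/
def Stable {X : Type*} (S : Submodule ℚ (X → ℚ)) (f : (X → ℂ) →ₗ[ℂ] (X → ℂ)) : Prop :=
  ∀ z ∈ cxX S, f z ∈ cxX S

/-- The Hodge structures are independent: every rational subspace of the tensors on the first with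
values in the second which is stable under the sum of the Hodge operators is stable under the first
one. -/
def Indep {B : Type*} [Fintype B] [DecidableEq B] {C : Type*} [Fintype C] [DecidableEq C]
    (D : Matrix B B ℂ) (D' : Matrix C C ℂ) : Prop :=
  ∀ (k : ℕ) (S : Submodule ℚ ((Fin k → B) × C → ℚ)),
    Stable S (opD (Fin k) C D + opW (Fin k) B D') → Stable S (opD (Fin k) C D)

/-- The values of an eigenform on eigenvectors. -/
theorem evalF_eigC {μ : ℂ} {c : (κ → B) → ℂ} (hc : act D c = μ • c) (x : κ → B → ℂ)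
    (ε : κ → ℤ) (hx : ∀ k, D *ᵥ x k = (ε k : ℂ) • x k) (h0 : evalF c x ≠ 0) :
    μ = ((∑ k, ε k : ℤ) : ℂ) := by
  have h1 : evalF (act D c) x = μ * evalF c x := by
    rw [hc]
    simp only [evalF, Pi.smul_apply, smul_eq_mul, Finset.mul_sum, mul_assoc]
  rw [evalF_act] at h1
  have h2 : ∀ k, evalF c (Function.update x k (D *ᵥ x k)) = (ε k : ℂ) * evalF c x := by
    intro k
    rw [hx, evalF_update_smul, Function.update_eq_self]
  rw [Finset.sum_congr rfl (fun k _ => h2 k), ← Finset.sum_mul] at h1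
  have h3 := mul_right_cancel₀ h0 h1
  rw [← h3]
  push_cast
  rfl

/-- The eigenvalues of the Hodge operator are integers. -/
theorem eig_int (hD : D * D = 1) {μ : ℂ} {z : (κ → B) × C → ℂ} (hz : opD κ C D z = μ • z)
    (h0 : z ≠ 0) : ∃ a : ℤ, μ = a := by
  obtain ⟨c, hc⟩ : ∃ c, sl c z ≠ 0 := by
    by_contra hcon
    push Not at hcon
    exact h0 (ext_sl fun c => by rw [hcon c, map_zero])
  by_contra hcon
  push Not at hcon
  apply hc
  refine eq_of_eig hD fun x ε _ hx => ?_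
  rw [evalF_zero]
  by_contra h1
  refine hcon _ (evalF_eigC (c := sl c z) ?_ x ε hx h1)
  rw [← sl_opD, hz, map_smul]

/-- The Hodge operator is diagonalizable. -/
theorem iSup_eig (hD : D * D = 1) :
    ⨆ μ : ℂ, Module.End.eigenspace (opD κ C D : Module.End ℂ ((κ → B) × C → ℂ)) μ = ⊤ := by
  rw [eq_top_iff]
  intro z _
  have h1 : z = ∑ ε : κ → Bool, fun p => Qe D ε (sl p.2 z) p.1 := by
    funext p
    rw [Finset.sum_apply]
    have h2 := congrFun (sum_Qe (D := D) (sl p.2 z)) p.1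
    rw [Finset.sum_apply] at h2
    exact h2.symm
  rw [h1]
  refine Submodule.sum_mem _ fun ε _ => ?_
  refine Submodule.mem_iSup_of_mem (((∑ k, if ε k = true then (1 : ℤ) else -1 : ℤ)) : ℂ) ?_
  rw [Module.End.mem_eigenspace_iff]
  refine ext_sl fun c => ?_
  rw [sl_opD, map_smul]
  exact mem_eigF.1 (Qe_mem hD ε (sl c z))

theorem op_comm (z : (κ → B) × C → ℂ) :
    opD κ C D (opW κ B D' z) = opW κ B D' (opD κ C D z) := fW_opW _ _ _

/-- Stability under the sum of the Hodge operators and under one of them. -/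
theorem HLC_of_total (hD : D * D = 1) {V : Submodule ℚ ((κ → B) × C → ℚ)}
    (hV0 : ∀ t ∈ V, ∀ I, (fun c => t (I, c)) ∈ D0)
    (hV : ∀ t ∈ V, cstX t ∈ Submodule.span ℂ {z | z ∈ cxX V ∧ ∃ n : ℤ, |n| ≤ L ∧
      opD κ C D z + opW κ B D' z = (n : ℂ) • z})
    (hst : ∀ z ∈ cxX V, opD κ C D z ∈ cxX V) : HLC D D' D0 L V := by
  refine ⟨hV0, fun t ht => ?_⟩
  refine (Submodule.span_le.2 ?_) (hV t ht)
  rintro z ⟨hz, n, hn, hzn⟩
  let p : Submodule ℂ ((κ → B) × C → ℂ) := cxX V ⊓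
    LinearMap.ker (opD κ C D + opW κ B D' - (n : ℂ) • LinearMap.id)
  have hmem : ∀ y, y ∈ p ↔ y ∈ cxX V ∧ opD κ C D y + opW κ B D' y = (n : ℂ) • y := by
    intro y
    rw [Submodule.mem_inf, LinearMap.mem_ker, LinearMap.sub_apply, LinearMap.add_apply,
      LinearMap.smul_apply, LinearMap.id_apply, sub_eq_zero]
  have hp : ∀ y ∈ p, (opD κ C D : Module.End ℂ ((κ → B) × C → ℂ)) y ∈ p := by
    intro y hy
    rw [hmem] at hy ⊢
    refine ⟨hst y hy.1, ?_⟩
    rw [← op_comm, ← map_add, hy.2, map_smul]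
  have h1 := Submodule.eq_iSup_inf_genEigenspace (k := 1) hp (by
    have h2 := iSup_eig (κ := κ) (C := C) hD
    exact h2)
  have h2 : z ∈ p := (hmem z).2 ⟨hz, hzn⟩
  rw [h1] at h2
  refine (iSup_le fun μ => ?_ : (⨆ μ : ℂ, p ⊓ Module.End.genEigenspace (opD κ C D :
    Module.End ℂ ((κ → B) × C → ℂ)) μ 1) ≤ _) h2
  rintro y ⟨hy1', hy2⟩
  have hy1 := (hmem y).1 hy1'
  by_cases hy0 : y = 0
  · rw [hy0]
    exact Submodule.zero_mem _
  have hy3 : opD κ C D y = μ • y := Module.End.mem_eigenspace_iff.1 hy2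
  obtain ⟨a, rfl⟩ := eig_int hD hy3 hy0
  refine Submodule.mem_iSup_of_mem (⟨(a, n - a), ?_⟩ : {p : ℤ × ℤ // |p.1 + p.2| ≤ L})
    ⟨hy1.1, hy3, ?_⟩
  · simpa using hn
  · have h3 := hy1.2
    rw [hy3] at h3
    have h4 : opW κ B D' y = (n : ℂ) • y - (a : ℂ) • y := by
      rw [← h3, add_sub_cancel_left]
    rw [h4, ← sub_smul]
    push_cast
    rfl

end indep

end

end Pool.Agent.TH131.GHC
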