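import Mathlib
import Pool.Agent.TH131.GHC.Rel6
import Pool.Agent.W548.Odd.LA
import Pool.Agent.W437.HD.Rat

/-!
# Ideals of the Hodge Lie algebra
-/

set_option linter.unusedSectionVars false

namespace Pool.Agent.TH131.GHC

open Matrix Equiv Pool.Agent.H204R3.SP Pool.Agent.W437.HC Pool.Agent.W437.HD
  Pool.Agent.W437.HP Pool.Agent.W548.Odd

noncomputable section

section stable

variable {B : Type*} [Fintype B] [DecidableEq B] {C : Type*} [Fintype C] [DecidableEq C]
  {κ : Type*} [Fintype κ] [DecidableEq κ] {D : Matrix B B ℂ}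

theorem eig_bound (hD : D * D = 1) {μ : ℂ} {z : (κ → B) × C → ℂ} (hz : opD κ C D z = μ • z)
    (h0 : z ≠ 0) : ∃ a : ℤ, |a| ≤ Fintype.card κ ∧ μ = a := by
  obtain ⟨c, hc⟩ : ∃ c, sl c z ≠ 0 := by
    by_contra hcon
    push Not at hcon
    exact h0 (ext_sl fun c => by rw [hcon c, map_zero])
  by_contra hcon
  push Not at hcon
  apply hc
  refine eq_of_eig hD fun x ε hε hx => ?_
  rw [evalF_zero]
  by_contra h1
  refine hcon (∑ k, ε k) ?_ (evalF_eigC (c := sl c z) ?_ x ε hx h1)
  · refine (Finset.abs_sum_le_sum_abs _ _).trans ?_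
    have h2 : ∀ k, |ε k| = 1 := by
      intro k
      rcases hε k with h | h <;> rw [h] <;> rfl
    rw [Finset.sum_congr rfl (fun k _ => h2 k)]
    simp
  · rw [← sl_opD, hz, map_smul]

/-- A rational subspace stable under the Hodge operator is a Hodge substructure. -/
theorem HLC_of_stable (hD : D * D = 1) {V : Submodule ℚ ((κ → B) × C → ℚ)}
    (hst : ∀ z ∈ cxX V, opD κ C D z ∈ cxX V) :
    HLC D (0 : Matrix C C ℂ) ⊤ (Fintype.card κ) V := by
  refine ⟨fun t _ I => Submodule.mem_top, fun t ht => ?_⟩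
  have h1 := Submodule.eq_iSup_inf_genEigenspace (p := cxX V) (f := (opD κ C D :
    Module.End ℂ ((κ → B) × C → ℂ))) (k := 1) hst (by
    have h2 := iSup_eig (κ := κ) (C := C) hD
    exact h2)
  have h2 := cstX_mem ht
  rw [h1] at h2
  refine (iSup_le fun μ => ?_ : (⨆ μ : ℂ, cxX V ⊓ Module.End.genEigenspace (opD κ C D :
    Module.End ℂ ((κ → B) × C → ℂ)) μ 1) ≤ _) h2
  rintro y ⟨hy1, hy2⟩
  by_cases hy0 : y = 0
  · rw [hy0]
    exact Submodule.zero_mem _
  have hy3 : opD κ C D y = μ • y := Module.End.mem_eigenspace_iff.1 hy2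
  obtain ⟨a, ha, rfl⟩ := eig_bound hD hy3 hy0
  refine Submodule.mem_iSup_of_mem (⟨(a, 0), ?_⟩ : {p : ℤ × ℤ // |p.1 + p.2| ≤ Fintype.card κ})
    ⟨hy1, hy3, ?_⟩
  · simpa using ha
  · have h3 : opW κ B (0 : Matrix C C ℂ) y = 0 := by
      funext p
      rw [opW_apply]
      simp
    rw [h3]
    simp

theorem PolH.lie_sp (h : PolH D) {X : Matrix B B ℂ} (hX : X ∈ lieM D ℂ) :
    Xᵀ * h.Om.map (fun x : ℚ => (x : ℂ)) + h.Om.map (fun x : ℚ => (x : ℂ)) * X = 0 := by
  refine lieM_bil D ?_ hX
  change act D (cst ℂ (bilc h.Om)) = 0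
  have h1 : cst ℂ (bilc h.Om) = bilc (h.Om.map (fun x : ℚ => (x : ℂ))) := rfl
  funext I
  rw [h1, act_bilc, h.sp]
  rfl

/-- The kernel of the identity is invariant under symplectic operators. -/
theorem Wf_inv' {O : Matrix B B ℚ} {X : Matrix B B ℂ}
    (hX : Xᵀ * O.map (fun x : ℚ => (x : ℂ)) + O.map (fun x : ℚ => (x : ℂ)) * X = 0)
    (I' : κ → B) :
    act X (cst ℂ (Wf O I')) + ∑ k, ∑ j, X j (I' k) •
      cst ℂ (Wf O (Function.update I' k j)) = 0 := by
  funext J
  rw [Pi.add_apply, Finset.sum_apply, Pi.zero_apply]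
  simp only [act]
  rw [← Finset.sum_add_distrib]
  refine Finset.sum_eq_zero fun k _ => ?_
  set OC := O.map (fun x : ℚ => (x : ℂ)) with hO
  have hW : ∀ J I' : κ → B, cst ℂ (Wf O I') J = ∏ k, OC (J k) (I' k) := by
    intro J I'
    simp only [cst, Wf, hO, Matrix.map_apply]
    push_cast
    rfl
  have h1 : ∑ j, X j (J k) * cst ℂ (Wf O I') (Function.update J k j) =
      (Xᵀ * OC) (J k) (I' k) * ∏ l ∈ Finset.univ.erase k, OC (J l) (I' l) := by
    rw [Matrix.mul_apply, Finset.sum_mul]
    refine Finset.sum_congr rfl fun j _ => ?_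
    rw [hW, ← Finset.mul_prod_erase _ _ (Finset.mem_univ k), Function.update_self,
      transpose_apply, mul_assoc]
    congr 2
    refine Finset.prod_congr rfl fun l hl => ?_
    rw [Function.update_of_ne (Finset.ne_of_mem_erase hl)]
  have h2 : (∑ j, X j (I' k) • cst ℂ (Wf O (Function.update I' k j))) J =
      (OC * X) (J k) (I' k) * ∏ l ∈ Finset.univ.erase k, OC (J l) (I' l) := by
    rw [Matrix.mul_apply, Finset.sum_mul, Finset.sum_apply]
    refine Finset.sum_congr rfl fun j _ => ?_
    rw [Pi.smul_apply, hW, ← Finset.mul_prod_erase _ _ (Finset.mem_univ k),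
      Function.update_self, smul_eq_mul]
    have h3 : ∏ l ∈ Finset.univ.erase k, OC (J l) (Function.update I' k j l) =
        ∏ l ∈ Finset.univ.erase k, OC (J l) (I' l) := by
      refine Finset.prod_congr rfl fun l hl => ?_
      rw [Function.update_of_ne (Finset.ne_of_mem_erase hl)]
    rw [h3]
    ring
  rw [h1, h2, ← add_mul]
  have h3 := congrFun (congrFun hX (J k)) (I' k)
  rw [Matrix.add_apply, Matrix.zero_apply] at h3
  rw [h3, zero_mul]

/-- Morphisms of Hodge structures commute with the Hodge Lie algebra. -/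
theorem PolH.com_HM (h : PolH D) {P : ((κ → B) → ℚ) →ₗ[ℚ] ((κ → B) → ℚ)} (hP : IsHM D P)
    {X : Matrix B B ℂ} (hX : X ∈ lieM D ℂ) (c : (κ → B) → ℂ) :
    act X (exC P c) = exC P (act X c) := by
  have key : ∀ I' : κ → B, act X (exC P (cst ℂ (Wf h.Om I'))) =
      exC P (act X (cst ℂ (Wf h.Om I'))) := by
    intro I'
    have h0 := lieM_kills D hX (isH_kerF h hP)
    funext I
    have h00 := congrFun h0 (Sum.elim I I')
    simp only [act] at h00
    rw [Fintype.sum_sum_type, Pi.zero_apply] at h00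
    have h1 : ∑ k, ∑ j, X j (Sum.elim I I' (Sum.inl k)) *
        cst ℂ (kerF h.Om P) (Function.update (Sum.elim I I') (Sum.inl k) j) =
        act X (exC P (cst ℂ (Wf h.Om I'))) I := by
      rw [exC_cst]
      simp only [act]
      refine Finset.sum_congr rfl fun k _ => Finset.sum_congr rfl fun j _ => ?_
      have e1 : (fun l => Function.update (Sum.elim I I') (Sum.inl k) j (Sum.inr l)) = I' := by
        funext l
        rw [Function.update_of_ne (by simp)]
        rfl
      have e2 : (fun l => Function.update (Sum.elim I I') (Sum.inl k) j (Sum.inl l)) =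
          Function.update I k j := by
        funext l
        by_cases hl : l = k
        · subst hl
          rw [Function.update_self, Function.update_self]
        · rw [Function.update_of_ne hl, Function.update_of_ne (by simpa using hl)]
          rfl
      simp only [cst, kerF, Sum.elim_inl]
      rw [e1, e2]
    have h2 : ∑ k, ∑ j, X j (Sum.elim I I' (Sum.inr k)) *
        cst ℂ (kerF h.Om P) (Function.update (Sum.elim I I') (Sum.inr k) j) =
        exC P (∑ k, ∑ j, X j (I' k) • cst ℂ (Wf h.Om (Function.update I' k j))) I := by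
      rw [map_sum, Finset.sum_apply]
      refine Finset.sum_congr rfl fun k _ => ?_
      rw [map_sum, Finset.sum_apply]
      refine Finset.sum_congr rfl fun j _ => ?_
      rw [map_smul, exC_cst, Pi.smul_apply, smul_eq_mul]
      have e1 : (fun l => Function.update (Sum.elim I I') (Sum.inr k) j (Sum.inl l)) = I := by
        funext l
        rw [Function.update_of_ne (by simp)]
        rfl
      have e2 : (fun l => Function.update (Sum.elim I I') (Sum.inr k) j (Sum.inr l)) =
          Function.update I' k j := by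
        funext l
        by_cases hl : l = k
        · subst hl
          rw [Function.update_self, Function.update_self]
        · rw [Function.update_of_ne hl, Function.update_of_ne (by simpa using hl)]
          rfl
      simp only [cst, kerF, Sum.elim_inr]
      rw [e1, e2]
    rw [h1, h2] at h00
    have h3 : (∑ k, ∑ j, X j (I' k) • cst ℂ (Wf h.Om (Function.update I' k j))) =
        -act X (cst ℂ (Wf h.Om I')) :=
      eq_neg_of_add_eq_zero_right (Wf_inv' (h.lie_sp hX) I')
    rw [h3, map_neg, Pi.neg_apply, add_neg_eq_zero] at h00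
    exact h00
  have h4 : ∀ w : (κ → B) → ℚ, act X (exC P (cst ℂ w)) = exC P (act X (cst ℂ w)) := by
    intro w
    have h5 : cst ℂ w = ∑ I', (((∑ M : κ → B, w M * ∏ k, (-h.Om) (I' k) (M k) : ℚ)) : ℂ) •
        cst ℂ (Wf h.Om I') := by
      have h6 := congrArg (cst ℂ) (eq_sum_Wf h.sq w)
      rw [h6]
      funext I
      simp only [cst, Finset.sum_apply, Pi.smul_apply, smul_eq_mul]
      push_cast
      rfl
    have hX' : ∀ c : (κ → B) → ℂ, act X c = actR X c := fun c => rfl
    rw [h5]
    simp only [map_sum, map_smul, hX']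
    refine Finset.sum_congr rfl fun I' _ => ?_
    rw [← hX', ← hX', key]
  have h5 : (actR X).comp (exC P) = (exC P).comp (actR X) := ext_cst fun w => h4 w
  exact LinearMap.congr_fun h5 c

theorem exX_mem {X : Type*} [Fintype X] [DecidableEq X] {V : Submodule ℚ (X → ℚ)}
    {P : (X → ℚ) →ₗ[ℚ] (X → ℚ)} (hP : ∀ x, P x ∈ V) (z : X → ℂ) : exX P z ∈ cxX V := by
  rw [eq_sum_cstX z, map_sum]
  refine Submodule.sum_mem _ fun I _ => ?_
  rw [map_smul, exX_cst]
  exact Submodule.smul_mem _ _ (cstX_mem (hP _))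

theorem exX_id {X : Type*} [Fintype X] [DecidableEq X] {V : Submodule ℚ (X → ℚ)}
    {P : (X → ℚ) →ₗ[ℚ] (X → ℚ)} (hP : ∀ x ∈ V, P x = x) {z : X → ℂ} (hz : z ∈ cxX V) :
    exX P z = z := by
  have hA : cxX V ≤ LinearMap.ker (exX P - LinearMap.id) := by
    refine cxX_le fun t ht => ?_
    rw [LinearMap.mem_ker, LinearMap.sub_apply, exX_cst, hP t ht, LinearMap.id_apply, sub_self]
  have := LinearMap.mem_ker.1 (hA hz)
  rwa [LinearMap.sub_apply, LinearMap.id_apply, sub_eq_zero] at this

/-- A rational subspace stable under the Hodge operator is stable under the Hodge Lie algebra. -/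
theorem PolH.lie_stable (h : PolH D) {V : Submodule ℚ ((κ → B) × C → ℚ)}
    (hst : ∀ z ∈ cxX V, opD κ C D z ∈ cxX V) {X : Matrix B B ℂ} (hX : X ∈ lieM D ℂ) :
    ∀ z ∈ cxX V, opD κ C X z ∈ cxX V := by
  obtain ⟨P, hP1, hP2, hP3⟩ := h.exists_projC (HLC_of_stable h.dd hst)
  have hcom : ∀ z, opD κ C X (exX P z) = exX P (opD κ C X z) := by
    intro z
    have hsl : ∀ (z : (κ → B) × C → ℂ) (c : C), sl c (exX P z) =
        ∑ c', exC (blkP P c c') (sl c' z) := by
      intro z c
      conv_lhs => rw [eq_sum_ins z]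
      rw [map_sum, map_sum]
      exact Finset.sum_congr rfl fun c' _ => (exC_blkP P c c' _).symm
    refine ext_sl fun c => ?_
    rw [sl_opD, hsl, hsl]
    have hX' : ∀ c : (κ → B) → ℂ, act X c = actR X c := fun c => rfl
    rw [hX', map_sum]
    refine Finset.sum_congr rfl fun c' _ => ?_
    rw [← hX', sl_opD]
    exact h.com_HM (isHM_blkP hP3 c c') hX _
  intro z hz
  rw [← exX_id hP1 hz, hcom]
  exact exX_mem hP2 _

end stable

end

end Pool.Agent.TH131.GHC
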