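import Mathlib
import Pool.Agent.TH131.GHC.Ind1

/-!
# Ideals of the Hodge Lie algebra and their complements
-/

set_option linter.unusedSectionVars false

namespace Pool.Agent.TH131.GHC

open Matrix Equiv Pool.Agent.H204R3.SP Pool.Agent.W437.HC Pool.Agent.W437.HD
  Pool.Agent.W437.HP Pool.Agent.W548.Odd

noncomputable section

section mt

variable {B : Type*} [Fintype B] [DecidableEq B] {K : Type*} [Field K]

/-- The matrix of a bilinear form. -/
def mt : ((Fin 2 → B) × Unit → K) →ₗ[K] Matrix B B K where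
  toFun z := Matrix.of fun i j => z (![i, j], ())
  map_add' _ _ := rfl
  map_smul' _ _ := rfl

/-- The bilinear form of a matrix. -/
def tm : Matrix B B K →ₗ[K] ((Fin 2 → B) × Unit → K) where
  toFun M := fun p => M (p.1 0) (p.1 1)
  map_add' _ _ := rfl
  map_smul' _ _ := rfl

theorem mt_tm (M : Matrix B B K) : mt (tm M) = M := by
  ext i j
  rfl

theorem tm_mt (z : (Fin 2 → B) × Unit → K) : tm (mt z) = z := by
  funext p
  change z (![p.1 0, p.1 1], ()) = z p
  congr 1
  refine Prod.ext ?_ rfl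
  funext k
  fin_cases k <;> rfl

theorem mt_opD [CharZero K] (Y : Matrix B B K) (z : (Fin 2 → B) × Unit → K) :
    mt (opD (Fin 2) Unit Y z) = Yᵀ * mt z + mt z * Y := by
  conv_lhs => rw [← tm_mt z]
  ext i j
  have h1 := act_bilc Y (mt z) ![i, j]
  exact h1

theorem mt_cst (t : (Fin 2 → B) × Unit → ℚ) :
    mt (cstX t) = (mt t).map (fun x : ℚ => (x : ℂ)) := rfl

theorem EC_mt (O : Matrix B B K) (z z' : (Fin 2 → B) × Unit → K) :
    EC (Fin 2) Unit O z z' = trace (mt z * O * (mt z')ᵀ * Oᵀ) := by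
  rw [EC_apply]
  simp only [Finset.univ_unique, Finset.sum_singleton]
  rw [EB_apply]
  have h1 : ∀ f : (Fin 2 → B) → K, ∑ I, f I = ∑ i, ∑ j, f ![i, j] := by
    intro f
    rw [← (finTwoArrowEquiv B).symm.sum_comp, Fintype.sum_prod_type]
    rfl
  rw [h1]
  simp only [h1, Fin.prod_univ_two, trace, Matrix.diag_apply, Matrix.mul_apply,
    Matrix.transpose_apply, Finset.sum_mul]
  refine Finset.sum_congr rfl fun i _ => ?_
  have h2 : ∀ j i' j', sl (default : Unit) z ![i, j] * sl (default : Unit) z' ![i', j'] *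
      (O (![i, j] 0) (![i', j'] 0) * O (![i, j] 1) (![i', j'] 1)) =
      mt z i j * O j j' * mt z' i' j' * O i i' := by
    intro j i' j'
    change z (![i, j], default) * z' (![i', j'], default) * (O i i' * O j j') =
      z (![i, j], ()) * O j j' * z' (![i', j'], ()) * O i i'
    ring
  simp only [h2]
  rw [Finset.sum_comm]
  refine Finset.sum_congr rfl fun i' _ => ?_
  rw [Finset.sum_comm]

end mt

section ideal

variable {B : Type*} [Fintype B] [DecidableEq B] {D : Matrix B B ℂ}

/-- A space of elements of the Hodge Lie algebra which is stable under the automorphisms of the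
complex numbers and under the bracket with the Hodge operator. -/
structure GalD (D : Matrix B B ℂ) (k : Submodule ℂ (Matrix B B ℂ)) : Prop where
  le : k ≤ lieM D ℂ
  gal : ∀ (σ : ℂ ≃+* ℂ), ∀ X ∈ k, X.map σ ∈ k
  dn : ∀ X ∈ k, D * X - X * D ∈ k

variable (h : PolH D) {k : Submodule ℂ (Matrix B B ℂ)}

/-- The complex matrix of the form. -/
def PolH.O : Matrix B B ℂ := h.Om.map (fun x : ℚ => (x : ℂ))

theorem PolH.OO : h.O * h.O = -1 := h.sqK ℂ

theorem PolH.lie_sp' {Y : Matrix B B ℂ} (hY : Y ∈ lieM D ℂ) : h.O * Yᵀ = -(Y * h.O) := by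
  have h1 := h.lie_sp hY
  change Yᵀ * h.O + h.O * Y = 0 at h1
  have h2 : h.O * (Yᵀ * h.O + h.O * Y) * h.O = 0 := by
    rw [h1, mul_zero, zero_mul]
  have h3 : h.O * (Yᵀ * h.O + h.O * Y) * h.O = h.O * Yᵀ * (h.O * h.O) + (h.O * h.O) * (Y * h.O) := by
    noncomm_ring
  rw [h3, h.OO] at h2
  have h4 : h.O * Yᵀ * -1 + -1 * (Y * h.O) = -(h.O * Yᵀ + Y * h.O) := by noncomm_ring
  rw [h4, neg_eq_zero] at h2
  exact eq_neg_of_add_eq_zero_left h2

/-- The space of rational forms given by a space of matrices. -/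
def PolH.VV (k : Submodule ℂ (Matrix B B ℂ)) : Submodule ℚ ((Fin 2 → B) × Unit → ℚ) where
  carrier := {t | h.O * mt (cstX t) ∈ k}
  zero_mem' := by
    change _ ∈ k
    rw [cstX_zero, map_zero, mul_zero]
    exact k.zero_mem
  add_mem' := by
    intro a b ha hb
    change _ ∈ k
    rw [cstX_add, map_add, mul_add]
    exact k.add_mem ha hb
  smul_mem' := by
    intro r a ha
    change _ ∈ k
    rw [cstX_smul, map_smul, Matrix.mul_smul]
    exact k.smul_mem _ ha

theorem PolH.mt_key {Y : Matrix B B ℂ} (hY : Y ∈ lieM D ℂ) (z : (Fin 2 → B) × Unit → ℂ) :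
    h.O * mt (opD (Fin 2) Unit Y z) = (h.O * mt z) * Y - Y * (h.O * mt z) := by
  rw [mt_opD, mul_add, ← mul_assoc, h.lie_sp' hY]
  noncomm_ring

theorem PolH.cx_VV (hk : GalD D k) (z : (Fin 2 → B) × Unit → ℂ) :
    z ∈ cxX (h.VV k) ↔ h.O * mt z ∈ k := by
  constructor
  · intro hz
    have h1 : cxX (h.VV k) ≤ k.comap ((LinearMap.mulLeft ℂ h.O).comp mt) := by
      refine cxX_le fun t ht => ?_
      exact ht
    exact h1 hz
  · intro hz
    have key : ∀ X ∈ k, tm (-(h.O * X)) ∈ cxX (h.VV k) := by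
      refine rational_induction k hk.gal ?_ ?_ ?_ ?_
      · intro u hu
        have h1 : tm (-(h.O * u.map (fun x : ℚ => (x : ℂ)))) =
            cstX (tm (-(h.Om * u))) := by
          funext p
          change -((h.O * u.map (fun x : ℚ => (x : ℂ))) (p.1 0) (p.1 1)) =
            (((-(h.Om * u)) (p.1 0) (p.1 1) : ℚ) : ℂ)
          rw [Matrix.neg_apply, Matrix.mul_apply, Matrix.mul_apply]
          push_cast
          rfl
        rw [h1]
        apply cstX_mem
        change h.O * mt (cstX (tm (-(h.Om * u)))) ∈ k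
        rw [← h1, mt_tm, mul_neg, ← mul_assoc, h.OO, neg_one_mul, neg_neg]
        exact hu
      · rw [mul_zero, neg_zero, map_zero]
        exact Submodule.zero_mem _
      · intro X Y hX hY
        rw [mul_add, neg_add, map_add]
        exact Submodule.add_mem _ hX hY
      · intro c X hX
        rw [Matrix.mul_smul, ← smul_neg, map_smul]
        exact Submodule.smul_mem _ _ hX
    have h2 := key _ hz
    rw [← mul_assoc, h.OO, neg_one_mul, neg_neg, tm_mt] at h2
    exact h2

theorem PolH.VV_stable (hk : GalD D k) :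
    ∀ z ∈ cxX (h.VV k), opD (Fin 2) Unit D z ∈ cxX (h.VV k) := by
  intro z hz
  rw [h.cx_VV hk] at hz ⊢
  rw [h.mt_key (D_mem D)]
  have h1 := k.neg_mem (hk.dn _ hz)
  rwa [neg_sub] at h1

include h in
/-- Such spaces are ideals of the Hodge Lie algebra. -/
theorem PolH.ideal (hk : GalD D k) {X Y : Matrix B B ℂ} (hX : X ∈ k) (hY : Y ∈ lieM D ℂ) :
    X * Y - Y * X ∈ k := by
  have h1 : h.O * mt (tm (-(h.O * X))) = X := by
    rw [mt_tm, mul_neg, ← mul_assoc, h.OO, neg_one_mul, neg_neg]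
  have h2 : tm (-(h.O * X)) ∈ cxX (h.VV k) := by
    rw [h.cx_VV hk, h1]
    exact hX
  have h3 := h.lie_stable (h.VV_stable hk) hY _ h2
  rw [h.cx_VV hk, h.mt_key hY, h1] at h3
  exact h3

theorem PolH.EC_tr {z z' : (Fin 2 → B) × Unit → ℂ} (hz' : h.O * mt z' ∈ lieM D ℂ) :
    EC (Fin 2) Unit h.O z z' = -trace ((h.O * mt z) * (h.O * mt z')) := by
  rw [EC_mt]
  have hOt : h.Oᵀ = -h.O := by
    have h1 := congrArg (fun M : Matrix B B ℚ => M.map (fun x : ℚ => (x : ℂ))) h.tr
    ext i j
    have h2 := congrFun (congrFun h1 i) j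
    simp only [Matrix.map_apply, transpose_apply, Matrix.neg_apply, Rat.cast_neg] at h2
    exact h2
  have h1 := h.lie_sp hz'
  change (h.O * mt z')ᵀ * h.O + h.O * (h.O * mt z') = 0 at h1
  have h2 : (mt z')ᵀ = mt z' := by
    rw [transpose_mul, hOt, ← mul_assoc, h.OO, mul_neg, neg_mul, neg_one_mul, mul_assoc, h.OO,
      mul_neg, neg_neg, mul_one] at h1
    exact (sub_eq_zero.1 (by rw [← sub_eq_add_neg] at h1; exact h1))
  rw [h2, hOt, mul_neg, trace_neg, neg_inj]
  rw [trace_mul_comm, ← mul_assoc, ← mul_assoc, mul_assoc]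

include h in
/-- The trace form is nondegenerate. -/
theorem PolH.nd (hk : GalD D k) {X : Matrix B B ℂ} (hX : X ∈ k)
    (h0 : ∀ Y ∈ k, trace (X * Y) = 0) : X = 0 := by
  have key : ∀ lam : ℂ →ₗ[ℚ] ℚ, X.map lam = 0 := by
    intro lam
    obtain ⟨u, hu⟩ : ∃ u : Matrix B B ℚ, u = X.map lam := ⟨_, rfl⟩
    rw [← hu]
    have h1 : u.map (fun x : ℚ => (x : ℂ)) ∈ k := by
      have h2 := map_mem_of_aut k hk.gal hX ((Algebra.linearMap ℚ ℂ).comp lam)
      rw [hu]
      exact h2
    have h3 : mt (cstX (tm (-(h.Om * u)))) = -(h.O * u.map (fun x : ℚ => (x : ℂ))) := by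
      ext i j
      change (((-(h.Om * u)) i j : ℚ) : ℂ) = -((h.O * u.map (fun x : ℚ => (x : ℂ))) i j)
      rw [Matrix.neg_apply, Matrix.mul_apply, Matrix.mul_apply]
      push_cast
      rfl
    have h4 : h.O * mt (cstX (tm (-(h.Om * u)))) = u.map (fun x : ℚ => (x : ℂ)) := by
      rw [h3, mul_neg, ← mul_assoc, h.OO, neg_one_mul, neg_neg]
    have h5 : tm (-(h.Om * u)) = 0 := by
      refine h.nondegC (HLC_of_stable h.dd (h.VV_stable hk)) (V := h.VV k) ?_ fun v' hv' => ?_
      · change h.O * mt (cstX (tm (-(h.Om * u)))) ∈ k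
        rw [h4]
        exact h1
      · have h6 := EC_cst (κ := Fin 2) (C := Unit) h.Om (tm (-(h.Om * u))) v'
        have h7 := h.EC_tr (z := cstX (tm (-(h.Om * u)))) (z' := cstX v') (hk.le hv')
        unfold PolH.O at h7
        rw [h6] at h7
        have h8 : h.Om.map (fun x : ℚ => (x : ℂ)) * mt (cstX (tm (-(h.Om * u)))) =
            u.map (fun x : ℚ => (x : ℂ)) := h4
        rw [h8] at h7
        have h9 : h.Om.map (fun x : ℚ => (x : ℂ)) * mt (cstX v') =
            (h.Om * mt v').map (fun x : ℚ => (x : ℂ)) := by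
          ext i j
          simp only [Matrix.mul_apply, Matrix.map_apply, mt_cst]
          push_cast
          rfl
        have h10 := h0 _ hv'
        change trace (X * (h.Om.map (fun x : ℚ => (x : ℂ)) * mt (cstX v'))) = 0 at h10
        rw [h9] at h10 h7
        have h11 : lam (trace (X * (h.Om * mt v').map (fun x : ℚ => (x : ℂ)))) =
            trace (u * (h.Om * mt v')) := by
          simp only [trace, Matrix.diag_apply, Matrix.mul_apply, map_sum, hu]
          refine Finset.sum_congr rfl fun i _ => Finset.sum_congr rfl fun j _ => ?_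
          simp only [Matrix.map_apply, Matrix.mul_apply]
          have h12 : ∀ (x : ℂ) (q : ℚ), lam (x * (q : ℂ)) = lam x * q := by
            intro x q
            rw [mul_comm x, ← Rat.smul_def, map_smul, smul_eq_mul, mul_comm]
          rw [h12]
        have h12 : trace (u.map (fun x : ℚ => (x : ℂ)) *
            (h.Om * mt v').map (fun x : ℚ => (x : ℂ))) =
            ((trace (u * (h.Om * mt v')) : ℚ) : ℂ) := by
          simp only [trace, Matrix.diag_apply, Matrix.mul_apply, Matrix.map_apply]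
          push_cast
          rfl
        rw [h12, ← h11, h10, map_zero, Rat.cast_zero, neg_zero] at h7
        exact_mod_cast h7
    have h6 : mt (tm (-(h.Om * u))) = 0 := by rw [h5, map_zero]
    rw [mt_tm, neg_eq_zero] at h6
    have h7 : h.Om * (h.Om * u) = 0 := by rw [h6, mul_zero]
    rw [← mul_assoc, h.sq, neg_one_mul, neg_eq_zero] at h7
    exact h7
  ext i j
  apply eq_zero_of_lam
  intro lam
  exact congrFun (congrFun (key lam) i) j

/-- The complement of an ideal. -/
def cmpl (D : Matrix B B ℂ) (k : Submodule ℂ (Matrix B B ℂ)) : Submodule ℂ (Matrix B B ℂ) where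
  carrier := {Y | Y ∈ lieM D ℂ ∧ ∀ X ∈ k, trace (X * Y) = 0}
  zero_mem' := ⟨Submodule.zero_mem _, fun X _ => by rw [mul_zero, trace_zero]⟩
  add_mem' := by
    rintro Y Y' ⟨h1, h2⟩ ⟨h3, h4⟩
    exact ⟨Submodule.add_mem _ h1 h3, fun X hX => by
      rw [mul_add, trace_add, h2 X hX, h4 X hX, add_zero]⟩
  smul_mem' := by
    rintro r Y ⟨h1, h2⟩
    exact ⟨Submodule.smul_mem _ _ h1, fun X hX => by
      rw [Matrix.mul_smul, trace_smul, h2 X hX, smul_zero]⟩

theorem mem_cmpl {Y : Matrix B B ℂ} : Y ∈ cmpl D k ↔ Y ∈ lieM D ℂ ∧ ∀ X ∈ k, trace (X * Y) = 0 :=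
  Iff.rfl

include h in
theorem PolH.cmpl_ideal (hk : GalD D k) {X Y : Matrix B B ℂ} (hX : X ∈ cmpl D k)
    (hY : Y ∈ lieM D ℂ) : X * Y - Y * X ∈ cmpl D k := by
  refine ⟨lieM_bracket D hX.1 hY, fun W hW => ?_⟩
  have h1 := hX.2 _ (h.ideal hk hW hY)
  have h2 : trace (W * (X * Y - Y * X)) = -trace ((W * Y - Y * W) * X) := by
    have e1 : trace (W * X * Y) = trace (Y * W * X) := by
      rw [trace_mul_comm, mul_assoc]
    simp only [mul_sub, sub_mul, trace_sub, neg_sub, ← mul_assoc, e1]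
  rw [h2, h1, neg_zero]

theorem aut_trace (σ : ℂ ≃+* ℂ) (M : Matrix B B ℂ) : trace (M.map σ) = σ (trace M) := by
  simp [trace, map_sum]

include h in
theorem PolH.cmpl_galD (hk : GalD D k) : GalD D (cmpl D k) where
  le := fun _ hY => hY.1
  gal := by
    intro σ Y hY
    refine ⟨map_mem_aut hY.1 (σ : ℂ →+* ℂ), fun X hX => ?_⟩
    have h1 := hY.2 _ (hk.gal σ.symm X hX)
    have h2 := aut_trace σ (X.map σ.symm * Y)
    rw [h1, map_zero, Matrix.map_mul] at h2
    have h3 : (X.map σ.symm).map σ = X := by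
      ext i j
      simp
    rw [h3] at h2
    exact h2
  dn := by
    intro X hX
    have h1 := (cmpl D k).neg_mem (h.cmpl_ideal hk hX (D_mem D))
    rwa [neg_sub] at h1

include h in
theorem PolH.cmpl_disj (hk : GalD D k) {X : Matrix B B ℂ} (hX : X ∈ k) (hX' : X ∈ cmpl D k) :
    X = 0 := by
  refine h.nd hk hX fun Y hY => ?_
  rw [trace_mul_comm]
  exact hX'.2 Y hY

include h in
theorem PolH.cmpl_bracket (hk : GalD D k) {X Y : Matrix B B ℂ} (hX : X ∈ k) (hY : Y ∈ cmpl D k) :
    X * Y - Y * X = 0 := by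
  refine h.cmpl_disj hk (h.ideal hk hX hY.1) ?_
  have h1 := (cmpl D k).neg_mem (h.cmpl_ideal hk hY (hk.le hX))
  rwa [neg_sub] at h1

/-- The trace form on complex matrices. -/
def trC (B : Type*) [Fintype B] [DecidableEq B] : LinearMap.BilinForm ℂ (Matrix B B ℂ) :=
  LinearMap.mk₂ ℂ (fun X Y => trace (X * Y))
    (fun X Y Z => by rw [add_mul, trace_add])
    (fun a X Y => by rw [smul_mul_assoc, trace_smul])
    (fun X Y Z => by rw [mul_add, trace_add])
    (fun a X Y => by rw [mul_smul_comm, trace_smul])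

include h in
/-- The Hodge Lie algebra is the sum of an ideal and its complement. -/
theorem PolH.cmpl_sum (hk : GalD D k) {Y : Matrix B B ℂ} (hY : Y ∈ lieM D ℂ) :
    ∃ Y1 ∈ k, Y - Y1 ∈ cmpl D k := by
  have hrefl : (trC B).IsRefl := by
    intro X Y h
    change trace (X * Y) = 0 at h
    change trace (Y * X) = 0
    rw [trace_mul_comm]
    exact h
  have hdisj : Disjoint k ((trC B).orthogonal k) := by
    rw [Submodule.disjoint_def]
    intro X hX hX'
    refine h.nd hk hX fun Y hY => ?_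
    have h1 := hX' Y hY
    change trace (Y * X) = 0 at h1
    rw [trace_mul_comm] at h1
    exact h1
  have hc : IsCompl k ((trC B).orthogonal k) :=
    (LinearMap.BilinForm.isCompl_orthogonal_iff_disjoint hrefl).2 hdisj
  have h1 : Y ∈ k ⊔ (trC B).orthogonal k := by
    rw [hc.sup_eq_top]
    trivial
  obtain ⟨Y1, hY1, Y2, hY2, hY12⟩ := Submodule.mem_sup.1 h1
  refine ⟨Y1, hY1, ?_⟩
  have h2 : Y - Y1 = Y2 := by
    rw [← hY12, add_sub_cancel_left]
  refine ⟨Submodule.sub_mem _ hY (hk.le hY1), fun X hX => ?_⟩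
  rw [h2]
  exact hY2 X hX

end ideal

end

end Pool.Agent.TH131.GHC
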