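import Mathlib
import Pool.Agent.TH131.GHC.Ind2
import Pool.Agent.TH131.GHC.SysCore

/-!
# Independence of a product of abelian varieties and a variety of CM type
-/

set_option linter.unusedSectionVars false

namespace Pool.Agent.TH131.GHC

open Matrix Equiv Module Pool.Agent.H204R3.SP Pool.Agent.H204R3.CM Pool.Agent.W437.HC
  Pool.Agent.W437.HD Pool.Agent.W437.HP Pool.Agent.W437.HR Pool.Agent.W548.Odd

noncomputable section

/-- Commuting ideals of the Hodge Lie algebra have zero products. -/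
def Simp {B : Type*} [Fintype B] [DecidableEq B] (D : Matrix B B ℂ) : Prop :=
  ∀ k k' : Submodule ℂ (Matrix B B ℂ), k ≤ lieM D ℂ → k' ≤ lieM D ℂ →
    (∀ X ∈ k, ∀ Y ∈ lieM D ℂ, X * Y - Y * X ∈ k) →
    (∀ X ∈ k', ∀ Y ∈ lieM D ℂ, X * Y - Y * X ∈ k') →
    (∀ X ∈ k, ∀ Y ∈ k', X * Y - Y * X = 0) → ∀ X ∈ k, ∀ Y ∈ k', X * Y = 0

section sys

variable {B : Type} [Fintype B] [DecidableEq B] {D : Matrix B B ℂ} {𝒜 : Type} [Fintype 𝒜]
  [DecidableEq 𝒜] {N : 𝒜 → Type} [∀ a, AddCommGroup (N a)] [∀ a, Module ℂ (N a)]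
  [∀ a, FiniteDimensional ℂ (N a)] [∀ a, Nontrivial (N a)]

theorem simp_of_sys (s : Sys (lieM D ℂ) (brL D) N) (inc : ∀ a, N a →ₗ[ℂ] (B → ℂ))
    (prj : ∀ a, (B → ℂ) →ₗ[ℂ] N a) (hip : ∀ y, y = ∑ a, inc a (prj a y))
    (hinc : ∀ a (X : lieM D ℂ) u, X.1 *ᵥ inc a u = inc a (s.ρ a X u)) : Simp D := by
  intro k k' hk hk' hi hi' hc
  have hid : ∀ (k : Submodule ℂ (Matrix B B ℂ)), k ≤ lieM D ℂ →
      (∀ X ∈ k, ∀ Y ∈ lieM D ℂ, X * Y - Y * X ∈ k) → ∀ a, ∀ X : lieM D ℂ, X.1 ∈ k →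
      s.ρ a X ≠ 0 → ∀ x y, ∃ W : lieM D ℂ, W.1 ∈ k ∧ s.ρ a W = EE (s.w a) x y := by
    intro k hk hi a X hX hX0 x y
    have h1 := ideal_full (s.alt a) (s.nd a) (s.brk a) (s.sp a) (s.full a)
      ((k.comap (lieM D ℂ).subtype).map (s.ρ a)) ?_
      (Submodule.mem_map_of_mem (f := s.ρ a) (p := k.comap (lieM D ℂ).subtype) (r := X) hX)
      (s.sp a X) hX0 x y
    · obtain ⟨W, hW, hW2⟩ := h1
      exact ⟨W, hW, hW2⟩
    · rintro Y _ ⟨W, hW, rfl⟩
      refine ⟨brL D Y W, ?_, s.brk a Y W⟩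
      change Y.1 * W.1 - W.1 * Y.1 ∈ k
      have h2 := k.neg_mem (hi W.1 hW Y.1 Y.2)
      rwa [neg_sub] at h2
  have key : ∀ a, (∀ X : lieM D ℂ, X.1 ∈ k → s.ρ a X = 0) ∨
      (∀ Y : lieM D ℂ, Y.1 ∈ k' → s.ρ a Y = 0) := by
    intro a
    by_contra hcon
    push Not at hcon
    obtain ⟨⟨X, hX, hX0⟩, ⟨Y, hY, hY0⟩⟩ := hcon
    obtain ⟨x, hx⟩ := exists_ne (0 : N a)
    obtain ⟨y, hy⟩ := exists_pair (s.nd a) hx
    obtain ⟨W, hW, hW2⟩ := hid k hk hi a X hX hX0 x x
    obtain ⟨W', hW', hW2'⟩ := hid k' hk' hi' a Y hY hY0 y y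
    have h1 : brL D W W' = 0 := Subtype.ext (hc _ hW _ hW')
    have h2 := s.brk a W W'
    rw [h1, map_zero, hW2, hW2'] at h2
    have h3 := congrArg (fun F => F x) h2
    simp only [LinearMap.zero_apply, LinearMap.sub_apply, Module.End.mul_apply, EE_self, map_smul,
      s.alt, mul_zero, zero_smul, map_zero, sub_zero, hy, mul_one, smul_smul] at h3
    have h4 : s.w a y x = -1 := by rw [w_anti (s.alt a), hy]
    rw [h4] at h3
    exact hx ((smul_eq_zero.1 h3.symm).resolve_left (by norm_num))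
  intro X hX Y hY
  have h5 : ∀ v : B → ℂ, (X * Y) *ᵥ v = 0 := by
    intro v
    conv_lhs => rw [hip v]
    rw [mulVec_sum]
    refine Finset.sum_eq_zero fun a _ => ?_
    rw [← mulVec_mulVec, hinc a ⟨Y, hk' hY⟩, hinc a ⟨X, hk hX⟩]
    rcases key a with h | h
    · rw [h ⟨X, hk hX⟩ hX, LinearMap.zero_apply, map_zero]
    · rw [h ⟨Y, hk' hY⟩ hY, LinearMap.zero_apply, map_zero, map_zero]
  ext i j
  have h6 := congrFun (h5 (Pi.single j 1)) i
  rw [mulVec_single_one] at h6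
  exact h6

end sys

section glue

variable {B : Type} [Fintype B] [DecidableEq B] {D : Matrix B B ℂ} {ι : Type}
    [Fintype ι] [DecidableEq ι] {R : ι → Type} [∀ i, Fintype (R i)] [∀ i, DecidableEq (R i)]
    {D' : ∀ i, Matrix (R i) (R i) ℂ} {Om' : ∀ i, Matrix (R i) (R i) ℚ}
    (b : Blocks B D R D' Om')

theorem simp_of_blocks
    (hnd : ∀ i, ∀ X ∈ (lieM D ℚ).map (b.bl ℚ i),
      (∀ Y ∈ (lieM D ℚ).map (b.bl ℚ i), trace (X * Y) = 0) → X = 0)
    (hD2 : ∀ i, D' i * D' i = 1) (hp : ∀ i, HasPcs (D' i)) : Simp D := by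
  classical
  choose A hA1 hA2 N w π hst hsum hnt halt hnon hsp hful hπ using hp
  let s : Sys (lieM D ℂ) (brL D) (N := fun a : (Σ i, A i) => ↥(N a.1 a.2)) :=
    { w := fun a => w a.1 a.2
      ρ := fun a => (rsN (N a.1 a.2) (hst a.1 a.2)) ∘ₗ b.blL a.1
      alt := fun a x => halt a.1 a.2 x
      nd := fun a x hx => hnon a.1 a.2 x hx
      brk := fun a X Y => by
        rw [LinearMap.comp_apply, b.blL_brL, rsN_brL]
        rfl
      sp := fun a X => hsp a.1 a.2 (b.blL a.1 X)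
      full := fun a x y => Blocks.full b a.1 (hnd a.1) (hD2 a.1) (N a.1 a.2) (w a.1 a.2)
        (hst a.1 a.2) (hnt a.1 a.2) (halt a.1 a.2) (hnon a.1 a.2) (hsp a.1 a.2)
        (hful a.1 a.2) x y }
  have hntn : ∀ a : (Σ i, A i), Nontrivial ↥(N a.1 a.2) := fun a => hnt a.1 a.2
  refine simp_of_sys s
    (fun a => (Matrix.mulVecLin (cK ℂ (b.P a.1))ᵀ) ∘ₗ (N a.1 a.2).subtype)
    (fun a => (π a.1 a.2) ∘ₗ (Matrix.mulVecLin (cK ℂ (b.P a.1)))) ?_ ?_
  · intro y
    have h1 : y = ∑ i, (cK ℂ (b.P i))ᵀ *ᵥ (cK ℂ (b.P i) *ᵥ y) := by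
      conv_lhs => rw [← one_mulVec y, ← b.totK, sum_mulVec]
      exact Finset.sum_congr rfl fun i _ => (mulVec_mulVec _ _ _).symm
    conv_lhs => rw [h1]
    rw [Fintype.sum_sigma]
    refine Finset.sum_congr rfl fun i _ => ?_
    conv_lhs => rw [hsum i (cK ℂ (b.P i) *ᵥ y)]
    rw [mulVec_sum]
    rfl
  · intro a X u
    change X.1 *ᵥ ((cK ℂ (b.P a.1))ᵀ *ᵥ (u : R a.1 → ℂ)) =
      (cK ℂ (b.P a.1))ᵀ *ᵥ (b.bl ℂ a.1 X.1 *ᵥ (u : R a.1 → ℂ))
    rw [mulVec_mulVec, mulVec_mulVec, b.mul_inc X.2]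

end glue

section prod

variable {ι : Type} [Fintype ι] [DecidableEq ι] {g : ι → ℕ}
  (Z : ∀ i, Matrix (Fin (g i)) (Fin (g i)) ℂ)

theorem simp_prod (hZ : ∀ i, (Z i)ᵀ = Z i) (hpos : ∀ i, (imM (Z i)).PosDef)
    (hp : ∀ i, HasPcs (DZ (Z i))) : Simp (DZ (bigD ℂ Z)) :=
  simp_of_blocks (blocksOf Z hZ hpos) (blocksOf_nondeg Z hZ hpos)
    (fun i => DZ_sq ((hpos i).isUnit.map Matrix.detMonoidHom)) hp

end prod

section stab

variable {B : Type*} [Fintype B] [DecidableEq B] {C : Type*} [Fintype C] [DecidableEq C]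
  {κ : Type*} [Fintype κ] [DecidableEq κ] {D : Matrix B B ℂ} {D' : Matrix C C ℂ}

theorem cxX_aut {X : Type*} [Fintype X] [DecidableEq X] {V : Submodule ℚ (X → ℚ)}
    (σ : ℂ ≃+* ℂ) {z : X → ℂ} (hz : z ∈ cxX V) : (fun x => σ (z x)) ∈ cxX V := by
  unfold cxX at hz
  induction hz using Submodule.span_induction with
  | mem z hz =>
    obtain ⟨t, ht, rfl⟩ := hz
    have h1 : (fun x => σ (cstX t x)) = cstX t := by
      funext x
      exact map_ratCast σ _
    rw [h1]
    exact cstX_mem ht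
  | zero =>
    have h1 : (fun x => σ ((0 : X → ℂ) x)) = 0 := by
      funext x
      exact map_zero σ
    rw [h1]
    exact Submodule.zero_mem _
  | add x y _ _ hx hy =>
    have h1 : (fun i => σ ((x + y) i)) = (fun i => σ (x i)) + fun i => σ (y i) := by
      funext i
      exact map_add σ _ _
    rw [h1]
    exact Submodule.add_mem _ hx hy
  | smul r x _ hx =>
    have h1 : (fun i => σ ((r • x) i)) = σ r • fun i => σ (x i) := by
      funext i
      exact map_mul σ _ _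
    rw [h1]
    exact Submodule.smul_mem _ _ hx

/-- The automorphism applied to the values. -/
theorem opD_aut (σ : ℂ ≃+* ℂ) (X : Matrix B B ℂ) (z : (κ → B) × C → ℂ) :
    (fun p => σ (opD κ C X z p)) = opD κ C (X.map σ) (fun p => σ (z p)) := by
  funext p
  change σ (act X (sl p.2 z) p.1) = act (X.map σ) (sl p.2 (fun p => σ (z p))) p.1
  simp only [act, map_sum, map_mul, Matrix.map_apply, sl_apply]

theorem opW_aut (σ : ℂ ≃+* ℂ) (M : Matrix C C ℂ) (z : (κ → B) × C → ℂ) :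
    (fun p => σ (opW κ B M z p)) = opW κ B (M.map σ) (fun p => σ (z p)) := by
  funext p
  simp only [opW_apply, map_sum, map_mul, Matrix.map_apply]

theorem opD_br (X Y : Matrix B B ℂ) (z : (κ → B) × C → ℂ) :
    opD κ C X (opD κ C Y z) - opD κ C Y (opD κ C X z) = opD κ C (Y * X - X * Y) z := by
  refine ext_sl fun c => ?_
  rw [map_sub, sl_opD, sl_opD, sl_opD, sl_opD, sl_opD]
  exact act_comm X Y _

theorem opW_br (M N : Matrix C C ℂ) (z : (κ → B) × C → ℂ) :
    opW κ B M (opW κ B N z) - opW κ B N (opW κ B M z) = opW κ B (M * N - N * M) z := by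
  have h1 : ∀ M N : Matrix C C ℂ, opW κ B M (opW κ B N z) = opW κ B (M * N) z := by
    intro M N
    funext p
    simp only [opW_apply, Matrix.mul_apply, Finset.mul_sum, Finset.sum_mul]
    rw [Finset.sum_comm]
    exact Finset.sum_congr rfl fun i _ => Finset.sum_congr rfl fun j _ => by ring
  rw [h1, h1]
  funext p
  simp only [Pi.sub_apply, opW_apply, Matrix.sub_apply, sub_mul, Finset.sum_sub_distrib]

theorem opD_add (X Y : Matrix B B ℂ) (z : (κ → B) × C → ℂ) :
    opD κ C (X + Y) z = opD κ C X z + opD κ C Y z := by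
  refine ext_sl fun c => ?_
  rw [map_add, sl_opD, sl_opD, sl_opD]
  exact act_add_left X Y _

theorem opD_smul (r : ℂ) (X : Matrix B B ℂ) (z : (κ → B) × C → ℂ) :
    opD κ C (r • X) z = r • opD κ C X z := by
  refine ext_sl fun c => ?_
  rw [map_smul, sl_opD, sl_opD]
  exact act_smul_left r X _

theorem opD_zero (z : (κ → B) × C → ℂ) : opD κ C (0 : Matrix B B ℂ) z = 0 := by
  refine ext_sl fun c => ?_
  rw [map_zero, sl_opD]
  exact act_zero_left _

/-- The elements of the Hodge Lie algebra which preserve a rational subspace. -/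
def stb (D : Matrix B B ℂ) (V : Submodule ℚ ((κ → B) × C → ℚ)) :
    Submodule ℂ (Matrix B B ℂ) where
  carrier := {X | X ∈ lieM D ℂ ∧ ∀ z ∈ cxX V, opD κ C X z ∈ cxX V}
  zero_mem' := ⟨Submodule.zero_mem _, fun z _ => by
    rw [opD_zero]
    exact Submodule.zero_mem _⟩
  add_mem' := by
    rintro X Y ⟨h1, h2⟩ ⟨h3, h4⟩
    refine ⟨Submodule.add_mem _ h1 h3, fun z hz => ?_⟩
    rw [opD_add]
    exact Submodule.add_mem _ (h2 z hz) (h4 z hz)
  smul_mem' := by
    rintro r X ⟨h1, h2⟩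
    refine ⟨Submodule.smul_mem _ _ h1, fun z hz => ?_⟩
    rw [opD_smul]
    exact Submodule.smul_mem _ _ (h2 z hz)

theorem stb_galD {V : Submodule ℚ ((κ → B) × C → ℚ)}
    (hV : ∀ z ∈ cxX V, opD κ C D z + opW κ B D' z ∈ cxX V) : GalD D (stb D V) where
  le := fun X hX => hX.1
  gal := by
    intro σ X hX
    refine ⟨map_mem_aut hX.1 (σ : ℂ →+* ℂ), fun z hz => ?_⟩
    have h1 := cxX_aut σ (hX.2 _ (cxX_aut σ.symm hz))
    rw [opD_aut] at h1
    have h2 : (fun p => σ (σ.symm (z p))) = z := by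
      funext p
      exact σ.apply_symm_apply _
    rw [h2] at h1
    exact h1
  dn := by
    intro X hX
    refine ⟨lieM_bracket D (D_mem D) hX.1, fun z hz => ?_⟩
    have h1 := opD_br (κ := κ) (C := C) X D z
    rw [← h1]
    have h2 := hX.2 _ (hV z hz)
    have h3 := hV _ (hX.2 z hz)
    have h4 : opD κ C X (opD κ C D z) - opD κ C D (opD κ C X z) =
        opD κ C X (opD κ C D z + opW κ B D' z) -
          (opD κ C D (opD κ C X z) + opW κ B D' (opD κ C X z)) := by
      rw [map_add, op_comm]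
      abel
    rw [h4]
    exact Submodule.sub_mem _ h2 h3

variable (h : PolH D)

include h in
/-- **Independence** of a Hodge structure of weight one and a Hodge structure of CM type. -/
theorem PolH.indep_cm (hS : Simp D)
    (hcm : ∀ σ : ℂ ≃+* ℂ, D' * D'.map σ = D'.map σ * D') : Indep D D' := by
  intro n V hV
  replace hV : ∀ z ∈ cxX V, opD (Fin n) C D z + opW (Fin n) B D' z ∈ cxX V := hV
  have hk : GalD D (stb D V) := stb_galD hV
  obtain ⟨D1, hD1, hD2⟩ := h.cmpl_sum hk (D_mem D)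
  set D2 := D - D1 with hD2'
  have hc := h.cmpl_galD hk
  have hDD : D = D1 + D2 := by
    rw [hD2', add_sub_cancel]
  -- the stability under the second component
  have hE : ∀ σ : ℂ ≃+* ℂ, ∀ z ∈ cxX V, opD (Fin n) C (D2.map σ) z +
      opW (Fin n) B (D'.map σ) z ∈ cxX V := by
    intro σ z hz
    have h1 : ∀ z ∈ cxX V, opD (Fin n) C D2 z + opW (Fin n) B D' z ∈ cxX V := by
      intro z hz
      have h2 := Submodule.sub_mem _ (hV z hz) (hD1.2 z hz)
      have h3 : opD (Fin n) C D z = opD (Fin n) C D1 z + opD (Fin n) C D2 z := by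
        conv_lhs => rw [hDD]
        exact opD_add _ _ _
      rw [h3] at h2
      have h4 : opD (Fin n) C D1 z + opD (Fin n) C D2 z + opW (Fin n) B D' z -
          opD (Fin n) C D1 z = opD (Fin n) C D2 z + opW (Fin n) B D' z := by abel
      rwa [h4] at h2
    have h2 := cxX_aut σ (h1 _ (cxX_aut σ.symm hz))
    have h3 : (fun p => σ ((opD (Fin n) C D2 (fun x => σ.symm (z x)) +
        opW (Fin n) B D' (fun x => σ.symm (z x))) p)) = opD (Fin n) C (D2.map σ) z +
        opW (Fin n) B (D'.map σ) z := by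
      have h4 : (fun p => σ (σ.symm (z p))) = z := by
        funext p
        exact σ.apply_symm_apply _
      have h5 := opD_aut (κ := Fin n) (C := C) σ D2 (fun x => σ.symm (z x))
      have h6 := opW_aut (κ := Fin n) (B := B) σ D' (fun x => σ.symm (z x))
      rw [h4] at h5 h6
      rw [← h5, ← h6]
      funext p
      exact map_add σ _ _
    rw [h3] at h2
    exact h2
  -- the conjugates commute
  have hcomm : ∀ σ : ℂ ≃+* ℂ, D2 * D2.map σ - D2.map σ * D2 = 0 := by
    intro σ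
    have h1 : D2.map σ ∈ cmpl D (stb D V) := hc.gal σ _ hD2
    refine h.cmpl_disj hk (X := D2 * D2.map σ - D2.map σ * D2) ⟨lieM_bracket D hD2.1 h1.1,
      fun z hz => ?_⟩ (h.cmpl_ideal hk hD2 h1.1)
    have e0 : (RingEquiv.refl ℂ : ℂ ≃+* ℂ) = RingEquiv.refl ℂ := rfl
    have e1 : ∀ M : Matrix B B ℂ, M.map (RingEquiv.refl ℂ) = M := fun M => by
      ext i j
      rfl
    have e2 : ∀ M : Matrix C C ℂ, M.map (RingEquiv.refl ℂ) = M := fun M => by
      ext i j
      rfl
    have hE1 : ∀ z ∈ cxX V, opD (Fin n) C D2 z + opW (Fin n) B D' z ∈ cxX V := by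
      intro z hz
      have h2 := hE (RingEquiv.refl ℂ) z hz
      rwa [e1, e2] at h2
    have h2 := hE σ _ (hE1 z hz)
    have h3 := hE1 _ (hE σ z hz)
    have h4 := Submodule.sub_mem _ h2 h3
    have h5 := opD_br (κ := Fin n) (C := C) (D2.map σ) D2 z
    have h6 := opW_br (κ := Fin n) (B := B) (D'.map σ) D' z
    have h7 : D'.map σ * D' - D' * D'.map σ = 0 := by
      rw [hcm σ, sub_self]
    have h8 : opW (Fin n) B (0 : Matrix C C ℂ) z = 0 := by
      funext p
      rw [opW_apply]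
      simp
    rw [h7, h8] at h6
    rw [← h5]
    have h9 : opD (Fin n) C (D2.map σ) (opD (Fin n) C D2 z) -
        opD (Fin n) C D2 (opD (Fin n) C (D2.map σ) z) =
        (opD (Fin n) C (D2.map σ) (opD (Fin n) C D2 z + opW (Fin n) B D' z) +
          opW (Fin n) B (D'.map σ) (opD (Fin n) C D2 z + opW (Fin n) B D' z)) -
        (opD (Fin n) C D2 (opD (Fin n) C (D2.map σ) z + opW (Fin n) B (D'.map σ) z) +
          opW (Fin n) B D' (opD (Fin n) C (D2.map σ) z + opW (Fin n) B (D'.map σ) z)) := by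
      rw [map_add, map_add, map_add, map_add, op_comm (D := D2.map σ) (D' := D'),
        op_comm (D := D2) (D' := D'.map σ)]
      have h10 : opW (Fin n) B (D'.map σ) (opW (Fin n) B D' z) =
          opW (Fin n) B D' (opW (Fin n) B (D'.map σ) z) := sub_eq_zero.1 h6
      rw [h10]
      abel
    rw [h9]
    exact h4
  -- the space of the conjugates
  let 𝔞 : Submodule ℂ (Matrix B B ℂ) := Submodule.span ℂ {X | ∃ σ : ℂ ≃+* ℂ, X = D2.map σ}
  have hac : 𝔞 ≤ cmpl D (stb D V) := by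
    refine Submodule.span_le.2 ?_
    rintro _ ⟨σ, rfl⟩
    exact hc.gal σ _ hD2
  have haD2 : ∀ X ∈ 𝔞, D2 * X - X * D2 = 0 := by
    intro X hX
    induction hX using Submodule.span_induction with
    | mem X hX =>
      obtain ⟨σ, rfl⟩ := hX
      exact hcomm σ
    | zero => simp
    | add X Y _ _ h1 h2 =>
      have h3 : D2 * (X + Y) - (X + Y) * D2 = (D2 * X - X * D2) + (D2 * Y - Y * D2) := by
        noncomm_ring
      rw [h3, h1, h2, add_zero]
    | smul r X _ h1 =>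
      rw [Matrix.mul_smul, Matrix.smul_mul, ← smul_sub, h1, smul_zero]
  have hagal : ∀ (σ : ℂ ≃+* ℂ), ∀ X ∈ 𝔞, X.map σ ∈ 𝔞 := by
    intro σ X hX
    induction hX using Submodule.span_induction with
    | mem w hw =>
      obtain ⟨τ, rfl⟩ := hw
      refine Submodule.subset_span ⟨τ.trans σ, ?_⟩
      ext i j
      rfl
    | zero =>
      have h3 : (0 : Matrix B B ℂ).map σ = 0 := Matrix.map_zero _ (map_zero σ)
      rw [h3]
      exact Submodule.zero_mem _
    | add x y _ _ hx hy =>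
      have h3 : (x + y).map σ = x.map σ + y.map σ := Matrix.map_add _ (map_add σ) _ _
      rw [h3]
      exact Submodule.add_mem _ hx hy
    | smul c x _ hx =>
      have h3 : (c • x).map σ = σ c • x.map σ := by
        ext i j
        simp
      rw [h3]
      exact Submodule.smul_mem _ _ hx
  have ha : GalD D 𝔞 :=
    { le := fun X hX => (hac hX).1
      gal := hagal
      dn := by
        intro X hX
        have h1 : D * X - X * D = (D1 * X - X * D1) + (D2 * X - X * D2) := by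
          conv_lhs => rw [hDD]
          noncomm_ring
        rw [h1, h.cmpl_bracket hk hD1 (hac hX), haD2 X hX, add_zero]
        exact Submodule.zero_mem _ }
  have hab : ∀ X ∈ 𝔞, ∀ Y ∈ 𝔞, X * Y - Y * X = 0 := by
    intro X hX Y hY
    induction hX using Submodule.span_induction with
    | mem X hX =>
      obtain ⟨σ, rfl⟩ := hX
      have h1 := haD2 _ (hagal σ.symm Y hY)
      have h2 : (D2 * Y.map σ.symm - Y.map σ.symm * D2).map σ = (0 : Matrix B B ℂ).map σ := by
        rw [h1]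
      have h3 : (Y.map σ.symm).map σ = Y := by
        ext i j
        simp
      rw [Matrix.map_sub _ (map_sub σ), Matrix.map_mul, Matrix.map_mul, h3,
        Matrix.map_zero _ (map_zero σ)] at h2
      exact h2
    | zero => simp
    | add X X' _ _ h1 h2 =>
      have h3 : (X + X') * Y - Y * (X + X') = (X * Y - Y * X) + (X' * Y - Y * X') := by
        noncomm_ring
      rw [h3, h1, h2, add_zero]
    | smul r X _ h1 =>
      rw [Matrix.mul_smul, Matrix.smul_mul, ← smul_sub, h1, smul_zero]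
  have hD20 : D2 = 0 := by
    have hmem : D2 ∈ 𝔞 := by
      refine Submodule.subset_span ⟨RingEquiv.refl ℂ, ?_⟩
      ext i j
      rfl
    refine h.nd ha hmem fun Y hY => ?_
    rw [hS 𝔞 𝔞 ha.le ha.le (fun X hX Y hY => h.ideal ha hX hY) (fun X hX Y hY => h.ideal ha hX hY)
      hab D2 hmem Y hY, trace_zero]
  rw [hD20, add_zero] at hDD
  intro z hz
  have h1 := hD1.2 z hz
  rwa [← hDD] at h1

end stab

end

end Pool.Agent.TH131.GHC
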