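import Mathlib
import Pool.Agent.TH131.GHC.Ind3
import Pool.Agent.TH131.GHC.Fin
import Pool.Agent.TH125.SmallDefs
import Pool.Agent.W548.Odd.VG
import Pool.Agent.W548.Odd.Simp

/-!
# Independence of very general members of families and a fixed Hodge structure
-/

set_option linter.unusedSectionVars false

namespace Pool.Agent.TH131.GHC

open Matrix Equiv Module Pool.Agent.H204R3.SP Pool.Agent.H204R3.CM Pool.Agent.W437.HC
  Pool.Agent.W437.HD Pool.Agent.W437.HP Pool.Agent.W437.HR Pool.Agent.W548.Odd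
  Pool.Agent.TH125.Small

noncomputable section

section inj

variable {g : ℕ}

/-- The Hodge operator determines the period matrix. -/
theorem DZ_inj {Z Z' : Matrix (Fin g) (Fin g) ℂ} (hY : IsUnit (imM Z).det)
    (hY' : IsUnit (imM Z').det) (h : DZ Z = DZ Z') : Z = Z' := by
  have h1 : JR Z = JR Z' := by
    have h2 : (JR Z).map (fun x : ℝ => (x : ℂ)) = (JR Z').map (fun x : ℝ => (x : ℂ)) := by
      have h3 := congrArg (fun M => Complex.I • M) h
      simp only [DZ, smul_smul] at h3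
      rwa [show Complex.I * -Complex.I = 1 by simp, one_smul, one_smul] at h3
    ext i j
    have h3 := congrFun (congrFun h2 i) j
    simp only [Matrix.map_apply] at h3
    exact_mod_cast h3
  unfold JR at h1
  rw [fromBlocks_inj] at h1
  obtain ⟨-, -, h2, h3⟩ := h1
  have h4 : imM Z = imM Z' := by
    rw [← nonsing_inv_nonsing_inv _ hY, ← nonsing_inv_nonsing_inv _ hY', h2]
  have h5 : reM Z = reM Z' := by
    have h6 : imM Z * ((imM Z)⁻¹ * reM Z) = imM Z' * ((imM Z')⁻¹ * reM Z') := by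
      rw [h3, h4]
    rwa [← Matrix.mul_assoc, ← Matrix.mul_assoc, mul_nonsing_inv _ hY, mul_nonsing_inv _ hY',
      Matrix.one_mul, Matrix.one_mul] at h6
  ext i j
  exact Complex.ext (congrFun (congrFun h5 i) j) (congrFun (congrFun h4 i) j)

end inj

section gen

variable {ι : Type} [Fintype ι] [DecidableEq ι] {g : ι → ℕ}
  (Z : ∀ i, Matrix (Fin (g i)) (Fin (g i)) ℂ) {C : Type*} [Fintype C] [DecidableEq C]

theorem pmT_DZ (hZ : ∀ i, (Z i)ᵀ = Z i) (hpos : ∀ i, (imM (Z i)).PosDef) (i : ι) :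
    DZ (bigD ℂ Z) * (cK ℂ (pm g ℚ i))ᵀ = (cK ℂ (pm g ℚ i))ᵀ * DZ (Z i) := by
  have h1 := (blocksOf Z hZ hpos).mul_inc (D_mem (DZ (bigD ℂ Z))) i
  rw [(blocksOf Z hZ hpos).bl_D i] at h1
  exact h1

theorem pm_sameC (i : ι) : cK ℂ (pm g ℚ i) * (cK ℂ (pm g ℚ i))ᵀ = 1 := by
  rw [cK_pm, pm_same]

theorem pm_totC : ∑ i, (cK ℂ (pm g ℚ i))ᵀ * cK ℂ (pm g ℚ i) = 1 := by
  simp only [cK_pm]
  exact pm_tot ℂ

theorem exists_bl (hZ : ∀ i, (Z i)ᵀ = Z i) (hpos : ∀ i, (imM (Z i)).PosDef) (i : ι)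
    {X : Matrix (Fin (NB g) ⊕ Fin (NB g)) (Fin (NB g) ⊕ Fin (NB g)) ℂ}
    (hX : X ∈ lieM (DZ (bigD ℂ Z)) ℂ) : ∃ Y ∈ lieM (DZ (Z i)) ℂ,
      X * (cK ℂ (pm g ℚ i))ᵀ = (cK ℂ (pm g ℚ i))ᵀ * Y ∧
      cK ℂ (pm g ℚ i) * X = Y * cK ℂ (pm g ℚ i) :=
  ⟨_, (blocksOf Z hZ hpos).bl_mem hX i, (blocksOf Z hZ hpos).mul_inc hX i,
    (blocksOf Z hZ hpos).prj_mul hX i⟩

/-- **Independence** in the very general case. -/
theorem indep_generic (hZ : ∀ i, (Z i)ᵀ = Z i) (hpos : ∀ i, (imM (Z i)).PosDef)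
    (hp : ∀ i, HasPcs (DZ (Z i))) (hs : ∀ i, IsSimpleAV (Z i)) {D' : Matrix C C ℂ}
    (hgen : ∀ (n : ℕ) (V : Submodule ℚ ((Fin n → Fin (NB g) ⊕ Fin (NB g)) × C → ℚ)),
      (∀ z ∈ cxX V, opD (Fin n) C (DZ (bigD ℂ Z)) z +
        opW (Fin n) (Fin (NB g) ⊕ Fin (NB g)) D' z ∈ cxX V) →
      ∀ i, ∃ Z' : ∀ i, Matrix (Fin (g i)) (Fin (g i)) ℂ, (∀ i, (Z' i)ᵀ = Z' i) ∧
        (∀ i, (imM (Z' i)).PosDef) ∧ DZ (bigD ℂ Z') ∈ lieM (DZ (bigD ℂ Z)) ℂ ∧
        (∀ z ∈ cxX V, opD (Fin n) C (DZ (bigD ℂ Z')) z +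
          opW (Fin n) (Fin (NB g) ⊕ Fin (NB g)) D' z ∈ cxX V) ∧ Z' i ≠ Z i) :
    Indep (DZ (bigD ℂ Z)) D' := by
  intro n V hV
  replace hV : ∀ z ∈ cxX V, opD (Fin n) C (DZ (bigD ℂ Z)) z +
    opW (Fin n) (Fin (NB g) ⊕ Fin (NB g)) D' z ∈ cxX V := hV
  have h : PolH (DZ (bigD ℂ Z)) := polOf (bigD_symm hZ) (imM_bigD_posDef Z hpos)
  have hS : Simp (DZ (bigD ℂ Z)) := simp_prod Z hZ hpos hp
  have hbl := fun i X hX => exists_bl Z hZ hpos i (X := X) hX
  have hpT := pmT_DZ Z hZ hpos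
  obtain ⟨D, hDdef⟩ : ∃ D, D = DZ (bigD ℂ Z) := ⟨_, rfl⟩
  rw [← hDdef] at h hS hV hbl hpT ⊢
  have hk : GalD D (stb D V) := stb_galD hV
  -- the vectors killed by the algebra
  let C0 : Submodule ℂ (Fin (NB g) ⊕ Fin (NB g) → ℂ) :=
    { carrier := {v | ∀ X ∈ stb D V, X *ᵥ v = 0}
      zero_mem' := fun X _ => mulVec_zero _
      add_mem' := fun {x y} hx hy X hX => by rw [mulVec_add, hx X hX, hy X hX, add_zero]
      smul_mem' := fun r x hx X hX => by rw [mulVec_smul, hx X hX, smul_zero] }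
  have hblk : ∀ i, ∀ v : Fin (g i) ⊕ Fin (g i) → ℂ, (cK ℂ (pm g ℚ i))ᵀ *ᵥ v ∈ C0 → v = 0 := by
    intro i
    let Ci : Submodule ℂ (Fin (g i) ⊕ Fin (g i) → ℂ) := C0.comap (mulVecLin (cK ℂ (pm g ℚ i))ᵀ)
    have hCi : ∀ v, v ∈ Ci ↔ ∀ X ∈ stb D V, X *ᵥ ((cK ℂ (pm g ℚ i))ᵀ *ᵥ v) = 0 :=
      fun v => Iff.rfl
    have hbot : Ci = ⊥ := by
      by_contra hne
      have htop := stable_eq_top ((hpos i).isUnit.map Matrix.detMonoidHom) (hs i) Ci ?_ ?_ hne
      · obtain ⟨Z', hZ', hpos', hm, hst, hneq⟩ := hgen n V (by rw [← hDdef]; exact hV) i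
        rw [← hDdef] at hm
        apply hneq
        refine DZ_inj ((hpos' i).isUnit.map Matrix.detMonoidHom)
          ((hpos i).isUnit.map Matrix.detMonoidHom) ?_
        have h1 : DZ (bigD ℂ Z') - D ∈ stb D V := by
          refine ⟨Submodule.sub_mem _ hm (D_mem D), fun z hz => ?_⟩
          have h2 := Submodule.sub_mem _ (hst z hz) (hV z hz)
          have h3 : opD (Fin n) C (DZ (bigD ℂ Z') - D) z = opD (Fin n) C (DZ (bigD ℂ Z')) z -
              opD (Fin n) C D z := by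
            rw [sub_eq_add_neg, opD_add, ← neg_one_smul ℂ D, opD_smul, neg_one_smul,
              ← sub_eq_add_neg]
          rw [h3]
          rwa [add_sub_add_right_eq_sub] at h2
        have h2 : (DZ (bigD ℂ Z') - D) * (cK ℂ (pm g ℚ i))ᵀ = 0 := by
          ext x y
          have h3 : (Pi.single y 1 : Fin (g i) ⊕ Fin (g i) → ℂ) ∈ Ci := by
            rw [htop]
            trivial
          rw [hCi] at h3
          have h4 := congrFun (h3 _ h1) x
          rw [mulVec_mulVec, mulVec_single_one] at h4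
          exact h4
        rw [Matrix.sub_mul, pmT_DZ Z' hZ' hpos', hpT, ← Matrix.mul_sub] at h2
        have h3 : cK ℂ (pm g ℚ i) * ((cK ℂ (pm g ℚ i))ᵀ * (DZ (Z' i) - DZ (Z i))) = 0 := by
          rw [h2, Matrix.mul_zero]
        rw [← Matrix.mul_assoc, pm_sameC, Matrix.one_mul, sub_eq_zero] at h3
        exact h3
      · intro σ v hv
        rw [hCi] at hv ⊢
        intro X hX
        have h1 := hv _ (hk.gal σ.symm X hX)
        funext x
        have h2 := congrArg σ (congrFun h1 x)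
        rw [Pi.zero_apply, map_zero] at h2
        rw [Pi.zero_apply, ← h2]
        simp [mulVec, dotProduct, cK, map_sum]
      · intro v hv
        rw [hCi] at hv ⊢
        intro X hX
        have h1 : (cK ℂ (pm g ℚ i))ᵀ *ᵥ (DZ (Z i) *ᵥ v) = D *ᵥ ((cK ℂ (pm g ℚ i))ᵀ *ᵥ v) := by
          rw [mulVec_mulVec, mulVec_mulVec, hpT]
        rw [h1, mulVec_mulVec]
        have h2 : X * D = D * X + (X * D - D * X) := by abel
        have h3 : X * D - D * X ∈ stb D V := h.ideal hk hX (D_mem D)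
        rw [h2, add_mulVec, ← mulVec_mulVec, hv X hX, mulVec_zero, hv _ h3, add_zero]
    intro v hv
    have h1 : v ∈ Ci := hv
    rwa [hbot, Submodule.mem_bot] at h1
  have hC0 : ∀ v ∈ C0, v = 0 := by
    intro v hv
    have h1 : v = ∑ i, (cK ℂ (pm g ℚ i))ᵀ *ᵥ (cK ℂ (pm g ℚ i) *ᵥ v) := by
      conv_lhs => rw [← one_mulVec v, ← pm_totC, sum_mulVec]
      exact Finset.sum_congr rfl fun i _ => (mulVec_mulVec _ _ _).symm
    rw [h1]
    refine Finset.sum_eq_zero fun i _ => ?_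
    rw [hblk i (cK ℂ (pm g ℚ i) *ᵥ v), mulVec_zero]
    intro X hX
    obtain ⟨Y, -, h2, h3⟩ := hbl i X hX.1
    rw [mulVec_mulVec, h2, ← mulVec_mulVec, mulVec_mulVec _ Y, ← h3,
      ← mulVec_mulVec _ (cK ℂ (pm g ℚ i)), hv X hX, mulVec_zero, mulVec_zero]
  -- the complement is zero
  obtain ⟨D1, hD1, hD2⟩ := h.cmpl_sum hk (D_mem D)
  have hc := h.cmpl_galD hk
  have h5 : D - D1 = 0 := by
    have h6 : ∀ v, (D - D1) *ᵥ v = 0 := by
      intro v
      apply hC0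
      intro X hX
      rw [mulVec_mulVec, hS (stb D V) (cmpl D (stb D V)) hk.le hc.le
        (fun X hX Y hY => h.ideal hk hX hY) (fun X hX Y hY => h.ideal hc hX hY)
        (fun X hX Y hY => h.cmpl_bracket hk hX hY) X hX _ hD2, zero_mulVec]
    ext x y
    have h7 := congrFun (h6 (Pi.single y 1)) x
    rw [mulVec_single_one] at h7
    exact h7
  rw [sub_eq_zero] at h5
  intro z hz
  have h1 := hD1.2 z hz
  rwa [← h5] at h1

end gen

end

end Pool.Agent.TH131.GHC
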