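import Mathlib
import Pool.Agent.TH131.GHC.Ind4
import Pool.Agent.W437.HQ.Endo

/-!
# Independence of very general members of families: the exceptional set
-/

set_option linter.unusedSectionVars false

namespace Pool.Agent.TH131.GHC

open Matrix Equiv Module Pool.Agent.H204R3.SP Pool.Agent.H204R3.CM Pool.Agent.W437.HC
  Pool.Agent.W437.HD Pool.Agent.W437.HP Pool.Agent.W437.HR Pool.Agent.W548.Odd
  Pool.Agent.TH125.Small

noncomputable section

section const

variable {g : ℕ}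

/-- A unipotent automorphism of a polarized abelian variety is trivial. -/
theorem unip_trivial {Z : Matrix (Fin g) (Fin g) ℂ} (hZ : Zᵀ = Z) (hpos : (imM Z).PosDef)
    {γ : Matrix (Fin g ⊕ Fin g) (Fin g ⊕ Fin g) ℚ} {C : Matrix (Fin g) (Fin g) ℂ}
    (h1 : γᵀ * Om g ℚ * γ = Om g ℚ)
    (h2 : Pool.Agent.W437.HQ.IsEndo Z γ C) (h3 : (γ - 1) * (γ - 1) = 0) : γ = 1 := by
  have hY : IsUnit (imM Z).det := hpos.isUnit.map Matrix.detMonoidHom
  obtain ⟨γR, hγR⟩ : ∃ γR : Matrix (Fin g ⊕ Fin g) (Fin g ⊕ Fin g) ℝ,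
    γR = γ.map (fun x : ℚ => (x : ℝ)) := ⟨_, rfl⟩
  have hJ : JR Z * γR = γR * JR Z := by
    have h5 := Pool.Agent.W437.HQ.endo_comm hY h2
    have hq : Pool.Agent.W437.HQ.cq γ = cm γR := by
      ext i j
      simp [Pool.Agent.W437.HQ.cq, cm, hγR]
    have hD : DZ Z = (-Complex.I) • cm (JR Z) := rfl
    rw [hq, hD, Matrix.mul_smul, Matrix.smul_mul, ← cm_mul, ← cm_mul] at h5
    have h7 := congrArg (fun X => Complex.I • X) h5
    simp only [smul_smul] at h7
    rw [show Complex.I * -Complex.I = 1 by simp, one_smul, one_smul] at h7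
    ext i j
    have h8 := congrFun (congrFun h7 i) j
    simp only [cm, Matrix.map_apply] at h8
    exact_mod_cast h8.symm
  have hOm : γRᵀ * Om g ℝ * γR = Om g ℝ := by
    have h5 := congrArg (fun M => M.map (Rat.castHom ℝ)) h1
    simp only [Matrix.map_mul] at h5
    have h6 : (Om g ℚ).map (Rat.castHom ℝ) = Om g ℝ := Om_map ℝ
    rw [h6] at h5
    rw [hγR]
    exact h5
  have hG : γRᵀ * (Om g ℝ * JR Z) * γR = Om g ℝ * JR Z := by
    rw [← Matrix.mul_assoc, Matrix.mul_assoc _ (JR Z), hJ, ← Matrix.mul_assoc, hOm]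
  have hN : (γR - 1) * (γR - 1) = 0 := by
    have h5 := congrArg (fun M => M.map (Rat.castHom ℝ)) h3
    simp only [Matrix.map_mul] at h5
    have h6 : (γ - 1).map (Rat.castHom ℝ) = γR - 1 := by
      rw [hγR]
      ext i j
      by_cases hij : i = j
      · subst hij
        simp
      · simp [hij]
    have h7 : (0 : Matrix (Fin g ⊕ Fin g) (Fin g ⊕ Fin g) ℚ).map (Rat.castHom ℝ) = 0 := by
      ext i j
      simp
    rw [h6, h7] at h5
    exact h5
  obtain ⟨N, hNdef⟩ : ∃ N, N = γR - 1 := ⟨_, rfl⟩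
  obtain ⟨G, hGdef⟩ : ∃ G, G = Om g ℝ * JR Z := ⟨_, rfl⟩
  have hγN : γR = N + 1 := by rw [hNdef, sub_add_cancel]
  rw [← hNdef] at hN
  rw [← hGdef, hγN, transpose_add, transpose_one] at hG
  have h5 : (Nᵀ + 1) * G * (N + 1) = Nᵀ * G * N + Nᵀ * G + G * N + G := by noncomm_ring
  rw [h5] at hG
  have h6 : (Nᵀ * G * N + Nᵀ * G + G * N) * N = 0 := by
    have h7 : Nᵀ * G * N + Nᵀ * G + G * N = 0 := by
      have h8 := congrArg (fun M => M - G) hG
      simp only [add_sub_cancel_right, sub_self] at h8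
      exact h8
    rw [h7, Matrix.zero_mul]
  have h7 : Nᵀ * G * N = 0 := by
    have h8 : (Nᵀ * G * N + Nᵀ * G + G * N) * N = Nᵀ * G * (N * N) + Nᵀ * G * N + G * (N * N) := by
      noncomm_ring
    rw [h8, hN, Matrix.mul_zero, Matrix.mul_zero, zero_add, add_zero] at h6
    exact h6
  have hpd : G.PosDef := by
    rw [hGdef]
    exact OmJ_posDef hZ hpos
  have hN0 : N = 0 := by
    have h8 : ∀ x, N *ᵥ x = 0 := by
      intro x
      by_contra hx
      have h9 := hpd.dotProduct_mulVec_pos hx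
      rw [star_trivial] at h9
      have h10 : (N *ᵥ x) ⬝ᵥ (G *ᵥ (N *ᵥ x)) = x ⬝ᵥ ((Nᵀ * G * N) *ᵥ x) := by
        rw [← mulVec_mulVec, ← mulVec_mulVec, dotProduct_mulVec x, vecMul_transpose]
      rw [h10, h7, zero_mulVec, dotProduct_zero] at h9
      exact lt_irrefl _ h9
    ext x y
    have h9 := congrFun (h8 (Pi.single y 1)) x
    rw [mulVec_single_one] at h9
    exact h9
  have h8 : γR = 1 := by rw [hγN, hN0, zero_add]
  ext i j
  have h9 := congrFun (congrFun h8 i) j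
  rw [hγR, Matrix.map_apply] at h9
  by_cases hij : i = j
  · subst hij
    rw [Matrix.one_apply_eq] at h9 ⊢
    exact_mod_cast h9
  · rw [Matrix.one_apply_ne hij] at h9 ⊢
    exact_mod_cast h9

/-- The period matrices of a small family are not all equal. -/
theorem nonconst {U : Set ℂ} (hU : IsOpen U) {Z : ℂ → Matrix (Fin g) (Fin g) ℂ}
    (h : IsSmallFamily U Z) : ∀ t ∈ U, ∃ s ∈ U, Z s ≠ Z t := by
  intro t ht
  by_contra hcon
  push Not at hcon
  obtain ⟨hol, hper, ⟨s0, hs0, -⟩, r, hr, hodd⟩ := h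
  have hr0 : r ≠ 0 := by
    rintro rfl
    rcases hodd with h | ⟨h, -⟩
    · exact absurd h (by decide)
    · omega
  apply hr0
  rcases hr with ⟨γ, ⟨hγ, hm⟩, h2, rfl⟩ | ⟨s, hs, rfl⟩ | ⟨s, hs, s', hs', rfl⟩
  · obtain ⟨t', ht', C, hC⟩ := hm t ht
    rw [hcon t' ht'] at hC
    have h1 : γ = 1 := unip_trivial (hper t ht).1 (hper t ht).2 hγ hC h2
    rw [h1, sub_self, rank_zero]
  · have h1 : (Matrix.of fun i j => deriv (fun t => Z t i j) s) = 0 := by
      ext i j
      change deriv (fun t => Z t i j) s = 0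
      have h2 : (fun t => Z t i j) =ᶠ[nhds s] fun _ => Z t i j := by
        filter_upwards [hU.mem_nhds hs] with s' hs'
        rw [hcon s' hs']
      rw [h2.deriv_eq]
      exact deriv_const s (Z t i j)
    rw [h1, rank_zero]
  · rw [hcon s hs, hcon s' hs', sub_self, rank_zero]

end const

section fam

variable {ι : Type} [Fintype ι] [DecidableEq ι] {g : ι → ℕ}

instance countable_subQ (X : Type*) [Finite X] : Countable (Submodule ℚ (X → ℚ)) := by
  have : Fintype X := Fintype.ofFinite X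
  have : Countable (X → ℚ) := inferInstance
  have h : ∀ V : Submodule ℚ (X → ℚ), ∃ S : Finset (X → ℚ),
      Submodule.span ℚ (S : Set (X → ℚ)) = V := fun V => IsNoetherian.noetherian V
  choose f hf using h
  exact Function.Injective.countable (f := f) fun V V' h => by rw [← hf V, ← hf V', h]

/-- The members of small families outside of a countable set. -/
theorem exists_indep {U : Set ℂ} (hU : IsOpen U) (hc : IsPreconnected U)
    (Z : ∀ i, ℂ → Matrix (Fin (g i)) (Fin (g i)) ℂ) (hsmall : ∀ i, IsSmallFamily U (Z i))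
    {v : ℕ} (D' : Matrix (Fin v) (Fin v) ℂ) :
    ∃ E : Set ℂ, E.Countable ∧ ∀ t ∈ U, t ∉ E → (∀ i, HasPcs (DZ (Z i t))) ∧
      Indep (DZ (bigD ℂ (fun i => Z i t))) D' := by
  classical
  choose E1 hE1 hE1t using fun i => exists_pcs hU hc (hsmall i)
  have hper := fun i => (hsmall i).2.1
  have hsymm : ∀ t ∈ U, ∀ i, (Z i t)ᵀ = Z i t := fun t ht i => (hper i t ht).1
  have hpos : ∀ t ∈ U, ∀ i, (imM (Z i t)).PosDef := fun t ht i => (hper i t ht).2
  obtain ⟨E2, hE2, hE2t⟩ := exists_exceptional hU hc (fun t => bigD ℂ (fun i => Z i t)) (by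
    intro k l
    simp only [bigD, Matrix.sum_apply, Matrix.mul_apply, Finset.sum_mul]
    refine DifferentiableOn.fun_sum fun i _ => ?_
    refine DifferentiableOn.fun_sum fun x _ => ?_
    refine DifferentiableOn.fun_sum fun y _ => ?_
    exact (((hsmall i).1 y x).const_mul _).mul_const _)
    (fun t ht => (imM_bigD_posDef _ (hpos t ht)).isUnit.map Matrix.detMonoidHom)
  let T : Type := Σ n : ℕ, Submodule ℚ ((Fin n → Fin (NB g) ⊕ Fin (NB g)) × Fin v → ℚ)
  let Sv : T → Set ℂ := fun p => {t | t ∈ U ∧ ∀ z ∈ cxX p.2,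
    opD (Fin p.1) (Fin v) (DZ (bigD ℂ (fun i => Z i t))) z +
      opW (Fin p.1) (Fin (NB g) ⊕ Fin (NB g)) D' z ∈ cxX p.2}
  refine ⟨(⋃ i, E1 i) ∪ E2 ∪ ⋃ (p : {p : T // (Sv p).Countable}), Sv p.1, ?_, ?_⟩
  · refine (Set.Countable.union (Set.countable_iUnion hE1) hE2).union ?_
    exact Set.countable_iUnion fun p => p.2
  · intro t ht htE
    rw [Set.mem_union, Set.mem_union, Set.mem_iUnion, Set.mem_iUnion] at htE
    push Not at htE
    obtain ⟨⟨ht1, ht2⟩, ht3⟩ := htE
    have hp : ∀ i, HasPcs (DZ (Z i t)) := fun i => hE1t i t ht (ht1 i)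
    refine ⟨hp, indep_generic (fun i => Z i t) (hsymm t ht) (hpos t ht) hp ?_ ?_⟩
    · intro i
      obtain ⟨s, hs, hsim⟩ := (hsmall i).2.2.1
      refine simple_of_mem (hsymm t ht i) (hpos t ht i) (hpos s hs i) ?_ hsim
      obtain ⟨Y, hY, h1, -⟩ := exists_bl (fun i => Z i t) (hsymm t ht) (hpos t ht) i
        (hE2t t ht ht2 s hs)
      have h2 := pmT_DZ (fun i => Z i s) (hsymm s hs) (hpos s hs) i
      rw [h1] at h2
      have h3 : cK ℂ (pm g ℚ i) * ((cK ℂ (pm g ℚ i))ᵀ * Y) =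
          cK ℂ (pm g ℚ i) * ((cK ℂ (pm g ℚ i))ᵀ * DZ (Z i s)) := by rw [h2]
      rw [← Matrix.mul_assoc, ← Matrix.mul_assoc, pm_sameC, Matrix.one_mul, Matrix.one_mul] at h3
      rw [← h3]
      exact hY
    · intro n V hV i
      have hunc : ¬ (Sv ⟨n, V⟩).Countable := by
        intro h1
        exact ht3 ⟨⟨n, V⟩, h1⟩ ⟨ht, hV⟩
      have hcount : {s | s ∈ U ∧ Z i s = Z i t}.Countable := by
        obtain ⟨s, hs, hst⟩ := nonconst hU (hsmall i) t ht
        obtain ⟨k, l, hkl⟩ : ∃ k l, Z i s k l ≠ Z i t k l := by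
          by_contra hcon
          push Not at hcon
          exact hst (by ext k l; exact hcon k l)
        have h1 := countable_zero (f := fun s => Z i s k l - Z i t k l) hU hc
          (((hsmall i).1 k l).sub_const _) ⟨s, hs, sub_ne_zero.2 hkl⟩
        refine h1.mono ?_
        rintro s ⟨hs, hst⟩
        exact ⟨hs, by rw [hst, sub_self]⟩
      obtain ⟨s, hsV, hsn⟩ : ∃ s ∈ Sv ⟨n, V⟩, s ∉ {s | s ∈ U ∧ Z i s = Z i t} := by
        by_contra hcon
        push Not at hcon
        exact hunc (hcount.mono hcon)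
      refine ⟨fun i => Z i s, hsymm s hsV.1, hpos s hsV.1, hE2t t ht ht2 s hsV.1, hsV.2, ?_⟩
      intro h1
      exact hsn ⟨hsV.1, h1⟩

end fam

end

end Pool.Agent.TH131.GHC
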