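import Mathlib
import Pool.Agent.TH131.GHC.Rel6

/-!
# The generalized Hodge conjecture for the product of a complex torus and a variety: coordinates
-/

set_option linter.unusedSectionVars false

namespace Pool.Agent.TH131.GHC

open Matrix Equiv Pool.Agent.H204R3.CM Pool.Agent.H204R3.SP Pool.Agent.H204R3.GH
  Pool.Agent.W437.HC Pool.Agent.W437.HD Pool.Agent.W437.HP Pool.Agent.W546.GHC

noncomputable section

variable {W T : Type*} [AddCommGroup W] [Module ℚ W] [AddCommGroup T] [Module ℂ T]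
  {per : W →+ T} {B : Type*} [Fintype B] [DecidableEq B] {J : Matrix B B ℝ} {ν : Type}
  [Fintype ν] [DecidableEq ν] (Fr : Frame per J ν) {v : ℕ}

section coord

variable {k : ℕ}

/-- The coordinates of a form with values. -/
def Frame.cfC (σ : Fin k → ν) :
    (W [⋀^Fin k]→ₗ[ℚ] (Fin v → ℚ)) →ₗ[ℚ] ((Fin k → B) × Fin v → ℚ) where
  toFun f := fun p => f (fun l => Fr.s (σ l) (Pi.single (p.1 l) 1)) p.2
  map_add' f g := by
    funext I
    rfl
  map_smul' r f := by
    funext I
    rfl

/-- The coordinates of a complex form with values. -/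
def Frame.thC (σ : Fin k → ν) :
    (T [⋀^Fin k]→ₗ[ℝ] (Fin v → ℂ)) →ₗ[ℂ] ((Fin k → B) × Fin v → ℂ) where
  toFun ψ := fun p => ψ (fun l => Fr.sR (σ l) (Pi.single (p.1 l) 1)) p.2
  map_add' f g := by
    funext I
    rfl
  map_smul' r f := by
    funext I
    rfl

/-- A component of a form with values. -/
def cmp (c : Fin v) (f : W [⋀^Fin k]→ₗ[ℚ] (Fin v → ℚ)) : W [⋀^Fin k]→ₗ[ℚ] ℚ :=
  (LinearMap.proj c : (Fin v → ℚ) →ₗ[ℚ] ℚ).compAlternatingMap f

theorem cmp_apply (c : Fin v) (f : W [⋀^Fin k]→ₗ[ℚ] (Fin v → ℚ)) (w : Fin k → W) :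
    cmp c f w = f w c := rfl

theorem Frame.sl_cfC (σ : Fin k → ν) (f : W [⋀^Fin k]→ₗ[ℚ] (Fin v → ℚ)) (c : Fin v) :
    sl c (Fr.cfC σ f) = Fr.cf σ (cmp c f) := rfl

theorem Frame.thC_of_ext (σ : Fin k → ν) {ψ : T [⋀^Fin k]→ₗ[ℝ] (Fin v → ℂ)}
    {f : W [⋀^Fin k]→ₗ[ℚ] (Fin v → ℚ)}
    (h : ∀ w : Fin k → W, ψ (fun l => per (w l)) = cv (f w)) :
    Fr.thC σ ψ = cstX (Fr.cfC σ f) := by
  funext p
  change ψ (fun l => Fr.sR (σ l) (Pi.single (p.1 l) 1)) p.2 =
    ((f (fun l => Fr.s (σ l) (Pi.single (p.1 l) 1)) p.2 : ℚ) : ℂ)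
  have h1 := congrFun (h (fun l => Fr.s (σ l) (Pi.single (p.1 l) 1))) p.2
  rw [cv] at h1
  rw [← h1]
  refine congrFun (congrArg ψ ?_) p.2
  funext l
  rw [← Fr.sR_per, cast_single]

include Fr in
/-- Every class extends. -/
theorem Frame.exists_extC (t : HAZ W v) : ∃ Φ : HAZC T v, Extends per t Φ := by
  have h1 : ∀ (k : ℕ) (c : Fin v), ∃ ψ : T [⋀^Fin k]→ₗ[ℝ] ℂ, ∀ w : Fin k → W,
      ψ (fun l => per (w l)) = ((cmp c (t k) w : ℚ) : ℂ) := fun k c => Fr.exists_ext _
  choose ψ hψ using h1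
  refine ⟨fun k => AlternatingMap.pi (fun c => ψ k c), fun k w => ?_⟩
  funext c
  exact hψ k c w

variable {D : Matrix B B ℂ} (hD : D = (-Complex.I) • J.map (fun x : ℝ => (x : ℂ)))

include hD in
/-- The coordinates of a class of given type. -/
theorem Frame.thC_type (V : Coh v) (σ : Fin k → ν) {n : ℤ} {Φ : HAZC T v}
    (hΦ : HasType V n Φ) : opD (Fin k) (Fin v) D (Fr.thC σ (Φ k)) +
      opW (Fin k) B V.z (Fr.thC σ (Φ k)) = (n : ℂ) • Fr.thC σ (Φ k) := by
  funext p
  obtain ⟨I, c⟩ := p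
  have h1 := congrFun (hΦ k (fun l => Fr.sR (σ l) (Pi.single (I l) 1))) c
  rw [Pi.add_apply, Pi.smul_apply, Finset.sum_apply, smul_eq_mul] at h1
  rw [Pi.add_apply, Pi.smul_apply]
  change act D (sl c (Fr.thC σ (Φ k))) I + (V.z *ᵥ Φ k
    (fun l => Fr.sR (σ l) (Pi.single (I l) 1))) c = (n : ℂ) • _
  have h2 : act D (sl c (Fr.thC σ (Φ k))) I = -Complex.I * ∑ l, Φ k (Function.update
      (fun l => Fr.sR (σ l) (Pi.single (I l) 1)) l
      (Complex.I • Fr.sR (σ l) (Pi.single (I l) 1))) c := by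
    unfold act
    rw [Finset.mul_sum]
    refine Finset.sum_congr rfl fun l _ => ?_
    rw [← Fr.sR_rot]
    have h3 : J *ᵥ (Pi.single (I l) 1 : B → ℝ) = ∑ j, J j (I l) • (Pi.single j 1 : B → ℝ) := by
      rw [mulVec_single_one]
      funext i
      rw [Finset.sum_apply, Finset.sum_eq_single i]
      · simp
      · intro b _ hb
        rw [Pi.smul_apply, Pi.single_eq_of_ne (Ne.symm hb), smul_zero]
      · intro h
        exact absurd (Finset.mem_univ _) h
    rw [h3, map_sum]
    have h4 : Φ k (Function.update (fun l => Fr.sR (σ l) (Pi.single (I l) 1)) l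
        (∑ j, Fr.sR (σ l) (J j (I l) • Pi.single j 1))) = ∑ j, J j (I l) • Φ k
        (Function.update (fun l => Fr.sR (σ l) (Pi.single (I l) 1)) l
        (Fr.sR (σ l) (Pi.single j 1))) := by
      change (Φ k).toMultilinearMap _ = _
      rw [MultilinearMap.map_update_sum]
      refine Finset.sum_congr rfl fun j _ => ?_
      rw [map_smul, MultilinearMap.map_update_smul]
      rfl
    rw [h4, Finset.sum_apply, Finset.mul_sum]
    refine Finset.sum_congr rfl fun j _ => ?_
    rw [Pi.smul_apply, Complex.real_smul, hD, Matrix.smul_apply, Matrix.map_apply, smul_eq_mul,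
      mul_assoc]
    congr 2
    change Φ k (fun m => Fr.sR (σ m) (Pi.single (Function.update I l j m) 1)) c = _
    refine congrFun (congrArg (Φ k) ?_) c
    funext m
    by_cases hm : m = l
    · subst hm
      rw [Function.update_self, Function.update_self]
    · rw [Function.update_of_ne hm, Function.update_of_ne hm]
  rw [h2]
  exact h1

include hD in
/-- The coordinates of a sub-Hodge structure. -/
theorem Frame.coord_total (V : Coh v) (σ : Fin k → ν) {L : ℤ} {S : Submodule ℚ (HAZ W v)}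
    (hS : SubHS per V L S) :
    ∀ t ∈ S.map ((Fr.cfC σ).comp (LinearMap.proj k)), cstX t ∈ Submodule.span ℂ
      {z | z ∈ cxX (S.map ((Fr.cfC σ).comp (LinearMap.proj k))) ∧ ∃ n : ℤ, |n| ≤ L ∧
        opD (Fin k) (Fin v) D z + opW (Fin k) B V.z z = (n : ℂ) • z} := by
  rintro _ ⟨t, ht, rfl⟩
  obtain ⟨Φ, hΦ⟩ := Fr.exists_extC t
  have h1 : Φ ∈ cplx per S := Submodule.subset_span ⟨t, ht, hΦ⟩
  let θ : HAZC T v →ₗ[ℂ] ((Fin k → B) × Fin v → ℂ) := (Fr.thC σ).comp (LinearMap.proj k)
  have h2 : cplx per S ≤ (cxX (S.map ((Fr.cfC σ).comp (LinearMap.proj k)))).comap θ := by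
    refine Submodule.span_le.2 ?_
    rintro Ψ ⟨s, hs, hΨ⟩
    change Fr.thC σ (Ψ k) ∈ cxX (S.map ((Fr.cfC σ).comp (LinearMap.proj k)))
    rw [Fr.thC_of_ext σ (hΨ k)]
    exact cstX_mem (Submodule.mem_map_of_mem (f := (Fr.cfC σ).comp (LinearMap.proj k)) hs)
  have h3 := hS h1
  have h4 := Submodule.mem_map_of_mem (f := θ) h3
  rw [Submodule.map_span] at h4
  have h5 : θ Φ = cstX ((Fr.cfC σ).comp (LinearMap.proj k) t) := Fr.thC_of_ext σ (hΦ k)
  rw [← h5]
  refine (Submodule.span_le.2 ?_) h4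
  rintro _ ⟨Ψ, ⟨hΨ, n, hn, hΨn⟩, rfl⟩
  apply Submodule.subset_span
  exact ⟨h2 hΨ, n, hn, Fr.thC_type hD V σ hΨn⟩

end coord

section alt

/-- The alternations of the products are combinations of products with divisor classes. -/
theorem altFun_SJ {i j : ℕ} {F : (Fin i → W) → ℚ} (hF : F ∈ Submodule.span ℚ (SJ per j (Fin i))) :
    ∃ g ∈ Submodule.span ℚ (divisorProducts per i j), ∀ v, altFun (R := ℚ) F v = g v := by
  classical
  let K : (W [⋀^Fin i]→ₗ[ℚ] ℚ) →ₗ[ℚ] ((Fin i → W) → ℚ) :=
    { toFun := fun g v => g v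
      map_add' := fun _ _ => rfl
      map_smul' := fun _ _ => rfl }
  have hsub : altFun (R := ℚ) '' (SJ per j (Fin i)) ⊆
      (Submodule.span ℚ (divisorProducts per i j)).map K := by
    rintro _ ⟨_, ⟨k, e, b, η, hb, rfl⟩, rfl⟩
    let A : Fin j → W [⋀^Fin 2]→ₗ[ℚ] ℚ := fun s => MultilinearMap.alternatization (b s)
    let H : W [⋀^Fin k]→ₗ[ℚ] ℚ := MultilinearMap.alternatization η
    let g : W [⋀^Fin i]→ₗ[ℚ] ℚ := MultilinearMap.alternatization
      (prodForm e (fun s => (A s).toMultilinearMap) H.toMultilinearMap)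
    have hg : ∀ v, g v = ∑ σ : Perm (Fin i), ((Perm.sign σ : ℤ) : ℚ) *
        ((∏ s, A s (fun ε => v (σ (e (Sum.inl (s, ε)))))) *
          H (fun r => v (σ (e (Sum.inr r))))) := by
      intro v
      change MultilinearMap.alternatization _ v = _
      rw [MultilinearMap.alternatization_apply]
      refine Finset.sum_congr rfl fun σ _ => ?_
      rw [Units.smul_def, zsmul_eq_mul, MultilinearMap.domDomCongr_apply, prodForm_apply]
      rfl
    have hgT : g ∈ divisorProducts per i j := by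
      refine ⟨k, e, A, H, hb, fun v => ?_⟩
      rw [hg v]
      refine Finset.sum_congr rfl fun σ _ => ?_
      congr 2
      refine Finset.prod_congr rfl fun s _ => ?_
      congr 1
      funext ε
      fin_cases ε <;> rfl
    refine ⟨(((2 : ℚ) ^ j * (k.factorial : ℚ))⁻¹) • g,
      Submodule.smul_mem _ _ (Submodule.subset_span hgT), ?_⟩
    rw [map_smul]
    funext v
    have h2 : (K g) v = ((2 : ℚ) ^ j * (k.factorial : ℚ)) *
        ∑ σ : Perm (Fin i), ((Perm.sign σ : ℤ) : ℚ) *
          ((∏ s, b s (fun ε => v (σ (e (Sum.inl (s, ε)))))) *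
            η (fun r => v (σ (e (Sum.inr r))))) := by
      change g v = _
      rw [hg v]
      exact alt_gen e b η v
    have h6 : (2 : ℚ) ^ j * (k.factorial : ℚ) ≠ 0 :=
      mul_ne_zero (pow_ne_zero _ two_ne_zero) (Nat.cast_ne_zero.2 (Nat.factorial_ne_zero _))
    rw [Pi.smul_apply, h2, smul_eq_mul, ← mul_assoc, inv_mul_cancel₀ h6, one_mul]
    rfl
  have h1 := Submodule.mem_map_of_mem (f := altFun (R := ℚ)) hF
  rw [Submodule.map_span] at h1
  obtain ⟨g, hg, hg'⟩ := (Submodule.span_le.2 hsub) h1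
  exact ⟨g, hg, fun v => (congrFun hg' v).symm⟩

end alt

section zlevel

/-- The Hodge substructures of small level of the values are in the coniveau filtration. -/
theorem FL_le_N {V : Coh v} {N : ℕ → Submodule ℚ (Fin v → ℚ)} (hN : GHCZ V N) (e j : ℕ)
    {l : ℤ} (hl : l = (e : ℤ) - 2 * j) {D0 : Submodule ℚ (Fin v → ℚ)}
    (hD0 : ∀ x ∈ D0, ∀ b, x b ≠ 0 → V.dg b = e) : FL V.z D0 l ≤ N j := by
  refine hN.2 e j _ (fun x hx => hD0 x (FL_le l hx)) ?_
  intro x hx
  have h1 := LevW_FL (D' := V.z) (D0 := D0) l x hx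
  refine (iSup_le ?_ : (⨆ b : {b : ℤ // |b| ≤ l}, cxX (FL V.z D0 l) ⊓ eigW V.z b.1) ≤ _) h1
  rintro ⟨n, hn⟩ y ⟨hy1, hy2⟩
  refine Submodule.subset_span ⟨hy1, n, ?_, hy2⟩
  rw [← hl]
  exact hn

end zlevel

section main

variable {D : Matrix B B ℂ}

include Fr in
/-- **The generalized Hodge conjecture for the product of a complex torus and a variety**, in
coordinates. -/
theorem Frame.rel (h : PolH D) (hcore : CoreP D)
    (hMS : ∀ (m : ℕ) (c : (Fin m × Fin 2 → B) → ℚ), IsH D c → c ∈ MS D m)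
    (hD : D = (-Complex.I) • J.map (fun x : ℝ => (x : ℂ))) (hJ : J * J = -1)
    (V : Coh v) (hInd : Indep D V.z) {N : ℕ → Submodule ℚ (Fin v → ℚ)} (hN : GHCZ V N)
    (i j : ℕ) (S : Submodule ℚ (HAZ W v))
    (hdeg : ∀ t ∈ S, ∀ (k : ℕ) (w : Fin k → W) (b : Fin v), t k w b ≠ 0 → k + V.dg b = i)
    (hS : SubHS per V ((i : ℤ) - 2 * j) S) : S ≤ divConiveau per N j := by
  classical
  intro t ht
  -- the Künneth components
  have hzero : ∀ k, i < k → t k = 0 := by
    intro k hk
    refine AlternatingMap.ext fun w => ?_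
    funext b
    by_contra h0
    have := hdeg t ht k w b h0
    omega
  have hsum : t = ∑ k ∈ Finset.range (i + 1), (Pi.single k (t k) : HAZ W v) := by
    funext k
    rw [Finset.sum_apply]
    by_cases hk : k ∈ Finset.range (i + 1)
    · rw [Finset.sum_eq_single k]
      · rw [Pi.single_eq_same]
      · intro l _ hl
        exact Pi.single_eq_of_ne (Ne.symm hl) _
      · intro h0
        exact absurd hk h0
    · rw [Finset.sum_eq_zero]
      · refine hzero k ?_
        rw [Finset.mem_range] at hk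
        omega
      · intro l hl
        refine Pi.single_eq_of_ne ?_ _
        rintro rfl
        exact hk hl
  rw [hsum]
  refine Submodule.sum_mem _ fun k hk => ?_
  have hki : k ≤ i := by
    rw [Finset.mem_range] at hk
    omega
  -- the coordinates
  let D0 : Submodule ℚ (Fin v → ℚ) :=
    { carrier := {x | ∀ b, V.dg b ≠ i - k → x b = 0}
      zero_mem' := fun b _ => rfl
      add_mem' := fun {x y} hx hy b hb => by
        rw [Pi.add_apply, hx b hb, hy b hb, add_zero]
      smul_mem' := fun r x hx b hb => by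
        rw [Pi.smul_apply, hx b hb, smul_zero] }
  have hD0 : ∀ x ∈ D0, ∀ b, x b ≠ 0 → V.dg b = i - k := by
    intro x hx b hb
    by_contra h0
    exact hb (hx b h0)
  have hTT : ∀ σ : Fin k → ν, Fr.cfC σ (t k) ∈ TT D V.z D0 ((i : ℤ) - 2 * j) (Fin k) := by
    intro σ
    set Vk := S.map ((Fr.cfC σ).comp (LinearMap.proj k)) with hVk
    have h1 := Fr.coord_total hD V σ hS (k := k)
    have h2 : ∀ z ∈ cxX Vk, opD (Fin k) (Fin v) D z + opW (Fin k) B V.z z ∈ cxX Vk := by
      have h3 : cxX Vk ≤ (cxX Vk).comap (opD (Fin k) (Fin v) D + opW (Fin k) B V.z) := by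
        refine cxX_le fun s hs => ?_
        refine (Submodule.span_le.2 ?_) (h1 s hs)
        rintro z ⟨hz, n, -, hzn⟩
        change opD (Fin k) (Fin v) D z + opW (Fin k) B V.z z ∈ cxX Vk
        rw [hzn]
        exact Submodule.smul_mem _ _ hz
      exact fun z hz => h3 hz
    have h3 := hInd k Vk h2
    have h4 : HLC D V.z D0 ((i : ℤ) - 2 * j) Vk := by
      refine HLC_of_total h.dd ?_ h1 h3
      rintro _ ⟨s, hs, rfl⟩ I b hb
      change s k (fun l => Fr.s (σ l) (Pi.single (I l) 1)) b = 0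
      by_contra h0
      have := hdeg s hs k _ b h0
      omega
    exact le_TT h hcore hMS V.decomp V.real k (Fin k) (Fintype.card_fin k) Vk h4
      (Submodule.mem_map_of_mem (f := (Fr.cfC σ).comp (LinearMap.proj k)) ht)
  -- the functions
  let PF : (Fin k → ν) → (((Fin k → B) × Fin v → ℚ) →ₗ[ℚ] ((Fin k → W) → Fin v → ℚ)) :=
    fun σ => { toFun := fun g w c => Fr.pf σ (sl c g) w
               map_add' := fun g g' => by
                funext w c
                rw [map_add, map_add]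
                rfl
               map_smul' := fun r g => by
                funext w c
                rw [map_smul, map_smul]
                rfl }
  have hexp : (fun w => t k w) = ∑ σ, PF σ (Fr.cfC σ (t k)) := by
    funext w c
    rw [Finset.sum_apply, Finset.sum_apply]
    have h1 := Fr.expand (cmp c (t k)) w
    rw [cmp_apply] at h1
    rw [h1]
    rfl
  let Al : ((Fin k → W) → Fin v → ℚ) →ₗ[ℚ] ((Fin k → W) → Fin v → ℚ) :=
    { toFun := fun G w c => altFun (R := ℚ) (fun w => G w c) w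
      map_add' := fun G G' => by
        funext w c
        have h1 : (fun w => (G + G') w c) = (fun w => G w c) + fun w => G' w c := rfl
        rw [h1, map_add]
        rfl
      map_smul' := fun r G => by
        funext w c
        have h1 : (fun w => (r • G) w c) = r • fun w => G w c := rfl
        rw [h1, map_smul]
        rfl }
  have hAl : Al (fun w => t k w) = ((k.factorial : ℕ) : ℚ) • fun w => t k w := by
    funext w c
    change altFun (R := ℚ) (fun w => cmp c (t k) w) w = _
    rw [altFun_alt, Fintype.card_fin]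
    rfl
  let KK : (W [⋀^Fin k]→ₗ[ℚ] (Fin v → ℚ)) →ₗ[ℚ] ((Fin k → W) → Fin v → ℚ) :=
    { toFun := fun g w => g w
      map_add' := fun _ _ => rfl
      map_smul' := fun _ _ => rfl }
  have hKKinj : Function.Injective KK := fun g g' h => AlternatingMap.ext fun v => congrFun h v
  let Sg : (W [⋀^Fin k]→ₗ[ℚ] (Fin v → ℚ)) →ₗ[ℚ] HAZ W v := LinearMap.single ℚ (fun k : ℕ => W [⋀^Fin k]→ₗ[ℚ] (Fin v → ℚ)) k
  -- the alternation of the functions
  have hgen : ∀ (σ : Fin k → ν) (g : (Fin k → B) × Fin v → ℚ),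
      g ∈ TT D V.z D0 ((i : ℤ) - 2 * j) (Fin k) →
      Al (PF σ g) ∈ ((divConiveau per N j).comap Sg).map KK := by
    intro σ g hg
    have h1 := Submodule.mem_map_of_mem (f := Al.comp (PF σ)) hg
    unfold TT at h1
    rw [Submodule.map_span] at h1
    refine (Submodule.span_le.2 ?_) h1
    rintro _ ⟨_, ⟨r, f, x, hf, hx, rfl⟩, rfl⟩
    have h2 := Fr.pf_mem hD hJ r (Fin k) σ f hf
    obtain ⟨a, ha, ha'⟩ := altFun_SJ h2
    -- the value is in the coniveau filtration
    have hxN : x ∈ N (j - r) := by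
      rw [Fintype.card_fin] at hx
      by_cases hr : r ≤ j
      · refine FL_le_N hN (i - k) (j - r) ?_ hD0 hx
        push_cast [Nat.cast_sub hki, Nat.cast_sub hr]
        ring
      · have h3 : j - r = 0 := by omega
        rw [h3, hN.1]
        exact Submodule.mem_top
    refine ⟨(LinearMap.toSpanSingleton ℚ (Fin v → ℚ) x).compAlternatingMap a, ?_, ?_⟩
    · -- combinations of the generators
      let Cr : (W [⋀^Fin k]→ₗ[ℚ] ℚ) →ₗ[ℚ] HAZ W v :=
        { toFun := fun a => Sg ((LinearMap.toSpanSingleton ℚ (Fin v → ℚ) x).compAlternatingMap a)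
          map_add' := fun a a' => by
            rw [← map_add]
            congr 1
            refine AlternatingMap.ext fun w => ?_
            exact map_add (LinearMap.toSpanSingleton ℚ (Fin v → ℚ) x) (a w) (a' w)
          map_smul' := fun q a => by
            rw [← map_smul]
            congr 1
            refine AlternatingMap.ext fun w => ?_
            exact map_smul (LinearMap.toSpanSingleton ℚ (Fin v → ℚ) x) q (a w) }
      change Cr a ∈ divConiveau per N j
      have h3 := Submodule.mem_map_of_mem (f := Cr) ha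
      rw [Submodule.map_span] at h3
      refine Submodule.span_mono ?_ h3
      rintro _ ⟨a', ha', rfl⟩
      exact ⟨k, r, j - r, a', x, ha', hxN, by omega, rfl⟩
    · funext w c
      change a w * x c = altFun (R := ℚ) (fun w => Fr.pf σ (fun I => f I * x c) w) w
      have h3 : (fun I => f I * x c) = x c • f := by
        funext I
        rw [Pi.smul_apply, smul_eq_mul, mul_comm]
      rw [h3, map_smul]
      have h4 : (fun w => (x c • Fr.pf σ f) w) = x c • Fr.pf σ f := rfl
      rw [h4, map_smul, Pi.smul_apply, smul_eq_mul, ← ha' w, mul_comm]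
  have h1 : ((k.factorial : ℕ) : ℚ) • (fun w => t k w) ∈
      ((divConiveau per N j).comap Sg).map KK := by
    rw [← hAl, hexp, map_sum]
    exact Submodule.sum_mem _ fun σ _ => hgen σ _ (hTT σ)
  have hne : ((k.factorial : ℕ) : ℚ) ≠ 0 := Nat.cast_ne_zero.2 (Nat.factorial_ne_zero _)
  have h2 : (fun w => t k w) ∈ ((divConiveau per N j).comap Sg).map KK := by
    have h3 := Submodule.smul_mem _ (((k.factorial : ℕ) : ℚ))⁻¹ h1
    rwa [smul_smul, inv_mul_cancel₀ hne, one_smul] at h3
  obtain ⟨f', hf', hff⟩ := h2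
  have h3 : f' = t k := hKKinj hff
  rw [← h3]
  exact hf'

end main

end

end Pool.Agent.TH131.GHC
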